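import Pool.Agent.Helper116.AG.Model

set_option autoImplicit false
open Finset
open scoped Classical

noncomputable section

namespace Pool.Agent.Helper116.AG

namespace DT
variable {V : Type}

/-- the set of pairs that are queried -/
def qs : DT V → Orc V → Finset (V × V)
  | leaf _, _ => ∅
  | ask u v k, O => insert (u, v) ((k (O u v)).qs O)

end DT

/-! ## uniform probability and ordered differences -/

/-- probability of an event under the uniform distribution on a finite type -/
def pr {Ω : Type} [Fintype Ω] (P : Ω → Prop) : ℝ :=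
  ((univ.filter fun ω => P ω).card : ℝ) / (Fintype.card Ω : ℝ)

/-- number of ordered pairs on which two oracles differ -/
def odiff {V : Type} [Fintype V] (O O' : Orc V) : ℕ :=
  (univ.filter fun p : V × V => O p.1 p.2 ≠ O' p.1 p.2).card

/-! ## the template -/

/-- labels: `none` is inert, `some (inl j)` is the `j`-th anchor class, the rest are the classes of
the two sides -/
abbrev Lb (l : ℕ) (A B : Type) := Option (Fin (l + 1) ⊕ (A ⊕ B))

structure GoodCode {l : ℕ} {X : Type} (code : X → Fin (l + 1) → Bool) : Prop where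
  inj : Function.Injective code
  top : ∀ x, code x (Fin.last l) = true
  two : ∀ x, ∃ j, j ≠ Fin.last l ∧ code x j = true

/-- adjacency between label classes -/
def tmpl {l : ℕ} {A B : Type} (code : A ⊕ B → Fin (l + 1) → Bool) (g : A → B → ZMod 2) :
    Lb l A B → Lb l A B → Bool
  | none, _ => false
  | some _, none => false
  | some (Sum.inl i), some (Sum.inl j) => decide (i = j)
  | some (Sum.inl i), some (Sum.inr x) => code x i
  | some (Sum.inr x), some (Sum.inl i) => code x i
  | some (Sum.inr (Sum.inl x)), some (Sum.inr (Sum.inr y)) => decide (g x y = 1)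
  | some (Sum.inr (Sum.inr y)), some (Sum.inr (Sum.inl x)) => decide (g x y = 1)
  | some (Sum.inr (Sum.inl _)), some (Sum.inr (Sum.inl _)) => false
  | some (Sum.inr (Sum.inr _)), some (Sum.inr (Sum.inr _)) => false

theorem tmpl_symm {l : ℕ} {A B : Type} (code : A ⊕ B → Fin (l + 1) → Bool) (g : A → B → ZMod 2)
    (a b : Lb l A B) : tmpl code g a b = tmpl code g b a := by
  rcases a with _ | (i | (x | y)) <;> rcases b with _ | (j | (x' | y')) <;>
    simp [tmpl, eq_comm]

/-- the graph of a labelling -/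
def gr {V : Type} {l : ℕ} {A B : Type} (code : A ⊕ B → Fin (l + 1) → Bool) (g : A → B → ZMod 2)
    (lam : V → Lb l A B) : SimpleGraph V where
  Adj u v := u ≠ v ∧ tmpl code g (lam u) (lam v) = true
  symm := ⟨fun u v h => ⟨h.1.symm, by rw [tmpl_symm]; exact h.2⟩⟩
  loopless := ⟨fun u h => h.1 rfl⟩

/-- prescribed sizes of the label classes (all but the inert class) -/
def sz {l : ℕ} {A B : Type} (b a1 a2 : ℕ) : Fin (l + 1) ⊕ (A ⊕ B) → ℕ
  | Sum.inl j => 4 * (j.val + 1) * b
  | Sum.inr (Sum.inl _) => a1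
  | Sum.inr (Sum.inr _) => a2

/-- number of vertices with label `α` -/
def cls {V : Type} [Fintype V] {l : ℕ} {A B : Type} (lam : V → Lb l A B) (α : Lb l A B) : ℕ :=
  (univ.filter fun v => lam v = α).card

def Sized {V : Type} [Fintype V] {l : ℕ} {A B : Type} (b a1 a2 : ℕ) (lam : V → Lb l A B) : Prop :=
  ∀ α : Fin (l + 1) ⊕ (A ⊕ B), cls lam (some α) = sz b a1 a2 α

variable {F R1 R2 : Type}

/-- all blocks have parity `e` -/
def Par [Fintype F] [Add F] (e : ZMod 2) (g : F × R1 → F × R2 → ZMod 2) : Prop :=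
  ∀ (d : F) (r : R1) (s : R2), ∑ h : F, g (h, r) (h + d, s) = e

/-- the property at one scale -/
def Tm {V : Type} [Fintype V] [Fintype F] [Add F] {l : ℕ}
    (code : (F × R1) ⊕ (F × R2) → Fin (l + 1) → Bool) (b a1 a2 : ℕ) : Set (SimpleGraph V) :=
  {G | ∃ (lam : V → Lb l (F × R1) (F × R2)) (g : F × R1 → F × R2 → ZMod 2),
    Sized b a1 a2 lam ∧ Par 0 g ∧ G = gr code g lam}

/-- total mass factor: there are `mu l * b` non-inert vertices -/
def mu (l : ℕ) : ℕ := 2 * (1 + (l + 1) * (l + 2))

/-! ## the tester -/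

/-- estimated degree of `v` lies in the window of anchor `j` -/
def inWin {V : Type} [Fintype V] {l s1 : ℕ} (b : ℕ) (O : Orc V) (D : Fin s1 → V) (v : V)
    (j : Fin (l + 1)) : Prop :=
  (4 * (j.val + 1) * b - b) * s1 ≤ (univ.filter fun i => O v (D i) = true).card * Fintype.card V ∧
  (univ.filter fun i => O v (D i) = true).card * Fintype.card V ≤ (4 * (j.val + 1) * b + 3 * b) * s1

/-- chosen representatives of the anchor classes -/
def rho {V : Type} [Fintype V] {l r s1 : ℕ} (b : ℕ) (O : Orc V) (R : Fin (r + 1) → V)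
    (D : Fin s1 → V) (j : Fin (l + 1)) : V :=
  if h : ∃ k, inWin b O D (R k) j then R (Classical.choose h) else R 0

/-- decoding of a bit pattern -/
def dec {l : ℕ} {A B : Type} (code : A ⊕ B → Fin (l + 1) → Bool) (x : Fin (l + 1) → Bool) :
    Lb l A B :=
  if h : ∃ j, x = fun i => decide (i = j) then some (Sum.inl (Classical.choose h))
  else if h : ∃ y, code y = x then some (Sum.inr (Classical.choose h)) else none

/-- decoded label of `v`, given representatives `ρ` -/
def lab {V : Type} {l : ℕ} {A B : Type} (code : A ⊕ B → Fin (l + 1) → Bool) (O : Orc V)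
    (ρ : Fin (l + 1) → V) (v : V) : Lb l A B :=
  dec code fun j => decide (v = ρ j) || O v (ρ j)

/-- first sample satisfying `P` -/
def fh {V : Type} (P : V → Prop) {n : ℕ} (s : Fin n → V) : Option V :=
  (List.ofFn s).find? fun v => decide (P v)

abbrev Trial (V F R1 R2 : Type) (sA sB : ℕ) :=
  (F × R1 × R2) × (F → Fin sA → V) × (F → Fin sB → V)

/-- first test: class frequencies -/
def T1 {V : Type} [Fintype V] {l : ℕ} {A B : Type} (b a1 a2 : ℕ) (δ : ℝ) (lam : V → Lb l A B)
    {s2 : ℕ} (S : Fin s2 → V) : Prop :=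
  ∀ α : Fin (l + 1) ⊕ (A ⊕ B),
    |((univ.filter fun i => lam (S i) = some α).card : ℝ) * Fintype.card V - s2 * sz b a1 a2 α| ≤
      δ / 2 * (s2 * sz b a1 a2 α)

/-- the pair of labels is of type (side A, side B) or (side B, side A) -/
def isAB {l : ℕ} {A B : Type} : Lb l A B → Lb l A B → Prop
  | some (Sum.inr (Sum.inl _)), some (Sum.inr (Sum.inr _)) => True
  | some (Sum.inr (Sum.inr _)), some (Sum.inr (Sum.inl _)) => True
  | _, _ => False

/-- structural defect at the pair `(u,v)` -/
def mis {V : Type} {l : ℕ} {A B : Type} (code : A ⊕ B → Fin (l + 1) → Bool) (O : Orc V)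
    (lam : V → Lb l A B) (u v : V) : Prop :=
  u ≠ v ∧ ¬ isAB (lam u) (lam v) ∧ O u v ≠ tmpl code (fun _ _ => 0) (lam u) (lam v)

/-- second test: structural defects -/
def T2 {V : Type} {l : ℕ} {A B : Type} (code : A ⊕ B → Fin (l + 1) → Bool) (O : Orc V)
    (lam : V → Lb l A B) {s3 : ℕ} (S : Fin s3 → V × V) : Prop :=
  ∀ i, ¬ mis code O lam (S i).1 (S i).2

/-- bit as an element of `ZMod 2` -/
def b2 (x : Bool) : ZMod 2 := if x then 1 else 0

/-- one parity trial -/
def T3 {V : Type} [Fintype F] [Add F] {l : ℕ} (O : Orc V) (lam : V → Lb l (F × R1) (F × R2))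
    {sA sB : ℕ} (t : Trial V F R1 R2 sA sB) : Prop :=
  ∀ u v : F → V,
    (∀ h, fh (fun x => lam x = some (Sum.inr (Sum.inl (h, t.1.2.1)))) (t.2.1 h) = some (u h)) →
    (∀ h, fh (fun x => lam x = some (Sum.inr (Sum.inr (h + t.1.1, t.1.2.2)))) (t.2.2 h) =
      some (v h)) →
    ∑ h, b2 (O (u h) (v h)) = 0

/-- fraction of adjacent pairs between two side classes -/
def pf {V : Type} [Fintype V] {l : ℕ} {A B : Type} (O : Orc V) (lam : V → Lb l A B) (x : A) (y : B) :
    ℝ :=
  ((univ.filter fun p : V × V => lam p.1 = some (Sum.inr (Sum.inl x)) ∧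
      lam p.2 = some (Sum.inr (Sum.inr y)) ∧ O p.1 p.2 = true).card : ℝ) /
    (cls lam (some (Sum.inr (Sum.inl x))) * cls lam (some (Sum.inr (Sum.inr y))))

/-- rejection probability of a parity trial for block `(d,r,s)` -/
def rej {V : Type} [Fintype V] [Fintype F] [Add F] {l : ℕ} (O : Orc V)
    (lam : V → Lb l (F × R1) (F × R2)) (β : F × R1 × R2) : ℝ :=
  (1 - ∏ h : F, (1 - 2 * pf O lam (h, β.2.1) (h + β.1, β.2.2))) / 2

end Pool.Agent.Helper116.AG
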