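import Pool.Agent.Helper116.AG.Defs

set_option autoImplicit false
open Finset
open scoped Classical

noncomputable section

namespace Pool.Agent.Helper116.AG

/-- the queried pairs `Q` see a full block -/
def Full {V : Type} {F R1 R2 : Type} [Add F] {l : ℕ} (lam : V → Lb l (F × R1) (F × R2))
    (Q : Finset (V × V)) : Prop :=
  ∃ (d : F) (r : R1) (s : R2), ∀ h : F, ∃ p ∈ Q,
    (lam p.1 = some (Sum.inr (Sum.inl (h, r))) ∧ lam p.2 = some (Sum.inr (Sum.inr (h + d, s)))) ∨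
    (lam p.2 = some (Sum.inr (Sum.inl (h, r))) ∧ lam p.1 = some (Sum.inr (Sum.inr (h + d, s))))

abbrev Omega (V F R1 R2 : Type) (r s1 s2 s3 t3 sA sB : ℕ) :=
  ((Fin (r + 1) → V) × (Fin s1 → V)) ×
    ((Fin s2 → V) × (Fin s3 → V × V) × (Fin t3 → Trial V F R1 R2 sA sB))

/-- the decision of the tester -/
def acc {V F R1 R2 : Type} [Fintype V] [Fintype F] [Add F] {l r s1 s2 s3 t3 sA sB : ℕ}
    (code : (F × R1) ⊕ (F × R2) → Fin (l + 1) → Bool) (b a1 a2 : ℕ) (δ : ℝ)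
    (ω : Omega V F R1 R2 r s1 s2 s3 t3 sA sB) (O : Orc V) : Prop :=
  T1 b a1 a2 δ (lab code O (rho b O ω.1.1 ω.1.2)) ω.2.1 ∧
  T2 code O (lab code O (rho b O ω.1.1 ω.1.2)) ω.2.2.1 ∧
  ∀ i, T3 O (lab code O (rho b O ω.1.1 ω.1.2)) (ω.2.2.2 i)

end Pool.Agent.Helper116.AG
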