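import Pool.Agent.Helper116.AG.Defs
set_option autoImplicit false
open Finset
open scoped Classical
noncomputable section
namespace Pool.Agent.Helper116.AG

/-! F1 -/
theorem exists_code {X : Type} [Fintype X] (l : ℕ) (h : Fintype.card X + 1 ≤ 2 ^ l) :
    ∃ code : X → Fin (l + 1) → Bool, GoodCode code := by
  -- vectors: last bit true, lower l bits a nonzero vector
  have h0 : Fintype.card {s : Fin l → Bool // s ≠ fun _ => false} = 2 ^ l - 1 := by
    rw [Fintype.card_subtype_compl]
    simp
  have h1 : Fintype.card X ≤ Fintype.card {s : Fin l → Bool // s ≠ fun _ => false} := by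
    rw [h0]; omega
  obtain ⟨e⟩ := Function.Embedding.nonempty_of_card_le h1
  refine ⟨fun x => Fin.snoc (α := fun _ => Bool) (e x).1 true, ?_, ?_, ?_⟩
  · intro x y hxy
    apply e.injective
    apply Subtype.ext
    have := congrArg (fun f => Fin.init f) hxy
    simpa [Fin.init_snoc] using this
  · intro x
    simp
  · intro x
    have hx := (e x).2
    have : ∃ j : Fin l, (e x).1 j = true := by
      by_contra hcon
      push_neg at hcon
      apply hx
      funext j
      simpa using hcon j
    obtain ⟨j, hj⟩ := this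
    refine ⟨j.castSucc, ?_, ?_⟩
    · exact (Fin.castSucc_lt_last j).ne
    · simp only [Fin.snoc_castSucc]
      exact hj

/-! F2 -/
theorem sum_sz {l : ℕ} {A B : Type} [Fintype A] [Fintype B] (b a1 a2 : ℕ)
    (h1 : a1 * Fintype.card A = b) (h2 : a2 * Fintype.card B = b) :
    ∑ α : Fin (l + 1) ⊕ (A ⊕ B), sz b a1 a2 α = mu l * b := by
  rw [Fintype.sum_sum_type, Fintype.sum_sum_type]
  have e1 : ∑ x : Fin (l + 1), sz (l := l) (A := A) (B := B) b a1 a2 (Sum.inl x) =
      2 * (l + 1) * (l + 2) * b := by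
    simp only [sz]
    rw [← Finset.sum_mul, ← Finset.mul_sum]
    have : ∑ i : Fin (l + 1), (i.val + 1) = ∑ i ∈ Finset.range (l + 1), (i + 1) := by
      rw [Finset.sum_range]
    rw [this]
    have h3 : (∑ i ∈ Finset.range (l + 1), (i + 1)) * 2 = (l + 1) * (l + 2) := by
      have := Finset.sum_range_id_mul_two (l + 2)
      rw [Finset.sum_range_succ'] at this
      simp at this
      rw [this]; ring
    calc 4 * (∑ i ∈ Finset.range (l + 1), (i + 1)) * b
        = 2 * ((∑ i ∈ Finset.range (l + 1), (i + 1)) * 2) * b := by ring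
      _ = _ := by rw [h3]; ring
  have e2 : ∑ x : A, sz (l := l) (A := A) (B := B) b a1 a2 (Sum.inr (Sum.inl x)) = b := by
    simp only [sz, Finset.sum_const, Finset.card_univ, smul_eq_mul]
    rw [mul_comm]; exact h1
  have e3 : ∑ x : B, sz (l := l) (A := A) (B := B) b a1 a2 (Sum.inr (Sum.inr x)) = b := by
    simp only [sz, Finset.sum_const, Finset.card_univ, smul_eq_mul]
    rw [mul_comm]; exact h2
  rw [e1, e2, e3, mu]; ring

/-! F3 -/
theorem Tm_iso {N : ℕ} {F R1 R2 : Type} [Fintype F] [Add F] {l : ℕ}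
    (code : (F × R1) ⊕ (F × R2) → Fin (l + 1) → Bool) (b a1 a2 : ℕ)
    (G H : SimpleGraph (Fin N)) (e : G ≃g H)
    (hG : G ∈ (Tm code b a1 a2 : Set (SimpleGraph (Fin N)))) :
    H ∈ (Tm code b a1 a2 : Set (SimpleGraph (Fin N))) := by
  obtain ⟨lam, g, hs, hg, rfl⟩ := hG
  refine ⟨lam ∘ e.symm, g, ?_, hg, ?_⟩
  · intro α
    rw [← hs α]
    unfold cls
    apply Finset.card_bij (fun v _ => e.symm v)
    · intro v hv
      simpa using hv
    · intro v _ w _ h
      exact e.symm.injective h
    · intro v hv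
      exact ⟨e v, by simpa using hv, by simp⟩
  · ext u v
    have := e.symm.map_rel_iff (a := u) (b := v)
    rw [← this]
    simp only [gr, Function.comp, ne_eq]
    have hinj : e.symm u = e.symm v ↔ u = v := e.symm.injective.eq_iff
    exact and_congr (not_congr hinj) Iff.rfl

/-! F4 -/
theorem Tm_sparse {N : ℕ} {F R1 R2 : Type} [Fintype F] [AddGroup F] [Fintype R1] [Fintype R2]
    {l : ℕ} (code : (F × R1) ⊕ (F × R2) → Fin (l + 1) → Bool) (b a1 a2 : ℕ)
    (h1 : a1 * (Fintype.card F * Fintype.card R1) = b)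
    (h2 : a2 * (Fintype.card F * Fintype.card R2) = b)
    (H : SimpleGraph (Fin N)) (hH : H ∈ (Tm code b a1 a2 : Set (SimpleGraph (Fin N)))) :
    (diff H ⊥ : ℝ) ≤ ((mu l * b : ℕ) : ℝ) ^ 2 / 2 := by
  obtain ⟨lam, g, hs, hg, rfl⟩ := hH
  set X : Finset (Fin N) := univ.filter fun v => lam v ≠ none with hX
  have hXc : X.card = mu l * b := by
    rw [← sum_sz (l := l) (A := F × R1) (B := F × R2) b a1 a2
      (by rw [Fintype.card_prod]; exact h1) (by rw [Fintype.card_prod]; exact h2)]
    rw [hX]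
    have : (univ.filter fun v => lam v ≠ none) =
        (univ : Finset (Fin (l + 1) ⊕ ((F × R1) ⊕ (F × R2)))).biUnion
          fun α => univ.filter fun v => lam v = some α := by
      ext v
      simp only [mem_filter, mem_univ, true_and, mem_biUnion]
      rw [ne_eq, ← ne_eq, Option.ne_none_iff_exists']
    rw [this, Finset.card_biUnion]
    · apply Finset.sum_congr rfl
      intro α _
      have h9 := hs α
      unfold cls at h9
      convert h9
    · intro α _ β _ hαβ
      rw [Function.onFun, Finset.disjoint_left]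
      intro v hv hv'
      simp only [mem_filter, mem_univ, true_and] at hv hv'
      rw [hv] at hv'
      exact hαβ (Option.some.inj hv')
  set E : Finset (Fin N × Fin N) := univ.filter fun p : Fin N × Fin N =>
    p.1 < p.2 ∧ ¬ ((gr code g lam).Adj p.1 p.2 ↔ (⊥ : SimpleGraph (Fin N)).Adj p.1 p.2) with hE
  have hEX : ∀ p ∈ E, p.1 ∈ X ∧ p.2 ∈ X ∧ p.1 < p.2 := by
    intro p hp
    rw [hE, mem_filter] at hp
    obtain ⟨-, hlt, hadj⟩ := hp
    have h3 : (gr code g lam).Adj p.1 p.2 := by
      by_contra hcon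
      apply hadj
      simp [hcon]
    have h4 : tmpl code g (lam p.1) (lam p.2) = true := h3.2
    refine ⟨?_, ?_, hlt⟩
    · rw [hX, mem_filter]
      refine ⟨mem_univ _, ?_⟩
      intro h5
      rw [h5] at h4
      simp [tmpl] at h4
    · rw [hX, mem_filter]
      refine ⟨mem_univ _, ?_⟩
      intro h5
      rw [tmpl_symm, h5] at h4
      simp [tmpl] at h4
  have h5 : 2 * E.card ≤ (X ×ˢ X).card := by
    have hdisj : Disjoint E (E.image Prod.swap) := by
      rw [Finset.disjoint_left]
      intro p hp hp'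
      rw [mem_image] at hp'
      obtain ⟨q, hq, rfl⟩ := hp'
      have := (hEX q hq).2.2
      have := (hEX _ hp).2.2
      simp at this
      omega
    have hsub : E ∪ E.image Prod.swap ⊆ X ×ˢ X := by
      intro p hp
      rw [mem_union] at hp
      rw [mem_product]
      rcases hp with hp | hp
      · exact ⟨(hEX p hp).1, (hEX p hp).2.1⟩
      · rw [mem_image] at hp
        obtain ⟨q, hq, rfl⟩ := hp
        exact ⟨(hEX q hq).2.1, (hEX q hq).1⟩
    have := Finset.card_le_card hsub
    rw [Finset.card_union_of_disjoint hdisj, Finset.card_image_of_injective _ Prod.swap_injective] at this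
    omega
  rw [card_product, hXc] at h5
  have h6 : (diff (gr code g lam) ⊥ : ℝ) = (E.card : ℝ) := by
    rw [hE]
    unfold diff
    congr 2
    ext p
    simp only [mem_filter]
  rw [h6]
  have h7 : (2 * E.card : ℝ) ≤ ((mu l * b : ℕ) : ℝ) * ((mu l * b : ℕ) : ℝ) := by
    exact_mod_cast h5
  nlinarith

/-! F5 -/
theorem ATest.mono {N : ℕ} {S : Set (SimpleGraph (Fin N))} {ε : ℝ} {q q' : ℕ} (h : ATest S ε q)
    (hq : q ≤ q') : ATest S ε q' := by
  obtain ⟨Ω, i, p, T, h0, h1, h2, h3, h4⟩ := h
  exact ⟨Ω, i, p, T, h0, h1, fun ω => (h2 ω).trans hq, h3, h4⟩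

theorem NTest.mono {N : ℕ} {S : Set (SimpleGraph (Fin N))} {ε : ℝ} {q q' : ℕ} (h : NTest S ε q)
    (hq : q ≤ q') : NTest S ε q' := by
  obtain ⟨Ω, i, p, Q, D, h0, h1, h2, h3, h4, h5⟩ := h
  exact ⟨Ω, i, p, Q, D, h0, h1, fun ω => (h2 ω).trans hq, h3, h4, h5⟩

theorem test_univ {N : ℕ} (ε : ℝ) (hε : 0 < ε) :
    ATest (Set.univ : Set (SimpleGraph (Fin N))) ε 0 ∧
    NTest (Set.univ : Set (SimpleGraph (Fin N))) ε 0 := by
  have h : ∀ G : SimpleGraph (Fin N), ¬ Far (Set.univ) ε G := by
    intro G hG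
    have h1 := hG G (Set.mem_univ _)
    have h2 : diff G G = 0 := by simp [diff]
    rw [h2] at h1
    have : 0 ≤ ε * (N : ℝ) ^ 2 := by positivity
    simp at h1
    linarith
  constructor
  · refine ⟨Unit, inferInstance, fun _ => 1, fun _ => DT.leaf true, fun _ => zero_le_one,
      by simp, fun _ => by simp [DT.depth], fun G _ => ?_, fun G hG => absurd hG (h G)⟩
    simp [DT.run]; norm_num
  · refine ⟨Unit, inferInstance, fun _ => 1, fun _ => ∅, fun _ _ => true, fun _ => zero_le_one,
      by simp, fun _ => by simp, fun _ _ _ _ => rfl, fun G _ => ?_, fun G hG => absurd hG (h G)⟩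
    simp; norm_num

end Pool.Agent.Helper116.AG
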