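import Pool.Agent.Helper116.AG.Defs2

set_option autoImplicit false
open Finset
open scoped Classical

noncomputable section

namespace Pool.Agent.Helper116.AG


theorem even_round {F : Type} [Fintype F] (p : F → ℝ) (hp : ∀ h, 0 ≤ p h ∧ p h ≤ 1) :
    ∃ e : F → ZMod 2, ∑ h, e h = 0 ∧
      ∑ h, |p h - (if e h = 1 then 1 else 0)| ≤
        4 * Fintype.card F * ((1 - ∏ h, (1 - 2 * p h)) / 2) := by
  set r : ℝ := (1 - ∏ h, (1 - 2 * p h)) / 2 with hr
  have habs1 : ∀ h, |1 - 2 * p h| ≤ 1 := by
    intro h
    rw [abs_le]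
    constructor <;> linarith [(hp h).1, (hp h).2]
  have hP : |∏ h, (1 - 2 * p h)| = ∏ h, |1 - 2 * p h| := Finset.abs_prod _ _
  have hK : (0 : ℝ) ≤ Fintype.card F := Nat.cast_nonneg _
  by_cases hbig : 1 / 4 ≤ r
  · refine ⟨fun _ => 0, by simp, ?_⟩
    have h1 : ∀ h ∈ (univ : Finset F), |p h - (if (0 : ZMod 2) = 1 then 1 else 0)| ≤ 1 := by
      intro h _
      rw [if_neg (by decide), sub_zero, abs_of_nonneg (hp h).1]
      exact (hp h).2
    refine (Finset.sum_le_card_nsmul _ _ _ h1).trans ?_
    rw [nsmul_eq_mul, mul_one, Finset.card_univ]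
    nlinarith
  · push Not at hbig
    have hprod : ∏ h, (1 - 2 * p h) = 1 - 2 * r := by rw [hr]; ring
    have hr0 : 0 ≤ r := by
      have : |∏ h, (1 - 2 * p h)| ≤ 1 := by
        rw [hP]
        exact Finset.prod_le_one (fun h _ => abs_nonneg _) (fun h _ => habs1 h)
      have := (abs_le.mp this).2
      rw [hprod] at this
      linarith
    have hge : ∀ h, 1 - 2 * r ≤ |1 - 2 * p h| := by
      intro h
      have h1 : 1 - 2 * r ≤ ∏ h, |1 - 2 * p h| := by
        rw [← hP, hprod]
        exact le_abs_self _
      refine h1.trans ?_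
      rw [← Finset.mul_prod_erase univ _ (Finset.mem_univ h)]
      exact mul_le_of_le_one_right (abs_nonneg _)
        (Finset.prod_le_one (fun h _ => abs_nonneg _) (fun h _ => habs1 h))
    have hne : ∀ h, 1 - 2 * p h ≠ 0 := by
      intro h h0
      have := hge h
      rw [h0, abs_zero] at this
      linarith
    refine ⟨fun h => if 1 / 2 < p h then 1 else 0, ?_, ?_⟩
    · have h1 : ∏ h, (1 - 2 * p h) = (-1) ^ (univ.filter fun h => 1 / 2 < p h).card *
          ∏ h, |1 - 2 * p h| := by
        have h2 : ∀ h, 1 - 2 * p h = (if 1 / 2 < p h then (-1 : ℝ) else 1) * |1 - 2 * p h| := by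
          intro h
          split_ifs with hc
          · rw [abs_of_neg (by linarith)]; ring
          · rw [abs_of_nonneg (by linarith), one_mul]
        conv_lhs => rw [Finset.prod_congr rfl fun h _ => h2 h]
        rw [Finset.prod_mul_distrib, Finset.prod_ite, Finset.prod_const, Finset.prod_const_one,
          mul_one]
      have h3 : 0 < ∏ h, |1 - 2 * p h| := Finset.prod_pos fun h _ => abs_pos.mpr (hne h)
      have h4 : 0 < ∏ h, (1 - 2 * p h) := by rw [hprod]; linarith
      rw [Finset.sum_ite, Finset.sum_const, Finset.sum_const_zero, add_zero, nsmul_eq_mul, mul_one]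
      rcases Nat.even_or_odd (univ.filter fun h => 1 / 2 < p h).card with he | ho
      · exact (ZMod.natCast_eq_zero_iff_even).mpr he
      · exfalso
        rw [h1, ho.neg_one_pow] at h4
        linarith
    · have h5 : ∀ h ∈ (univ : Finset F), |p h - (if (if 1 / 2 < p h then (1 : ZMod 2) else 0) = 1
          then 1 else 0)| ≤ 4 * r := by
        intro h _
        have h6 := hge h
        by_cases hc : 1 / 2 < p h
        · rw [if_pos hc, if_pos rfl]
          rw [abs_of_neg (show 1 - 2 * p h < 0 by linarith)] at h6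
          rw [abs_of_nonpos (by linarith [(hp h).2])]
          linarith
        · rw [if_neg hc, if_neg (by decide), sub_zero, abs_of_nonneg (hp h).1]
          rw [abs_of_nonneg (show 0 ≤ 1 - 2 * p h by linarith)] at h6
          linarith
      refine (Finset.sum_le_card_nsmul _ _ _ h5).trans ?_
      rw [nsmul_eq_mul, Finset.card_univ]
      linarith

end Pool.Agent.Helper116.AG
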