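import Pool.Agent.Helper116.AG.Defs2

set_option autoImplicit false
open Finset
open scoped Classical

noncomputable section

namespace Pool.Agent.Helper116.AG


theorem relabel {V : Type} [Fintype V] {X : Type} [Fintype X] (lam : V → Option X) (s : X → ℕ)
    (hs : ∑ x, s x ≤ Fintype.card V) :
    ∃ lam' : V → Option X, (∀ x, (univ.filter fun v => lam' v = some x).card = s x) ∧
      ((univ.filter fun v => lam' v ≠ lam v).card : ℝ) ≤
        ∑ x, |((univ.filter fun v => lam v = some x).card : ℝ) - s x| := by
  set n : X → ℕ := fun x => (univ.filter fun v => lam v = some x).card with hn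
  have hT : ∀ x, ∃ T : Finset V, T ⊆ (univ.filter fun v => lam v = some x) ∧
      T.card = min (n x) (s x) := fun x => by
    obtain ⟨T, h1, h2⟩ := Finset.exists_subset_card_eq (min_le_left (n x) (s x))
    exact ⟨T, h1, h2⟩
  choose T hT1 hT2 using hT
  have hTl : ∀ x v, v ∈ T x → lam v = some x := fun x v hv => (mem_filter.1 (hT1 x hv)).2
  have hdisj : ∀ x ∈ (univ : Finset X), ∀ y ∈ (univ : Finset X), x ≠ y → Disjoint (T x) (T y) := by
    intro x _ y _ hxy
    rw [Finset.disjoint_left]
    intro v h1 h2
    have := (hTl x v h1).symm.trans (hTl y v h2)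
    exact hxy (Option.some.inj this)
  set U : Finset V := univ.biUnion T with hU
  have hUc : U.card = ∑ x, min (n x) (s x) := by
    rw [hU, Finset.card_biUnion hdisj]
    exact Finset.sum_congr rfl fun x _ => hT2 x
  have hUm : ∀ x v, v ∈ T x → v ∈ U := fun x v hv => mem_biUnion.2 ⟨x, mem_univ _, hv⟩
  let d : X → ℕ := fun x => s x - min (n x) (s x)
  have hds : ∑ x, d x + ∑ x, min (n x) (s x) = ∑ x, s x := by
    rw [← Finset.sum_add_distrib]
    apply Finset.sum_congr rfl
    intro x _
    have := min_le_right (n x) (s x)
    simp only [d]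
    omega
  have hcard : Fintype.card (Σ x, Fin (d x)) ≤ Fintype.card {v // v ∈ Uᶜ} := by
    rw [Fintype.card_coe, Finset.card_compl, Fintype.card_sigma]
    simp only [Fintype.card_fin]
    rw [hUc]
    omega
  obtain ⟨j⟩ := Function.Embedding.nonempty_of_card_le hcard
  have hjU : ∀ σ, ((j σ : V)) ∉ U := fun σ => Finset.mem_compl.1 (j σ).2
  have hjinj : ∀ σ τ, (j σ : V) = (j τ : V) → σ = τ := fun σ τ h => j.injective (Subtype.ext h)
  let lam' : V → Option X := fun v => if v ∈ U then lam v else
    if h : ∃ σ, (j σ : V) = v then some (Classical.choose h).1 else none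
  have hl1 : ∀ v ∈ U, lam' v = lam v := by
    intro v hv
    simp only [lam']
    rw [if_pos hv]
  have hl2 : ∀ σ, lam' (j σ : V) = some σ.1 := by
    intro σ
    have h : ∃ τ, (j τ : V) = (j σ : V) := ⟨σ, rfl⟩
    simp only [lam']
    rw [if_neg (hjU σ), dif_pos h]
    have := hjinj _ _ (Classical.choose_spec h)
    rw [this]
  have hl3 : ∀ v, v ∉ U → (¬ ∃ σ, (j σ : V) = v) → lam' v = none := by
    intro v h1 h2
    simp only [lam']
    rw [if_neg h1, dif_neg h2]
  refine ⟨lam', ?_, ?_⟩
  · intro x
    let e : Fin (d x) ↪ V := ⟨fun i => (j ⟨x, i⟩ : V), fun a b h => by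
      have := hjinj _ _ h
      simpa using this⟩
    have heq : (univ.filter fun v => lam' v = some x) = T x ∪ (univ : Finset (Fin (d x))).map e := by
      ext v
      simp only [mem_filter, mem_univ, true_and, mem_union, mem_map]
      constructor
      · intro h
        by_cases hv : v ∈ U
        · left
          obtain ⟨y, _, hy⟩ := mem_biUnion.1 hv
          rw [hl1 v hv, hTl y v hy] at h
          rw [← Option.some.inj h]
          exact hy
        · by_cases hj : ∃ σ, (j σ : V) = v
          · right
            obtain ⟨σ, hσ⟩ := hj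
            rw [← hσ, hl2 σ] at h
            obtain ⟨y, i⟩ := σ
            have hyx : y = x := Option.some.inj h
            subst hyx
            exact ⟨i, hσ⟩
          · rw [hl3 v hv hj] at h
            exact absurd h (by simp)
      · rintro (h | ⟨i, hi⟩)
        · rw [hl1 v (hUm x v h)]
          exact hTl x v h
        · rw [← hi]
          exact hl2 ⟨x, i⟩
    have hd : Disjoint (T x) ((univ : Finset (Fin (d x))).map e) := by
      rw [Finset.disjoint_left]
      intro v h1 h2
      obtain ⟨i, _, hi⟩ := mem_map.1 h2
      apply hjU ⟨x, i⟩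
      have : (j ⟨x, i⟩ : V) = v := hi
      rw [this]
      exact hUm x v h1
    rw [heq, Finset.card_union_of_disjoint hd, Finset.card_map, hT2 x, Finset.card_univ,
      Fintype.card_fin]
    have := min_le_right (n x) (s x)
    simp only [d]
    omega
  · have hsub : (univ.filter fun v => lam' v ≠ lam v) ⊆
        (univ.biUnion fun x => (univ.filter fun v => lam v = some x) \ T x) ∪
        (univ : Finset (Σ x, Fin (d x))).map (j.trans (Function.Embedding.subtype _)) := by
      intro v hv
      rw [mem_filter] at hv
      have hne := hv.2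
      have hvU : v ∉ U := fun h => hne (hl1 v h)
      by_cases hj : ∃ σ, (j σ : V) = v
      · apply mem_union_right
        obtain ⟨σ, hσ⟩ := hj
        exact mem_map.2 ⟨σ, mem_univ _, hσ⟩
      · apply mem_union_left
        rw [hl3 v hvU hj] at hne
        rcases hlv : lam v with _ | x
        · exact absurd hlv.symm hne
        · refine mem_biUnion.2 ⟨x, mem_univ _, ?_⟩
          rw [mem_sdiff, mem_filter]
          exact ⟨⟨mem_univ _, hlv⟩, fun h => hvU (hUm x v h)⟩
    have h1 : (univ.filter fun v => lam' v ≠ lam v).card ≤
        ∑ x, (n x - min (n x) (s x)) + ∑ x, d x := by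
      refine (Finset.card_le_card hsub).trans ((Finset.card_union_le _ _).trans ?_)
      apply add_le_add
      · refine Finset.card_biUnion_le.trans ?_
        apply Finset.sum_le_sum
        intro x _
        rw [Finset.card_sdiff_of_subset (hT1 x), hT2 x]
      · rw [Finset.card_map, Finset.card_univ, Fintype.card_sigma]
        simp only [Fintype.card_fin]
        exact le_rfl
    have h2 : ((univ.filter fun v => lam' v ≠ lam v).card : ℝ) ≤
        ((∑ x, (n x - min (n x) (s x)) + ∑ x, d x : ℕ) : ℝ) := by exact_mod_cast h1
    refine h2.trans ?_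
    rw [← Finset.sum_add_distrib]
    push_cast
    apply Finset.sum_le_sum
    intro x _
    rcases le_total (n x) (s x) with h | h
    · have e1 : n x - min (n x) (s x) = 0 := by rw [min_eq_left h]; simp
      have e2 : d x = s x - n x := by simp only [d]; rw [min_eq_left h]
      rw [e1, e2, Nat.cast_sub h, abs_sub_comm]
      simp only [Nat.cast_zero, zero_add]
      exact le_abs_self _
    · have e1 : d x = 0 := by simp only [d]; rw [min_eq_right h]; simp
      rw [e1, min_eq_right h, Nat.cast_sub h]
      simp only [Nat.cast_zero, add_zero]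
      exact le_abs_self _

end Pool.Agent.Helper116.AG
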