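import Pool.Agent.Helper116.AG.Defs2
import Pool.Agent.Helper116.AG.J8
import Pool.Agent.Helper116.AG.J9

set_option autoImplicit false
open Finset
open scoped Classical

noncomputable section

namespace Pool.Agent.Helper116.AG







theorem cos_pf_bd {V : Type} [Fintype V] {l : ℕ} {A B : Type} (O : Orc V) (lam : V → Lb l A B)
    (x : A) (y : B) :
    (univ.filter fun p : V × V => lam p.1 = some (Sum.inr (Sum.inl x)) ∧
      lam p.2 = some (Sum.inr (Sum.inr y))).card =
        cls lam (some (Sum.inr (Sum.inl x))) * cls lam (some (Sum.inr (Sum.inr y))) := by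
  unfold cls
  rw [← Finset.card_product]
  congr 1
  ext p
  simp only [Finset.mem_filter, Finset.mem_univ, true_and, Finset.mem_product]

theorem cos_pf_01 {V : Type} [Fintype V] {l : ℕ} {A B : Type} (O : Orc V) (lam : V → Lb l A B)
    (x : A) (y : B) : 0 ≤ pf O lam x y ∧ pf O lam x y ≤ 1 := by
  unfold pf
  constructor
  · positivity
  · apply div_le_one_of_le₀
    · have h := cos_pf_bd O lam x y
      have h2 : (univ.filter fun p : V × V => lam p.1 = some (Sum.inr (Sum.inl x)) ∧
          lam p.2 = some (Sum.inr (Sum.inr y)) ∧ O p.1 p.2 = true).card ≤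
          cls lam (some (Sum.inr (Sum.inl x))) * cls lam (some (Sum.inr (Sum.inr y))) := by
        rw [← h]
        apply Finset.card_le_card
        intro p hp
        simp only [Finset.mem_filter, Finset.mem_univ, true_and] at hp ⊢
        exact ⟨hp.1, hp.2.1⟩
      exact_mod_cast h2
    · positivity

theorem cos_cell {V : Type} [Fintype V] {l : ℕ} {A B : Type} (O : Orc V) (lam : V → Lb l A B)
    (x : A) (y : B) (e : ZMod 2) :
    ((univ.filter fun p : V × V => lam p.1 = some (Sum.inr (Sum.inl x)) ∧
      lam p.2 = some (Sum.inr (Sum.inr y)) ∧ O p.1 p.2 ≠ decide (e = 1)).card : ℝ) =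
    (cls lam (some (Sum.inr (Sum.inl x))) : ℝ) * cls lam (some (Sum.inr (Sum.inr y))) *
      |pf O lam x y - (if e = 1 then 1 else 0)| := by
  have hP := cos_pf_bd O lam x y
  have h01 := cos_pf_01 O lam x y
  set nn : ℕ := cls lam (some (Sum.inr (Sum.inl x))) * cls lam (some (Sum.inr (Sum.inr y)))
    with hnn
  have hcast : (cls lam (some (Sum.inr (Sum.inl x))) : ℝ) * cls lam (some (Sum.inr (Sum.inr y)))
      = (nn : ℝ) := by rw [hnn]; push_cast; ring
  set tt : ℕ := (univ.filter fun p : V × V => lam p.1 = some (Sum.inr (Sum.inl x)) ∧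
      lam p.2 = some (Sum.inr (Sum.inr y)) ∧ O p.1 p.2 = true).card with htt
  set ff : ℕ := (univ.filter fun p : V × V => lam p.1 = some (Sum.inr (Sum.inl x)) ∧
      lam p.2 = some (Sum.inr (Sum.inr y)) ∧ O p.1 p.2 = false).card with hff
  have hsum : tt + ff = nn := by
    rw [← hP, htt, hff, ← Finset.card_union_of_disjoint]
    · congr 1
      ext p
      simp only [Finset.mem_union, Finset.mem_filter, Finset.mem_univ, true_and]
      constructor
      · rintro (h | h)
        · exact ⟨h.1, h.2.1⟩
        · exact ⟨h.1, h.2.1⟩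
      · intro h
        rcases hO : O p.1 p.2 with _ | _
        · exact Or.inr ⟨h.1, h.2, rfl⟩
        · exact Or.inl ⟨h.1, h.2, rfl⟩
    · rw [Finset.disjoint_left]
      intro p h1 h2
      simp only [Finset.mem_filter, Finset.mem_univ, true_and] at h1 h2
      have h3 := h1.2.2
      rw [h2.2.2] at h3
      exact Bool.false_ne_true h3
  have hpf : pf O lam x y = (tt : ℝ) / nn := by
    unfold pf
    rw [← hcast]
  have htn : (nn : ℝ) * pf O lam x y = tt := by
    rcases Nat.eq_zero_or_pos nn with h0 | h0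
    · have : tt = 0 := by omega
      rw [h0, this]; simp
    · rw [hpf]
      have : (nn : ℝ) ≠ 0 := by positivity
      field_simp
  rw [hcast]
  by_cases he : e = 1
  · rw [if_pos he, abs_sub_comm, abs_of_nonneg (by linarith [h01.2])]
    have hset : (univ.filter fun p : V × V => lam p.1 = some (Sum.inr (Sum.inl x)) ∧
        lam p.2 = some (Sum.inr (Sum.inr y)) ∧ O p.1 p.2 ≠ decide (e = 1)).card = ff := by
      rw [hff]
      congr 1
      ext p
      simp only [Finset.mem_filter, Finset.mem_univ, true_and, he, decide_true, ne_eq,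
        Bool.not_eq_true]
    rw [hset]
    have : (tt : ℝ) + ff = nn := by exact_mod_cast hsum
    rw [mul_sub, mul_one, htn]
    linarith
  · rw [if_neg he, sub_zero, abs_of_nonneg h01.1]
    have hset : (univ.filter fun p : V × V => lam p.1 = some (Sum.inr (Sum.inl x)) ∧
        lam p.2 = some (Sum.inr (Sum.inr y)) ∧ O p.1 p.2 ≠ decide (e = 1)).card = tt := by
      rw [htt]
      congr 1
      ext p
      simp only [Finset.mem_filter, Finset.mem_univ, true_and, he, decide_false, ne_eq,
        Bool.not_eq_false]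
    rw [hset, htn]

theorem cos_cells_sum {F R1 R2 : Type} [Fintype F] [AddGroup F] [Fintype R1] [Fintype R2]
    (f : F × R1 → F × R2 → ℝ) :
    ∑ x : F × R1, ∑ y : F × R2, f x y =
      ∑ β : F × R1 × R2, ∑ h : F, f (h, β.2.1) (h + β.1, β.2.2) := by
  simp only [Fintype.sum_prod_type]
  calc (∑ h : F, ∑ r : R1, ∑ h' : F, ∑ s : R2, f (h, r) (h', s))
      = ∑ h : F, ∑ r : R1, ∑ d : F, ∑ s : R2, f (h, r) (h + d, s) := by
        refine Finset.sum_congr rfl fun h _ => Finset.sum_congr rfl fun r _ => ?_
        exact (Equiv.sum_comp (Equiv.addLeft h) (fun h' => ∑ s, f (h, r) (h', s))).symm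
    _ = ∑ h : F, ∑ d : F, ∑ r : R1, ∑ s : R2, f (h, r) (h + d, s) :=
        Finset.sum_congr rfl fun h _ => Finset.sum_comm
    _ = ∑ d : F, ∑ h : F, ∑ r : R1, ∑ s : R2, f (h, r) (h + d, s) := Finset.sum_comm
    _ = ∑ d : F, ∑ r : R1, ∑ h : F, ∑ s : R2, f (h, r) (h + d, s) :=
        Finset.sum_congr rfl fun d _ => Finset.sum_comm
    _ = ∑ d : F, ∑ r : R1, ∑ s : R2, ∑ h : F, f (h, r) (h + d, s) :=
        Finset.sum_congr rfl fun d _ => Finset.sum_congr rfl fun r _ => Finset.sum_comm

theorem cos_sum_sz {F R1 R2 : Type} [Fintype F] [Fintype R1] [Fintype R2] (l b a1 a2 : ℕ)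
    (h1 : a1 * (Fintype.card F * Fintype.card R1) = b)
    (h2 : a2 * (Fintype.card F * Fintype.card R2) = b) :
    ∑ x : Fin (l + 1) ⊕ ((F × R1) ⊕ (F × R2)), sz b a1 a2 x = mu l * b := by
  rw [Fintype.sum_sum_type, Fintype.sum_sum_type]
  have hg : ∀ n, ∑ j ∈ Finset.range n, 4 * (j + 1) * b = 2 * n * (n + 1) * b := by
    intro n
    induction n with
    | zero => simp
    | succ k ih => rw [Finset.sum_range_succ, ih]; ring
  have e1 : ∑ j : Fin (l + 1), (sz b a1 a2 (Sum.inl j : Fin (l + 1) ⊕ ((F × R1) ⊕ (F × R2))))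
      = 2 * (l + 1) * (l + 1 + 1) * b := by
    rw [← hg (l + 1)]
    exact Fin.sum_univ_eq_sum_range (fun j => 4 * (j + 1) * b) (l + 1)
  have e2 : ∑ x : F × R1, (sz b a1 a2 (Sum.inr (Sum.inl x) : Fin (l + 1) ⊕ ((F × R1) ⊕ (F × R2))))
      = b := by
    show ∑ x : F × R1, a1 = b
    rw [Finset.sum_const, Finset.card_univ, Fintype.card_prod, smul_eq_mul, mul_comm]
    exact h1
  have e3 : ∑ x : F × R2, (sz b a1 a2 (Sum.inr (Sum.inr x) : Fin (l + 1) ⊕ ((F × R1) ⊕ (F × R2))))
      = b := by
    show ∑ x : F × R2, a2 = b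
    rw [Finset.sum_const, Finset.card_univ, Fintype.card_prod, smul_eq_mul, mul_comm]
    exact h2
  rw [e1, e2, e3]
  unfold mu
  ring

theorem cos_tmpl_none_right {l : ℕ} {A B : Type} (code : A ⊕ B → Fin (l + 1) → Bool)
    (g : A → B → ZMod 2) (a : Lb l A B) : tmpl code g a none = false := by
  rcases a with _ | (i | (x | y)) <;> simp [tmpl]

theorem cos_tmpl_none_left {l : ℕ} {A B : Type} (code : A ⊕ B → Fin (l + 1) → Bool)
    (g : A → B → ZMod 2) (a : Lb l A B) : tmpl code g none a = false := by
  simp [tmpl]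

theorem cos_tmpl_nonAB {l : ℕ} {A B : Type} (code : A ⊕ B → Fin (l + 1) → Bool)
    (g : A → B → ZMod 2) (a c : Lb l A B) (h : ¬ isAB a c) :
    tmpl code g a c = tmpl code (fun _ _ => 0) a c := by
  rcases a with _ | (i | (x | y)) <;> rcases c with _ | (j | (x' | y')) <;>
    simp_all [tmpl, isAB]


theorem close_of_small {N : ℕ} {F R1 R2 : Type} [Fintype F] [Nonempty F] [AddGroup F] [Fintype R1]
    [Fintype R2] {l : ℕ} (code : (F × R1) ⊕ (F × R2) → Fin (l + 1) → Bool)
    (b a1 a2 : ℕ) (hb : 1 ≤ b)
    (h1 : a1 * (Fintype.card F * Fintype.card R1) = b)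
    (h2 : a2 * (Fintype.card F * Fintype.card R2) = b) (hN : mu l * b ≤ N)
    (G : SimpleGraph (Fin N)) (lam : Fin N → Lb l (F × R1) (F × R2)) (δ : ℝ) (hδ0 : 0 ≤ δ)
    (hδ : δ ≤ 1 / 4)
    (hcls : ∀ α, |(cls lam (some α) : ℝ) - sz b a1 a2 α| ≤ δ * sz b a1 a2 α) :
    ∃ H ∈ (Tm code b a1 a2 : Set (SimpleGraph (Fin N))),
      (odiff (orc G) (orc H) : ℝ) ≤
        ((univ.filter fun p : Fin N × Fin N => mis code (orc G) lam p.1 p.2).card : ℝ) +
        16 * Fintype.card F * a1 * a2 * ∑ β : F × R1 × R2, rej (orc G) lam β +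
        6 * δ * (mu l * b : ℝ) ^ 2 := by
  set O := orc G with hO
  have hOsymm : ∀ u v, O u v = O v u := by
    intro u v
    rw [hO]
    unfold orc
    rw [decide_eq_decide]
    exact G.adj_comm u v
  have hOloop : ∀ u, O u u = false := by
    intro u
    rw [hO]
    unfold orc
    simp
  -- rounding
  have hround : ∀ β : F × R1 × R2, ∃ e : F → ZMod 2, ∑ h, e h = 0 ∧
      ∑ h, |pf O lam (h, β.2.1) (h + β.1, β.2.2) - (if e h = 1 then 1 else 0)| ≤
        4 * Fintype.card F * rej O lam β := fun β =>
    even_round (fun h => pf O lam (h, β.2.1) (h + β.1, β.2.2))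
      (fun h => cos_pf_01 O lam _ _)
  choose e he0 he1 using hround
  set g : F × R1 → F × R2 → ZMod 2 := fun x y => e (-x.1 + y.1, x.2, y.2) x.1 with hg
  have hgval : ∀ (h d : F) (r : R1) (s : R2), g (h, r) (h + d, s) = e (d, r, s) h := by
    intro h d r s
    rw [hg]
    show e (-h + (h + d), r, s) h = _
    rw [neg_add_cancel_left]
  have hPar : Par 0 g := by
    intro d r s
    rw [← he0 (d, r, s)]
    exact Finset.sum_congr rfl fun h _ => hgval h d r s
  have hcells : ∑ x : F × R1, ∑ y : F × R2, |pf O lam x y - (if g x y = 1 then 1 else 0)| ≤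
      4 * Fintype.card F * ∑ β : F × R1 × R2, rej O lam β := by
    rw [cos_cells_sum, Finset.mul_sum]
    refine Finset.sum_le_sum fun β _ => ?_
    refine le_trans (le_of_eq ?_) (he1 β)
    refine Finset.sum_congr rfl fun h _ => ?_
    rw [hgval]
  -- relabelling
  have hszsum := cos_sum_sz (F := F) (R1 := R1) (R2 := R2) l b a1 a2 h1 h2
  obtain ⟨lam', hlam1_, hlam2_⟩ := relabel (X := Fin (l + 1) ⊕ ((F × R1) ⊕ (F × R2))) lam
    (sz b a1 a2) (by rw [hszsum, Fintype.card_fin]; exact hN)
  have hlam1 : ∀ x : Fin (l + 1) ⊕ ((F × R1) ⊕ (F × R2)),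
      (univ.filter fun v => lam' v = some x).card = sz b a1 a2 x := by
    intro x
    rw [← hlam1_ x]
    congr!
  have hlam2 : ((univ.filter fun v => lam' v ≠ lam v).card : ℝ) ≤
      ∑ x, |((univ.filter fun v => lam v = some x).card : ℝ) - sz b a1 a2 x| := by
    convert hlam2_
  have hmub : (∑ x : Fin (l + 1) ⊕ ((F × R1) ⊕ (F × R2)), (sz b a1 a2 x : ℝ)) = (mu l * b : ℝ) := by
    exact_mod_cast hszsum
  set M := univ.filter fun v => lam' v ≠ lam v with hM
  have hMc : (M.card : ℝ) ≤ δ * (mu l * b : ℝ) := by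
    refine hlam2.trans ?_
    rw [← hmub, Finset.mul_sum]
    refine Finset.sum_le_sum fun α _ => ?_
    have h3 := hcls α
    unfold cls at h3
    refine le_trans (le_of_eq ?_) h3
    congr!
  set S := univ.filter fun v => lam v ≠ none ∨ lam' v ≠ none with hS
  have hS1 : (univ.filter fun v => lam' v ≠ none).card ≤ mu l * b := by
    rw [← hszsum]
    calc (univ.filter fun v => lam' v ≠ none).card
        ≤ (univ.biUnion fun x : Fin (l + 1) ⊕ ((F × R1) ⊕ (F × R2)) =>
            univ.filter fun v => lam' v = some x).card := by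
          apply Finset.card_le_card
          intro v hv
          simp only [Finset.mem_filter, Finset.mem_univ, true_and] at hv
          obtain ⟨x, hx⟩ := Option.ne_none_iff_exists'.mp hv
          simp only [Finset.mem_biUnion, Finset.mem_filter, Finset.mem_univ, true_and]
          exact ⟨x, hx⟩
      _ ≤ ∑ x : Fin (l + 1) ⊕ ((F × R1) ⊕ (F × R2)),
            (univ.filter fun v => lam' v = some x).card := Finset.card_biUnion_le
      _ = ∑ x, sz b a1 a2 x := Finset.sum_congr rfl fun x _ => hlam1 x
  have hSc : (S.card : ℝ) ≤ 5 / 4 * (mu l * b : ℝ) := by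
    have h3 : S.card ≤ (univ.filter fun v => lam' v ≠ none).card + M.card := by
      refine le_trans (Finset.card_le_card ?_) (Finset.card_union_le _ _)
      intro v hv
      simp only [hS, Finset.mem_filter, Finset.mem_univ, true_and] at hv
      simp only [hM, Finset.mem_union, Finset.mem_filter, Finset.mem_univ, true_and]
      by_cases hvn : lam' v = none
      · right
        rcases hv with hv | hv
        · rw [hvn]; exact fun h => hv h.symm
        · exact absurd hvn hv
      · exact Or.inl hvn
    have h4 : (S.card : ℝ) ≤ (mu l * b : ℝ) + M.card := by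
      have : S.card ≤ mu l * b + M.card := h3.trans (Nat.add_le_add_right hS1 _)
      exact_mod_cast this
    have h5 : (0 : ℝ) ≤ mu l * b := by positivity
    nlinarith
  refine ⟨gr code g lam', ⟨lam', g, fun α => by
    rw [← hlam1 α]
    unfold cls
    congr!, hPar, rfl⟩, ?_⟩
  -- the sets
  set Mis := univ.filter fun p : Fin N × Fin N => mis code O lam p.1 p.2 with hMis
  set cell : (F × R1) → (F × R2) → Finset (Fin N × Fin N) := fun x y =>
    univ.filter fun p : Fin N × Fin N => lam p.1 = some (Sum.inr (Sum.inl x)) ∧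
      lam p.2 = some (Sum.inr (Sum.inr y)) ∧ O p.1 p.2 ≠ decide (g x y = 1) with hcell
  set SAB := (univ : Finset ((F × R1) × (F × R2))).biUnion fun xy => cell xy.1 xy.2 with hSAB
  set SBA := SAB.image Prod.swap with hSBA
  have hSABc : (SAB.card : ℝ) ≤ 2 * a1 * a2 * (4 * Fintype.card F * ∑ β : F × R1 × R2,
      rej O lam β) := by
    have h3 : (SAB.card : ℝ) ≤ ∑ x : F × R1, ∑ y : F × R2, ((cell x y).card : ℝ) := by
      have h4 : SAB.card ≤ ∑ xy : (F × R1) × (F × R2), (cell xy.1 xy.2).card :=
        Finset.card_biUnion_le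
      rw [Fintype.sum_prod_type] at h4
      exact_mod_cast h4
    refine h3.trans ?_
    have h5 : ∀ x y, ((cell x y).card : ℝ) ≤
        2 * a1 * a2 * |pf O lam x y - (if g x y = 1 then 1 else 0)| := by
      intro x y
      have hcc : ((cell x y).card : ℝ) = (cls lam (some (Sum.inr (Sum.inl x))) : ℝ) *
          cls lam (some (Sum.inr (Sum.inr y))) * |pf O lam x y - (if g x y = 1 then 1 else 0)| := by
        rw [← cos_cell O lam x y (g x y)]
        first
          | rfl
          | (simp only [hcell]; done)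
          | (simp only [hcell]; congr!; done)
      rw [hcc]
      apply mul_le_mul_of_nonneg_right _ (abs_nonneg _)
      have k1 := (abs_le.mp (hcls (Sum.inr (Sum.inl x)))).2
      have k2 := (abs_le.mp (hcls (Sum.inr (Sum.inr y)))).2
      have k3 : (sz b a1 a2 (Sum.inr (Sum.inl x) : Fin (l + 1) ⊕ ((F × R1) ⊕ (F × R2))) : ℝ) = a1 :=
        rfl
      have k4 : (sz b a1 a2 (Sum.inr (Sum.inr y) : Fin (l + 1) ⊕ ((F × R1) ⊕ (F × R2))) : ℝ) = a2 :=
        rfl
      rw [k3] at k1
      rw [k4] at k2
      have k5 : (0 : ℝ) ≤ a1 := by positivity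
      have k6 : (0 : ℝ) ≤ a2 := by positivity
      have k7 : (cls lam (some (Sum.inr (Sum.inl x))) : ℝ) ≤ 5 / 4 * a1 := by nlinarith
      have k8 : (cls lam (some (Sum.inr (Sum.inr y))) : ℝ) ≤ 5 / 4 * a2 := by nlinarith
      have k9 : (0 : ℝ) ≤ (cls lam (some (Sum.inr (Sum.inr y))) : ℝ) := by positivity
      calc (cls lam (some (Sum.inr (Sum.inl x))) : ℝ) * cls lam (some (Sum.inr (Sum.inr y)))
          ≤ (5 / 4 * a1) * (5 / 4 * a2) := mul_le_mul k7 k8 k9 (by positivity)
        _ ≤ 2 * a1 * a2 := by
          have : (0 : ℝ) ≤ a1 * a2 := by positivity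
          nlinarith
    calc ∑ x : F × R1, ∑ y : F × R2, ((cell x y).card : ℝ)
        ≤ ∑ x : F × R1, ∑ y : F × R2,
            2 * a1 * a2 * |pf O lam x y - (if g x y = 1 then 1 else 0)| :=
          Finset.sum_le_sum fun x _ => Finset.sum_le_sum fun y _ => h5 x y
      _ = 2 * a1 * a2 * ∑ x : F × R1, ∑ y : F × R2,
            |pf O lam x y - (if g x y = 1 then 1 else 0)| := by
          simp only [Finset.mul_sum]
      _ ≤ _ := mul_le_mul_of_nonneg_left hcells (by positivity)
  have hSBAc : SBA.card ≤ SAB.card := Finset.card_image_le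
  have hsub : (univ.filter fun p : Fin N × Fin N => O p.1 p.2 ≠ orc (gr code g lam') p.1 p.2) ⊆
      Mis ∪ (SAB ∪ (SBA ∪ (M ×ˢ S ∪ S ×ˢ M))) := by
    rintro ⟨u, v⟩ hp
    simp only [Finset.mem_filter, Finset.mem_univ, true_and] at hp
    have huv : u ≠ v := by
      rintro rfl
      apply hp
      rw [hOloop]
      unfold orc
      simp
    have hH : orc (gr code g lam') u v = tmpl code g (lam' u) (lam' v) := by
      unfold orc gr
      simp only [huv, ne_eq, not_false_eq_true, true_and, Bool.decide_eq_true]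
    rw [hH] at hp
    by_cases hsame : tmpl code g (lam u) (lam v) = tmpl code g (lam' u) (lam' v)
    · rw [← hsame] at hp
      by_cases hAB : isAB (lam u) (lam v)
      · rcases hu : lam u with _ | (i | (x | y)) <;> rcases hv : lam v with _ | (j | (x' | y')) <;>
          rw [hu, hv] at hAB hp <;> simp only [isAB] at hAB
        · -- A, B
          apply Finset.mem_union_right
          apply Finset.mem_union_left
          rw [hSAB, Finset.mem_biUnion]
          refine ⟨(x, y'), Finset.mem_univ _, ?_⟩
          rw [hcell]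
          simp only [Finset.mem_filter, Finset.mem_univ, true_and]
          exact ⟨hu, hv, hp⟩
        · -- B, A
          apply Finset.mem_union_right
          apply Finset.mem_union_right
          apply Finset.mem_union_left
          rw [hSBA, Finset.mem_image]
          refine ⟨(v, u), ?_, rfl⟩
          rw [hSAB, Finset.mem_biUnion]
          refine ⟨(x', y), Finset.mem_univ _, ?_⟩
          rw [hcell]
          simp only [Finset.mem_filter, Finset.mem_univ, true_and]
          refine ⟨hv, hu, ?_⟩
          rw [hOsymm v u]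
          exact hp
      · apply Finset.mem_union_left
        rw [hMis]
        simp only [Finset.mem_filter, Finset.mem_univ, true_and]
        refine ⟨huv, hAB, ?_⟩
        rw [← cos_tmpl_nonAB code g _ _ hAB]
        exact hp
    · apply Finset.mem_union_right
      apply Finset.mem_union_right
      apply Finset.mem_union_right
      have hu : u ∈ S := by
        rw [hS]
        simp only [Finset.mem_filter, Finset.mem_univ, true_and]
        by_contra hcon
        push Not at hcon
        apply hsame
        rw [hcon.1, hcon.2, cos_tmpl_none_left, cos_tmpl_none_left]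
      have hv : v ∈ S := by
        rw [hS]
        simp only [Finset.mem_filter, Finset.mem_univ, true_and]
        by_contra hcon
        push Not at hcon
        apply hsame
        rw [hcon.1, hcon.2, cos_tmpl_none_right, cos_tmpl_none_right]
      by_cases hMu : u ∈ M
      · exact Finset.mem_union_left _ (Finset.mem_product.mpr ⟨hMu, hv⟩)
      · have hMv : v ∈ M := by
          by_contra hMv
          rw [hM] at hMu hMv
          simp only [Finset.mem_filter, Finset.mem_univ, true_and, not_not] at hMu hMv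
          apply hsame
          rw [hMu, hMv]
        exact Finset.mem_union_right _ (Finset.mem_product.mpr ⟨hu, hMv⟩)
  have hcard : (odiff O (orc (gr code g lam')) : ℝ) ≤
      Mis.card + (SAB.card + (SBA.card + (M.card * S.card + S.card * M.card))) := by
    have h3 : odiff O (orc (gr code g lam')) ≤
        Mis.card + (SAB.card + (SBA.card + (M.card * S.card + S.card * M.card))) := by
      unfold odiff
      refine (Finset.card_le_card hsub).trans ?_
      refine (Finset.card_union_le _ _).trans (Nat.add_le_add_left ?_ _)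
      refine (Finset.card_union_le _ _).trans (Nat.add_le_add_left ?_ _)
      refine (Finset.card_union_le _ _).trans (Nat.add_le_add_left ?_ _)
      refine (Finset.card_union_le _ _).trans ?_
      rw [Finset.card_product, Finset.card_product]
    exact_mod_cast h3
  have hSBAc' : (SBA.card : ℝ) ≤ SAB.card := by exact_mod_cast hSBAc
  have hMS : (M.card : ℝ) * S.card ≤ (δ * (mu l * b : ℝ)) * (5 / 4 * (mu l * b : ℝ)) :=
    mul_le_mul hMc hSc (by positivity) (by positivity)
  have hfin : 2 * ((δ * (mu l * b : ℝ)) * (5 / 4 * (mu l * b : ℝ))) ≤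
      6 * δ * (mu l * b : ℝ) ^ 2 := by
    have : (0 : ℝ) ≤ δ * (mu l * b : ℝ) ^ 2 := by positivity
    nlinarith
  have hlast : 2 * (2 * a1 * a2 * (4 * Fintype.card F * ∑ β : F × R1 × R2, rej O lam β))
      = 16 * Fintype.card F * a1 * a2 * ∑ β : F × R1 × R2, rej O lam β := by ring
  calc (odiff O (orc (gr code g lam')) : ℝ)
      ≤ Mis.card + (SAB.card + (SBA.card + (M.card * S.card + S.card * M.card))) := hcard
    _ ≤ (Mis.card : ℝ) + 16 * Fintype.card F * a1 * a2 * ∑ β : F × R1 × R2, rej O lam β +
        6 * δ * (mu l * b : ℝ) ^ 2 := by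
      have hc : (S.card : ℝ) * M.card = M.card * S.card := mul_comm _ _
      rw [hc]
      linarith


end Pool.Agent.Helper116.AG
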