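import Pool.Agent.Helper116.AG.Defs2

set_option autoImplicit false
open Finset
open scoped Classical

noncomputable section

namespace Pool.Agent.Helper116.AG


theorem chern_mgf {V : Type} [Fintype V] [Nonempty V] (P : V → Prop) (n : ℕ) (t c : ℝ)
    (A : (Fin n → V) → Prop)
    (h : ∀ s, A s → c ≤ t * ((univ.filter fun i => P (s i)).card : ℝ)) :
    pr A ≤ Real.exp (n * (pr P * (Real.exp t - 1)) - c) := by
  have hN : (0 : ℝ) < (Fintype.card V : ℝ) := by exact_mod_cast Fintype.card_pos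
  have hprod : ∀ s : Fin n → V, (∏ i, (if P (s i) then Real.exp t else 1)) =
      Real.exp (t * ((univ.filter fun i => P (s i)).card : ℝ)) := by
    intro s
    rw [Finset.prod_ite, Finset.prod_const, Finset.prod_const_one, mul_one, ← Real.exp_nat_mul,
      mul_comm]
  have hsum : (∑ v : V, (if P v then Real.exp t else 1)) =
      (Fintype.card V : ℝ) * (1 + pr P * (Real.exp t - 1)) := by
    have h1 : ∀ v : V, (if P v then Real.exp t else 1) =
        1 + (if P v then (Real.exp t - 1) else 0) := by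
      intro v; split_ifs <;> ring
    rw [Finset.sum_congr rfl fun v _ => h1 v, Finset.sum_add_distrib, ← Finset.sum_filter]
    simp only [Finset.sum_const, nsmul_eq_mul, Finset.card_univ, mul_one]
    unfold pr
    field_simp
  have hpow := Fintype.sum_pow (fun v : V => (if P v then Real.exp t else (1 : ℝ))) n
  rw [hsum] at hpow
  have hmark : ((univ.filter fun s => A s).card : ℝ) * Real.exp c ≤
      ((Fintype.card V : ℝ) * (1 + pr P * (Real.exp t - 1))) ^ n := by
    rw [hpow, ← nsmul_eq_mul, ← Finset.sum_const]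
    calc ∑ _s ∈ univ.filter (fun s => A s), Real.exp c
        ≤ ∑ s ∈ univ.filter (fun s => A s), ∏ i, (if P (s i) then Real.exp t else 1) := by
          apply Finset.sum_le_sum
          intro s hs
          rw [hprod s]
          exact Real.exp_le_exp.mpr (h s (Finset.mem_filter.mp hs).2)
      _ ≤ ∑ s : Fin n → V, ∏ i, (if P (s i) then Real.exp t else 1) := by
          apply Finset.sum_le_sum_of_subset_of_nonneg (Finset.filter_subset _ _)
          intro s _ _
          rw [hprod s]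
          exact (Real.exp_pos _).le
  have hP0 : 0 ≤ pr P := by unfold pr; positivity
  have hP1 : pr P ≤ 1 := by
    unfold pr
    rw [div_le_one hN]
    exact_mod_cast Finset.card_le_univ _
  have hb0 : 0 ≤ 1 + pr P * (Real.exp t - 1) := by
    nlinarith [Real.exp_pos t]
  have hb : (1 + pr P * (Real.exp t - 1)) ^ n ≤ Real.exp (n * (pr P * (Real.exp t - 1))) := by
    rw [Real.exp_nat_mul]
    apply pow_le_pow_left₀ hb0
    have := Real.add_one_le_exp (pr P * (Real.exp t - 1))
    linarith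
  have hcard : (Fintype.card (Fin n → V) : ℝ) = (Fintype.card V : ℝ) ^ n := by
    rw [Fintype.card_fun, Fintype.card_fin]; push_cast; rfl
  have hfin : pr A * Real.exp c ≤ Real.exp (n * (pr P * (Real.exp t - 1))) := by
    refine le_trans ?_ hb
    unfold pr at hmark ⊢
    rw [hcard, div_mul_eq_mul_div, div_le_iff₀ (pow_pos hN n), mul_comm (_ ^ n) (_ ^ n), ← mul_pow]
    exact hmark
  rw [Real.exp_sub, le_div_iff₀ (Real.exp_pos c)]
  exact hfin

theorem chern_exp_sub {t : ℝ} (h : |t| ≤ 1) : Real.exp t - 1 ≤ t + t ^ 2 := by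
  have := Real.abs_exp_sub_one_sub_id_le h
  have h2 := le_abs_self (Real.exp t - 1 - t)
  linarith

theorem chern_upper {V : Type} [Fintype V] [Nonempty V] (P : V → Prop) (n : ℕ) (pb τ : ℝ)
    (hp : pr P ≤ pb) (hτ : 0 < τ) (hτ2 : τ ≤ 2 * pb) :
    pr (fun s : Fin n → V => (n : ℝ) * (pb + τ) ≤ ((univ.filter fun i => P (s i)).card : ℝ)) ≤
      Real.exp (-(n * τ ^ 2 / (4 * pb))) := by
  have hpb : 0 < pb := by linarith
  have hP0 : 0 ≤ pr P := by unfold pr; positivity
  have ht0 : 0 < τ / (2 * pb) := by positivity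
  have ht1 : τ / (2 * pb) ≤ 1 := by rw [div_le_one (by positivity)]; exact hτ2
  have key := chern_mgf P n (τ / (2 * pb)) (τ / (2 * pb) * ((n : ℝ) * (pb + τ)))
    (fun s : Fin n → V => (n : ℝ) * (pb + τ) ≤ ((univ.filter fun i => P (s i)).card : ℝ))
    (fun s hs => mul_le_mul_of_nonneg_left hs ht0.le)
  refine key.trans (Real.exp_le_exp.mpr ?_)
  have he := chern_exp_sub (t := τ / (2 * pb)) (by rw [abs_of_pos ht0]; exact ht1)
  have h1 : pr P * (Real.exp (τ / (2 * pb)) - 1) ≤ pb * (τ / (2 * pb) + (τ / (2 * pb)) ^ 2) := by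
    calc pr P * (Real.exp (τ / (2 * pb)) - 1)
        ≤ pr P * (τ / (2 * pb) + (τ / (2 * pb)) ^ 2) := mul_le_mul_of_nonneg_left he hP0
      _ ≤ pb * (τ / (2 * pb) + (τ / (2 * pb)) ^ 2) := mul_le_mul_of_nonneg_right hp (by positivity)
  have h2 := mul_le_mul_of_nonneg_left h1 (Nat.cast_nonneg (α := ℝ) n)
  have h3 : (n : ℝ) * (pb * (τ / (2 * pb) + (τ / (2 * pb)) ^ 2)) -
      τ / (2 * pb) * ((n : ℝ) * (pb + τ)) = -(n * τ ^ 2 / (4 * pb)) := by
    field_simp
    ring
  linarith

theorem chern_lower {V : Type} [Fintype V] [Nonempty V] (P : V → Prop) (n : ℕ) (pb p0 τ : ℝ)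
    (hp : pr P ≤ pb) (hp0 : p0 ≤ pr P) (hτ : 0 < τ) (hτ2 : τ ≤ 2 * pb) :
    pr (fun s : Fin n → V => ((univ.filter fun i => P (s i)).card : ℝ) ≤ (n : ℝ) * (p0 - τ)) ≤
      Real.exp (-(n * τ ^ 2 / (4 * pb))) := by
  have hpb : 0 < pb := by linarith
  have hP0 : 0 ≤ pr P := by unfold pr; positivity
  have ht0 : 0 < τ / (2 * pb) := by positivity
  have ht1 : τ / (2 * pb) ≤ 1 := by rw [div_le_one (by positivity)]; exact hτ2
  have key := chern_mgf P n (-(τ / (2 * pb))) (-(τ / (2 * pb)) * ((n : ℝ) * (p0 - τ)))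
    (fun s : Fin n → V => ((univ.filter fun i => P (s i)).card : ℝ) ≤ (n : ℝ) * (p0 - τ))
    (fun s hs => by nlinarith [mul_le_mul_of_nonneg_left hs ht0.le])
  refine key.trans (Real.exp_le_exp.mpr ?_)
  have he := chern_exp_sub (t := -(τ / (2 * pb))) (by rw [abs_neg, abs_of_pos ht0]; exact ht1)
  have h1 : pr P * (Real.exp (-(τ / (2 * pb))) - 1) ≤
      pb * (τ / (2 * pb)) ^ 2 - p0 * (τ / (2 * pb)) := by
    calc pr P * (Real.exp (-(τ / (2 * pb))) - 1)
        ≤ pr P * (-(τ / (2 * pb)) + (-(τ / (2 * pb))) ^ 2) := mul_le_mul_of_nonneg_left he hP0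
      _ = pr P * (τ / (2 * pb)) ^ 2 - pr P * (τ / (2 * pb)) := by ring
      _ ≤ pb * (τ / (2 * pb)) ^ 2 - p0 * (τ / (2 * pb)) :=
          sub_le_sub (mul_le_mul_of_nonneg_right hp (by positivity))
            (mul_le_mul_of_nonneg_right hp0 ht0.le)
  have h2 := mul_le_mul_of_nonneg_left h1 (Nat.cast_nonneg (α := ℝ) n)
  have h3 : (n : ℝ) * (pb * (τ / (2 * pb)) ^ 2 - p0 * (τ / (2 * pb))) -
      -(τ / (2 * pb)) * ((n : ℝ) * (p0 - τ)) = -(n * τ ^ 2 / (4 * pb)) := by
    field_simp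
    ring
  linarith

end Pool.Agent.Helper116.AG
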