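import Pool.Agent.Helper116.AG.Defs2

set_option autoImplicit false
open Finset
open scoped Classical

noncomputable section

namespace Pool.Agent.Helper116.AG


theorem pr_fh_cons {V : Type} (P : V → Prop) {n : ℕ} (x : V) (s : Fin n → V) :
    fh P (Fin.cons x s : Fin (n + 1) → V) = if P x then some x else fh P s := by
  unfold fh
  rw [List.ofFn_succ, List.find?_cons]
  simp only [Fin.cons_zero, Fin.cons_succ]
  by_cases h : P x
  · simp [h]
  · simp [h]

theorem pr_fh_count {V : Type} [Fintype V] (P : V → Prop) (v : V) (hv : P v) (n : ℕ) :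
    (∑ s : Fin n → V, if fh P s = some v then (1 : ℝ) else 0) *
      ((univ.filter fun v => P v).card : ℝ) =
      (Fintype.card V : ℝ) ^ n -
        ((Fintype.card V : ℝ) - ((univ.filter fun v => P v).card : ℝ)) ^ n := by
  induction n with
  | zero =>
    have h1 : ∀ s : Fin 0 → V, (if fh P s = some v then (1 : ℝ) else 0) = 0 := by
      intro s
      rw [if_neg]
      unfold fh
      simp
    rw [Finset.sum_congr rfl fun s _ => h1 s]
    simp
  | succ n ih =>
    have h1 : (∑ s : Fin (n + 1) → V, if fh P s = some v then (1 : ℝ) else 0) =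
        ∑ x : V, ∑ s : Fin n → V,
          if (if P x then some x else fh P s) = some v then (1 : ℝ) else 0 := by
      rw [← Fintype.sum_prod_type']
      refine (Fintype.sum_equiv (Fin.consEquiv (fun _ => V)) _ _ ?_).symm
      rintro ⟨x, s⟩
      have e : (Fin.consEquiv (fun _ : Fin (n + 1) => V)) (x, s) =
        (Fin.cons x s : Fin (n + 1) → V) := rfl
      rw [e, pr_fh_cons]
    have h2 : ∀ x : V, (∑ s : Fin n → V,
          if (if P x then some x else fh P s) = some v then (1 : ℝ) else 0) =
        (if x = v then (Fintype.card V : ℝ) ^ n else 0) +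
          (if P x then 0 else (∑ s : Fin n → V, if fh P s = some v then (1 : ℝ) else 0)) := by
      intro x
      by_cases hx : P x
      · simp only [hx, if_true, Option.some.injEq, add_zero]
        by_cases hxv : x = v
        · simp [hxv]
        · simp [hxv]
      · have hxv : x ≠ v := fun h => hx (h ▸ hv)
        simp only [hx, if_false, if_neg hxv, zero_add]
    rw [h1, Finset.sum_congr rfl fun x _ => h2 x, Finset.sum_add_distrib]
    rw [Finset.sum_ite_eq' univ v, if_pos (Finset.mem_univ v)]
    have h3 : (∑ x : V, if P x then (0 : ℝ) else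
        (∑ s : Fin n → V, if fh P s = some v then (1 : ℝ) else 0)) =
        ((Fintype.card V : ℝ) - ((univ.filter fun v => P v).card : ℝ)) *
          (∑ s : Fin n → V, if fh P s = some v then (1 : ℝ) else 0) := by
      rw [Finset.sum_ite, Finset.sum_const_zero, zero_add, Finset.sum_const, nsmul_eq_mul]
      congr 1
      have h4 := Finset.card_filter_add_card_filter_not (s := (univ : Finset V)) P
      rw [Finset.card_univ] at h4
      rw [← h4]
      push_cast
      ring
    rw [h3, add_mul, mul_assoc, ih]
    ring

theorem pr_fh {V : Type} [Fintype V] [Nonempty V] (P : V → Prop) (n : ℕ) (v : V) (hv : P v) :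
    pr (fun s : Fin n → V => fh P s = some v) =
      (1 - (1 - pr P) ^ n) / ((univ.filter fun v => P v).card : ℝ) := by
  have h1 := pr_fh_count P v hv n
  rw [← Finset.sum_filter, Finset.sum_const, nsmul_eq_mul, mul_one] at h1
  have hN : (0 : ℝ) < (Fintype.card V : ℝ) := by exact_mod_cast Fintype.card_pos
  have hk : (0 : ℝ) < ((univ.filter fun v => P v).card : ℝ) := by
    exact_mod_cast Finset.card_pos.2 ⟨v, by simp [hv]⟩
  unfold pr
  have hc : (Fintype.card (Fin n → V) : ℝ) = (Fintype.card V : ℝ) ^ n := by
    rw [Fintype.card_fun, Fintype.card_fin]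
    push_cast
    rfl
  rw [hc]
  have e1 : (1 : ℝ) - ((univ.filter fun v => P v).card : ℝ) / (Fintype.card V : ℝ) =
      ((Fintype.card V : ℝ) - ((univ.filter fun v => P v).card : ℝ)) / (Fintype.card V : ℝ) := by
    field_simp
  rw [e1, div_pow, div_eq_div_iff (pow_pos hN n).ne' hk.ne']
  refine Eq.trans (Eq.trans ?_ h1) ?_
  · congr!
  · field_simp

end Pool.Agent.Helper116.AG
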