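import Pool.Agent.Helper116.AG.Defs2
import Pool.Agent.Helper116.AG.J12

set_option autoImplicit false
open Finset
open scoped Classical

noncomputable section

namespace Pool.Agent.Helper116.AG





/-- sign of a bit -/
def trx_sg (x : Bool) : ℝ := if x then -1 else 1

theorem trx_sg_prod {F : Type} (x : F → Bool) (s : Finset F) :
    ∏ h ∈ s, trx_sg (x h) = if ∑ h ∈ s, b2 (x h) = 0 then 1 else -1 := by
  induction s using Finset.induction_on with
  | empty => simp
  | insert a s ha ih =>
    rw [Finset.prod_insert ha, Finset.sum_insert ha, ih]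
    generalize ∑ h ∈ s, b2 (x h) = S
    have key : ∀ (S : ZMod 2) (b : Bool), trx_sg b * (if S = 0 then (1 : ℝ) else -1) =
        if b2 b + S = 0 then 1 else -1 := by
      intro S b
      have h01 : S = 0 ∨ S = 1 := by
        revert S; decide
      have h11 : (1 : ZMod 2) + 1 = 0 := by decide
      have h10 : (1 : ZMod 2) ≠ 0 := by decide
      rcases h01 with rfl | rfl <;> cases b <;> simp [trx_sg, b2, h11]
    exact key S (x a)

theorem trx_avg {B Ω : Type} [Fintype B] [Fintype Ω] (P : B → Ω → Prop) :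
    pr (fun t : B × Ω => P t.1 t.2) = (∑ β, pr (P β)) / (Fintype.card B : ℝ) := by
  unfold pr
  rw [← Finset.sum_div, div_div, Fintype.card_prod]
  congr 1
  · rw [Finset.card_filter, ← Finset.univ_product_univ, Finset.sum_product]
    push_cast
    apply Finset.sum_congr rfl
    intro β _
    rw [Finset.card_filter]
    push_cast
    rfl
  · push_cast; ring

theorem trx_block {V F : Type} [Fintype V] [Nonempty V] [Fintype F] [Nonempty F] (sA sB : ℕ)
    (O : Orc V) (PA PB : F → V → Prop)
    (hA : ∀ h, 0 < (univ.filter fun v => PA h v).card ∧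
      (1 - pr (PA h)) ^ sA ≤ 1 / (4 * (Fintype.card F : ℝ)))
    (hB : ∀ h, 0 < (univ.filter fun v => PB h v).card ∧
      (1 - pr (PB h)) ^ sB ≤ 1 / (4 * (Fintype.card F : ℝ))) :
    (1 - ∏ h, (1 - 2 * (((univ.filter fun p : V × V => PA h p.1 ∧ PB h p.2 ∧
      O p.1 p.2 = true).card : ℝ) / ((univ.filter fun v => PA h v).card *
        (univ.filter fun v => PB h v).card)))) / 2 / 2 ≤
    pr (fun ω : (F → Fin sA → V) × (F → Fin sB → V) => ∃ u v : F → V,
      (∀ h, fh (PA h) (ω.1 h) = some (u h)) ∧ (∀ h, fh (PB h) (ω.2 h) = some (v h)) ∧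
      ∑ h, b2 (O (u h) (v h)) ≠ 0) := by
  set K : ℝ := (Fintype.card F : ℝ) with hK
  have hKpos : 0 < K := by rw [hK]; exact_mod_cast Fintype.card_pos
  have hK1 : 1 ≤ K := by rw [hK]; exact_mod_cast Fintype.card_pos
  set a : F → ℝ := fun h => ((univ.filter fun v => PA h v).card : ℝ) with ha
  set b : F → ℝ := fun h => ((univ.filter fun v => PB h v).card : ℝ) with hb
  have hapos : ∀ h, 0 < a h := fun h => Nat.cast_pos.2 (hA h).1
  have hbpos : ∀ h, 0 < b h := fun h => Nat.cast_pos.2 (hB h).1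
  set T : F → Finset (V × V) := fun h =>
    (univ.filter fun v => PA h v) ×ˢ (univ.filter fun v => PB h v) with hT
  set W : Finset (F → V × V) := Fintype.piFinset T with hW
  set X : (F → V × V) → Prop := fun w => ∑ h, b2 (O (w h).1 (w h).2) ≠ 0 with hX
  set W1 := W.filter X with hW1
  set e : F → ℝ := fun h => ((univ.filter fun p : V × V => PA h p.1 ∧ PB h p.2 ∧
      O p.1 p.2 = true).card : ℝ) with he
  set cA : F → ℝ := fun h => 1 - (1 - pr (PA h)) ^ sA with hcA
  set cB : F → ℝ := fun h => 1 - (1 - pr (PB h)) ^ sB with hcB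
  -- the signed count
  have hsum : ∀ h, ∑ p ∈ T h, trx_sg (O p.1 p.2) = a h * b h * (1 - 2 * (e h / (a h * b h))) := by
    intro h
    have h1 : ∀ p : V × V, trx_sg (O p.1 p.2) = 1 - 2 * (if O p.1 p.2 = true then 1 else 0) := by
      intro p
      cases O p.1 p.2 <;> simp [trx_sg]
      norm_num
    rw [Finset.sum_congr rfl (fun p _ => h1 p), Finset.sum_sub_distrib, ← Finset.mul_sum,
      Finset.sum_const, nsmul_eq_mul, mul_one, Finset.card_product, Finset.sum_boole]
    have h2 : (T h).filter (fun p => O p.1 p.2 = true) =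
        univ.filter fun p : V × V => PA h p.1 ∧ PB h p.2 ∧ O p.1 p.2 = true := by
      ext p
      simp only [hT, Finset.mem_filter, Finset.mem_product, Finset.mem_univ, true_and]
      tauto
    rw [h2]
    have h3 : a h * b h ≠ 0 := (mul_pos (hapos h) (hbpos h)).ne'
    push_cast
    change a h * b h - 2 * e h = _
    have h4 : a h * b h * (e h / (a h * b h)) = e h := mul_div_cancel₀ _ h3
    linear_combination 2 * h4
  have hQ : (W1.card : ℝ) = (∏ h, (a h * b h)) *
      ((1 - ∏ h, (1 - 2 * (e h / (a h * b h)))) / 2) := by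
    have h1 : (W1.card : ℝ) = ∑ w ∈ W, (1 - ∏ h, trx_sg (O (w h).1 (w h).2)) / 2 := by
      rw [hW1, Finset.card_filter]
      push_cast
      apply Finset.sum_congr rfl
      intro w _
      rw [trx_sg_prod (fun h => O (w h).1 (w h).2) univ]
      by_cases hx : ∑ h, b2 (O (w h).1 (w h).2) = 0
      · simp [hX, hx]
      · simp [hX, hx]
    have h2 : (W.card : ℝ) = ∏ h, (a h * b h) := by
      rw [hW, Fintype.card_piFinset]
      push_cast
      apply Finset.prod_congr rfl
      intro h _
      simp only [hT, Finset.card_product, ha, hb]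
      push_cast; rfl
    have h3 : ∑ w ∈ W, ∏ h, trx_sg (O (w h).1 (w h).2) =
        (∏ h, (a h * b h)) * ∏ h, (1 - 2 * (e h / (a h * b h))) := by
      rw [← Finset.prod_mul_distrib, hW,
        ← Finset.prod_univ_sum T (fun h (p : V × V) => trx_sg (O p.1 p.2))]
      exact Finset.prod_congr rfl fun h _ => hsum h
    rw [h1, ← Finset.sum_div, Finset.sum_sub_distrib, h3, Finset.sum_const, nsmul_eq_mul, mul_one,
      h2]
    ring
  -- the events
  set Ev : (F → V × V) → Finset ((F → Fin sA → V) × (F → Fin sB → V)) := fun w =>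
    (Fintype.piFinset fun h => univ.filter fun σ => fh (PA h) σ = some (w h).1) ×ˢ
    (Fintype.piFinset fun h => univ.filter fun σ => fh (PB h) σ = some (w h).2) with hEv
  set M : ℝ := (Fintype.card ((F → Fin sA → V) × (F → Fin sB → V)) : ℝ) with hM
  have hMpos : 0 < M := by rw [hM]; exact_mod_cast Fintype.card_pos
  have hcard : ∀ w ∈ W, ((Ev w).card : ℝ) = M * ((∏ h, cA h / a h) * ∏ h, cB h / b h) := by
    intro w hw
    have hw' : ∀ h, PA h (w h).1 ∧ PB h (w h).2 := by
      intro h
      have := Fintype.mem_piFinset.1 hw h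
      simpa [hT] using this
    have h1 : ∀ h, ((univ.filter fun σ : Fin sA → V => fh (PA h) σ = some (w h).1).card : ℝ) =
        (Fintype.card (Fin sA → V) : ℝ) * (cA h / a h) := by
      intro h
      have h2 := pr_fh (PA h) sA (w h).1 (hw' h).1
      rw [pr, div_eq_iff (by positivity)] at h2
      refine Eq.trans ?_ (h2.trans (mul_comm _ _))
      congr!
    have h1' : ∀ h, ((univ.filter fun σ : Fin sB → V => fh (PB h) σ = some (w h).2).card : ℝ) =
        (Fintype.card (Fin sB → V) : ℝ) * (cB h / b h) := by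
      intro h
      have h2 := pr_fh (PB h) sB (w h).2 (hw' h).2
      rw [pr, div_eq_iff (by positivity)] at h2
      refine Eq.trans ?_ (h2.trans (mul_comm _ _))
      congr!
    simp only [hEv, Finset.card_product, Fintype.card_piFinset]
    push_cast
    rw [Finset.prod_congr rfl (fun h _ => h1 h), Finset.prod_congr rfl (fun h _ => h1' h),
      Finset.prod_mul_distrib, Finset.prod_mul_distrib, Finset.prod_const, Finset.prod_const,
      Finset.card_univ, hM, Fintype.card_prod]
    have h3 : (Fintype.card (F → Fin sA → V) : ℝ) = (Fintype.card (Fin sA → V) : ℝ) ^ Fintype.card F := by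
      rw [Fintype.card_fun]; push_cast; rfl
    have h3' : (Fintype.card (F → Fin sB → V) : ℝ) = (Fintype.card (Fin sB → V) : ℝ) ^ Fintype.card F := by
      rw [Fintype.card_fun]; push_cast; rfl
    rw [Nat.cast_mul, h3, h3']
    ring
  have hdisj : ∀ w ∈ W1, ∀ w' ∈ W1, w ≠ w' → Disjoint (Ev w) (Ev w') := by
    intro w _ w' _ hne
    rw [Finset.disjoint_left]
    intro ω h1 h2
    apply hne
    funext h
    simp only [hEv, Finset.mem_product, Fintype.mem_piFinset, Finset.mem_filter,
      Finset.mem_univ, true_and] at h1 h2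
    have h3 := (h1.1 h).symm.trans (h2.1 h)
    have h4 := (h1.2 h).symm.trans (h2.2 h)
    exact Prod.ext (Option.some.inj h3) (Option.some.inj h4)
  have hlow : (W1.card : ℝ) * (M * ((∏ h, cA h / a h) * ∏ h, cB h / b h)) ≤
      ((univ.filter fun ω : (F → Fin sA → V) × (F → Fin sB → V) => ∃ u v : F → V,
      (∀ h, fh (PA h) (ω.1 h) = some (u h)) ∧ (∀ h, fh (PB h) (ω.2 h) = some (v h)) ∧
      ∑ h, b2 (O (u h) (v h)) ≠ 0).card : ℝ) := by
    have h1 : (((W1.biUnion Ev).card : ℕ) : ℝ) =
        (W1.card : ℝ) * (M * ((∏ h, cA h / a h) * ∏ h, cB h / b h)) := by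
      rw [Finset.card_biUnion hdisj]
      push_cast
      rw [Finset.sum_congr rfl (fun w hw => hcard w (Finset.mem_filter.1 hw).1), Finset.sum_const,
        nsmul_eq_mul]
    rw [← h1]
    have h2 : W1.biUnion Ev ⊆ univ.filter fun ω : (F → Fin sA → V) × (F → Fin sB → V) =>
        ∃ u v : F → V, (∀ h, fh (PA h) (ω.1 h) = some (u h)) ∧
        (∀ h, fh (PB h) (ω.2 h) = some (v h)) ∧ ∑ h, b2 (O (u h) (v h)) ≠ 0 := by
      intro ω hω
      rw [Finset.mem_biUnion] at hω
      obtain ⟨w, hw, hω⟩ := hω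
      simp only [hEv, Finset.mem_product, Fintype.mem_piFinset, Finset.mem_filter,
        Finset.mem_univ, true_and] at hω
      rw [Finset.mem_filter]
      exact ⟨Finset.mem_univ _, fun h => (w h).1, fun h => (w h).2, hω.1, hω.2,
        (Finset.mem_filter.1 hw).2⟩
    exact_mod_cast Finset.card_le_card h2
  have hcAge : ∀ h, 1 - 1 / (4 * K) ≤ cA h := fun h => by
    have := (hA h).2
    simp only [hcA]; linarith
  have hcBge : ∀ h, 1 - 1 / (4 * K) ≤ cB h := fun h => by
    have := (hB h).2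
    simp only [hcB]; linarith
  have hq : 1 / (4 * K) ≤ 1 / 4 := by
    apply one_div_le_one_div_of_le (by norm_num)
    linarith
  have hbase : 0 ≤ 1 - 1 / (4 * K) := by linarith
  have hpA : (1 - 1 / (4 * K)) ^ Fintype.card F ≤ ∏ h, cA h := by
    rw [← Finset.card_univ, ← Finset.prod_const]
    exact Finset.prod_le_prod (fun _ _ => hbase) (fun h _ => hcAge h)
  have hpB : (1 - 1 / (4 * K)) ^ Fintype.card F ≤ ∏ h, cB h := by
    rw [← Finset.card_univ, ← Finset.prod_const]
    exact Finset.prod_le_prod (fun _ _ => hbase) (fun h _ => hcBge h)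
  have hbern : (1 : ℝ) / 2 ≤ (1 - 1 / (4 * K)) ^ Fintype.card F * (1 - 1 / (4 * K)) ^ Fintype.card F := by
    rw [← pow_add]
    have h1 := one_add_mul_le_pow (a := -(1 / (4 * K))) (by linarith)
      (Fintype.card F + Fintype.card F)
    have h2 : 1 + (((Fintype.card F + Fintype.card F : ℕ) : ℝ)) * (-(1 / (4 * K))) = 1 / 2 := by
      push_cast
      rw [← hK]
      field_simp
      ring
    rw [h2] at h1
    calc (1 : ℝ) / 2 ≤ (1 + -(1 / (4 * K))) ^ (Fintype.card F + Fintype.card F) := h1
      _ = _ := by rw [← sub_eq_add_neg]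
  have hpAB : (1 : ℝ) / 2 ≤ (∏ h, cA h) * ∏ h, cB h :=
    hbern.trans (mul_le_mul hpA hpB (pow_nonneg hbase _) ((pow_nonneg hbase _).trans hpA))
  set ρ := (1 - ∏ h, (1 - 2 * (e h / (a h * b h)))) / 2 with hρ
  have hprodpos : 0 < ∏ h, (a h * b h) :=
    Finset.prod_pos fun h _ => mul_pos (hapos h) (hbpos h)
  have hρ0 : 0 ≤ ρ := by
    have h1 : (0 : ℝ) ≤ (∏ h, (a h * b h)) * ρ := by rw [← hQ]; positivity
    exact nonneg_of_mul_nonneg_right h1 hprodpos
  have hfin : ρ * ((∏ h, cA h) * ∏ h, cB h) * M ≤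
      ((univ.filter fun ω : (F → Fin sA → V) × (F → Fin sB → V) => ∃ u v : F → V,
      (∀ h, fh (PA h) (ω.1 h) = some (u h)) ∧ (∀ h, fh (PB h) (ω.2 h) = some (v h)) ∧
      ∑ h, b2 (O (u h) (v h)) ≠ 0).card : ℝ) := by
    refine le_trans (le_of_eq ?_) hlow
    rw [hQ, Finset.prod_div_distrib, Finset.prod_div_distrib, Finset.prod_mul_distrib]
    have h1 : (∏ h, a h) ≠ 0 := (Finset.prod_pos fun h _ => hapos h).ne'
    have h2 : (∏ h, b h) ≠ 0 := (Finset.prod_pos fun h _ => hbpos h).ne'
    field_simp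
  have hgoal : ρ / 2 ≤ ((univ.filter fun ω : (F → Fin sA → V) × (F → Fin sB → V) => ∃ u v : F → V,
      (∀ h, fh (PA h) (ω.1 h) = some (u h)) ∧ (∀ h, fh (PB h) (ω.2 h) = some (v h)) ∧
      ∑ h, b2 (O (u h) (v h)) ≠ 0).card : ℝ) / M := by
    rw [le_div_iff₀ hMpos]
    refine le_trans ?_ hfin
    apply mul_le_mul_of_nonneg_right _ hMpos.le
    nlinarith
  refine hgoal.trans (le_of_eq ?_)
  unfold pr
  congr!

theorem trial_rej {V F R1 R2 : Type} [Fintype V] [Nonempty V] [Fintype F] [Nonempty F] [AddGroup F]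
    [Fintype R1] [Fintype R2] [Nonempty R1] [Nonempty R2] {l sA sB : ℕ} (O : Orc V)
    (lam : V → Lb l (F × R1) (F × R2))
    (hA : ∀ x, 0 < cls lam (some (Sum.inr (Sum.inl x))) ∧
      (1 - (cls lam (some (Sum.inr (Sum.inl x))) : ℝ) / Fintype.card V) ^ sA ≤
        1 / (4 * Fintype.card F))
    (hB : ∀ y, 0 < cls lam (some (Sum.inr (Sum.inr y))) ∧
      (1 - (cls lam (some (Sum.inr (Sum.inr y))) : ℝ) / Fintype.card V) ^ sB ≤
        1 / (4 * Fintype.card F)) :
    (∑ β : F × R1 × R2, rej O lam β) /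
        (2 * (Fintype.card F * Fintype.card R1 * Fintype.card R2 : ℝ)) ≤
      pr (fun t : Trial V F R1 R2 sA sB => ¬ T3 O lam t) := by
  have hcls : ∀ α : Lb l (F × R1) (F × R2),
      (@Finset.filter V (fun v => lam v = α) (fun v => Classical.propDecidable _) univ).card =
        cls lam α := by
    intro α
    unfold cls
    congr!
  have hcardV : ∀ α : Lb l (F × R1) (F × R2), pr (fun v => lam v = α) =
      (cls lam α : ℝ) / Fintype.card V := by
    intro α
    unfold pr
    rw [hcls]
  have hblock : ∀ β : F × R1 × R2, rej O lam β / 2 ≤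
      pr (fun ω : (F → Fin sA → V) × (F → Fin sB → V) => ¬ T3 O lam (β, ω)) := by
    intro β
    have h1 := trx_block sA sB O (fun h v => lam v = some (Sum.inr (Sum.inl (h, β.2.1))))
      (fun h v => lam v = some (Sum.inr (Sum.inr (h + β.1, β.2.2))))
      (fun h => by rw [hcls, hcardV]; exact hA (h, β.2.1))
      (fun h => by rw [hcls, hcardV]; exact hB (h + β.1, β.2.2))
    refine le_trans (le_of_eq ?_) (h1.trans (le_of_eq ?_))
    · simp only [hcls]
      unfold rej pf
      congr!
    congr 1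
    funext ω
    rw [T3]
    push Not
    rfl
  have h2 := trx_avg (fun (β : F × R1 × R2) (ω : (F → Fin sA → V) × (F → Fin sB → V)) =>
    ¬ T3 O lam (β, ω))
  have h3 : pr (fun t : Trial V F R1 R2 sA sB => ¬ T3 O lam t) =
      (∑ β : F × R1 × R2, pr (fun ω : (F → Fin sA → V) × (F → Fin sB → V) =>
        ¬ T3 O lam (β, ω))) / (Fintype.card (F × R1 × R2) : ℝ) := h2
  rw [h3, Fintype.card_prod, Fintype.card_prod]
  have h4 : (0 : ℝ) < ((Fintype.card F * (Fintype.card R1 * Fintype.card R2) : ℕ) : ℝ) := by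
    have h5 : 0 < Fintype.card F := Fintype.card_pos
    have h6 : 0 < Fintype.card R1 := Fintype.card_pos
    have h7 : 0 < Fintype.card R2 := Fintype.card_pos
    positivity
  rw [le_div_iff₀ h4]
  have h5 : (∑ β : F × R1 × R2, rej O lam β) /
        (2 * (Fintype.card F * Fintype.card R1 * Fintype.card R2 : ℝ)) *
        ((Fintype.card F * (Fintype.card R1 * Fintype.card R2) : ℕ) : ℝ) =
      ∑ β : F × R1 × R2, rej O lam β / 2 := by
    rw [← Finset.sum_div]
    push_cast at h4 ⊢
    have h6 : (Fintype.card F : ℝ) * Fintype.card R1 * Fintype.card R2 ≠ 0 := by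
      rw [mul_assoc]; exact h4.ne'
    rw [← mul_assoc]
    field_simp
  rw [h5]
  exact Finset.sum_le_sum fun β _ => hblock β

end Pool.Agent.Helper116.AG
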