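import Pool.Agent.Helper116.AG.Defs2
import Pool.Agent.Helper116.AG.J10
import Pool.Agent.Helper116.AG.J11
import Pool.Agent.Helper116.AG.J13

set_option autoImplicit false
open Finset
open scoped Classical

noncomputable section

namespace Pool.Agent.Helper116.AG










theorem sd_exp2 : Real.exp (-2) ≤ 1 / 3 := by
  have h1 := Real.exp_one_gt_d9
  have h2 : Real.exp 2 = Real.exp 1 * Real.exp 1 := by rw [← Real.exp_add]; norm_num
  rw [Real.exp_neg, h2, inv_eq_one_div]
  apply one_div_le_one_div_of_le (by norm_num)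
  nlinarith

theorem sd_pr_eq {Ω : Type} [Fintype Ω] (P : Ω → Prop) (T : Finset Ω)
    (h : ∀ ω, ω ∈ T ↔ P ω) : pr P = (T.card : ℝ) / Fintype.card Ω := by
  unfold pr
  have : (univ.filter fun ω => P ω) = T := by
    ext ω
    rw [mem_filter, h]
    simp
  rw [this]

theorem sd_pr_mono {Ω : Type} [Fintype Ω] {P Q : Ω → Prop} (h : ∀ ω, P ω → Q ω) :
    pr P ≤ pr Q := by
  unfold pr
  refine div_le_div_of_nonneg_right ?_ (Nat.cast_nonneg _)
  exact_mod_cast card_le_card (fun ω hω => by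
    rw [mem_filter] at hω ⊢
    exact ⟨hω.1, h ω hω.2⟩)

theorem sd_pr_nonneg {Ω : Type} [Fintype Ω] (P : Ω → Prop) : 0 ≤ pr P := by
  unfold pr; positivity

theorem sd_pr_fst {A B : Type} [Fintype A] [Fintype B] (P : A → Prop) :
    pr (fun ω : A × B => P ω.1) ≤ pr P := by
  unfold pr
  have h : (univ.filter fun ω : A × B => P ω.1) = (univ.filter P) ×ˢ (univ : Finset B) := by
    ext ω; simp
  rw [h, card_product, Fintype.card_prod, card_univ]
  push_cast
  rcases Nat.eq_zero_or_pos (Fintype.card B) with h0 | h0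
  · rw [h0]
    simp
    positivity
  · have h0' : (0 : ℝ) < Fintype.card B := by exact_mod_cast h0
    rw [mul_div_mul_right _ _ h0'.ne']

theorem sd_pr_snd {A B : Type} [Fintype A] [Fintype B] (P : B → Prop) :
    pr (fun ω : A × B => P ω.2) ≤ pr P := by
  unfold pr
  have h : (univ.filter fun ω : A × B => P ω.2) = (univ : Finset A) ×ˢ (univ.filter P) := by
    ext ω; simp
  rw [h, card_product, Fintype.card_prod, card_univ]
  push_cast
  rcases Nat.eq_zero_or_pos (Fintype.card A) with h0 | h0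
  · rw [h0]
    simp
    positivity
  · have h0' : (0 : ℝ) < Fintype.card A := by exact_mod_cast h0
    rw [mul_div_mul_left _ _ h0'.ne']

theorem sd_pr_not {Ω : Type} [Fintype Ω] [Nonempty Ω] (P : Ω → Prop) :
    pr (fun ω => ¬ P ω) = 1 - pr P := by
  unfold pr
  have hc : (0 : ℝ) < Fintype.card Ω := by exact_mod_cast Fintype.card_pos
  have h1 : (univ.filter P).card + (univ.filter fun ω => ¬ P ω).card = Fintype.card Ω := by
    rw [card_filter_add_card_filter_not, card_univ]
  have h2 : ((univ.filter P).card : ℝ) + ((univ.filter fun ω => ¬ P ω).card : ℝ) =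
      Fintype.card Ω := by exact_mod_cast h1
  rw [eq_sub_iff_add_eq, ← add_div, div_eq_one_iff_eq hc.ne', ← h2]
  ring

theorem sd_pr_pi {Ω : Type} [Fintype Ω] (P : Ω → Prop) (n : ℕ) :
    pr (fun S : Fin n → Ω => ∀ i, P (S i)) = (pr P) ^ n := by
  rw [sd_pr_eq (fun S : Fin n → Ω => ∀ i, P (S i))
    (Fintype.piFinset (fun _ : Fin n => univ.filter P)) (fun S => by simp [Fintype.mem_piFinset]),
    Fintype.card_piFinset]
  unfold pr
  simp [div_pow]

theorem sd_pi_bound {Ω : Type} [Fintype Ω] [Nonempty Ω] (P : Ω → Prop) (n : ℕ) (x : ℝ)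
    (hx : x ≤ pr (fun ω => ¬ P ω)) (h2 : 2 ≤ (n : ℝ) * x) :
    pr (fun S : Fin n → Ω => ∀ i, P (S i)) ≤ 1 / 3 := by
  rw [sd_pr_pi]
  rw [sd_pr_not] at hx
  have h3 : pr P ≤ Real.exp (-x) := by
    have := Real.one_sub_le_exp_neg x
    linarith
  calc (pr P) ^ n ≤ (Real.exp (-x)) ^ n := pow_le_pow_left₀ (sd_pr_nonneg P) h3 n
    _ = Real.exp (-(n * x)) := by rw [← Real.exp_nat_mul]; congr 1; ring
    _ ≤ Real.exp (-2) := Real.exp_le_exp.2 (by linarith)
    _ ≤ 1 / 3 := sd_exp2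

theorem sd_diff {N : ℕ} (G H : SimpleGraph (Fin N)) :
    2 * diff G H ≤ odiff (orc G) (orc H) := by
  unfold diff odiff
  set A := univ.filter fun p : Fin N × Fin N => p.1 < p.2 ∧ ¬ (G.Adj p.1 p.2 ↔ H.Adj p.1 p.2)
    with hA
  have h1 : (A.image Prod.swap).card = A.card := card_image_of_injective _ Prod.swap_injective
  have hd : Disjoint A (A.image Prod.swap) := by
    rw [disjoint_left]
    intro p hp hq
    rw [mem_image] at hq
    obtain ⟨q, hq, rfl⟩ := hq
    rw [hA, mem_filter] at hp hq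
    have h3 : q.2 < q.1 := hp.2.1
    exact lt_asymm h3 hq.2.1
  have hne : ∀ u v : Fin N, ¬ (G.Adj u v ↔ H.Adj u v) → orc G u v ≠ orc H u v := by
    intro u v h e
    unfold orc at e
    exact h (decide_eq_decide.1 e)
  have hs : A ∪ A.image Prod.swap ⊆
      univ.filter fun p : Fin N × Fin N => orc G p.1 p.2 ≠ orc H p.1 p.2 := by
    intro p hp
    rw [mem_filter]
    refine ⟨mem_univ _, ?_⟩
    rcases mem_union.1 hp with hp | hp
    · rw [hA, mem_filter] at hp
      exact hne _ _ hp.2.2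
    · rw [mem_image] at hp
      obtain ⟨q, hq, rfl⟩ := hp
      rw [hA, mem_filter] at hq
      refine hne _ _ ?_
      show ¬ (G.Adj q.2 q.1 ↔ H.Adj q.2 q.1)
      rw [G.adj_comm, H.adj_comm]
      exact hq.2.2
  calc 2 * A.card = (A ∪ A.image Prod.swap).card := by
        rw [card_union_of_disjoint hd, h1]; ring
    _ ≤ _ := card_le_card hs

theorem sd_T1 {V : Type} [Fintype V] [Nonempty V] {l : ℕ} {A B : Type} (b a1 a2 : ℕ) (δ : ℝ)
    (hδ0 : 0 < δ) (hδ : δ ≤ 1 / 4) (lam : V → Lb l A B) (s2 : ℕ) (α : Fin (l + 1) ⊕ (A ⊕ B))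
    (hs2 : 128 * (Fintype.card V : ℝ) ≤ s2 * δ ^ 2 * sz b a1 a2 α)
    (h : ¬ |(cls lam (some α) : ℝ) - sz b a1 a2 α| ≤ δ * sz b a1 a2 α) :
    pr (fun S : Fin s2 → V => T1 b a1 a2 δ lam S) ≤ 1 / 3 := by
  have hN : (0 : ℝ) < Fintype.card V := by exact_mod_cast Fintype.card_pos
  have hprP : pr (fun v : V => lam v = some α) = (cls lam (some α) : ℝ) / Fintype.card V := by
    exact sd_pr_eq _ _ (fun v => by simp)
  have hcnt : ∀ S : Fin s2 → V, T1 b a1 a2 δ lam S → ∀ T : Finset (Fin s2),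
      (∀ i, i ∈ T ↔ lam (S i) = some α) → |(T.card : ℝ) * Fintype.card V -
        s2 * sz b a1 a2 α| ≤ δ / 2 * (s2 * sz b a1 a2 α) := by
    intro S hS T hT
    have h1 := hS α
    have h2 : T = univ.filter fun i => lam (S i) = some α := by
      ext i; rw [hT]; simp
    rw [h2]
    exact h1
  generalize hz : (sz b a1 a2 α : ℝ) = z at *
  generalize hc : (cls lam (some α) : ℝ) = c at *
  generalize hNN : (Fintype.card V : ℝ) = N at *
  have hz0 : 0 ≤ z := by rw [← hz]; positivity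
  have hs0 : (0 : ℝ) ≤ s2 := by positivity
  have hzpos : 0 < z := by
    rcases hz0.eq_or_lt with h0 | h0
    · exfalso
      rw [← h0] at hs2
      nlinarith
    · exact h0
  have hf : 128 ≤ s2 * δ ^ 2 * (z / N) := by
    rw [← mul_div_assoc, le_div_iff₀ hN]
    exact hs2
  have hfpos : 0 < z / N := by positivity
  rw [not_le, lt_abs] at h
  rcases h with h | h
  · have hcz : (1 + δ) * z < c := by linarith
    have hcpos : 0 < c := by nlinarith
    have hppos : 0 < c / N := by positivity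
    have h1 := chern_lower (fun v : V => lam v = some α) s2 (c / N) (c / N) (c / N * δ / 4)
      hprP.le hprP.ge (by positivity) (by nlinarith)
    refine (sd_pr_mono fun S hS => ?_).trans (h1.trans ?_)
    · have key : ∀ T : Finset (Fin s2), (∀ i, i ∈ T ↔ lam (S i) = some α) →
          (T.card : ℝ) ≤ (s2 : ℝ) * (c / N - c / N * δ / 4) := by
        intro T hT
        have h2 := (abs_le.1 (hcnt S hS T hT)).2
        have h3 : (s2 : ℝ) * (c / N - c / N * δ / 4) = s2 * (c * (1 - δ / 4)) / N := by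
          field_simp
        rw [h3, le_div_iff₀ hN]
        have h4 : z * (1 + δ / 2) ≤ c * (1 - δ / 4) := by
          have h5 : (1 + δ) * z * (1 - δ / 4) ≤ c * (1 - δ / 4) :=
            mul_le_mul_of_nonneg_right hcz.le (by linarith)
          have h7 : (1 + δ) * z * (1 - δ / 4) = z * (1 + δ / 2) + z * (δ / 4 * (1 - δ)) := by
            ring
          have h8 : 0 ≤ z * (δ / 4 * (1 - δ)) :=
            mul_nonneg hz0 (mul_nonneg (by linarith) (by linarith))
          linarith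
        have h6 : (s2 : ℝ) * (z * (1 + δ / 2)) ≤ s2 * (c * (1 - δ / 4)) :=
          mul_le_mul_of_nonneg_left h4 hs0
        have h9 : (s2 : ℝ) * (z * (1 + δ / 2)) = s2 * z + δ / 2 * (s2 * z) := by ring
        linarith
      exact key _ (fun i => by simp)
    · refine (Real.exp_le_exp.2 ?_).trans sd_exp2
      have h2 : (s2 : ℝ) * (c / N * δ / 4) ^ 2 / (4 * (c / N)) = s2 * δ ^ 2 * (c / N) / 64 := by
        field_simp
        ring
      rw [h2]
      have h3 : z / N ≤ c / N := by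
        apply div_le_div_of_nonneg_right _ hN.le
        nlinarith
      have h4 : (s2 : ℝ) * δ ^ 2 * (z / N) ≤ s2 * δ ^ 2 * (c / N) :=
        mul_le_mul_of_nonneg_left h3 (by positivity)
      linarith
  · have hcz : c < (1 - δ) * z := by linarith
    have h1 := chern_upper (fun v : V => lam v = some α) s2 ((1 - δ) * (z / N)) (δ * (z / N) / 2)
      (by
        rw [hprP, ← mul_div_assoc]
        exact div_le_div_of_nonneg_right hcz.le hN.le) (by positivity) (by nlinarith)
    refine (sd_pr_mono fun S hS => ?_).trans (h1.trans ?_)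
    · have key : ∀ T : Finset (Fin s2), (∀ i, i ∈ T ↔ lam (S i) = some α) →
          (s2 : ℝ) * ((1 - δ) * (z / N) + δ * (z / N) / 2) ≤ (T.card : ℝ) := by
        intro T hT
        have h2 := (abs_le.1 (hcnt S hS T hT)).1
        have h3 : (s2 : ℝ) * ((1 - δ) * (z / N) + δ * (z / N) / 2) = s2 * z * (1 - δ / 2) / N := by
          field_simp
          ring
        rw [h3, div_le_iff₀ hN]
        have h9 : (s2 : ℝ) * z * (1 - δ / 2) = s2 * z - δ / 2 * (s2 * z) := by ring
        linarith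
      exact key _ (fun i => by simp)
    · refine (Real.exp_le_exp.2 ?_).trans sd_exp2
      have hd1 : 0 < 1 - δ := by linarith
      have h2 : (s2 : ℝ) * (δ * (z / N) / 2) ^ 2 / (4 * ((1 - δ) * (z / N))) =
          s2 * δ ^ 2 * (z / N) / (16 * (1 - δ)) := by
        field_simp
        ring
      rw [h2]
      have h3 : 2 ≤ (s2 : ℝ) * δ ^ 2 * (z / N) / (16 * (1 - δ)) := by
        rw [le_div_iff₀ (by positivity)]
        nlinarith
      linarith


theorem soundness {N : ℕ} {F R1 R2 : Type} [Fintype F] [Nonempty F] [AddGroup F] [Fintype R1]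
    [Fintype R2] [Nonempty R1] [Nonempty R2] {l : ℕ}
    (code : (F × R1) ⊕ (F × R2) → Fin (l + 1) → Bool) (b a1 a2 W : ℕ) (hb : 1 ≤ b) (hW : 1 ≤ W)
    (h1 : a1 * (Fintype.card F * Fintype.card R1) = b)
    (h2 : a2 * (Fintype.card F * Fintype.card R2) = b) (hN : N = W * mu l * b)
    (ε : ℝ) (hε0 : 0 < ε) (hε : ε * (W : ℝ) ^ 2 ≤ 16)
    (s2 s3 t3 sA sB : ℕ)
    (hs2 : ∀ α : Fin (l + 1) ⊕ ((F × R1) ⊕ (F × R2)),
      128 * (N : ℝ) ≤ s2 * (ε * (W : ℝ) ^ 2 / 64) ^ 2 * sz b a1 a2 α)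
    (hs3 : 4 ≤ s3 * ε)
    (ht3 : 64 ≤ t3 * (ε * (W : ℝ) ^ 2 * (mu l : ℝ) ^ 2))
    (hsA : (1 - 3 / 4 * (a1 : ℝ) / N) ^ sA ≤ 1 / (4 * Fintype.card F))
    (hsB : (1 - 3 / 4 * (a2 : ℝ) / N) ^ sB ≤ 1 / (4 * Fintype.card F))
    (G : SimpleGraph (Fin N)) (hG : Far (Tm code b a1 a2) ε G)
    (lam : Fin N → Lb l (F × R1) (F × R2)) :
    pr (fun ω : (Fin s2 → Fin N) × (Fin s3 → Fin N × Fin N) ×
        (Fin t3 → Trial (Fin N) F R1 R2 sA sB) =>
      T1 b a1 a2 (ε * (W : ℝ) ^ 2 / 64) lam ω.1 ∧ T2 code (orc G) lam ω.2.1 ∧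
        ∀ i, T3 (orc G) lam (ω.2.2 i)) ≤ 1 / 3 := by
  classical
  have hmu : 2 ≤ mu l := by unfold mu; nlinarith [Nat.zero_le ((l + 1) * (l + 2))]
  have hNpos : 0 < N := by
    rw [hN]
    have : 0 < mu l := by omega
    positivity
  haveI : Nonempty (Fin N) := ⟨⟨0, hNpos⟩⟩
  have hNR : (0 : ℝ) < N := by exact_mod_cast hNpos
  have hWR : (0 : ℝ) < W := by exact_mod_cast hW
  have hNeq : (N : ℝ) = W * mu l * b := by rw [hN]; push_cast; ring
  set δ : ℝ := ε * (W : ℝ) ^ 2 / 64 with hδdef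
  have hδ0 : 0 < δ := by positivity
  have hδ : δ ≤ 1 / 4 := by rw [hδdef]; linarith
  by_cases ha : ∀ α : Fin (l + 1) ⊕ ((F × R1) ⊕ (F × R2)),
      |(cls lam (some α) : ℝ) - sz b a1 a2 α| ≤ δ * sz b a1 a2 α
  swap
  · push Not at ha
    obtain ⟨α, hα⟩ := ha
    refine (sd_pr_mono (Q := fun ω => T1 b a1 a2 δ lam ω.1) fun ω hω => hω.1).trans ?_
    refine (sd_pr_fst (A := Fin s2 → Fin N) (B := (Fin s3 → Fin N × Fin N) ×
      (Fin t3 → Trial (Fin N) F R1 R2 sA sB)) (fun S => T1 b a1 a2 δ lam S)).trans ?_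
    refine sd_T1 b a1 a2 δ hδ0 hδ lam s2 α ?_ (not_le.2 hα)
    rw [Fintype.card_fin]
    exact hs2 α
  by_cases hb' : ((univ.filter fun p : Fin N × Fin N =>
      mis code (orc G) lam p.1 p.2).card : ℝ) ≤ ε * (N : ℝ) ^ 2 / 2
  swap
  · push Not at hb'
    refine (sd_pr_mono (Q := fun ω => T2 code (orc G) lam ω.2.1) fun ω hω => hω.2.1).trans ?_
    refine (sd_pr_snd (A := Fin s2 → Fin N) (B := (Fin s3 → Fin N × Fin N) ×
      (Fin t3 → Trial (Fin N) F R1 R2 sA sB)) (fun ω => T2 code (orc G) lam ω.1)).trans ?_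
    refine (sd_pr_fst (A := Fin s3 → Fin N × Fin N)
      (B := Fin t3 → Trial (Fin N) F R1 R2 sA sB) (fun ω => T2 code (orc G) lam ω)).trans ?_
    refine sd_pi_bound (fun q : Fin N × Fin N => ¬ mis code (orc G) lam q.1 q.2) s3 (ε / 2) ?_
      (by linarith)
    have h3 : pr (fun q : Fin N × Fin N => ¬ ¬ mis code (orc G) lam q.1 q.2) =
        ((univ.filter fun p : Fin N × Fin N => mis code (orc G) lam p.1 p.2).card : ℝ) /
          (N : ℝ) ^ 2 := by
      rw [sd_pr_eq (fun q : Fin N × Fin N => ¬ ¬ mis code (orc G) lam q.1 q.2)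
        (univ.filter fun p : Fin N × Fin N => mis code (orc G) lam p.1 p.2) (fun q => by simp),
        Fintype.card_prod, Fintype.card_fin]
      push_cast
      rw [sq]
    rw [h3, le_div_iff₀ (by positivity)]
    linarith
  have hszpos : ∀ α, 0 < sz (l := l) (A := F × R1) (B := F × R2) b a1 a2 α := by
    intro α
    by_contra hc
    have h0 : sz (l := l) (A := F × R1) (B := F × R2) b a1 a2 α = 0 := by omega
    have := hs2 α
    rw [h0] at this
    simp at this
    linarith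
  have hKpos : (0 : ℝ) < Fintype.card F := by exact_mod_cast Fintype.card_pos
  have hR1pos : (0 : ℝ) < Fintype.card R1 := by exact_mod_cast Fintype.card_pos
  have hR2pos : (0 : ℝ) < Fintype.card R2 := by exact_mod_cast Fintype.card_pos
  have ha1pos : 0 < a1 := by
    rcases Nat.eq_zero_or_pos a1 with h0 | h0
    · rw [h0, zero_mul] at h1; omega
    · exact h0
  have ha2pos : 0 < a2 := by
    rcases Nat.eq_zero_or_pos a2 with h0 | h0
    · rw [h0, zero_mul] at h2; omega
    · exact h0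
  have ha1R : (0 : ℝ) < a1 := by exact_mod_cast ha1pos
  have ha2R : (0 : ℝ) < a2 := by exact_mod_cast ha2pos
  by_cases hc : 16 * (Fintype.card F : ℝ) * a1 * a2 * ∑ β : F × R1 × R2, rej (orc G) lam β ≤
      ε * (N : ℝ) ^ 2
  swap
  · push Not at hc
    have hcls_le : ∀ α : Lb l (F × R1) (F × R2), (cls lam α : ℝ) ≤ N := by
      intro α
      have : cls lam α ≤ Fintype.card (Fin N) := card_le_univ _
      rw [Fintype.card_fin] at this
      exact_mod_cast this
    have hside : ∀ (α : Fin (l + 1) ⊕ ((F × R1) ⊕ (F × R2))) (a s : ℕ), 0 < a →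
        sz b a1 a2 α = a → (1 - 3 / 4 * (a : ℝ) / N) ^ s ≤ 1 / (4 * Fintype.card F) →
        0 < cls lam (some α) ∧ (1 - (cls lam (some α) : ℝ) / Fintype.card (Fin N)) ^ s ≤
          1 / (4 * Fintype.card F) := by
      intro α a s ha0 hsz hs
      have h3 := ha α
      rw [hsz] at h3
      have haR : (0 : ℝ) < a := by exact_mod_cast ha0
      have h4 : 3 / 4 * (a : ℝ) ≤ cls lam (some α) := by
        have := (abs_le.1 h3).1
        nlinarith
      constructor
      · have : (0 : ℝ) < cls lam (some α) := by nlinarith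
        exact_mod_cast this
      · rw [Fintype.card_fin]
        refine (pow_le_pow_left₀ ?_ ?_ s).trans hs
        · rw [sub_nonneg, div_le_one hNR]
          exact hcls_le _
        · have : 3 / 4 * (a : ℝ) / N ≤ (cls lam (some α) : ℝ) / N :=
            div_le_div_of_nonneg_right h4 hNR.le
          linarith
    have htr := trial_rej (sA := sA) (sB := sB) (orc G) lam
      (fun x => hside (Sum.inr (Sum.inl x)) a1 sA ha1pos rfl hsA)
      (fun y => hside (Sum.inr (Sum.inr y)) a2 sB ha2pos rfl hsB)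
    refine (sd_pr_mono (Q := fun ω => ∀ i, T3 (orc G) lam (ω.2.2 i)) fun ω hω => hω.2.2).trans ?_
    refine (sd_pr_snd (A := Fin s2 → Fin N) (B := (Fin s3 → Fin N × Fin N) ×
      (Fin t3 → Trial (Fin N) F R1 R2 sA sB)) (fun ω => ∀ i, T3 (orc G) lam (ω.2 i))).trans ?_
    refine (sd_pr_snd (A := Fin s3 → Fin N × Fin N)
      (B := Fin t3 → Trial (Fin N) F R1 R2 sA sB) (fun ω => ∀ i, T3 (orc G) lam (ω i))).trans ?_
    refine sd_pi_bound (fun t : Trial (Fin N) F R1 R2 sA sB => T3 (orc G) lam t) t3 _ htr ?_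
    have e1 : (a1 : ℝ) * (Fintype.card F * Fintype.card R1) = b := by exact_mod_cast h1
    have e2 : (a2 : ℝ) * (Fintype.card F * Fintype.card R2) = b := by exact_mod_cast h2
    have hbR : (0 : ℝ) < b := by exact_mod_cast hb
    set sr : ℝ := ∑ β : F × R1 × R2, rej (orc G) lam β with hsr
    have e3 : ε * (W : ℝ) ^ 2 * (mu l : ℝ) ^ 2 / 32 ≤
        sr / (2 * (Fintype.card F * Fintype.card R1 * Fintype.card R2 : ℝ)) := by
      rw [div_le_div_iff₀ (by norm_num) (by positivity)]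
      have e4 : ε * (N : ℝ) ^ 2 = ε * (W : ℝ) ^ 2 * (mu l : ℝ) ^ 2 *
          ((a1 : ℝ) * (Fintype.card F * Fintype.card R1)) *
          ((a2 : ℝ) * (Fintype.card F * Fintype.card R2)) := by
        rw [e1, e2, hNeq]; ring
      have e5 : (0 : ℝ) < Fintype.card F * a1 * a2 := by positivity
      have e6 : (Fintype.card F * a1 * a2 : ℝ) * (ε * (W : ℝ) ^ 2 * (mu l : ℝ) ^ 2 *
          (2 * (Fintype.card F * Fintype.card R1 * Fintype.card R2 : ℝ))) ≤
          (Fintype.card F * a1 * a2 : ℝ) * (sr * 32) := by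
        have e8 : (Fintype.card F * a1 * a2 : ℝ) * (ε * (W : ℝ) ^ 2 * (mu l : ℝ) ^ 2 *
            (2 * (Fintype.card F * Fintype.card R1 * Fintype.card R2 : ℝ))) =
            2 * (ε * (N : ℝ) ^ 2) := by
          rw [e4]; ring
        have e9 : (Fintype.card F * a1 * a2 : ℝ) * (sr * 32) =
            2 * (16 * (Fintype.card F : ℝ) * a1 * a2 * sr) := by ring
        rw [e8, e9]
        linarith
      exact le_of_mul_le_mul_left e6 e5
    have ht0 : (0 : ℝ) ≤ t3 := by positivity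
    have e7 := mul_le_mul_of_nonneg_left e3 ht0
    linarith
  exfalso
  obtain ⟨H, hH, hod⟩ := close_of_small code b a1 a2 hb h1 h2 (by
    rw [hN, mul_assoc]
    exact Nat.le_mul_of_pos_left _ hW) G lam δ hδ0.le hδ ha
  have hfar := hG H hH
  have hdd : 2 * (diff G H : ℝ) ≤ odiff (orc G) (orc H) := by exact_mod_cast sd_diff G H
  have e1 : 6 * δ * (mu l * b : ℝ) ^ 2 = 6 / 64 * (ε * (N : ℝ) ^ 2) := by
    rw [hδdef, hNeq]; ring
  rw [e1] at hod
  have hpos : 0 < ε * (N : ℝ) ^ 2 := by positivity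
  linarith

end Pool.Agent.Helper116.AG
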