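import Pool.Agent.Helper116.AG.Defs2
import Pool.Agent.Helper116.AG.J11

set_option autoImplicit false
open Finset
open scoped Classical

noncomputable section

namespace Pool.Agent.Helper116.AG

variable {F R1 R2 : Type}






/-! ### auxiliary lemmas for `rho_good` -/

theorem rg_pr_eq {Ω : Type} [Fintype Ω] (P : Ω → Prop) [DecidablePred P] :
    pr P = ((univ.filter fun ω => P ω).card : ℝ) / (Fintype.card Ω : ℝ) := by
  unfold pr
  congr!

theorem rg_pr_mono {Ω : Type} [Fintype Ω] {P Q : Ω → Prop} (h : ∀ ω, P ω → Q ω) : pr P ≤ pr Q := by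
  unfold pr
  apply div_le_div_of_nonneg_right _ (Nat.cast_nonneg _)
  exact_mod_cast Finset.card_le_card (fun ω hω => by
    rw [Finset.mem_filter] at hω ⊢
    exact ⟨hω.1, h ω hω.2⟩)

theorem rg_pr_or {Ω : Type} [Fintype Ω] (P Q : Ω → Prop) :
    pr (fun ω => P ω ∨ Q ω) ≤ pr P + pr Q := by
  rw [rg_pr_eq (fun ω => P ω ∨ Q ω)]
  unfold pr
  rw [← add_div]
  apply div_le_div_of_nonneg_right _ (Nat.cast_nonneg _)
  have h : (univ.filter fun ω => P ω ∨ Q ω) ⊆ (univ.filter fun ω => P ω) ∪
      (univ.filter fun ω => Q ω) := by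
    intro ω hω
    rw [Finset.mem_filter] at hω
    rw [Finset.mem_union, Finset.mem_filter, Finset.mem_filter]
    rcases hω.2 with h | h
    · exact Or.inl ⟨hω.1, h⟩
    · exact Or.inr ⟨hω.1, h⟩
  have h2 := (Finset.card_le_card h).trans (Finset.card_union_le _ _)
  have h3 : (((univ.filter fun ω => P ω ∨ Q ω).card : ℕ) : ℝ) ≤
      (((univ.filter fun ω => P ω).card + (univ.filter fun ω => Q ω).card : ℕ) : ℝ) :=
    Nat.cast_le.2 h2
  rw [Nat.cast_add] at h3
  exact h3

theorem rg_pr_exists {Ω ι : Type} [Fintype Ω] [Fintype ι] (P : ι → Ω → Prop) :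
    pr (fun ω => ∃ k, P k ω) ≤ ∑ k, pr (P k) := by
  rw [rg_pr_eq (fun ω => ∃ k, P k ω)]
  unfold pr
  rw [← Finset.sum_div]
  apply div_le_div_of_nonneg_right _ (Nat.cast_nonneg _)
  have h : (univ.filter fun ω => ∃ k, P k ω) ⊆ univ.biUnion fun k => univ.filter fun ω => P k ω := by
    intro ω hω
    rw [Finset.mem_filter] at hω
    obtain ⟨k, hk⟩ := hω.2
    rw [Finset.mem_biUnion]
    exact ⟨k, Finset.mem_univ _, Finset.mem_filter.2 ⟨hω.1, hk⟩⟩
  have h2 := (Finset.card_le_card h).trans Finset.card_biUnion_le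
  have h3 : (((univ.filter fun ω => ∃ k, P k ω).card : ℕ) : ℝ) ≤
      ((∑ k, (univ.filter fun ω => P k ω).card : ℕ) : ℝ) := Nat.cast_le.2 h2
  rw [Nat.cast_sum] at h3
  exact h3

theorem rg_pr_prod1 {A B : Type} [Fintype A] [Fintype B] (E : A × B → Prop) (c : ℝ) (hc : 0 ≤ c)
    (h : ∀ a, pr (fun b => E (a, b)) ≤ c) : pr E ≤ c := by
  unfold pr at h ⊢
  rcases Nat.eq_zero_or_pos (Fintype.card (A × B)) with h0 | h0
  · rw [h0, Nat.cast_zero, div_zero]
    exact hc
  rw [Fintype.card_prod] at h0 ⊢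
  have hB : (0 : ℝ) < Fintype.card B := by
    have : 0 < Fintype.card B := Nat.pos_of_mul_pos_left h0 |> fun _ => by
      rcases Nat.eq_zero_or_pos (Fintype.card B) with h1 | h1
      · rw [h1, mul_zero] at h0
        omega
      · exact h1
    exact_mod_cast this
  have hAB : (0 : ℝ) < ((Fintype.card A * Fintype.card B : ℕ) : ℝ) := by exact_mod_cast h0
  rw [div_le_iff₀ hAB, Finset.card_filter, Fintype.sum_prod_type]
  push_cast
  have h1 : ∀ a, (∑ b, (if E (a, b) then (1 : ℝ) else 0)) ≤ c * Fintype.card B := by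
    intro a
    have h2 := h a
    rw [div_le_iff₀ hB, Finset.card_filter] at h2
    push_cast at h2
    exact h2
  calc ∑ a, ∑ b, (if E (a, b) then (1 : ℝ) else 0) ≤ ∑ _a : A, c * Fintype.card B :=
        Finset.sum_le_sum fun a _ => h1 a
    _ = c * (Fintype.card A * Fintype.card B) := by
        rw [Finset.sum_const, Finset.card_univ, nsmul_eq_mul]
        ring

theorem rg_pr_prod2 {A B : Type} [Fintype A] [Fintype B] (E : A × B → Prop) (c : ℝ) (hc : 0 ≤ c)
    (h : ∀ b, pr (fun a => E (a, b)) ≤ c) : pr E ≤ c := by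
  have h1 := rg_pr_prod1 (fun q : B × A => E (q.2, q.1)) c hc h
  have h2 : pr E = pr (fun q : B × A => E (q.2, q.1)) := by
    unfold pr
    congr 1
    · congr 1
      apply Finset.card_bij (fun q _ => (q.2, q.1))
      · intro q hq
        rw [Finset.mem_filter] at hq ⊢
        exact ⟨Finset.mem_univ _, hq.2⟩
      · rintro ⟨a, b⟩ _ ⟨a', b'⟩ _ hh
        simp only [Prod.mk.injEq] at hh ⊢
        exact ⟨hh.2, hh.1⟩
      · rintro ⟨b, a⟩ hq
        rw [Finset.mem_filter] at hq
        exact ⟨(a, b), Finset.mem_filter.2 ⟨Finset.mem_univ _, hq.2⟩, rfl⟩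
    · rw [Fintype.card_prod, Fintype.card_prod, mul_comm]
  rw [h2]
  exact h1

/-- all samples avoid a set -/
theorem rg_pr_avoid {N : ℕ} (Q : Fin N → Prop) (r c : ℕ) (hN : 0 < N) (hcN : c ≤ N)
    (hc : c ≤ (univ.filter fun v => Q v).card) :
    pr (fun R : Fin (r + 1) → Fin N => ∀ k, ¬ Q (R k)) ≤ (1 - (c : ℝ) / N) ^ (r + 1) := by
  rw [rg_pr_eq (fun R : Fin (r + 1) → Fin N => ∀ k, ¬ Q (R k))]
  have hN' : (0 : ℝ) < N := by exact_mod_cast hN
  have h1 : (univ.filter fun R : Fin (r + 1) → Fin N => ∀ k, ¬ Q (R k)) =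
      Fintype.piFinset fun _ : Fin (r + 1) => univ.filter fun v => ¬ Q v := by
    ext R
    simp [Fintype.mem_piFinset]
  rw [h1, Fintype.card_piFinset_const, Fintype.card_fun, Fintype.card_fin, Fintype.card_fin]
  have h2 : (univ.filter fun v => ¬ Q v).card + (univ.filter fun v => Q v).card = N := by
    have h3 := Finset.card_filter_add_card_filter_not (s := (univ : Finset (Fin N)))
      (fun v => Q v)
    rw [Finset.card_univ, Fintype.card_fin] at h3
    rw [add_comm]
    exact h3
  have h3 : ((univ.filter fun v => ¬ Q v).card : ℝ) ≤ N - c := by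
    have h4 : (univ.filter fun v => ¬ Q v).card + c ≤ N := by omega
    have h5 : (((univ.filter fun v => ¬ Q v).card + c : ℕ) : ℝ) ≤ N := by exact_mod_cast h4
    push_cast at h5
    linarith
  push_cast
  rw [← div_pow]
  apply pow_le_pow_left₀ (by positivity)
  rw [div_le_iff₀ hN', sub_mul, one_mul, div_mul_cancel₀ _ hN'.ne']
  exact h3

/-- number of vertices with a label in a family -/
theorem rg_card_fam {N : ℕ} {A B T : Type} [Fintype T] {l : ℕ} {b a1 a2 : ℕ}
    (lam : Fin N → Lb l A B) (hs : Sized b a1 a2 lam) (φ : T → Fin (l + 1) ⊕ (A ⊕ B))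
    (hφ : Function.Injective φ) (P : Fin N → Prop) [DecidablePred P]
    (hP : ∀ x, P x ↔ ∃ t, lam x = some (φ t)) :
    (univ.filter fun x => P x).card = ∑ t, sz b a1 a2 (φ t) := by
  have h1 : (univ.filter fun x => P x) =
      univ.biUnion fun t => univ.filter fun x => lam x = some (φ t) := by
    ext x
    simp [hP]
  rw [h1, Finset.card_biUnion]
  · apply Finset.sum_congr rfl
    intro t _
    exact hs (φ t)
  · intro t _ t' _ hne
    rw [Function.onFun, Finset.disjoint_left]
    intro x hx hx'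
    rw [Finset.mem_filter] at hx hx'
    apply hne
    apply hφ
    have := hx.2.symm.trans hx'.2
    exact Option.some.inj this

theorem rg_hsz {N : ℕ} {A B : Type} {l : ℕ} {b a1 a2 : ℕ}
    (lam : Fin N → Lb l A B) (hs : Sized b a1 a2 lam) (j : Fin (l + 1)) (P : Fin N → Prop)
    [DecidablePred P] (hP : ∀ x, P x ↔ lam x = some (Sum.inl j)) :
    (univ.filter fun x => P x).card = 4 * (j.val + 1) * b := by
  have h := hs (Sum.inl j)
  have h2 : (univ.filter fun x => P x).card = cls lam (some (Sum.inl j)) := by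
    unfold cls
    congr 1
    ext x
    simp [hP]
  rw [h2, h]
  rfl

theorem rg_sum_inr {F R1 R2 : Type} [Fintype F] [Fintype R1] [Fintype R2] {l b a1 a2 : ℕ}
    (h1 : a1 * (Fintype.card F * Fintype.card R1) = b)
    (h2 : a2 * (Fintype.card F * Fintype.card R2) = b) :
    ∑ t : (F × R1) ⊕ (F × R2), sz (l := l) b a1 a2 (Sum.inr t) = 2 * b := by
  rw [Fintype.sum_sum_type]
  simp only [sz, Finset.sum_const, Finset.card_univ, Fintype.card_prod, smul_eq_mul]
  have e1 : Fintype.card F * Fintype.card R1 * a1 = b := by rw [mul_comm]; exact h1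
  have e2 : Fintype.card F * Fintype.card R2 * a2 = b := by rw [mul_comm]; exact h2
  rw [e1, e2]
  ring

theorem rg_sum_all {F R1 R2 : Type} [Fintype F] [Fintype R1] [Fintype R2] {l b a1 a2 : ℕ}
    (h1 : a1 * (Fintype.card F * Fintype.card R1) = b)
    (h2 : a2 * (Fintype.card F * Fintype.card R2) = b) :
    ∑ t : Fin (l + 1) ⊕ ((F × R1) ⊕ (F × R2)), sz b a1 a2 t = mu l * b := by
  rw [Fintype.sum_sum_type, rg_sum_inr h1 h2]
  have h3 : ∑ j : Fin (l + 1), sz (A := F × R1) (B := F × R2) b a1 a2 (Sum.inl j) =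
      2 * ((l + 1) * (l + 2)) * b := by
    simp only [sz]
    rw [Fin.sum_univ_eq_sum_range (fun j => 4 * (j + 1) * b) (l + 1)]
    have h4 : ∀ n : ℕ, ∑ j ∈ Finset.range n, 4 * (j + 1) * b = 2 * (n * (n + 1)) * b := by
      intro n
      induction n with
      | zero => simp
      | succ n ih => rw [Finset.sum_range_succ, ih]; ring
    rw [h4]
  rw [h3]
  unfold mu
  ring

/-- degree -/
def rgdeg {N : ℕ} (O : Orc (Fin N)) (v : Fin N) : ℕ := (univ.filter fun x => O v x = true).card

/-- accuracy of the degree estimate -/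
def rgacc {N s1 : ℕ} (b : ℕ) (O : Orc (Fin N)) (D : Fin s1 → Fin N) (v : Fin N) : Prop :=
  |((univ.filter fun i => O v (D i) = true).card : ℝ) * N - (rgdeg O v : ℝ) * s1| < (b : ℝ) / 2 * s1

theorem rg_acc_pr {N : ℕ} (O : Orc (Fin N)) (v : Fin N) (b X s1 : ℕ) (hb : 1 ≤ b)
    (hN : 0 < N) (hbX : b ≤ X) (hdeg : rgdeg O v ≤ X) :
    pr (fun D : Fin s1 → Fin N => ¬ rgacc b O D v) ≤
      2 * Real.exp (-(s1 * (b : ℝ) ^ 2 / (16 * N * X))) := by
  have : Nonempty (Fin N) := ⟨v⟩
  have hN' : (0 : ℝ) < N := by exact_mod_cast hN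
  have hb' : (0 : ℝ) < b := by exact_mod_cast hb
  have hbX' : (b : ℝ) ≤ X := by exact_mod_cast hbX
  have hX' : (0 : ℝ) < X := hb'.trans_le hbX'
  have hs0 : (0 : ℝ) ≤ s1 := Nat.cast_nonneg _
  have hd' : (rgdeg O v : ℝ) ≤ X := by exact_mod_cast hdeg
  have hd0 : (0 : ℝ) ≤ rgdeg O v := Nat.cast_nonneg _
  set d : ℝ := (rgdeg O v : ℝ) with hd
  have hprP : pr (fun x => O v x = true) = d / N := by
    unfold pr
    rw [Fintype.card_fin, hd]
    unfold rgdeg
    congr!
  -- upper deviations
  have hup : pr (fun D : Fin s1 → Fin N =>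
      (s1 : ℝ) * (d / N + b / (2 * N)) ≤ ((univ.filter fun i => O v (D i) = true).card : ℝ)) ≤
      Real.exp (-(s1 * (b : ℝ) ^ 2 / (16 * N * X))) := by
    rcases le_or_gt (b / 4 : ℝ) d with hc | hc
    · have h1 := chern_upper (fun x => O v x = true) s1 (d / N) (b / (2 * N)) hprP.le
        (by positivity) (by
          rw [div_le_iff₀ (by positivity)]
          have : 2 * (d / N) * (2 * N) = 4 * d := by field_simp; ring
          rw [this]; linarith)
      have hd0' : 0 < d := by linarith
      have h2 : Real.exp (-(s1 * (b / (2 * N)) ^ 2 / (4 * (d / N)))) ≤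
          Real.exp (-(s1 * (b : ℝ) ^ 2 / (16 * N * X))) := by
        apply Real.exp_le_exp.2
        apply neg_le_neg
        have e1 : (s1 : ℝ) * (b / (2 * N)) ^ 2 / (4 * (d / N)) = s1 * (b : ℝ) ^ 2 / (16 * N * d) := by
          field_simp
          ring
        rw [e1]
        apply div_le_div_of_nonneg_left (by positivity) (by positivity)
        gcongr
      refine le_trans ?_ (h1.trans h2)
      apply rg_pr_mono
      intro D hD
      convert hD
    · have h1 := chern_upper (fun x => O v x = true) s1 (b / (4 * N)) (d / N + b / (4 * N))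
        (by
          rw [hprP, div_le_div_iff₀ hN' (by positivity)]
          nlinarith) (by positivity) (by
          have : d / N ≤ b / (4 * N) := by
            rw [div_le_div_iff₀ hN' (by positivity)]
            nlinarith
          linarith)
      have h2 : Real.exp (-(s1 * (d / N + b / (4 * N)) ^ 2 / (4 * (b / (4 * N))))) ≤
          Real.exp (-(s1 * (b : ℝ) ^ 2 / (16 * N * X))) := by
        apply Real.exp_le_exp.2
        apply neg_le_neg
        calc (s1 : ℝ) * (b : ℝ) ^ 2 / (16 * N * X) ≤ (s1 : ℝ) * (b : ℝ) ^ 2 / (16 * N * b) := by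
              apply div_le_div_of_nonneg_left (by positivity) (by positivity)
              gcongr
          _ = (s1 : ℝ) * ((b : ℝ) / (4 * N)) ^ 2 / (4 * ((b : ℝ) / (4 * N))) := by
              field_simp
              ring
          _ ≤ (s1 : ℝ) * (d / N + b / (4 * N)) ^ 2 / (4 * ((b : ℝ) / (4 * N))) := by
              apply div_le_div_of_nonneg_right _ (by positivity)
              apply mul_le_mul_of_nonneg_left _ hs0
              apply pow_le_pow_left₀ (by positivity)
              have : 0 ≤ d / N := by positivity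
              linarith
      refine le_trans ?_ (h1.trans h2)
      apply rg_pr_mono
      intro D hD
      have e2 : (b : ℝ) / (4 * N) + (d / N + b / (4 * N)) = d / N + b / (2 * N) := by
        field_simp
        ring
      rw [e2]
      convert hD
  -- lower deviations
  have hlo : pr (fun D : Fin s1 → Fin N =>
      ((univ.filter fun i => O v (D i) = true).card : ℝ) ≤ (s1 : ℝ) * (d / N - b / (2 * N))) ≤
      Real.exp (-(s1 * (b : ℝ) ^ 2 / (16 * N * X))) := by
    have h1 := chern_lower (fun x => O v x = true) s1 (X / N) (d / N) (b / (2 * N))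
      (by rw [hprP]; gcongr) hprP.ge (by positivity) (by
        rw [div_le_iff₀ (by positivity)]
        have : 2 * ((X : ℝ) / N) * (2 * N) = 4 * X := by field_simp; ring
        rw [this]; linarith)
    have e1 : (s1 : ℝ) * (b / (2 * N)) ^ 2 / (4 * (X / N)) = s1 * (b : ℝ) ^ 2 / (16 * N * X) := by
      field_simp
      ring
    rw [e1] at h1
    refine le_trans ?_ h1
    apply rg_pr_mono
    intro D hD
    convert hD
  calc pr (fun D : Fin s1 → Fin N => ¬ rgacc b O D v)
      ≤ pr (fun D : Fin s1 → Fin N =>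
        ((s1 : ℝ) * (d / N + b / (2 * N)) ≤ ((univ.filter fun i => O v (D i) = true).card : ℝ)) ∨
        ((univ.filter fun i => O v (D i) = true).card : ℝ) ≤ (s1 : ℝ) * (d / N - b / (2 * N))) := by
        apply rg_pr_mono
        intro D hD
        unfold rgacc at hD
        rw [not_lt, le_abs] at hD
        rcases hD with h | h
        · left
          have e1 : (s1 : ℝ) * (d / N + b / (2 * N)) = (d * s1 + b / 2 * s1) / N := by
            field_simp
          rw [e1, div_le_iff₀ hN']
          linarith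
        · right
          have e1 : (s1 : ℝ) * (d / N - b / (2 * N)) = (d * s1 - b / 2 * s1) / N := by
            field_simp
          rw [e1, le_div_iff₀ hN']
          linarith
    _ ≤ _ := rg_pr_or _ _
    _ ≤ Real.exp (-(s1 * (b : ℝ) ^ 2 / (16 * N * X))) +
        Real.exp (-(s1 * (b : ℝ) ^ 2 / (16 * N * X))) := add_le_add hup hlo
    _ = _ := by ring

section rgdegsec

variable {N : ℕ} {l : ℕ} [Fintype F] [Fintype R1] [Fintype R2]

theorem rg_orc {A B : Type} (code : A ⊕ B → Fin (l + 1) → Bool) (g : A → B → ZMod 2)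
    (lam : Fin N → Lb l A B) (u v : Fin N) :
    orc (gr code g lam) u v = true ↔ u ≠ v ∧ tmpl code g (lam u) (lam v) = true := by
  unfold orc
  rw [decide_eq_true_iff]
  rfl

theorem rg_tmpl_none {A B : Type} (code : A ⊕ B → Fin (l + 1) → Bool) (g : A → B → ZMod 2)
    (a : Lb l A B) : tmpl code g a none = false := by
  rcases a with _ | (i | (x | y)) <;> rfl

theorem rg_deg_none {A B : Type} (code : A ⊕ B → Fin (l + 1) → Bool) (g : A → B → ZMod 2)
    (lam : Fin N → Lb l A B) (v : Fin N) (hv : lam v = none) :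
    rgdeg (orc (gr code g lam)) v = 0 := by
  unfold rgdeg
  rw [Finset.card_eq_zero, Finset.filter_eq_empty_iff]
  intro x _ h
  rw [rg_orc, hv] at h
  exact absurd h.2 (by simp [tmpl])

theorem rg_deg_le (code : (F × R1) ⊕ (F × R2) → Fin (l + 1) → Bool)
    (g : F × R1 → F × R2 → ZMod 2) (lam : Fin N → Lb l (F × R1) (F × R2)) {b a1 a2 : ℕ}
    (hs : Sized b a1 a2 lam)
    (h1 : a1 * (Fintype.card F * Fintype.card R1) = b)
    (h2 : a2 * (Fintype.card F * Fintype.card R2) = b) (v : Fin N) :
    rgdeg (orc (gr code g lam)) v ≤ mu l * b := by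
  rw [← rg_sum_all (l := l) h1 h2]
  have h3 := rg_card_fam lam hs (fun t : Fin (l + 1) ⊕ ((F × R1) ⊕ (F × R2)) => t)
    Function.injective_id (fun x => ∃ t, lam x = some t) (fun x => Iff.rfl)
  rw [← h3]
  unfold rgdeg
  apply Finset.card_le_card
  intro x hx
  rw [Finset.mem_filter] at hx ⊢
  refine ⟨hx.1, ?_⟩
  have h4 := (rg_orc code g lam v x).1 hx.2
  rcases hlx : lam x with _ | t
  · rw [hlx, rg_tmpl_none] at h4
    exact absurd h4.2 (by simp)
  · exact ⟨t, rfl⟩

theorem rg_deg_anchor (code : (F × R1) ⊕ (F × R2) → Fin (l + 1) → Bool)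
    (g : F × R1 → F × R2 → ZMod 2) (lam : Fin N → Lb l (F × R1) (F × R2)) {b a1 a2 : ℕ}
    (hs : Sized b a1 a2 lam)
    (h1 : a1 * (Fintype.card F * Fintype.card R1) = b)
    (h2 : a2 * (Fintype.card F * Fintype.card R2) = b) (v : Fin N) (j : Fin (l + 1))
    (hv : lam v = some (Sum.inl j)) :
    4 * (j.val + 1) * b ≤ rgdeg (orc (gr code g lam)) v + 1 ∧
    rgdeg (orc (gr code g lam)) v + 1 ≤ 4 * (j.val + 1) * b + 2 * b := by
  have hsz : (univ.filter fun x => lam x = some (Sum.inl j)).card = 4 * (j.val + 1) * b :=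
    rg_hsz lam hs j _ (fun x => Iff.rfl)
  have hinr := rg_card_fam lam hs (fun t : (F × R1) ⊕ (F × R2) => Sum.inr t) Sum.inr_injective
    (fun x => ∃ t : (F × R1) ⊕ (F × R2), lam x = some (Sum.inr t)) (fun x => Iff.rfl)
  rw [rg_sum_inr h1 h2] at hinr
  have hvn : v ∉ univ.filter fun x => orc (gr code g lam) v x = true := by
    rw [Finset.mem_filter, rg_orc]
    rintro ⟨-, h, -⟩
    exact h rfl
  constructor
  · rw [← hsz]
    unfold rgdeg
    rw [← Finset.card_insert_of_notMem hvn]
    apply Finset.card_le_card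
    intro x hx
    rw [Finset.mem_filter] at hx
    rw [Finset.mem_insert, Finset.mem_filter]
    by_cases hxv : x = v
    · exact Or.inl hxv
    · right
      refine ⟨Finset.mem_univ _, ?_⟩
      rw [rg_orc]
      refine ⟨Ne.symm hxv, ?_⟩
      rw [hv, hx.2]
      simp [tmpl]
  · rw [← hsz, ← hinr]
    unfold rgdeg
    rw [← Finset.card_insert_of_notMem hvn]
    refine le_trans (Finset.card_le_card ?_) (Finset.card_union_le _ _)
    intro x hx
    rw [Finset.mem_insert, Finset.mem_filter] at hx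
    rw [Finset.mem_union, Finset.mem_filter, Finset.mem_filter]
    rcases hx with rfl | ⟨-, hx⟩
    · exact Or.inl ⟨Finset.mem_univ _, hv⟩
    · rw [rg_orc, hv] at hx
      rcases hlx : lam x with _ | (i | y)
      · rw [hlx, rg_tmpl_none] at hx
        exact absurd hx.2 (by simp)
      · rw [hlx] at hx
        have h3 : j = i := by simpa [tmpl] using hx.2
        left
        exact ⟨Finset.mem_univ _, by rw [h3]⟩
      · right
        exact ⟨Finset.mem_univ _, y, rfl⟩

theorem rg_deg_side (code : (F × R1) ⊕ (F × R2) → Fin (l + 1) → Bool) (hc : GoodCode code)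
    (g : F × R1 → F × R2 → ZMod 2) (lam : Fin N → Lb l (F × R1) (F × R2)) {b a1 a2 : ℕ}
    (hs : Sized b a1 a2 lam) (v : Fin N) (x : (F × R1) ⊕ (F × R2))
    (hv : lam v = some (Sum.inr x)) :
    4 * (l + 1) * b + 4 * b ≤ rgdeg (orc (gr code g lam)) v := by
  obtain ⟨j', hj', hj't⟩ := hc.two x
  have hsz : ∀ j : Fin (l + 1), (univ.filter fun x => lam x = some (Sum.inl j)).card =
      4 * (j.val + 1) * b := fun j => rg_hsz lam hs j _ (fun x => Iff.rfl)
  have htm : ∀ j : Fin (l + 1), tmpl code g (some (Sum.inr x)) (some (Sum.inl j)) = code x j := by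
    intro j
    rcases x with x | x <;> rfl
  have hdisj : Disjoint (univ.filter fun x => lam x = some (Sum.inl (Fin.last l)))
      (univ.filter fun x => lam x = some (Sum.inl j')) := by
    rw [Finset.disjoint_left]
    intro w hw hw'
    rw [Finset.mem_filter] at hw hw'
    apply hj'
    have h := hw.2.symm.trans hw'.2
    exact (Sum.inl.inj (Option.some.inj h)).symm
  have hsub : (univ.filter fun x => lam x = some (Sum.inl (Fin.last l))) ∪
      (univ.filter fun x => lam x = some (Sum.inl j')) ⊆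
      univ.filter fun x => orc (gr code g lam) v x = true := by
    intro w hw
    rw [Finset.mem_union, Finset.mem_filter, Finset.mem_filter] at hw
    rw [Finset.mem_filter]
    refine ⟨Finset.mem_univ _, ?_⟩
    rw [rg_orc]
    rcases hw with ⟨-, hw⟩ | ⟨-, hw⟩
    · refine ⟨?_, ?_⟩
      · rintro rfl
        rw [hv] at hw
        simp at hw
      · rw [hv, hw, htm]
        exact hc.top x
    · refine ⟨?_, ?_⟩
      · rintro rfl
        rw [hv] at hw
        simp at hw
      · rw [hv, hw, htm]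
        exact hj't
  have hcard := Finset.card_le_card hsub
  rw [Finset.card_union_of_disjoint hdisj, hsz, hsz, Fin.val_last] at hcard
  have h3 : 4 * b ≤ 4 * (j'.val + 1) * b := by
    apply Nat.mul_le_mul_right
    omega
  unfold rgdeg
  omega

theorem rg_window (code : (F × R1) ⊕ (F × R2) → Fin (l + 1) → Bool) (hc : GoodCode code)
    (g : F × R1 → F × R2 → ZMod 2) (lam : Fin N → Lb l (F × R1) (F × R2)) {b a1 a2 : ℕ}
    (hs : Sized b a1 a2 lam) (hb : 3 ≤ b)
    (h1 : a1 * (Fintype.card F * Fintype.card R1) = b)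
    (h2 : a2 * (Fintype.card F * Fintype.card R2) = b) {s1 : ℕ} (hs1 : 1 ≤ s1)
    (D : Fin s1 → Fin N) (v : Fin N) (hacc : rgacc b (orc (gr code g lam)) D v)
    (j : Fin (l + 1)) :
    inWin b (orc (gr code g lam)) D v j ↔ lam v = some (Sum.inl j) := by
  set O := orc (gr code g lam) with hO
  have hS : (0 : ℝ) < s1 := by exact_mod_cast hs1
  have hb3 : (3 : ℝ) ≤ b := by exact_mod_cast hb
  set cnt : ℕ := (univ.filter fun i => O v (D i) = true).card with hcnt
  set e : ℝ := (cnt : ℝ) * N / s1 with he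
  have heS : (cnt : ℝ) * N = e * s1 := by
    rw [he]
    field_simp
  have hacc' : |e - rgdeg O v| < b / 2 := by
    unfold rgacc at hacc
    rw [← hcnt, heS, ← sub_mul, abs_mul, abs_of_pos hS] at hacc
    exact lt_of_mul_lt_mul_right hacc hS.le
  rw [abs_lt] at hacc'
  have hwin : inWin b O D v j ↔ 4 * ((j.val : ℝ) + 1) * b - b ≤ e ∧
      e ≤ 4 * ((j.val : ℝ) + 1) * b + 3 * b := by
    unfold inWin
    rw [Fintype.card_fin, ← hcnt]
    have hle : b ≤ 4 * (j.val + 1) * b := by
      calc b = 1 * b := (one_mul b).symm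
        _ ≤ 4 * (j.val + 1) * b := Nat.mul_le_mul_right _ (by omega)
    apply and_congr
    · rw [← Nat.cast_le (α := ℝ)]
      push_cast [Nat.cast_sub hle]
      rw [heS]
      exact mul_le_mul_iff_left₀ hS
    · rw [← Nat.cast_le (α := ℝ)]
      push_cast
      rw [heS]
      exact mul_le_mul_iff_left₀ hS
  rw [hwin]
  have hjb : (0 : ℝ) ≤ (j.val : ℝ) * b := by positivity
  rcases hlv : lam v with _ | (k | x)
  · have hd := rg_deg_none code g lam v hlv
    rw [← hO] at hd
    rw [hd, Nat.cast_zero] at hacc'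
    constructor
    · rintro ⟨h3, -⟩
      exfalso
      nlinarith
    · intro h
      simp at h
  · obtain ⟨h3, h4⟩ := rg_deg_anchor code g lam hs h1 h2 v k hlv
    rw [← hO] at h3 h4
    have h3' : 4 * ((k.val : ℝ) + 1) * b ≤ (rgdeg O v : ℝ) + 1 := by exact_mod_cast h3
    have h4' : (rgdeg O v : ℝ) + 1 ≤ 4 * ((k.val : ℝ) + 1) * b + 2 * b := by exact_mod_cast h4
    rcases lt_trichotomy k.val j.val with hkj | hkj | hkj
    · have h5 : (k.val : ℝ) + 1 ≤ j.val := by exact_mod_cast hkj
      have h6 : ((k.val : ℝ) + 1) * b ≤ j.val * b := by gcongr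
      constructor
      · rintro ⟨h7, -⟩
        exfalso
        nlinarith
      · intro h
        have h8 : k = j := Sum.inl.inj (Option.some.inj h)
        rw [h8] at hkj
        omega
    · have hk : k = j := Fin.ext hkj
      subst hk
      constructor
      · intro _
        rfl
      · intro _
        constructor
        · linarith
        · linarith
    · have h5 : (j.val : ℝ) + 1 ≤ k.val := by exact_mod_cast hkj
      have h6 : ((j.val : ℝ) + 1) * b ≤ k.val * b := by gcongr
      constructor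
      · rintro ⟨-, h7⟩
        exfalso
        nlinarith
      · intro h
        have h8 : k = j := Sum.inl.inj (Option.some.inj h)
        rw [h8] at hkj
        omega
  · have h3 := rg_deg_side code hc g lam hs v x hlv
    rw [← hO] at h3
    have h3' : 4 * ((l : ℝ) + 1) * b + 4 * b ≤ (rgdeg O v : ℝ) := by exact_mod_cast h3
    have hjl : (j.val : ℝ) ≤ l := by
      have := j.isLt
      have h5 : j.val ≤ l := by omega
      exact_mod_cast h5
    have h6 : (j.val : ℝ) * b ≤ l * b := by gcongr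
    constructor
    · rintro ⟨-, h7⟩
      exfalso
      nlinarith
    · intro h
      simp at h

end rgdegsec


theorem rho_good {N : ℕ} {F R1 R2 : Type} [Fintype F] [Nonempty F] [AddGroup F] [Fintype R1]
    [Fintype R2] {l : ℕ} (code : (F × R1) ⊕ (F × R2) → Fin (l + 1) → Bool) (hc : GoodCode code)
    (b a1 a2 : ℕ) (hb : 3 ≤ b)
    (h1 : a1 * (Fintype.card F * Fintype.card R1) = b)
    (h2 : a2 * (Fintype.card F * Fintype.card R2) = b) (hN : mu l * b ≤ N)
    (lam : Fin N → Lb l (F × R1) (F × R2)) (hs : Sized b a1 a2 lam)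
    (g : F × R1 → F × R2 → ZMod 2) (r s1 : ℕ) (hs1 : 1 ≤ s1)
    (hr : (l + 1 : ℝ) * (1 - 4 * (b : ℝ) / N) ^ (r + 1) ≤ 1 / 10)
    (hs1' : 2 * (r + 1 : ℝ) * Real.exp (-(s1 * b / (16 * N * mu l))) ≤ 1 / 10) :
    pr (fun ω : (Fin (r + 1) → Fin N) × (Fin s1 → Fin N) =>
      ¬ ∀ j : Fin (l + 1), lam (rho b (orc (gr code g lam)) ω.1 ω.2 j) = some (Sum.inl j)) ≤
      1 / 5 := by
  set O := orc (gr code g lam) with hO
  have hmu : 2 ≤ mu l := by unfold mu; omega
  have hN0 : 0 < N := by nlinarith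
  have hN' : (0 : ℝ) < N := by exact_mod_cast hN0
  have hb' : (0 : ℝ) < b := by
    have : 0 < b := by omega
    exact_mod_cast this
  have hmu' : (0 : ℝ) < mu l := by
    have : 0 < mu l := by omega
    exact_mod_cast this
  -- bad events
  have hsub : pr (fun ω : (Fin (r + 1) → Fin N) × (Fin s1 → Fin N) =>
      ¬ ∀ j : Fin (l + 1), lam (rho b O ω.1 ω.2 j) = some (Sum.inl j)) ≤
      pr (fun ω : (Fin (r + 1) → Fin N) × (Fin s1 → Fin N) =>
        (∃ j : Fin (l + 1), ∀ k, ¬ lam (ω.1 k) = some (Sum.inl j)) ∨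
        ∃ k, ¬ rgacc b O ω.2 (ω.1 k)) := by
    apply rg_pr_mono
    intro ω hω
    by_contra hcon
    push Not at hcon
    obtain ⟨hc1, hc2⟩ := hcon
    apply hω
    intro j
    obtain ⟨k0, hk0⟩ := hc1 j
    have hwin := fun k => rg_window code hc g lam hs hb h1 h2 hs1 ω.2 (ω.1 k) (hc2 k) j
    have hex : ∃ k, inWin b O ω.2 (ω.1 k) j := ⟨k0, (hwin k0).2 hk0⟩
    unfold rho
    rw [dif_pos hex]
    exact (hwin _).1 (Classical.choose_spec hex)
  refine hsub.trans ((rg_pr_or _ _).trans ?_)
  have hA : pr (fun ω : (Fin (r + 1) → Fin N) × (Fin s1 → Fin N) =>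
      ∃ j : Fin (l + 1), ∀ k, ¬ lam (ω.1 k) = some (Sum.inl j)) ≤ 1 / 10 := by
    apply rg_pr_prod2 _ _ (by norm_num)
    intro D
    refine le_trans (rg_pr_exists (fun (j : Fin (l + 1)) (R : Fin (r + 1) → Fin N) =>
      ∀ k, ¬ lam (R k) = some (Sum.inl j))) ?_
    have h3 : ∀ j : Fin (l + 1), pr (fun R : Fin (r + 1) → Fin N =>
        ∀ k, ¬ lam (R k) = some (Sum.inl j)) ≤ (1 - 4 * (b : ℝ) / N) ^ (r + 1) := by
      intro j
      have h4 := rg_pr_avoid (fun v : Fin N => lam v = some (Sum.inl j)) r (4 * b) hN0 (by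
        have h5 : 4 * b ≤ mu l * b := Nat.mul_le_mul_right _ (by unfold mu; nlinarith)
        exact h5.trans hN) (by
        have h5 : (univ.filter fun x => lam x = some (Sum.inl j)).card = 4 * (j.val + 1) * b :=
          rg_hsz lam hs j _ (fun x => Iff.rfl)
        have h6 : 4 * b ≤ 4 * (j.val + 1) * b := Nat.mul_le_mul_right _ (by omega)
        calc 4 * b ≤ 4 * (j.val + 1) * b := h6
          _ = (univ.filter fun x => lam x = some (Sum.inl j)).card := h5.symm
          _ ≤ _ := le_of_eq (by congr!))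
      push_cast at h4
      exact h4
    calc ∑ j : Fin (l + 1), pr (fun R : Fin (r + 1) → Fin N =>
        ∀ k, ¬ lam (R k) = some (Sum.inl j)) ≤
        ∑ _j : Fin (l + 1), (1 - 4 * (b : ℝ) / N) ^ (r + 1) := Finset.sum_le_sum fun j _ => h3 j
      _ = (l + 1 : ℝ) * (1 - 4 * (b : ℝ) / N) ^ (r + 1) := by
        rw [Finset.sum_const, Finset.card_univ, Fintype.card_fin, nsmul_eq_mul]
        push_cast
        ring
      _ ≤ 1 / 10 := hr
  have hB : pr (fun ω : (Fin (r + 1) → Fin N) × (Fin s1 → Fin N) =>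
      ∃ k, ¬ rgacc b O ω.2 (ω.1 k)) ≤ 1 / 10 := by
    apply rg_pr_prod1 _ _ (by norm_num)
    intro R
    refine le_trans (rg_pr_exists (fun (k : Fin (r + 1)) (D : Fin s1 → Fin N) =>
      ¬ rgacc b O D (R k))) ?_
    have h3 : ∀ k : Fin (r + 1), pr (fun D : Fin s1 → Fin N => ¬ rgacc b O D (R k)) ≤
        2 * Real.exp (-(s1 * b / (16 * N * mu l))) := by
      intro k
      have h4 := rg_acc_pr O (R k) b (mu l * b) s1 (by omega) hN0 (by nlinarith)
        (rg_deg_le code g lam hs h1 h2 (R k))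
      have e1 : (s1 : ℝ) * (b : ℝ) ^ 2 / (16 * N * ((mu l * b : ℕ) : ℝ)) =
          s1 * b / (16 * N * mu l) := by
        push_cast
        field_simp
      rw [e1] at h4
      exact h4
    calc ∑ k : Fin (r + 1), pr (fun D : Fin s1 → Fin N => ¬ rgacc b O D (R k)) ≤
        ∑ _k : Fin (r + 1), 2 * Real.exp (-(s1 * b / (16 * N * mu l))) :=
          Finset.sum_le_sum fun k _ => h3 k
      _ = 2 * (r + 1 : ℝ) * Real.exp (-(s1 * b / (16 * N * mu l))) := by
        rw [Finset.sum_const, Finset.card_univ, Fintype.card_fin, nsmul_eq_mul]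
        push_cast
        ring
      _ ≤ 1 / 10 := hs1'
  linarith


end Pool.Agent.Helper116.AG
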