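import Pool.Agent.Helper116.AG.Defs2

set_option autoImplicit false
open Finset
open scoped Classical

noncomputable section

namespace Pool.Agent.Helper116.AG


theorem j12561_dec_none {l : ℕ} {A B : Type} (code : A ⊕ B → Fin (l + 1) → Bool)
    (hc : GoodCode code) : dec code (fun _ => false) = none := by
  unfold dec
  rw [dif_neg, dif_neg]
  · rintro ⟨y, hy⟩
    have h1 := hc.top y
    rw [hy] at h1
    exact absurd h1 (by simp)
  · rintro ⟨j, hj⟩
    have h1 := congrFun hj j
    simp at h1

theorem j12561_dec_anchor {l : ℕ} {A B : Type} (code : A ⊕ B → Fin (l + 1) → Bool)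
    (i : Fin (l + 1)) : dec code (fun j => decide (j = i)) = some (Sum.inl i) := by
  unfold dec
  have h : ∃ j, (fun j' : Fin (l + 1) => decide (j' = i)) = fun i' => decide (i' = j) := ⟨i, rfl⟩
  rw [dif_pos h]
  have h1 := congrFun (Classical.choose_spec h) i
  simp only [decide_true] at h1
  have h2 : i = Classical.choose h := by
    exact of_decide_eq_true h1.symm
  rw [← h2]

theorem j12561_dec_side {l : ℕ} {A B : Type} (code : A ⊕ B → Fin (l + 1) → Bool)
    (hc : GoodCode code) (x : A ⊕ B) : dec code (code x) = some (Sum.inr x) := by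
  unfold dec
  have h : ∃ y, code y = code x := ⟨x, rfl⟩
  rw [dif_neg, dif_pos h]
  · exact congrArg (fun y => some (Sum.inr y)) (hc.inj (Classical.choose_spec h))
  · rintro ⟨j, hj⟩
    have h1 := hc.top x
    rw [hj] at h1
    have h2 : Fin.last l = j := of_decide_eq_true h1
    obtain ⟨j', hj', h3⟩ := hc.two x
    rw [hj] at h3
    have h4 : j' = j := of_decide_eq_true h3
    exact hj' (h4.trans h2.symm)

theorem lab_good {V F R1 R2 : Type} {l : ℕ} (code : (F × R1) ⊕ (F × R2) → Fin (l + 1) → Bool)
    (hc : GoodCode code) (lam : V → Lb l (F × R1) (F × R2)) (g : F × R1 → F × R2 → ZMod 2)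
    (ρ : Fin (l + 1) → V) (hρ : ∀ j, lam (ρ j) = some (Sum.inl j)) :
    lab code (orc (gr code g lam)) ρ = lam := by
  funext v
  unfold lab
  have hO : ∀ j, orc (gr code g lam) v (ρ j) =
      decide (v ≠ ρ j ∧ tmpl code g (lam v) (some (Sum.inl j)) = true) := by
    intro j
    rw [← hρ j]
    unfold orc
    apply decide_eq_decide.2
    exact Iff.rfl
  rcases hv : lam v with _ | (i | x)
  · have hb : (fun j => decide (v = ρ j) || orc (gr code g lam) v (ρ j)) = fun _ => false := by
      funext j
      have hne : v ≠ ρ j := by
        intro h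
        rw [h, hρ j] at hv
        exact absurd hv (by simp)
      rw [hO j, hv]
      simp [hne, tmpl]
    rw [hb]
    exact j12561_dec_none code hc
  · have hb : (fun j => decide (v = ρ j) || orc (gr code g lam) v (ρ j)) =
        fun j => decide (j = i) := by
      funext j
      rw [hO j, hv]
      by_cases h : v = ρ j
      · have h2 : i = j := by
          rw [h, hρ j] at hv
          have := Option.some.inj hv
          exact (Sum.inl.inj this).symm
        simp [h, h2]
      · by_cases h3 : i = j
        · simp [h, h3, tmpl]
        · have h4 : ¬ j = i := fun h => h3 h.symm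
          simp [h, h3, h4, tmpl]
    rw [hb]
    exact j12561_dec_anchor code i
  · have hb : (fun j => decide (v = ρ j) || orc (gr code g lam) v (ρ j)) = code x := by
      funext j
      have hne : v ≠ ρ j := by
        intro h
        rw [h, hρ j] at hv
        exact absurd hv (by simp)
      rw [hO j, hv]
      rcases x with x | x
      · simp [hne, tmpl]
      · simp [hne, tmpl]
    rw [hb]
    exact j12561_dec_side code hc x

end Pool.Agent.Helper116.AG
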