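import Pool.Agent.Helper116.AG.Defs2
import Pool.Agent.Helper116.AG.J11

set_option autoImplicit false
open Finset
open scoped Classical

noncomputable section

namespace Pool.Agent.Helper116.AG







theorem T1_good_pr_mono {Ω : Type} [Fintype Ω] (P Q : Ω → Prop) (h : ∀ ω, P ω → Q ω) :
    pr P ≤ pr Q := by
  unfold pr
  apply div_le_div_of_nonneg_right _ (Nat.cast_nonneg _)
  have h1 : (univ.filter fun ω => P ω).card ≤ (univ.filter fun ω => Q ω).card :=
    Finset.card_le_card (Finset.monotone_filter_right _ (fun ω _ => h ω))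
  exact_mod_cast h1

theorem T1_good_pr_or' {Ω : Type} [Fintype Ω] (R P Q : Ω → Prop) (h : ∀ ω, R ω → P ω ∨ Q ω) :
    pr R ≤ pr P + pr Q := by
  unfold pr
  rw [← add_div]
  apply div_le_div_of_nonneg_right _ (Nat.cast_nonneg _)
  have h1 : (univ.filter fun ω => R ω) ⊆ (univ.filter fun ω => P ω) ∪
      (univ.filter fun ω => Q ω) := by
    intro ω hω
    rw [Finset.mem_filter] at hω
    rw [Finset.mem_union, Finset.mem_filter, Finset.mem_filter]
    rcases h ω hω.2 with h | h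
    · exact Or.inl ⟨hω.1, h⟩
    · exact Or.inr ⟨hω.1, h⟩
  have h2 : (univ.filter fun ω => R ω).card ≤ (univ.filter fun ω => P ω).card +
      (univ.filter fun ω => Q ω).card :=
    (Finset.card_le_card h1).trans (Finset.card_union_le _ _)
  exact_mod_cast h2

theorem T1_good_pr_or {Ω : Type} [Fintype Ω] (P Q : Ω → Prop) :
    pr (fun ω => P ω ∨ Q ω) ≤ pr P + pr Q :=
  T1_good_pr_or' _ P Q (fun _ h => h)

theorem T1_good_pr_ex' {Ω ι : Type} [Fintype Ω] [Fintype ι] (R : Ω → Prop) (P : ι → Ω → Prop)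
    (h : ∀ ω, R ω → ∃ a, P a ω) :
    pr R ≤ ∑ a, pr (P a) := by
  unfold pr
  rw [← Finset.sum_div]
  apply div_le_div_of_nonneg_right _ (Nat.cast_nonneg _)
  have h1 : (univ.filter fun ω => R ω) ⊆ univ.biUnion fun a => univ.filter fun ω => P a ω := by
    intro ω hω
    rw [Finset.mem_filter] at hω
    obtain ⟨a, ha⟩ := h ω hω.2
    rw [Finset.mem_biUnion]
    exact ⟨a, Finset.mem_univ _, by rw [Finset.mem_filter]; exact ⟨hω.1, ha⟩⟩
  have h2 := (Finset.card_le_card h1).trans Finset.card_biUnion_le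
  exact_mod_cast h2

theorem T1_good_pr_ex {Ω ι : Type} [Fintype Ω] [Fintype ι] (P : ι → Ω → Prop) :
    pr (fun ω => ∃ a, P a ω) ≤ ∑ a, pr (P a) :=
  T1_good_pr_ex' _ P (fun _ h => h)

theorem T1_good_one {V : Type} [Fintype V] [Nonempty V] (P : V → Prop) (z : ℕ) (hz : 0 < z)
    (hP : (univ.filter fun v => P v).card = z) (δ : ℝ) (hδ : 0 < δ) (hδ1 : δ ≤ 1) (s2 : ℕ) :
    pr (fun S : Fin s2 → V =>
      ¬ (|((univ.filter fun i => P (S i)).card : ℝ) * Fintype.card V - s2 * z| ≤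
      δ / 2 * (s2 * z))) ≤ 2 * Real.exp (-(s2 * δ ^ 2 * z / (16 * Fintype.card V))) := by
  set N : ℝ := (Fintype.card V : ℝ) with hN
  have hN0 : 0 < N := by
    rw [hN]
    exact_mod_cast Fintype.card_pos
  have hz0 : (0 : ℝ) < z := by exact_mod_cast hz
  set f0 : ℝ := z / N with hf0
  have hf00 : 0 < f0 := div_pos hz0 hN0
  have hpr : pr P = f0 := by
    unfold pr
    rw [hP]
  set τ : ℝ := δ * f0 / 2 with hτ
  have hτ0 : 0 < τ := by positivity
  have hτ2 : τ ≤ 2 * f0 := by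
    rw [hτ]
    nlinarith
  have hexp : (s2 : ℝ) * τ ^ 2 / (4 * f0) = s2 * δ ^ 2 * z / (16 * N) := by
    rw [hτ, hf0]
    field_simp
    ring
  have hu := chern_upper P s2 f0 τ hpr.le hτ0 hτ2
  have hl := chern_lower P s2 f0 f0 τ hpr.le hpr.ge hτ0 hτ2
  rw [hexp] at hu hl
  have h1 : pr (fun S : Fin s2 → V =>
      ¬ (|((univ.filter fun i => P (S i)).card : ℝ) * N - s2 * z| ≤ δ / 2 * (s2 * z))) ≤
      pr (fun S : Fin s2 → V =>
        (s2 : ℝ) * (f0 + τ) ≤ ((univ.filter fun i => P (S i)).card : ℝ) ∨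
        ((univ.filter fun i => P (S i)).card : ℝ) ≤ (s2 : ℝ) * (f0 - τ)) := by
    apply T1_good_pr_mono
    intro S hS
    by_contra hcon
    push Not at hcon
    obtain ⟨h2, h3⟩ := hcon
    apply hS
    have hzf : (z : ℝ) = f0 * N := by
      rw [hf0]
      field_simp
    have e1 : (s2 : ℝ) * z = s2 * f0 * N := by rw [hzf]; ring
    rw [e1, abs_le]
    constructor
    · have := mul_lt_mul_of_pos_right h3 hN0
      rw [hτ] at this
      nlinarith
    · have := mul_lt_mul_of_pos_right h2 hN0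
      rw [hτ] at this
      nlinarith
  refine h1.trans ((T1_good_pr_or _ _).trans ?_)
  linarith

theorem T1_good {V : Type} [Fintype V] [Nonempty V] {l : ℕ} {A B : Type} [Fintype A] [Fintype B]
    (b a1 a2 : ℕ) (lam : V → Lb l A B) (hs : Sized b a1 a2 lam)
    (δ : ℝ) (hδ : 0 < δ) (hδ1 : δ ≤ 1) (s2 : ℕ)
    (hpos : ∀ α : Fin (l + 1) ⊕ (A ⊕ B), 0 < sz b a1 a2 α)
    (hs2 : ∀ α : Fin (l + 1) ⊕ (A ⊕ B),
      20 * (Fintype.card (Fin (l + 1) ⊕ (A ⊕ B)) : ℝ) *
        Real.exp (-(s2 * δ ^ 2 * sz b a1 a2 α / (16 * Fintype.card V))) ≤ 1) :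
    pr (fun S : Fin s2 → V => ¬ T1 b a1 a2 δ lam S) ≤ 1 / 10 := by
  have h1 : pr (fun S : Fin s2 → V => ¬ T1 b a1 a2 δ lam S) ≤
      pr (fun S : Fin s2 → V => ∃ α : Fin (l + 1) ⊕ (A ⊕ B),
        ¬ (|((univ.filter fun i => lam (S i) = some α).card : ℝ) * Fintype.card V -
          s2 * sz b a1 a2 α| ≤ δ / 2 * (s2 * sz b a1 a2 α))) := by
    apply T1_good_pr_mono
    intro S hS
    unfold T1 at hS
    push Not at hS ⊢
    exact hS
  refine h1.trans ((T1_good_pr_ex _).trans ?_)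
  have h2 : ∀ α : Fin (l + 1) ⊕ (A ⊕ B), pr (fun S : Fin s2 → V =>
        ¬ (|((univ.filter fun i => lam (S i) = some α).card : ℝ) * Fintype.card V -
          s2 * sz b a1 a2 α| ≤ δ / 2 * (s2 * sz b a1 a2 α))) ≤
        1 / (10 * (Fintype.card (Fin (l + 1) ⊕ (A ⊕ B)) : ℝ)) := by
    intro α
    have h3 := T1_good_one (fun v => lam v = some α) (sz b a1 a2 α) (hpos α) (by
      have := hs α
      unfold cls at this
      convert this) δ hδ hδ1 s2
    have h4 : pr (fun S : Fin s2 → V =>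
        ¬ (|((univ.filter fun i => lam (S i) = some α).card : ℝ) * Fintype.card V -
          s2 * sz b a1 a2 α| ≤ δ / 2 * (s2 * sz b a1 a2 α))) ≤
        2 * Real.exp (-(s2 * δ ^ 2 * sz b a1 a2 α / (16 * Fintype.card V))) := by
      convert h3
    refine h4.trans ?_
    have hcard : (0 : ℝ) < (Fintype.card (Fin (l + 1) ⊕ (A ⊕ B)) : ℝ) := by
      exact_mod_cast Fintype.card_pos_iff.2 ⟨α⟩
    have h5 := hs2 α
    rw [le_div_iff₀ (by positivity)]
    linarith
  refine (Finset.sum_le_sum (fun α _ => h2 α)).trans ?_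
  rw [Finset.sum_const, Finset.card_univ, nsmul_eq_mul]
  have hcard : (0 : ℝ) < (Fintype.card (Fin (l + 1) ⊕ (A ⊕ B)) : ℝ) := by
    exact_mod_cast Fintype.card_pos_iff.2 ⟨Sum.inl 0⟩
  apply le_of_eq
  field_simp

theorem T23_good_tmpl {l : ℕ} {A B : Type} (code : A ⊕ B → Fin (l + 1) → Bool)
    (g g' : A → B → ZMod 2) (x y : Lb l A B) (h : ¬ isAB x y) :
    tmpl code g x y = tmpl code g' x y := by
  rcases x with _ | (i | (x | x)) <;> rcases y with _ | (j | (y | y)) <;>
    first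
    | rfl
    | exact absurd trivial h

theorem T23_good_orc {V : Type} {l : ℕ} {A B : Type} (code : A ⊕ B → Fin (l + 1) → Bool)
    (g : A → B → ZMod 2) (lam : V → Lb l A B) (u v : V) (huv : u ≠ v) :
    orc (gr code g lam) u v = tmpl code g (lam u) (lam v) := by
  unfold orc
  have h : (gr code g lam).Adj u v ↔ tmpl code g (lam u) (lam v) = true :=
    ⟨fun h => h.2, fun h => ⟨huv, h⟩⟩
  simp [h]

theorem T23_good_fh {V : Type} (P : V → Prop) {n : ℕ} (s : Fin n → V) (u : V)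
    (h : fh P s = some u) : P u := by
  unfold fh at h
  have := List.find?_some h
  simpa using this

theorem T23_good_b2 (x : ZMod 2) : b2 (decide (x = 1)) = x := by
  unfold b2
  have hx : x = 0 ∨ x = 1 := by
    revert x
    decide
  rcases hx with rfl | rfl
  · simp
  · simp

theorem T23_good {V F R1 R2 : Type} [Fintype V] [Fintype F] [Add F] {l s3 sA sB : ℕ}
    (code : (F × R1) ⊕ (F × R2) → Fin (l + 1) → Bool) (lam : V → Lb l (F × R1) (F × R2))
    (g : F × R1 → F × R2 → ZMod 2) (hg : Par 0 g) :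
    (∀ S : Fin s3 → V × V, T2 code (orc (gr code g lam)) lam S) ∧
    ∀ t : Trial V F R1 R2 sA sB, T3 (orc (gr code g lam)) lam t := by
  constructor
  · rintro S i ⟨h1, h2, h3⟩
    apply h3
    rw [T23_good_orc code g lam _ _ h1]
    exact T23_good_tmpl code g _ _ _ h2
  · intro t u v hu hv
    have h1 : ∀ h, b2 (orc (gr code g lam) (u h) (v h)) =
        g (h, t.1.2.1) (h + t.1.1, t.1.2.2) := by
      intro h
      have hu' := T23_good_fh _ _ _ (hu h)
      have hv' := T23_good_fh _ _ _ (hv h)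
      have hne : u h ≠ v h := by
        intro he
        rw [he, hv'] at hu'
        simp at hu'
      rw [T23_good_orc code g lam _ _ hne, hu', hv']
      show b2 (decide (g (h, t.1.2.1) (h + t.1.1, t.1.2.2) = 1)) = _
      convert T23_good_b2 (g (h, t.1.2.1) (h + t.1.1, t.1.2.2))
    simp only [h1]
    exact hg _ _ _

end Pool.Agent.Helper116.AG
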