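import Pool.Agent.Helper116.AG.Defs2

set_option autoImplicit false
open Finset
open scoped Classical

noncomputable section

namespace Pool.Agent.Helper116.AG

variable {F R1 R2 : Type}







theorem hq_find_congr {V : Type} (P Q : V → Prop) (L : List V) (h : ∀ x ∈ L, (P x ↔ Q x)) :
    (L.find? fun v => decide (P v)) = L.find? fun v => decide (Q v) := by
  induction L with
  | nil => rfl
  | cons a L ih =>
    have h1 : decide (P a) = decide (Q a) := decide_eq_decide.2 (h a (by simp))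
    rw [List.find?_cons, List.find?_cons, h1, ih (fun x hx => h x (List.mem_cons_of_mem _ hx))]

theorem hq_fh_congr {V : Type} (P Q : V → Prop) {n : ℕ} (s : Fin n → V)
    (h : ∀ i, (P (s i) ↔ Q (s i))) : fh P s = fh Q s := by
  unfold fh
  apply hq_find_congr
  intro x hx
  obtain ⟨i, rfl⟩ := (List.mem_ofFn' s x).1 hx
  exact h i

theorem hq_fh_mem {V : Type} (P : V → Prop) {n : ℕ} (s : Fin n → V) (u : V)
    (h : fh P s = some u) : ∃ i, s i = u := by
  unfold fh at h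
  exact (List.mem_ofFn' s u).1 (List.mem_of_find?_eq_some h)

theorem hq_rho_aux {V : Type} {r : ℕ} (P Q : Fin (r + 1) → Prop) (R : Fin (r + 1) → V)
    (h : P = Q) : (if h : ∃ k, P k then R (Classical.choose h) else R 0) =
      (if h : ∃ k, Q k then R (Classical.choose h) else R 0) := by
  subst h
  rfl

theorem hq_rho_congr {V : Type} [Fintype V] {l r s1 : ℕ} (b : ℕ) (O O' : Orc V)
    (R : Fin (r + 1) → V) (D : Fin s1 → V) (h : ∀ k i, O (R k) (D i) = O' (R k) (D i)) :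
    (rho b O R D : Fin (l + 1) → V) = rho b O' R D := by
  funext j
  unfold rho
  apply hq_rho_aux
  funext k
  unfold inWin
  have h1 : (univ.filter fun i => O (R k) (D i) = true) =
      univ.filter fun i => O' (R k) (D i) = true := by
    ext i
    simp only [mem_filter, mem_univ, true_and, h k i]
  rw [h1]

theorem hq_rho_mem {V : Type} [Fintype V] {l r s1 : ℕ} (b : ℕ) (O : Orc V)
    (R : Fin (r + 1) → V) (D : Fin s1 → V) (j : Fin (l + 1)) : ∃ k, R k = rho b O R D j := by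
  unfold rho
  split_ifs with h
  · exact ⟨_, rfl⟩
  · exact ⟨0, rfl⟩

theorem hq_lab_congr {V : Type} {l : ℕ} {A B : Type} (code : A ⊕ B → Fin (l + 1) → Bool)
    (O O' : Orc V) (ρ : Fin (l + 1) → V) (v : V) (h : ∀ j, O v (ρ j) = O' v (ρ j)) :
    lab code O ρ v = lab code O' ρ v := by
  unfold lab
  congr 1
  funext j
  rw [h j]

theorem hq_T1_congr {V : Type} [Fintype V] {l : ℕ} {A B : Type} (b a1 a2 : ℕ) (δ : ℝ)
    (lam lam' : V → Lb l A B) {s2 : ℕ} (S : Fin s2 → V) (h : ∀ i, lam (S i) = lam' (S i)) :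
    T1 b a1 a2 δ lam S ↔ T1 b a1 a2 δ lam' S := by
  unfold T1
  have h1 : ∀ α : Fin (l + 1) ⊕ (A ⊕ B), (univ.filter fun i => lam (S i) = some α) =
      univ.filter fun i => lam' (S i) = some α := by
    intro α
    ext i
    simp only [mem_filter, mem_univ, true_and, h i]
  refine forall_congr' fun α => ?_
  rw [h1 α]

theorem hq_T2_congr {V : Type} {l : ℕ} {A B : Type} (code : A ⊕ B → Fin (l + 1) → Bool)
    (O O' : Orc V) (lam lam' : V → Lb l A B) {s3 : ℕ} (S : Fin s3 → V × V)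
    (h1 : ∀ i, lam (S i).1 = lam' (S i).1) (h2 : ∀ i, lam (S i).2 = lam' (S i).2)
    (h3 : ∀ i, O (S i).1 (S i).2 = O' (S i).1 (S i).2) :
    T2 code O lam S ↔ T2 code O' lam' S := by
  unfold T2 mis
  refine forall_congr' fun i => ?_
  rw [h1 i, h2 i, h3 i]

theorem hq_T3_imp {V : Type} [Fintype F] [Add F] {l : ℕ} (O O' : Orc V)
    (lam lam' : V → Lb l (F × R1) (F × R2)) {sA sB : ℕ} (t : Trial V F R1 R2 sA sB)
    (hA : ∀ h i, lam (t.2.1 h i) = lam' (t.2.1 h i))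
    (hB : ∀ h i, lam (t.2.2 h i) = lam' (t.2.2 h i))
    (hO : ∀ h u v, fh (fun x => lam x = some (Sum.inr (Sum.inl (h, t.1.2.1)))) (t.2.1 h) = some u →
      fh (fun x => lam x = some (Sum.inr (Sum.inr (h + t.1.1, t.1.2.2)))) (t.2.2 h) = some v →
      O u v = O' u v) :
    T3 O lam t ↔ T3 O' lam' t := by
  have e1 : ∀ h, fh (fun x => lam x = some (Sum.inr (Sum.inl (h, t.1.2.1)))) (t.2.1 h) =
      fh (fun x => lam' x = some (Sum.inr (Sum.inl (h, t.1.2.1)))) (t.2.1 h) := by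
    intro h
    exact hq_fh_congr _ _ _ fun i => by rw [hA h i]
  have e2 : ∀ h, fh (fun x => lam x = some (Sum.inr (Sum.inr (h + t.1.1, t.1.2.2)))) (t.2.2 h) =
      fh (fun x => lam' x = some (Sum.inr (Sum.inr (h + t.1.1, t.1.2.2)))) (t.2.2 h) := by
    intro h
    exact hq_fh_congr _ _ _ fun i => by rw [hB h i]
  unfold T3
  constructor
  · intro H u v hu hv
    have hu' := fun h => (e1 h).trans (hu h)
    have hv' := fun h => (e2 h).trans (hv h)
    rw [← H u v hu' hv']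
    refine Finset.sum_congr rfl fun h _ => ?_
    rw [hO h _ _ (hu' h) (hv' h)]
  · intro H u v hu hv
    have hu' := fun h => (e1 h).symm.trans (hu h)
    have hv' := fun h => (e2 h).symm.trans (hv h)
    rw [← H u v hu' hv']
    refine Finset.sum_congr rfl fun h _ => ?_
    rw [hO h _ _ (hu h) (hv h)]

/-- the sampled vertices -/
def hqSam {V F R1 R2 : Type} [Fintype V] [Fintype F] {r s1 s2 s3 t3 sA sB : ℕ}
    (ω : Omega V F R1 R2 r s1 s2 s3 t3 sA sB) : Finset V :=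
  (univ.image ω.2.1) ∪ ((univ.image fun i => (ω.2.2.1 i).1) ∪ ((univ.image fun i => (ω.2.2.1 i).2) ∪
  ((univ.image fun q : Fin t3 × F × Fin sA => (ω.2.2.2 q.1).2.1 q.2.1 q.2.2) ∪
  (univ.image fun q : Fin t3 × F × Fin sB => (ω.2.2.2 q.1).2.2 q.2.1 q.2.2))))

theorem hqSam_card {V F R1 R2 : Type} [Fintype V] [Fintype F] {r s1 s2 s3 t3 sA sB : ℕ}
    (ω : Omega V F R1 R2 r s1 s2 s3 t3 sA sB) :
    (hqSam ω).card ≤ s2 + 2 * s3 + t3 * (Fintype.card F * (sA + sB)) := by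
  unfold hqSam
  have c1 : (univ.image ω.2.1).card ≤ s2 := card_image_le.trans (by simp)
  have c2 : (univ.image fun i => (ω.2.2.1 i).1).card ≤ s3 := card_image_le.trans (by simp)
  have c3 : (univ.image fun i => (ω.2.2.1 i).2).card ≤ s3 := card_image_le.trans (by simp)
  have c4 : (univ.image fun q : Fin t3 × F × Fin sA =>
      (ω.2.2.2 q.1).2.1 q.2.1 q.2.2).card ≤ t3 * (Fintype.card F * sA) :=
    card_image_le.trans (by simp [Finset.card_univ, Fintype.card_prod])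
  have c5 : (univ.image fun q : Fin t3 × F × Fin sB =>
      (ω.2.2.2 q.1).2.2 q.2.1 q.2.2).card ≤ t3 * (Fintype.card F * sB) :=
    card_image_le.trans (by simp [Finset.card_univ, Fintype.card_prod])
  have e : t3 * (Fintype.card F * (sA + sB)) =
      t3 * (Fintype.card F * sA) + t3 * (Fintype.card F * sB) := by ring
  rw [e]
  refine (card_union_le _ _).trans ?_
  have d1 := card_union_le (univ.image fun i => (ω.2.2.1 i).1)
    ((univ.image fun i => (ω.2.2.1 i).2) ∪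
      ((univ.image fun q : Fin t3 × F × Fin sA => (ω.2.2.2 q.1).2.1 q.2.1 q.2.2) ∪
      (univ.image fun q : Fin t3 × F × Fin sB => (ω.2.2.2 q.1).2.2 q.2.1 q.2.2)))
  have d2 := card_union_le (univ.image fun i => (ω.2.2.1 i).2)
      ((univ.image fun q : Fin t3 × F × Fin sA => (ω.2.2.2 q.1).2.1 q.2.1 q.2.2) ∪
      (univ.image fun q : Fin t3 × F × Fin sB => (ω.2.2.2 q.1).2.2 q.2.1 q.2.2))
  have d3 := card_union_le
      (univ.image fun q : Fin t3 × F × Fin sA => (ω.2.2.2 q.1).2.1 q.2.1 q.2.2)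
      (univ.image fun q : Fin t3 × F × Fin sB => (ω.2.2.2 q.1).2.2 q.2.1 q.2.2)
  omega

theorem hqSam_1 {V F R1 R2 : Type} [Fintype V] [Fintype F] {r s1 s2 s3 t3 sA sB : ℕ}
    (ω : Omega V F R1 R2 r s1 s2 s3 t3 sA sB) (i : Fin s2) : ω.2.1 i ∈ hqSam ω :=
  mem_union_left _ (mem_image_of_mem _ (mem_univ i))

theorem hqSam_2 {V F R1 R2 : Type} [Fintype V] [Fintype F] {r s1 s2 s3 t3 sA sB : ℕ}
    (ω : Omega V F R1 R2 r s1 s2 s3 t3 sA sB) (i : Fin s3) : (ω.2.2.1 i).1 ∈ hqSam ω :=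
  mem_union_right _ (mem_union_left _ (mem_image.2 ⟨i, mem_univ i, rfl⟩))

theorem hqSam_3 {V F R1 R2 : Type} [Fintype V] [Fintype F] {r s1 s2 s3 t3 sA sB : ℕ}
    (ω : Omega V F R1 R2 r s1 s2 s3 t3 sA sB) (i : Fin s3) : (ω.2.2.1 i).2 ∈ hqSam ω :=
  mem_union_right _ (mem_union_right _ (mem_union_left _ (mem_image.2 ⟨i, mem_univ i, rfl⟩)))

theorem hqSam_4 {V F R1 R2 : Type} [Fintype V] [Fintype F] {r s1 s2 s3 t3 sA sB : ℕ}
    (ω : Omega V F R1 R2 r s1 s2 s3 t3 sA sB) (i : Fin t3) (h : F) (a : Fin sA) :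
    (ω.2.2.2 i).2.1 h a ∈ hqSam ω :=
  mem_union_right _ (mem_union_right _ (mem_union_right _ (mem_union_left _
    (mem_image.2 ⟨(i, h, a), mem_univ _, rfl⟩))))

theorem hqSam_5 {V F R1 R2 : Type} [Fintype V] [Fintype F] {r s1 s2 s3 t3 sA sB : ℕ}
    (ω : Omega V F R1 R2 r s1 s2 s3 t3 sA sB) (i : Fin t3) (h : F) (a : Fin sB) :
    (ω.2.2.2 i).2.2 h a ∈ hqSam ω :=
  mem_union_right _ (mem_union_right _ (mem_union_right _ (mem_union_right _
    (mem_image.2 ⟨(i, h, a), mem_univ _, rfl⟩))))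

/-- locality of the decision of the tester -/
theorem hq_acc_congr {V F R1 R2 : Type} [Fintype V] [Fintype F] [Add F]
    {l r s1 s2 s3 t3 sA sB : ℕ}
    (code : (F × R1) ⊕ (F × R2) → Fin (l + 1) → Bool) (b a1 a2 : ℕ) (δ : ℝ)
    (ω : Omega V F R1 R2 r s1 s2 s3 t3 sA sB) (O O' : Orc V)
    (ρ : Fin (l + 1) → V) (hρ : rho b O ω.1.1 ω.1.2 = ρ) (hρ' : rho b O' ω.1.1 ω.1.2 = ρ)
    (h1 : ∀ v ∈ hqSam ω, ∀ j, O v (ρ j) = O' v (ρ j))
    (h2 : ∀ i, O (ω.2.2.1 i).1 (ω.2.2.1 i).2 = O' (ω.2.2.1 i).1 (ω.2.2.1 i).2)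
    (h3 : ∀ i h u v,
      fh (fun x => lab code O ρ x = some (Sum.inr (Sum.inl (h, (ω.2.2.2 i).1.2.1))))
        ((ω.2.2.2 i).2.1 h) = some u →
      fh (fun x => lab code O ρ x =
          some (Sum.inr (Sum.inr (h + (ω.2.2.2 i).1.1, (ω.2.2.2 i).1.2.2))))
        ((ω.2.2.2 i).2.2 h) = some v →
      O u v = O' u v) :
    acc code b a1 a2 δ ω O ↔ acc code b a1 a2 δ ω O' := by
  unfold acc
  rw [hρ, hρ']
  have hl : ∀ v ∈ hqSam ω, lab code O ρ v = lab code O' ρ v :=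
    fun v hv => hq_lab_congr code O O' ρ v (h1 v hv)
  refine and_congr ?_ (and_congr ?_ (forall_congr' fun i => ?_))
  · exact hq_T1_congr _ _ _ _ _ _ _ fun i => hl _ (hqSam_1 ω i)
  · exact hq_T2_congr _ _ _ _ _ _ (fun i => hl _ (hqSam_2 ω i)) (fun i => hl _ (hqSam_3 ω i)) h2
  · exact hq_T3_imp _ _ _ _ _ (fun h a => hl _ (hqSam_4 ω i h a))
      (fun h a => hl _ (hqSam_5 ω i h a)) (h3 i)

/-- a batch of queries -/
theorem hq_batch {V : Type} (f : Orc V → Prop) (B : ℕ) (L : Finset (V × V)) :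
    ∀ S : Set (Orc V), (∀ O₀ ∈ S, ∃ T : DT V, T.depth ≤ B ∧ ∀ O ∈ S,
        (∀ e ∈ L, O e.1 e.2 = O₀ e.1 e.2) → T.run O = decide (f O)) →
      ∃ T : DT V, T.depth ≤ L.card + B ∧ ∀ O ∈ S, T.run O = decide (f O) := by
  induction L using Finset.induction_on with
  | empty =>
    intro S h
    by_cases hS : ∃ O₀, O₀ ∈ S
    · obtain ⟨O₀, hO₀⟩ := hS
      obtain ⟨T, hT, hT2⟩ := h O₀ hO₀
      refine ⟨T, by simpa using hT, fun O hO => hT2 O hO (by simp)⟩
    · push Not at hS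
      refine ⟨DT.leaf true, by simp [DT.depth], fun O hO => absurd hO (hS O)⟩
  | insert e L heL ih =>
    intro S h
    have key : ∀ c : Bool, ∃ T : DT V, T.depth ≤ L.card + B ∧
        ∀ O ∈ {O ∈ S | O e.1 e.2 = c}, T.run O = decide (f O) := by
      intro c
      apply ih
      intro O₀ hO₀
      obtain ⟨T, hT, hT2⟩ := h O₀ hO₀.1
      refine ⟨T, hT, fun O hO hL => hT2 O hO.1 fun e' he' => ?_⟩
      rcases Finset.mem_insert.1 he' with rfl | he'
      · rw [hO.2, hO₀.2]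
      · exact hL e' he'
    choose T hT hT2 using key
    refine ⟨DT.ask e.1 e.2 T, ?_, ?_⟩
    · rw [Finset.card_insert_of_notMem heL]
      have h1 := hT false
      have h2 := hT true
      have h3 : max (T false).depth (T true).depth ≤ L.card + B := max_le h1 h2
      simp only [DT.depth]
      omega
    · intro O hO
      simp only [DT.run]
      exact hT2 (O e.1 e.2) O ⟨hO, rfl⟩

theorem acc_adaptive {V F R1 R2 : Type} [Fintype V] [Fintype F] [Add F]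
    {l r s1 s2 s3 t3 sA sB : ℕ}
    (code : (F × R1) ⊕ (F × R2) → Fin (l + 1) → Bool) (b a1 a2 : ℕ) (δ : ℝ)
    (ω : Omega V F R1 R2 r s1 s2 s3 t3 sA sB) :
    ∃ T : DT V, T.depth ≤ (r + 1) * s1 +
        (l + 1) * (s2 + 2 * s3 + t3 * (Fintype.card F * (sA + sB))) + s3 +
        t3 * Fintype.card F ∧
      ∀ O, T.run O = decide (acc code b a1 a2 δ ω O) := by
  -- the first batch
  have c1 : (univ.image fun q : Fin (r + 1) × Fin s1 => (ω.1.1 q.1, ω.1.2 q.2)).card ≤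
      (r + 1) * s1 := card_image_le.trans (by simp [Finset.card_univ, Fintype.card_prod])
  have c2 : ∀ ρ : Fin (l + 1) → V, ((hqSam ω ×ˢ univ).image fun q => (q.1, ρ q.2)).card ≤
      (l + 1) * (s2 + 2 * s3 + t3 * (Fintype.card F * (sA + sB))) := by
    intro ρ
    refine card_image_le.trans ?_
    rw [card_product, mul_comm, Finset.card_univ, Fintype.card_fin]
    exact Nat.mul_le_mul_left _ (hqSam_card ω)
  have c3 : (univ.image ω.2.2.1).card ≤ s3 := card_image_le.trans (by simp)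
  let L4 : (V → Lb l (F × R1) (F × R2)) → Finset (V × V) := fun lam =>
    (univ : Finset (Fin t3 × F)).biUnion fun q =>
      match fh (fun x => lam x = some (Sum.inr (Sum.inl (q.2, (ω.2.2.2 q.1).1.2.1))))
          ((ω.2.2.2 q.1).2.1 q.2),
        fh (fun x => lam x =
            some (Sum.inr (Sum.inr (q.2 + (ω.2.2.2 q.1).1.1, (ω.2.2.2 q.1).1.2.2))))
          ((ω.2.2.2 q.1).2.2 q.2) with
      | some u, some v => {(u, v)}
      | _, _ => ∅
  have c4 : ∀ lam, (L4 lam).card ≤ t3 * Fintype.card F := by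
    intro lam
    refine (Finset.card_biUnion_le_card_mul _ _ 1 ?_).trans (by
      simp [Finset.card_univ, Fintype.card_prod])
    intro q _
    split <;> simp
  have hb := hq_batch (acc code b a1 a2 δ ω)
    ((l + 1) * (s2 + 2 * s3 + t3 * (Fintype.card F * (sA + sB))) + (s3 + t3 * Fintype.card F))
    (univ.image fun q : Fin (r + 1) × Fin s1 => (ω.1.1 q.1, ω.1.2 q.2)) Set.univ ?_
  · obtain ⟨T, hT, hT2⟩ := hb
    exact ⟨T, hT.trans (by omega), fun O => hT2 O (Set.mem_univ _)⟩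
  intro O₀ _
  have hrho : ∀ O : Orc V, (∀ e ∈ (univ.image fun q : Fin (r + 1) × Fin s1 =>
      (ω.1.1 q.1, ω.1.2 q.2)), O e.1 e.2 = O₀ e.1 e.2) →
      (rho b O ω.1.1 ω.1.2 : Fin (l + 1) → V) = rho b O₀ ω.1.1 ω.1.2 := by
    intro O hO
    apply hq_rho_congr
    intro k i
    exact hO (ω.1.1 k, ω.1.2 i) (mem_image.2 ⟨(k, i), mem_univ _, rfl⟩)
  -- the second batch
  have hb := hq_batch (acc code b a1 a2 δ ω) (s3 + t3 * Fintype.card F)
    ((hqSam ω ×ˢ univ).image fun q => (q.1, (rho b O₀ ω.1.1 ω.1.2 : Fin (l + 1) → V) q.2))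
    {O | ∀ e ∈ (univ.image fun q : Fin (r + 1) × Fin s1 =>
      (ω.1.1 q.1, ω.1.2 q.2)), O e.1 e.2 = O₀ e.1 e.2} ?_
  · obtain ⟨T, hT, hT2⟩ := hb
    exact ⟨T, hT.trans (Nat.add_le_add_right (c2 _) _), fun O _ hO => hT2 O hO⟩
  intro O₁ hO₁
  -- the third batch
  have hb := hq_batch (acc code b a1 a2 δ ω) 0
    ((univ.image ω.2.2.1) ∪ L4 (lab code O₁ (rho b O₀ ω.1.1 ω.1.2)))
    {O | (∀ e ∈ (univ.image fun q : Fin (r + 1) × Fin s1 =>
      (ω.1.1 q.1, ω.1.2 q.2)), O e.1 e.2 = O₀ e.1 e.2) ∧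
      ∀ e ∈ ((hqSam ω ×ˢ univ).image fun q =>
        (q.1, (rho b O₀ ω.1.1 ω.1.2 : Fin (l + 1) → V) q.2)), O e.1 e.2 = O₁ e.1 e.2} ?_
  · obtain ⟨T, hT, hT2⟩ := hb
    refine ⟨T, hT.trans ?_, fun O hO hO2 => hT2 O ⟨hO, hO2⟩⟩
    have := card_union_le (univ.image ω.2.2.1) (L4 (lab code O₁ (rho b O₀ ω.1.1 ω.1.2)))
    have := c4 (lab code O₁ (rho b O₀ ω.1.1 ω.1.2))
    omega
  intro O₂ hO₂
  refine ⟨DT.leaf (decide (acc code b a1 a2 δ ω O₂)), by simp [DT.depth], ?_⟩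
  intro O hO hO2
  simp only [DT.run]
  rw [decide_eq_decide]
  have hs : ∀ O : Orc V, (∀ e ∈ ((hqSam ω ×ˢ univ).image fun q =>
        (q.1, (rho b O₀ ω.1.1 ω.1.2 : Fin (l + 1) → V) q.2)), O e.1 e.2 = O₁ e.1 e.2) →
      ∀ v ∈ hqSam ω, ∀ j : Fin (l + 1), O v (rho b O₀ ω.1.1 ω.1.2 j) =
        O₁ v (rho b O₀ ω.1.1 ω.1.2 j) := by
    intro O hO v hv j
    exact hO (v, rho b O₀ ω.1.1 ω.1.2 j) (mem_image.2 ⟨(v, j), mem_product.2 ⟨hv, mem_univ _⟩, rfl⟩)
  have hlab : ∀ v ∈ hqSam ω, lab code O₂ (rho b O₀ ω.1.1 ω.1.2) v =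
      lab code O₁ (rho b O₀ ω.1.1 ω.1.2) v := fun v hv =>
    hq_lab_congr code _ _ _ v (hs O₂ hO₂.2 v hv)
  refine hq_acc_congr code b a1 a2 δ ω O₂ O (rho b O₀ ω.1.1 ω.1.2) (hrho _ hO₂.1) (hrho _ hO.1)
    ?_ ?_ ?_
  · intro v hv j
    rw [hs O₂ hO₂.2 v hv j, hs O hO.2 v hv j]
  · intro i
    exact (hO2 (ω.2.2.1 i) (mem_union_left _ (mem_image_of_mem _ (mem_univ i)))).symm
  · intro i h u v hu hv
    have hu' : fh (fun x => lab code O₁ (rho b O₀ ω.1.1 ω.1.2) x =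
        some (Sum.inr (Sum.inl (h, (ω.2.2.2 i).1.2.1)))) ((ω.2.2.2 i).2.1 h) = some u := by
      rw [← hu]
      exact hq_fh_congr _ _ _ fun a => by rw [hlab _ (hqSam_4 ω i h a)]
    have hv' : fh (fun x => lab code O₁ (rho b O₀ ω.1.1 ω.1.2) x =
          some (Sum.inr (Sum.inr (h + (ω.2.2.2 i).1.1, (ω.2.2.2 i).1.2.2))))
        ((ω.2.2.2 i).2.2 h) = some v := by
      rw [← hv]
      exact hq_fh_congr _ _ _ fun a => by rw [hlab _ (hqSam_5 ω i h a)]
    refine (hO2 (u, v) (mem_union_right _ (mem_biUnion.2 ⟨(i, h), mem_univ _, ?_⟩))).symm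
    simp only [hu', hv']
    exact mem_singleton_self _

theorem acc_nonadaptive {V F R1 R2 : Type} [Fintype V] [Fintype F] [Add F]
    {l r s1 s2 s3 t3 sA sB : ℕ}
    (code : (F × R1) ⊕ (F × R2) → Fin (l + 1) → Bool) (b a1 a2 : ℕ) (δ : ℝ)
    (ω : Omega V F R1 R2 r s1 s2 s3 t3 sA sB) :
    ∃ Q : Finset (V × V), Q.card ≤ (r + 1) * s1 +
        (r + 1) * (s2 + 2 * s3 + t3 * (Fintype.card F * (sA + sB))) + s3 +
        t3 * Fintype.card F * sA * sB ∧
      ∀ O O' : Orc V, (∀ e ∈ Q, O e.1 e.2 = O' e.1 e.2) →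
        (acc code b a1 a2 δ ω O ↔ acc code b a1 a2 δ ω O') := by
  have c1 : (univ.image fun q : Fin (r + 1) × Fin s1 => (ω.1.1 q.1, ω.1.2 q.2)).card ≤
      (r + 1) * s1 := card_image_le.trans (by simp [Finset.card_univ, Fintype.card_prod])
  have c2 : (hqSam ω ×ˢ (univ.image ω.1.1)).card ≤
      (r + 1) * (s2 + 2 * s3 + t3 * (Fintype.card F * (sA + sB))) := by
    rw [card_product, mul_comm]
    exact Nat.mul_le_mul (card_image_le.trans (by simp)) (hqSam_card ω)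
  have c3 : (univ.image ω.2.2.1).card ≤ s3 := card_image_le.trans (by simp)
  have c4 : (univ.image fun q : Fin t3 × F × Fin sA × Fin sB =>
      ((ω.2.2.2 q.1).2.1 q.2.1 q.2.2.1, (ω.2.2.2 q.1).2.2 q.2.1 q.2.2.2)).card ≤
      t3 * Fintype.card F * sA * sB := by
    refine card_image_le.trans (le_of_eq ?_)
    rw [Finset.card_univ, Fintype.card_prod, Fintype.card_prod, Fintype.card_prod]
    simp only [Fintype.card_fin]
    ring
  refine ⟨(univ.image fun q : Fin (r + 1) × Fin s1 => (ω.1.1 q.1, ω.1.2 q.2)) ∪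
    ((hqSam ω ×ˢ (univ.image ω.1.1)) ∪ ((univ.image ω.2.2.1) ∪
      (univ.image fun q : Fin t3 × F × Fin sA × Fin sB =>
      ((ω.2.2.2 q.1).2.1 q.2.1 q.2.2.1, (ω.2.2.2 q.1).2.2 q.2.1 q.2.2.2)))), ?_, ?_⟩
  · refine (card_union_le _ _).trans ?_
    have d1 := card_union_le (hqSam ω ×ˢ (univ.image ω.1.1)) ((univ.image ω.2.2.1) ∪
      (univ.image fun q : Fin t3 × F × Fin sA × Fin sB =>
      ((ω.2.2.2 q.1).2.1 q.2.1 q.2.2.1, (ω.2.2.2 q.1).2.2 q.2.1 q.2.2.2)))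
    have d2 := card_union_le (univ.image ω.2.2.1)
      (univ.image fun q : Fin t3 × F × Fin sA × Fin sB =>
      ((ω.2.2.2 q.1).2.1 q.2.1 q.2.2.1, (ω.2.2.2 q.1).2.2 q.2.1 q.2.2.2))
    omega
  · intro O O' hQ
    have h1 : ∀ k i, O (ω.1.1 k) (ω.1.2 i) = O' (ω.1.1 k) (ω.1.2 i) := fun k i =>
      hQ (ω.1.1 k, ω.1.2 i) (mem_union_left _ (mem_image.2 ⟨(k, i), mem_univ _, rfl⟩))
    have h2 : ∀ v ∈ hqSam ω, ∀ k, O v (ω.1.1 k) = O' v (ω.1.1 k) := fun v hv k =>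
      hQ (v, ω.1.1 k) (mem_union_right _ (mem_union_left _ (mem_product.2 ⟨hv,
        mem_image_of_mem _ (mem_univ k)⟩)))
    refine hq_acc_congr code b a1 a2 δ ω O O' (rho b O ω.1.1 ω.1.2) rfl
      (hq_rho_congr b O O' _ _ h1).symm ?_ ?_ ?_
    · intro v hv j
      obtain ⟨k, hk⟩ := hq_rho_mem b O ω.1.1 ω.1.2 j
      rw [← hk]
      exact h2 v hv k
    · intro i
      exact hQ (ω.2.2.1 i) (mem_union_right _ (mem_union_right _ (mem_union_left _
        (mem_image_of_mem _ (mem_univ i)))))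
    · intro i h u v hu hv
      obtain ⟨a, rfl⟩ := hq_fh_mem _ _ _ hu
      obtain ⟨c, rfl⟩ := hq_fh_mem _ _ _ hv
      exact hQ ((ω.2.2.2 i).2.1 h a, (ω.2.2.2 i).2.2 h c) (mem_union_right _ (mem_union_right _
        (mem_union_right _ (mem_image.2 ⟨(i, h, a, c), mem_univ _, rfl⟩))))

end Pool.Agent.Helper116.AG
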