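import Pool.Agent.Helper116.AG.Defs2
import Pool.Agent.Helper116.AG.J14
import Pool.Agent.Helper116.AG.J15
import Pool.Agent.Helper116.AG.J16
import Pool.Agent.Helper116.AG.J17
import Pool.Agent.Helper116.AG.J18

set_option autoImplicit false
open Finset
open scoped Classical

noncomputable section

namespace Pool.Agent.Helper116.AG





















theorem tester_scale_sum {Ω : Type} [Fintype Ω] (P : Ω → Prop) [DecidablePred P] :
    (∑ ω, if P ω then (1 : ℝ) / (Fintype.card Ω : ℝ) else 0) = pr P := by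
  rw [← Finset.sum_filter, Finset.sum_const, nsmul_eq_mul, mul_one_div]
  unfold pr
  congr 3
  ext ω
  simp

theorem tester_scale_congr {Ω : Type} [Fintype Ω] {P Q : Ω → Prop} (h : ∀ ω, P ω ↔ Q ω) :
    pr P = pr Q := by
  have : P = Q := funext fun ω => propext (h ω)
  rw [this]

theorem tester_scale_not {Ω : Type} [Fintype Ω] [Nonempty Ω] (P : Ω → Prop) :
    pr (fun ω => ¬ P ω) = 1 - pr P := by
  have hc : (0 : ℝ) < Fintype.card Ω := by exact_mod_cast Fintype.card_pos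
  unfold pr
  rw [eq_sub_iff_add_eq, ← add_div, div_eq_one_iff_eq hc.ne']
  have h := Finset.card_filter_add_card_filter_not (s := (univ : Finset Ω)) P
  rw [Finset.card_univ] at h
  rw [add_comm, ← h]
  push_cast
  congr 1

theorem tester_scale_union {Ω : Type} [Fintype Ω] (P Q R : Ω → Prop)
    (h : ∀ ω, P ω → Q ω ∨ R ω) : pr P ≤ pr Q + pr R := by
  unfold pr
  rw [← add_div]
  apply div_le_div_of_nonneg_right _ (by positivity)
  have h1 : (univ.filter fun ω => P ω) ⊆ (univ.filter fun ω => Q ω) ∪ (univ.filter fun ω => R ω) := by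
    intro ω hω
    simp only [mem_filter, mem_univ, true_and, mem_union] at hω ⊢
    exact h ω hω
  have h2 := (card_le_card h1).trans (card_union_le _ _)
  exact_mod_cast h2

theorem tester_scale_prod {A B : Type} [Fintype A] [Fintype B] (P : A × B → Prop) :
    ((univ.filter fun ω : A × B => P ω).card : ℝ) =
      ∑ a : A, ((univ.filter fun b : B => P (a, b)).card : ℝ) := by
  have h : (univ.filter fun ω : A × B => P ω).card =
      ∑ a : A, (univ.filter fun b : B => P (a, b)).card := by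
    rw [Finset.card_filter, Fintype.sum_prod_type]
    refine Finset.sum_congr rfl fun a _ => ?_
    rw [Finset.card_filter]
  rw [h]
  push_cast
  rfl

theorem tester_scale_fub {A B : Type} [Fintype A] [Fintype B] [Nonempty A] [Nonempty B]
    (P : A × B → Prop) (c : ℝ) (h : ∀ a, pr (fun b => P (a, b)) ≤ c) : pr P ≤ c := by
  have hA : (0 : ℝ) < Fintype.card A := by exact_mod_cast Fintype.card_pos
  have hB : (0 : ℝ) < Fintype.card B := by exact_mod_cast Fintype.card_pos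
  unfold pr
  rw [Fintype.card_prod, div_le_iff₀ (by push_cast; positivity), tester_scale_prod]
  have h1 : ∀ a : A, ((univ.filter fun b : B => P (a, b)).card : ℝ) ≤ c * Fintype.card B := by
    intro a
    have := h a
    unfold pr at this
    rwa [div_le_iff₀ hB] at this
  calc ∑ a : A, ((univ.filter fun b : B => P (a, b)).card : ℝ) ≤
        ∑ a : A, c * (Fintype.card B : ℝ) := Finset.sum_le_sum fun a _ => h1 a
    _ = c * ((Fintype.card A * Fintype.card B : ℕ) : ℝ) := by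
        rw [Finset.sum_const, card_univ, nsmul_eq_mul]; push_cast; ring

theorem tester_scale_fst {A B : Type} [Fintype A] [Fintype B] [Nonempty B]
    (P : A → Prop) : pr (fun ω : A × B => P ω.1) = pr P := by
  have hB : (0 : ℝ) < Fintype.card B := by exact_mod_cast Fintype.card_pos
  unfold pr
  rw [tester_scale_prod, Fintype.card_prod]
  have h1 : ∀ a : A, ((univ.filter fun b : B => P (a, b).1).card : ℝ) =
      if P a then (Fintype.card B : ℝ) else 0 := by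
    intro a
    by_cases h : P a
    · simp [h]
    · simp [h]
  simp_rw [h1]
  rw [← Finset.sum_filter, Finset.sum_const, nsmul_eq_mul]
  push_cast
  rw [mul_div_mul_right _ _ hB.ne']

theorem tester_scale_snd {A B : Type} [Fintype A] [Fintype B] [Nonempty A]
    (P : B → Prop) : pr (fun ω : A × B => P ω.2) = pr P := by
  have hA : (0 : ℝ) < Fintype.card A := by exact_mod_cast Fintype.card_pos
  unfold pr
  rw [tester_scale_prod, Fintype.card_prod]
  have h : ∑ a : A, ((univ.filter fun b : B => P (a, b).2).card : ℝ) =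
    ∑ _a : A, ((univ.filter fun b : B => P b).card : ℝ) := rfl
  rw [h, Finset.sum_const, card_univ, nsmul_eq_mul]
  push_cast
  rw [mul_div_mul_left _ _ hA.ne']

theorem tester_scale_complete {N : ℕ} {F R1 R2 : Type} [Fintype F] [Nonempty F] [AddGroup F]
    [Fintype R1] [Fintype R2] [Nonempty R1] [Nonempty R2] {l : ℕ}
    (code : (F × R1) ⊕ (F × R2) → Fin (l + 1) → Bool) (hc : GoodCode code)
    (b a1 a2 W : ℕ) (hb : 3 ≤ b) (hW : 1 ≤ W)
    (h1 : a1 * (Fintype.card F * Fintype.card R1) = b)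
    (h2 : a2 * (Fintype.card F * Fintype.card R2) = b) (hN : N = W * mu l * b)
    (ε : ℝ) (hε0 : 0 < ε) (hε : ε * (W : ℝ) ^ 2 ≤ 16)
    (r s1 s2 s3 t3 sA sB : ℕ) (hs1 : 1 ≤ s1)
    (hr : (l + 1 : ℝ) * (1 - 4 * (b : ℝ) / N) ^ (r + 1) ≤ 1 / 10)
    (hs1' : 2 * (r + 1 : ℝ) * Real.exp (-(s1 * b / (16 * N * mu l))) ≤ 1 / 10)
    (hs2' : ∀ α : Fin (l + 1) ⊕ ((F × R1) ⊕ (F × R2)),
      20 * (Fintype.card (Fin (l + 1) ⊕ ((F × R1) ⊕ (F × R2))) : ℝ) *
        Real.exp (-(s2 * (ε * (W : ℝ) ^ 2 / 64) ^ 2 * sz b a1 a2 α / (16 * N))) ≤ 1)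
    (G : SimpleGraph (Fin N)) (hG : G ∈ (Tm code b a1 a2 : Set (SimpleGraph (Fin N)))) :
    pr (fun ω : Omega (Fin N) F R1 R2 r s1 s2 s3 t3 sA sB =>
      ¬ acc code b a1 a2 (ε * (W : ℝ) ^ 2 / 64) ω (orc G)) ≤ 1 / 3 := by
  have hmu : 1 ≤ mu l := by unfold mu; omega
  have hNpos : 0 < N := by
    rw [hN]
    exact Nat.mul_pos (Nat.mul_pos hW hmu) (by omega)
  haveI : Nonempty (Fin N) := ⟨⟨0, hNpos⟩⟩
  have hNle : mu l * b ≤ N := by
    rw [hN, mul_assoc]
    exact Nat.le_mul_of_pos_left _ hW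
  obtain ⟨lam, g, hs, hg, rfl⟩ := hG
  have hW2 : (0 : ℝ) < (W : ℝ) ^ 2 := by
    have : (0 : ℝ) < W := by exact_mod_cast hW
    positivity
  have hδ : 0 < ε * (W : ℝ) ^ 2 / 64 := by positivity
  have hδ1 : ε * (W : ℝ) ^ 2 / 64 ≤ 1 := by linarith
  have ha1 : 0 < a1 := by
    rcases Nat.eq_zero_or_pos a1 with h | h
    · rw [h, zero_mul] at h1; omega
    · exact h
  have ha2 : 0 < a2 := by
    rcases Nat.eq_zero_or_pos a2 with h | h
    · rw [h, zero_mul] at h2; omega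
    · exact h
  have hpos : ∀ α : Fin (l + 1) ⊕ ((F × R1) ⊕ (F × R2)), 0 < sz b a1 a2 α := by
    rintro (j | (x | y))
    · show 0 < 4 * (j.val + 1) * b
      have : 0 < b := by omega
      positivity
    · exact ha1
    · exact ha2
  have e1 := rho_good code hc b a1 a2 hb h1 h2 hNle lam hs g r s1 hs1 hr hs1'
  have e2 := T1_good (V := Fin N) b a1 a2 lam hs _ hδ hδ1 s2 hpos (by
    intro α
    rw [Fintype.card_fin]
    exact hs2' α)
  obtain ⟨t2, t3'⟩ := T23_good (s3 := s3) (sA := sA) (sB := sB) code lam g hg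
  have e3 := tester_scale_union
    (fun ω : Omega (Fin N) F R1 R2 r s1 s2 s3 t3 sA sB =>
      ¬ acc code b a1 a2 (ε * (W : ℝ) ^ 2 / 64) ω (orc (gr code g lam)))
    (fun ω => ¬ ∀ j : Fin (l + 1), lam (rho b (orc (gr code g lam)) ω.1.1 ω.1.2 j) =
      some (Sum.inl j))
    (fun ω => ¬ T1 b a1 a2 (ε * (W : ℝ) ^ 2 / 64) lam ω.2.1) (by
      intro ω hω
      by_contra hcon
      rw [not_or, not_not, not_not] at hcon
      obtain ⟨k1, k2⟩ := hcon
      apply hω
      unfold acc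
      rw [lab_good code hc lam g _ k1]
      exact ⟨k2, t2 _, fun i => t3' _⟩)
  have e4 : pr (fun ω : Omega (Fin N) F R1 R2 r s1 s2 s3 t3 sA sB =>
      ¬ ∀ j : Fin (l + 1), lam (rho b (orc (gr code g lam)) ω.1.1 ω.1.2 j) =
      some (Sum.inl j)) = pr (fun ω : (Fin (r + 1) → Fin N) × (Fin s1 → Fin N) =>
      ¬ ∀ j : Fin (l + 1), lam (rho b (orc (gr code g lam)) ω.1 ω.2 j) = some (Sum.inl j)) :=
    tester_scale_fst (fun ω : (Fin (r + 1) → Fin N) × (Fin s1 → Fin N) =>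
      ¬ ∀ j : Fin (l + 1), lam (rho b (orc (gr code g lam)) ω.1 ω.2 j) = some (Sum.inl j))
  have e5 : pr (fun ω : Omega (Fin N) F R1 R2 r s1 s2 s3 t3 sA sB =>
      ¬ T1 b a1 a2 (ε * (W : ℝ) ^ 2 / 64) lam ω.2.1) =
      pr (fun S : Fin s2 → Fin N => ¬ T1 b a1 a2 (ε * (W : ℝ) ^ 2 / 64) lam S) := by
    rw [← tester_scale_fst (B := (Fin s3 → Fin N × Fin N) ×
      (Fin t3 → Trial (Fin N) F R1 R2 sA sB))
      (fun S : Fin s2 → Fin N => ¬ T1 b a1 a2 (ε * (W : ℝ) ^ 2 / 64) lam S)]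
    exact tester_scale_snd (A := (Fin (r + 1) → Fin N) × (Fin s1 → Fin N))
      (fun ω : (Fin s2 → Fin N) × ((Fin s3 → Fin N × Fin N) ×
      (Fin t3 → Trial (Fin N) F R1 R2 sA sB)) => ¬ T1 b a1 a2 (ε * (W : ℝ) ^ 2 / 64) lam ω.1)
  rw [e4, e5] at e3
  linarith

theorem tester_scale {N : ℕ} {F R1 R2 : Type} [Fintype F] [Nonempty F] [AddGroup F] [Fintype R1]
    [Fintype R2] [Nonempty R1] [Nonempty R2] {l : ℕ}
    (code : (F × R1) ⊕ (F × R2) → Fin (l + 1) → Bool) (hc : GoodCode code)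
    (b a1 a2 W : ℕ) (hb : 3 ≤ b) (hW : 1 ≤ W)
    (h1 : a1 * (Fintype.card F * Fintype.card R1) = b)
    (h2 : a2 * (Fintype.card F * Fintype.card R2) = b) (hN : N = W * mu l * b)
    (ε : ℝ) (hε0 : 0 < ε) (hε : ε * (W : ℝ) ^ 2 ≤ 16)
    (r s1 s2 s3 t3 sA sB : ℕ) (hs1 : 1 ≤ s1)
    (hr : (l + 1 : ℝ) * (1 - 4 * (b : ℝ) / N) ^ (r + 1) ≤ 1 / 10)
    (hs1' : 2 * (r + 1 : ℝ) * Real.exp (-(s1 * b / (16 * N * mu l))) ≤ 1 / 10)
    (hs2 : ∀ α : Fin (l + 1) ⊕ ((F × R1) ⊕ (F × R2)),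
      128 * (N : ℝ) ≤ s2 * (ε * (W : ℝ) ^ 2 / 64) ^ 2 * sz b a1 a2 α)
    (hs2' : ∀ α : Fin (l + 1) ⊕ ((F × R1) ⊕ (F × R2)),
      20 * (Fintype.card (Fin (l + 1) ⊕ ((F × R1) ⊕ (F × R2))) : ℝ) *
        Real.exp (-(s2 * (ε * (W : ℝ) ^ 2 / 64) ^ 2 * sz b a1 a2 α / (16 * N))) ≤ 1)
    (hs3 : 4 ≤ s3 * ε)
    (ht3 : 64 ≤ t3 * (ε * (W : ℝ) ^ 2 * (mu l : ℝ) ^ 2))
    (hsA : (1 - 3 / 4 * (a1 : ℝ) / N) ^ sA ≤ 1 / (4 * Fintype.card F))
    (hsB : (1 - 3 / 4 * (a2 : ℝ) / N) ^ sB ≤ 1 / (4 * Fintype.card F)) :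
    ATest (Tm code b a1 a2 : Set (SimpleGraph (Fin N))) ε ((r + 1) * s1 +
        (l + 1) * (s2 + 2 * s3 + t3 * (Fintype.card F * (sA + sB))) + s3 +
        t3 * Fintype.card F) ∧
    NTest (Tm code b a1 a2 : Set (SimpleGraph (Fin N))) ε ((r + 1) * s1 +
        (r + 1) * (s2 + 2 * s3 + t3 * (Fintype.card F * (sA + sB))) + s3 +
        t3 * Fintype.card F * sA * sB) := by
  have hmu : 1 ≤ mu l := by unfold mu; omega
  have hNpos : 0 < N := by
    rw [hN]
    exact Nat.mul_pos (Nat.mul_pos hW hmu) (by omega)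
  haveI : Nonempty (Fin N) := ⟨⟨0, hNpos⟩⟩
  haveI hΩ : Nonempty (Omega (Fin N) F R1 R2 r s1 s2 s3 t3 sA sB) := inferInstance
  have hcard : (0 : ℝ) < Fintype.card (Omega (Fin N) F R1 R2 r s1 s2 s3 t3 sA sB) := by
    exact_mod_cast Fintype.card_pos
  -- completeness
  have hcomp : ∀ G ∈ (Tm code b a1 a2 : Set (SimpleGraph (Fin N))),
      2 / 3 ≤ pr (fun ω : Omega (Fin N) F R1 R2 r s1 s2 s3 t3 sA sB =>
        acc code b a1 a2 (ε * (W : ℝ) ^ 2 / 64) ω (orc G)) := by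
    intro G hG
    have h3 := tester_scale_complete code hc b a1 a2 W hb hW h1 h2 hN ε hε0 hε r s1 s2 s3 t3 sA sB
      hs1 hr hs1' hs2' G hG
    rw [tester_scale_not] at h3
    linarith
  -- soundness
  have hsound : ∀ G, Far (Tm code b a1 a2 : Set (SimpleGraph (Fin N))) ε G →
      2 / 3 ≤ pr (fun ω : Omega (Fin N) F R1 R2 r s1 s2 s3 t3 sA sB =>
        ¬ acc code b a1 a2 (ε * (W : ℝ) ^ 2 / 64) ω (orc G)) := by
    intro G hG
    have h3 : pr (fun ω : Omega (Fin N) F R1 R2 r s1 s2 s3 t3 sA sB =>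
        acc code b a1 a2 (ε * (W : ℝ) ^ 2 / 64) ω (orc G)) ≤ 1 / 3 := by
      apply tester_scale_fub
      rintro ⟨R, D⟩
      exact soundness code b a1 a2 W (by omega) hW h1 h2 hN ε hε0 hε s2 s3 t3 sA sB hs2 hs3 ht3
        hsA hsB G hG (lab code (orc G) (rho b (orc G) R D))
    rw [tester_scale_not]
    linarith
  have hp0 : (0 : ℝ) ≤ 1 / (Fintype.card (Omega (Fin N) F R1 R2 r s1 s2 s3 t3 sA sB) : ℝ) := by
    positivity
  have hp1 : ∑ _ω : Omega (Fin N) F R1 R2 r s1 s2 s3 t3 sA sB,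
      (1 : ℝ) / (Fintype.card (Omega (Fin N) F R1 R2 r s1 s2 s3 t3 sA sB) : ℝ) = 1 := by
    rw [Finset.sum_const, card_univ, nsmul_eq_mul, mul_one_div, div_self hcard.ne']
  constructor
  · choose T hT1 hT2 using fun ω : Omega (Fin N) F R1 R2 r s1 s2 s3 t3 sA sB =>
      acc_adaptive code b a1 a2 (ε * (W : ℝ) ^ 2 / 64) ω
    refine ⟨Omega (Fin N) F R1 R2 r s1 s2 s3 t3 sA sB, inferInstance,
      fun _ => (1 : ℝ) / (Fintype.card (Omega (Fin N) F R1 R2 r s1 s2 s3 t3 sA sB) : ℝ), T,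
      fun _ => hp0, hp1, hT1, ?_, ?_⟩
    · intro G hG
      rw [tester_scale_sum (fun ω => (T ω).run (orc G) = true)]
      refine (hcomp G hG).trans_eq (tester_scale_congr fun ω => ?_)
      rw [hT2, decide_eq_true_iff]
    · intro G hG
      rw [tester_scale_sum (fun ω => (T ω).run (orc G) = false)]
      refine (hsound G hG).trans_eq (tester_scale_congr fun ω => ?_)
      rw [hT2, decide_eq_false_iff_not]
  · choose Q hQ1 hQ2 using fun ω : Omega (Fin N) F R1 R2 r s1 s2 s3 t3 sA sB =>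
      acc_nonadaptive code b a1 a2 (ε * (W : ℝ) ^ 2 / 64) ω
    refine ⟨Omega (Fin N) F R1 R2 r s1 s2 s3 t3 sA sB, inferInstance,
      fun _ => (1 : ℝ) / (Fintype.card (Omega (Fin N) F R1 R2 r s1 s2 s3 t3 sA sB) : ℝ), Q,
      fun ω O => decide (acc code b a1 a2 (ε * (W : ℝ) ^ 2 / 64) ω O),
      fun _ => hp0, hp1, hQ1, ?_, ?_, ?_⟩
    · intro ω O O' h
      exact decide_eq_decide.mpr (hQ2 ω O O' h)
    · intro G hG
      rw [tester_scale_sum (fun ω =>
        decide (acc code b a1 a2 (ε * (W : ℝ) ^ 2 / 64) ω (orc G)) = true)]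
      refine (hcomp G hG).trans_eq (tester_scale_congr fun ω => ?_)
      rw [decide_eq_true_iff]
    · intro G hG
      rw [tester_scale_sum (fun ω =>
        decide (acc code b a1 a2 (ε * (W : ℝ) ^ 2 / 64) ω (orc G)) = false)]
      refine (hsound G hG).trans_eq (tester_scale_congr fun ω => ?_)
      rw [decide_eq_false_iff_not]

end Pool.Agent.Helper116.AG
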