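import Pool.Agent.Helper116.AG.Defs2

set_option autoImplicit false
open Finset
open scoped Classical

noncomputable section

namespace Pool.Agent.Helper116.AG


lemma orc_iff544 {V : Type} {l : ℕ} {A B : Type} (code : A ⊕ B → Fin (l + 1) → Bool)
    (g : A → B → ZMod 2) (lam : V → Lb l A B) (u v : V) :
    orc (gr code g lam) u v = true ↔ u ≠ v ∧ tmpl code g (lam u) (lam v) = true := by
  unfold orc
  rw [decide_eq_true_iff]
  rfl

lemma deg_le544 {V : Type} [Fintype V] (p q : V → Bool) :
    (univ.filter fun u => p u = true).card ≤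
      (univ.filter fun u => q u = true).card + (univ.filter fun u => p u ≠ q u).card := by
  refine (card_le_card ?_).trans (card_union_le _ _)
  intro u hu
  simp only [mem_filter, mem_univ, true_and, mem_union] at hu ⊢
  by_cases h : q u = true
  · exact Or.inl h
  · right
    intro h2
    exact h (h2 ▸ hu)

lemma side_le544 {V : Type} [Fintype V] {l : ℕ} {A B : Type} [Fintype A] [Fintype B]
    {b a1 a2 : ℕ} {lam : V → Lb l A B} (hs : Sized b a1 a2 lam) :
    (univ.filter fun u => ∃ x, lam u = some (Sum.inr x)).card ≤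
      a1 * Fintype.card A + a2 * Fintype.card B := by
  have h1 : (univ.filter fun u => ∃ x, lam u = some (Sum.inr x)) ⊆
      (univ : Finset (A ⊕ B)).biUnion fun x => univ.filter fun u => lam u = some (Sum.inr x) := by
    intro u hu
    simp only [mem_filter, mem_univ, true_and, mem_biUnion] at hu ⊢
    exact hu
  refine (card_le_card h1).trans (card_biUnion_le.trans ?_)
  have h2 : ∀ x : A ⊕ B, (univ.filter fun u => lam u = some (Sum.inr x)).card =
      sz (l := l) b a1 a2 (Sum.inr x) := fun x => hs (Sum.inr x)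
  rw [Fintype.sum_sum_type]
  simp only [h2, sz, sum_const, card_univ, smul_eq_mul]
  rw [mul_comm a1, mul_comm a2]

lemma deg_anchor_lo544 {V : Type} [Fintype V] {l : ℕ} {A B : Type}
    (code : A ⊕ B → Fin (l + 1) → Bool) (g : A → B → ZMod 2)
    {b a1 a2 : ℕ} {lam : V → Lb l A B} (hs : Sized b a1 a2 lam) (v : V) (j : Fin (l + 1))
    (hv : lam v = some (Sum.inl j)) :
    4 * (j.val + 1) * b ≤ (univ.filter fun u => orc (gr code g lam) v u = true).card + 1 := by
  have h1 : (univ.filter fun u => lam u = some (Sum.inl j)).card = 4 * (j.val + 1) * b :=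
    hs (Sum.inl j)
  rw [← h1]
  have h2 : (univ.filter fun u => lam u = some (Sum.inl j)) ⊆
      insert v (univ.filter fun u => orc (gr code g lam) v u = true) := by
    intro u hu
    simp only [mem_filter, mem_univ, true_and, mem_insert] at hu ⊢
    by_cases h : u = v
    · exact Or.inl h
    · right
      rw [orc_iff544]
      refine ⟨fun h2 => h h2.symm, ?_⟩
      rw [hv, hu]
      simp [tmpl]
  exact (card_le_card h2).trans (card_insert_le _ _)

lemma deg_anchor_hi544 {V : Type} [Fintype V] {l : ℕ} {A B : Type} [Fintype A] [Fintype B]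
    (code : A ⊕ B → Fin (l + 1) → Bool) (g : A → B → ZMod 2)
    {b a1 a2 : ℕ} {lam : V → Lb l A B} (hs : Sized b a1 a2 lam) (v : V) (j : Fin (l + 1))
    (hv : lam v = some (Sum.inl j)) (h1 : a1 * Fintype.card A = b) (h2 : a2 * Fintype.card B = b) :
    (univ.filter fun u => orc (gr code g lam) v u = true).card + 1 ≤
      4 * (j.val + 1) * b + 2 * b := by
  have h3 : (univ.filter fun u => lam u = some (Sum.inl j)).card = 4 * (j.val + 1) * b :=
    hs (Sum.inl j)
  have h4 := side_le544 hs
  rw [h1, h2] at h4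
  have h5 : (univ.filter fun u => orc (gr code g lam) v u = true) ⊆
      ((univ.filter fun u => lam u = some (Sum.inl j)).erase v) ∪
        (univ.filter fun u => ∃ x, lam u = some (Sum.inr x)) := by
    intro u hu
    simp only [mem_filter, mem_univ, true_and, mem_union, mem_erase] at hu ⊢
    rw [orc_iff544, hv] at hu
    obtain ⟨hne, hu2⟩ := hu
    rcases hlu : lam u with _ | (i | x)
    · rw [hlu] at hu2; simp [tmpl] at hu2
    · rw [hlu] at hu2
      simp only [tmpl, decide_eq_true_eq] at hu2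
      left
      exact ⟨fun h => hne h.symm, by rw [hu2]⟩
    · right
      exact ⟨x, rfl⟩
  have h6 := (card_le_card h5).trans (card_union_le _ _)
  have h7 : v ∈ (univ.filter fun u => lam u = some (Sum.inl j)) := by
    simp [hv]
  have h8 := card_erase_add_one h7
  omega

lemma deg_side544 {V : Type} [Fintype V] {l : ℕ} {A B : Type}
    (code : A ⊕ B → Fin (l + 1) → Bool) (hc : GoodCode code) (g : A → B → ZMod 2)
    {b a1 a2 : ℕ} {lam : V → Lb l A B} (hs : Sized b a1 a2 lam) (v : V) (x : A ⊕ B)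
    (hv : lam v = some (Sum.inr x)) :
    4 * (l + 1) * b + 4 * b ≤ (univ.filter fun u => orc (gr code g lam) v u = true).card := by
  obtain ⟨j, hj1, hj2⟩ := hc.two x
  have h1 : (univ.filter fun u => lam u = some (Sum.inl (Fin.last l))).card = 4 * (l + 1) * b :=
    hs (Sum.inl (Fin.last l))
  have h2 : (univ.filter fun u => lam u = some (Sum.inl j)).card = 4 * (j.val + 1) * b :=
    hs (Sum.inl j)
  have h3 : Disjoint (univ.filter fun u => lam u = some (Sum.inl (Fin.last l)))
      (univ.filter fun u => lam u = some (Sum.inl j)) := by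
    rw [Finset.disjoint_left]
    intro u hu hu2
    simp only [mem_filter, mem_univ, true_and] at hu hu2
    rw [hu] at hu2
    simp only [Option.some.injEq, Sum.inl.injEq] at hu2
    exact hj1 hu2.symm
  have h4 : (univ.filter fun u => lam u = some (Sum.inl (Fin.last l))) ∪
      (univ.filter fun u => lam u = some (Sum.inl j)) ⊆
      (univ.filter fun u => orc (gr code g lam) v u = true) := by
    intro u hu
    simp only [mem_filter, mem_univ, true_and, mem_union] at hu ⊢
    rw [orc_iff544]
    refine ⟨?_, ?_⟩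
    · rintro rfl
      rcases hu with hu | hu <;> (rw [hv] at hu; simp at hu)
    · rcases hu with hu | hu
      · rw [hv, hu]; rcases x with x | x <;> exact hc.top _
      · rw [hv, hu]; rcases x with x | x <;> exact hj2
  have h5 := card_le_card h4
  rw [card_union_of_disjoint h3, h1, h2] at h5
  have h6 : 4 * b ≤ 4 * (j.val + 1) * b := by
    have : 1 ≤ j.val + 1 := by omega
    nlinarith
  omega

lemma deg_none544 {V : Type} [Fintype V] {l : ℕ} {A B : Type}
    (code : A ⊕ B → Fin (l + 1) → Bool) (g : A → B → ZMod 2)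
    {lam : V → Lb l A B} (v : V) (hv : lam v = none) :
    (univ.filter fun u => orc (gr code g lam) v u = true).card = 0 := by
  rw [card_eq_zero, filter_eq_empty_iff]
  intro u _ hu
  rw [orc_iff544, hv] at hu
  simp [tmpl] at hu

lemma step1_544 {V : Type} [Fintype V] {l : ℕ} {A B : Type} [Fintype A] [Fintype B]
    (code : A ⊕ B → Fin (l + 1) → Bool) (hc : GoodCode code) (g g' : A → B → ZMod 2)
    {b a1 a2 : ℕ} (hb : 1 ≤ b) {lam lam' : V → Lb l A B} (hs : Sized b a1 a2 lam)
    (hs' : Sized b a1 a2 lam') (v : V) (j : Fin (l + 1))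
    (h1 : a1 * Fintype.card A = b) (h2 : a2 * Fintype.card B = b)
    (hv : lam v = some (Sum.inl j)) (hv' : lam' v ≠ some (Sum.inl j)) :
    b ≤ (univ.filter fun u => orc (gr code g lam) v u ≠ orc (gr code g' lam') v u).card := by
  have e1 := deg_anchor_lo544 code g hs v j hv
  have e2 := deg_anchor_hi544 code g hs v j hv h1 h2
  have e3 := deg_le544 (fun u => orc (gr code g lam) v u) (fun u => orc (gr code g' lam') v u)
  have e4 := deg_le544 (fun u => orc (gr code g' lam') v u) (fun u => orc (gr code g lam) v u)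
  have e5 : (univ.filter fun u => orc (gr code g' lam') v u ≠ orc (gr code g lam) v u).card =
      (univ.filter fun u => orc (gr code g lam) v u ≠ orc (gr code g' lam') v u).card := by
    congr 1
    ext u
    simp only [mem_filter, mem_univ, true_and, ne_comm]
  rw [e5] at e4
  rcases hl : lam' v with _ | (i | x)
  · have e6 := deg_none544 code g' (lam := lam') v hl
    have e7 : 4 * b ≤ 4 * (j.val + 1) * b := by
      have : 1 ≤ j.val + 1 := by omega
      nlinarith
    omega
  · have hij : i ≠ j := by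
      rintro rfl
      exact hv' hl
    have e6 := deg_anchor_lo544 code g' hs' v i hl
    have e7 := deg_anchor_hi544 code g' hs' v i hl h1 h2
    rcases lt_or_gt_of_ne (fun h => hij (Fin.ext h)) with h | h
    · have e8 : 4 * (i.val + 1) * b + 4 * b ≤ 4 * (j.val + 1) * b := by
        have : i.val + 1 ≤ j.val := h
        nlinarith
      omega
    · have e8 : 4 * (j.val + 1) * b + 4 * b ≤ 4 * (i.val + 1) * b := by
        have : j.val + 1 ≤ i.val := h
        nlinarith
      omega
  · have e6 := deg_side544 code hc g' hs' v x hl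
    have e8 : 4 * (j.val + 1) * b ≤ 4 * (l + 1) * b := by
      have : j.val ≤ l := by omega
      nlinarith
    omega

/-- the bit vector of a non-anchor label -/
def bits544 {l : ℕ} {A B : Type} (code : A ⊕ B → Fin (l + 1) → Bool) :
    Lb l A B → Fin (l + 1) → Bool
  | none, _ => false
  | some (Sum.inl _), _ => false
  | some (Sum.inr x), j => code x j

lemma orc_anchor544 {V : Type} {l : ℕ} {A B : Type} (code : A ⊕ B → Fin (l + 1) → Bool)
    (g : A → B → ZMod 2) (lam : V → Lb l A B) (v u : V) (j : Fin (l + 1))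
    (hu : lam u = some (Sum.inl j)) (hv : ∀ i, lam v ≠ some (Sum.inl i)) :
    orc (gr code g lam) v u = bits544 code (lam v) j := by
  have hne : v ≠ u := by
    rintro rfl
    exact hv j hu
  rw [Bool.eq_iff_iff, orc_iff544, hu]
  rcases hl : lam v with _ | (i | (x | x))
  · simp [tmpl, bits544]
  · exact absurd hl (hv i)
  · simp [tmpl, bits544, hne]
  · simp [tmpl, bits544, hne]

lemma step2_544 {V : Type} [Fintype V] {l : ℕ} {A B : Type} [Fintype A] [Fintype B]
    (code : A ⊕ B → Fin (l + 1) → Bool) (hc : GoodCode code) (g g' : A → B → ZMod 2)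
    {lam lam' : V → Lb l A B} (v : V) (c : ℕ)
    (hv : ∀ i, lam v ≠ some (Sum.inl i)) (hv' : ∀ i, lam' v ≠ some (Sum.inl i))
    (hne : lam v ≠ lam' v)
    (hP : ∀ j, c ≤ (univ.filter fun u => lam u = some (Sum.inl j) ∧
      lam' u = some (Sum.inl j)).card) :
    c ≤ (univ.filter fun u => orc (gr code g lam) v u ≠ orc (gr code g' lam') v u).card := by
  have h1 : ∃ j, bits544 code (lam v) j ≠ bits544 code (lam' v) j := by
    by_contra hcon
    push Not at hcon
    rcases hl : lam v with _ | (i | x)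
    · rcases hl' : lam' v with _ | (i' | x')
      · exact hne (by rw [hl, hl'])
      · exact hv' i' hl'
      · have := hcon (Fin.last l)
        rw [hl, hl'] at this
        simp [bits544, hc.top] at this
    · exact hv i hl
    · rcases hl' : lam' v with _ | (i' | x')
      · have := hcon (Fin.last l)
        rw [hl, hl'] at this
        simp [bits544, hc.top] at this
      · exact hv' i' hl'
      · have : code x = code x' := by
          funext j
          have := hcon j
          rw [hl, hl'] at this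
          exact this
        have := hc.inj this
        exact hne (by rw [hl, hl', this])
  obtain ⟨j, hj⟩ := h1
  refine (hP j).trans (card_le_card fun u hu => ?_)
  simp only [mem_filter, mem_univ, true_and] at hu ⊢
  rw [orc_anchor544 code g lam v u j hu.1 hv, orc_anchor544 code g' lam' v u j hu.2 hv']
  exact hj

lemma odiff_sum544 {V : Type} [Fintype V] (O O' : Orc V) :
    odiff O O' = ∑ v, (univ.filter fun u => O v u ≠ O' v u).card := by
  unfold odiff
  rw [card_filter, Fintype.sum_prod_type]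
  refine sum_congr rfl fun v _ => ?_
  rw [card_filter]

lemma card_cls544 {V : Type} [Fintype V] {l : ℕ} {A B : Type} (lam : V → Lb l A B)
    (α : Lb l A B) [DecidablePred fun v => lam v = α] :
    (univ.filter fun v => lam v = α).card = cls lam α := by
  unfold cls
  congr!

lemma ar1_544 (a1 a2 p q α γ : ℕ) (e2 : p + α = a1) (e3 : q + γ = a2) :
    a1 * a2 ≤ p * q + a2 * α + a1 * γ := by
  subst e2 e3
  nlinarith [Nat.zero_le (α * γ)]

lemma ar2_544 (N b D K : ℕ) (hb : 1 ≤ b) (hK : 1 ≤ K) (h1 : N * b ≤ D)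
    (h2 : 3 * K * D < 2 * b ^ 2) : 3 * N < 2 * b := by
  by_contra h
  push Not at h
  have e1 : 2 * b * b ≤ 3 * (N * b) := by nlinarith
  have e2 : 3 * D ≤ 3 * K * D := by nlinarith
  nlinarith

lemma zmod544 : ∀ a b : ZMod 2, a ≠ b → ¬ (a = 1 ↔ b = 1) := by decide

lemma pair544 {V : Type} {l : ℕ} {A B : Type} (code : A ⊕ B → Fin (l + 1) → Bool)
    (g g' : A → B → ZMod 2) (lam lam' : V → Lb l A B) (u v : V) (x : A) (y : B)
    (hu : lam u = some (Sum.inr (Sum.inl x))) (hu' : lam' u = some (Sum.inr (Sum.inl x)))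
    (hv : lam v = some (Sum.inr (Sum.inr y))) (hv' : lam' v = some (Sum.inr (Sum.inr y)))
    (hg : g x y ≠ g' x y) :
    orc (gr code g lam) u v ≠ orc (gr code g' lam') u v ∧
      orc (gr code g lam) v u ≠ orc (gr code g' lam') v u := by
  have hne : u ≠ v := by
    rintro rfl
    rw [hu] at hv
    simp at hv
  have e1 : orc (gr code g lam) u v = true ↔ g x y = 1 := by
    rw [orc_iff544, hu, hv]; simp [tmpl, hne]
  have e2 : orc (gr code g' lam') u v = true ↔ g' x y = 1 := by
    rw [orc_iff544, hu', hv']; simp [tmpl, hne]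
  have e3 : orc (gr code g lam) v u = true ↔ g x y = 1 := by
    rw [orc_iff544, hu, hv]; simp [tmpl, hne.symm]
  have e4 : orc (gr code g' lam') v u = true ↔ g' x y = 1 := by
    rw [orc_iff544, hu', hv']; simp [tmpl, hne.symm]
  have e5 := zmod544 _ _ hg
  constructor
  · intro h
    rw [h, e2] at e1
    exact e5 e1.symm
  · intro h
    rw [h, e4] at e3
    exact e5 e3.symm


theorem far_odd {V F R1 R2 : Type} [Fintype V] [Fintype F] [Nonempty F] [AddGroup F] [Fintype R1]
    [Fintype R2] {l : ℕ} (code : (F × R1) ⊕ (F × R2) → Fin (l + 1) → Bool) (hc : GoodCode code)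
    (b a1 a2 : ℕ) (hb : 1 ≤ b)
    (h1 : a1 * (Fintype.card F * Fintype.card R1) = b)
    (h2 : a2 * (Fintype.card F * Fintype.card R2) = b)
    (lam lam' : V → Lb l (F × R1) (F × R2)) (hs : Sized b a1 a2 lam) (hs' : Sized b a1 a2 lam')
    (g g' : F × R1 → F × R2 → ZMod 2) (hg : Par 1 g) (hg' : Par 0 g') :
    2 * b ^ 2 ≤ 3 * Fintype.card F * odiff (orc (gr code g lam)) (orc (gr code g' lam')) := by
  by_contra hcon
  push Not at hcon
  obtain ⟨O, hO⟩ : ∃ O, O = orc (gr code g lam) := ⟨_, rfl⟩
  obtain ⟨O', hO'⟩ : ∃ O', O' = orc (gr code g' lam') := ⟨_, rfl⟩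
  obtain ⟨D, hD⟩ : ∃ D, D = odiff O O' := ⟨_, rfl⟩
  obtain ⟨K, hK⟩ : ∃ K, K = Fintype.card F := ⟨_, rfl⟩
  have hK1 : 1 ≤ K := by rw [hK]; exact Fintype.card_pos
  have hA : a1 * Fintype.card (F × R1) = b := by rw [Fintype.card_prod]; exact h1
  have hB : a2 * Fintype.card (F × R2) = b := by rw [Fintype.card_prod]; exact h2
  rw [← hO, ← hO', ← hD, ← hK] at hcon
  rw [← hK] at h1 h2
  obtain ⟨dv, hdv⟩ : ∃ dv : V → ℕ, dv = fun v => (univ.filter fun u => O v u ≠ O' v u).card :=
    ⟨_, rfl⟩
  have hDs : D = ∑ v, dv v := by rw [hD, hdv, odiff_sum544]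
  have hcount : ∀ N : Finset V, (∀ v ∈ N, b ≤ dv v) → N.card * b ≤ D := by
    intro N hN
    rw [hDs]
    calc N.card * b = ∑ _v ∈ N, b := by rw [sum_const, smul_eq_mul]
      _ ≤ ∑ v ∈ N, dv v := sum_le_sum hN
      _ ≤ ∑ v, dv v := sum_le_sum_of_subset (subset_univ _)
  have hswap : ∀ v, (univ.filter fun u => O' v u ≠ O v u).card = dv v := by
    intro v
    rw [hdv]
    congr 1
    ext u
    simp only [mem_filter, mem_univ, true_and, ne_comm]
  obtain ⟨N1, hN1d⟩ : ∃ N1 : Finset V, N1 = univ.filter fun v => lam v ≠ lam' v ∧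
      ((∃ i, lam v = some (Sum.inl i)) ∨ ∃ i, lam' v = some (Sum.inl i)) := ⟨_, rfl⟩
  have hN1 : ∀ v ∈ N1, b ≤ dv v := by
    intro v hv
    rw [hN1d] at hv
    simp only [mem_filter, mem_univ, true_and] at hv
    obtain ⟨hne, ⟨i, hi⟩ | ⟨i, hi⟩⟩ := hv
    · have := step1_544 code hc g g' hb hs hs' v i hA hB hi (fun h => hne (hi.trans h.symm))
      rw [hdv, hO, hO']
      exact this
    · have := step1_544 code hc g' g hb hs' hs v i hA hB hi (fun h => hne (h.trans hi.symm))
      rw [← hswap v, hO, hO']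
      exact this
  have hN1c := hcount N1 hN1
  have hN1s : 3 * N1.card < 2 * b := ar2_544 _ b D K hb hK1 hN1c hcon
  have hP : ∀ j, b ≤ (univ.filter fun u => lam u = some (Sum.inl j) ∧
      lam' u = some (Sum.inl j)).card := by
    intro j
    have e1 : (univ.filter fun u => lam u = some (Sum.inl j)) ⊆
        (univ.filter fun u => lam u = some (Sum.inl j) ∧ lam' u = some (Sum.inl j)) ∪ N1 := by
      intro u hu
      simp only [mem_filter, mem_univ, true_and, mem_union] at hu ⊢
      by_cases h : lam' u = some (Sum.inl j)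
      · exact Or.inl ⟨hu, h⟩
      · right
        rw [hN1d]
        simp only [mem_filter, mem_univ, true_and]
        exact ⟨fun h3 => h (h3 ▸ hu), Or.inl ⟨j, hu⟩⟩
    have e2 : (univ.filter fun u => lam u = some (Sum.inl j)).card = 4 * (j.val + 1) * b :=
      (card_cls544 lam _).trans (hs (Sum.inl j))
    have e3 := (card_le_card e1).trans (card_union_le _ _)
    have e4 : 4 * b ≤ 4 * (j.val + 1) * b := by
      have : 1 ≤ j.val + 1 := by omega
      nlinarith
    omega
  obtain ⟨M, hMd⟩ : ∃ M : Finset V, M = univ.filter fun v => lam v ≠ lam' v := ⟨_, rfl⟩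
  have hM : ∀ v ∈ M, b ≤ dv v := by
    intro v hv
    rw [hMd] at hv
    simp only [mem_filter, mem_univ, true_and] at hv
    by_cases h : (∃ i, lam v = some (Sum.inl i)) ∨ ∃ i, lam' v = some (Sum.inl i)
    · apply hN1
      rw [hN1d]
      simp only [mem_filter, mem_univ, true_and]
      exact ⟨hv, h⟩
    · push Not at h
      have := step2_544 code hc g g' v b h.1 h.2 hv (fun j => by convert hP j)
      rw [hdv, hO, hO']
      exact this
  have hMc := hcount M hM
  -- step 3
  have hch : ∀ β : F × R1 × R2, ∃ h : F,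
      g (h, β.2.1) (h + β.1, β.2.2) ≠ g' (h, β.2.1) (h + β.1, β.2.2) := by
    intro β
    by_contra hc2
    push Not at hc2
    have e1 := hg β.1 β.2.1 β.2.2
    have e2 := hg' β.1 β.2.1 β.2.2
    rw [sum_congr rfl fun h _ => hc2 h, e2] at e1
    exact absurd e1 (by decide)
  choose hh hhh using hch
  obtain ⟨Ax, hAx⟩ : ∃ Ax : F × R1 → Finset V,
    Ax = fun x => univ.filter fun u => lam u = some (Sum.inr (Sum.inl x)) := ⟨_, rfl⟩
  obtain ⟨By, hBy⟩ : ∃ By : F × R2 → Finset V,
    By = fun y => univ.filter fun u => lam u = some (Sum.inr (Sum.inr y)) := ⟨_, rfl⟩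
  have hAxm : ∀ x u, u ∈ Ax x ↔ lam u = some (Sum.inr (Sum.inl x)) := by
    intro x u; rw [hAx]; simp
  have hBym : ∀ y u, u ∈ By y ↔ lam u = some (Sum.inr (Sum.inr y)) := by
    intro y u; rw [hBy]; simp
  have hMm : ∀ u, u ∉ M → lam' u = lam u := by
    intro u hu
    rw [hMd] at hu
    simp only [mem_filter, mem_univ, true_and, not_not] at hu
    exact hu.symm
  obtain ⟨P, hPd⟩ : ∃ P : F × R1 × R2 → Finset (V × V),
    P = fun β => (Ax (hh β, β.2.1) \ M) ×ˢ (By (hh β + β.1, β.2.2) \ M) := ⟨_, rfl⟩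
  have hPm : ∀ β p, p ∈ P β → lam p.1 = some (Sum.inr (Sum.inl (hh β, β.2.1))) ∧
      lam' p.1 = some (Sum.inr (Sum.inl (hh β, β.2.1))) ∧
      lam p.2 = some (Sum.inr (Sum.inr (hh β + β.1, β.2.2))) ∧
      lam' p.2 = some (Sum.inr (Sum.inr (hh β + β.1, β.2.2))) := by
    intro β p hp
    rw [hPd] at hp
    simp only [mem_product, mem_sdiff, hAxm, hBym] at hp
    obtain ⟨⟨e1, e2⟩, e3, e4⟩ := hp
    exact ⟨e1, (hMm _ e2).trans e1, e3, (hMm _ e4).trans e3⟩
  have hdisj : ∀ β ∈ (univ : Finset (F × R1 × R2)), ∀ β' ∈ (univ : Finset (F × R1 × R2)),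
      β ≠ β' → Disjoint (P β) (P β') := by
    intro β _ β' _ hne
    rw [Finset.disjoint_left]
    intro p hp hp'
    have e1 := hPm β p hp
    have e2 := hPm β' p hp'
    have e3 := e1.1.symm.trans e2.1
    have e4 := e1.2.2.1.symm.trans e2.2.2.1
    simp only [Option.some.injEq, Sum.inr.injEq, Sum.inl.injEq, Prod.mk.injEq] at e3 e4
    apply hne
    have e5 : β.1 = β'.1 := by
      have := e4.1
      rw [e3.1] at this
      exact add_left_cancel this
    exact Prod.ext e5 (Prod.ext e3.2 e4.2)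
  obtain ⟨U, hUd⟩ : ∃ U : Finset (V × V), U = univ.biUnion P := ⟨_, rfl⟩
  have hUc : U.card = ∑ β, (P β).card := by rw [hUd]; exact card_biUnion hdisj
  have hUm : ∀ p ∈ U, (O p.1 p.2 ≠ O' p.1 p.2 ∧ O p.2 p.1 ≠ O' p.2 p.1) ∧
      (∃ x, lam p.1 = some (Sum.inr (Sum.inl x))) ∧ ∃ y, lam p.2 = some (Sum.inr (Sum.inr y)) := by
    intro p hp
    rw [hUd, mem_biUnion] at hp
    obtain ⟨β, _, hp⟩ := hp
    have e1 := hPm β p hp
    refine ⟨?_, ⟨_, e1.1⟩, ⟨_, e1.2.2.1⟩⟩
    rw [hO, hO']
    exact pair544 code g g' lam lam' p.1 p.2 _ _ e1.1 e1.2.1 e1.2.2.1 e1.2.2.2 (hhh β)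
  have hU4 : 2 * U.card ≤ D := by
    have e1 : U ∪ U.image Prod.swap ⊆ univ.filter fun p : V × V => O p.1 p.2 ≠ O' p.1 p.2 := by
      intro p hp
      simp only [mem_union, mem_image, mem_filter, mem_univ, true_and] at hp ⊢
      rcases hp with hp | ⟨q, hq, rfl⟩
      · exact (hUm p hp).1.1
      · exact (hUm q hq).1.2
    have e2 : Disjoint U (U.image Prod.swap) := by
      rw [Finset.disjoint_left]
      intro p hp hp2
      rw [mem_image] at hp2
      obtain ⟨q, hq, rfl⟩ := hp2
      obtain ⟨x, hx⟩ := (hUm _ hp).2.1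
      obtain ⟨y, hy⟩ := (hUm q hq).2.2
      rw [Prod.fst_swap, hy] at hx
      simp at hx
    have e3 := card_le_card e1
    rw [card_union_of_disjoint e2, card_image_of_injective _ Prod.swap_injective] at e3
    rw [hD]
    unfold odiff
    omega
  -- counting
  have hAc : ∀ x, (Ax x \ M).card + (Ax x ∩ M).card = a1 := by
    intro x
    rw [card_sdiff_add_card_inter, hAx]
    exact (card_cls544 lam _).trans (hs (Sum.inr (Sum.inl x)))
  have hBc : ∀ y, (By y \ M).card + (By y ∩ M).card = a2 := by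
    intro y
    rw [card_sdiff_add_card_inter, hBy]
    exact (card_cls544 lam _).trans (hs (Sum.inr (Sum.inr y)))
  have hMsum : (∑ x, (Ax x ∩ M).card) + ∑ y, (By y ∩ M).card ≤ M.card := by
    have e1 := card_eq_sum_card_fiberwise (f := lam) (s := M)
      (t := (univ : Finset (Lb l (F × R1) (F × R2)))) (fun _ _ => mem_coe.2 (mem_univ _))
    rw [Fintype.sum_option, Fintype.sum_sum_type, Fintype.sum_sum_type] at e1
    have e2 : ∀ x, (Ax x ∩ M).card = (M.filter fun u => lam u = some (Sum.inr (Sum.inl x))).card := by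
      intro x
      congr 1
      ext u
      simp only [mem_inter, hAxm, mem_filter, and_comm]
    have e3 : ∀ y, (By y ∩ M).card = (M.filter fun u => lam u = some (Sum.inr (Sum.inr y))).card := by
      intro y
      congr 1
      ext u
      simp only [mem_inter, hBym, mem_filter, and_comm]
    simp only [e2, e3]
    omega
  have hPc : ∀ β : F × R1 × R2, a1 * a2 ≤ (P β).card + a2 * (∑ h, (Ax (h, β.2.1) ∩ M).card) +
      a1 * ∑ h, (By (h, β.2.2) ∩ M).card := by
    intro β
    have e1 : (P β).card = (Ax (hh β, β.2.1) \ M).card * (By (hh β + β.1, β.2.2) \ M).card := by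
      rw [hPd]; exact card_product _ _
    have e2 := hAc (hh β, β.2.1)
    have e3 := hBc (hh β + β.1, β.2.2)
    have e4 : (Ax (hh β, β.2.1) ∩ M).card ≤ ∑ h, (Ax (h, β.2.1) ∩ M).card :=
      single_le_sum (f := fun h => (Ax (h, β.2.1) ∩ M).card) (fun _ _ => Nat.zero_le _)
        (mem_univ (hh β))
    have e5 : (By (hh β + β.1, β.2.2) ∩ M).card ≤ ∑ h, (By (h, β.2.2) ∩ M).card :=
      single_le_sum (f := fun h => (By (h, β.2.2) ∩ M).card) (fun _ _ => Nat.zero_le _)
        (mem_univ (hh β + β.1))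
    have e6 := Nat.mul_le_mul_left a2 e4
    have e7 := Nat.mul_le_mul_left a1 e5
    rw [e1]
    obtain ⟨p, hp⟩ : ∃ p, p = (Ax (hh β, β.2.1) \ M).card := ⟨_, rfl⟩
    obtain ⟨q, hq⟩ : ∃ q, q = (By (hh β + β.1, β.2.2) \ M).card := ⟨_, rfl⟩
    obtain ⟨α, hα⟩ : ∃ α, α = (Ax (hh β, β.2.1) ∩ M).card := ⟨_, rfl⟩
    obtain ⟨γ, hγ⟩ : ∃ γ, γ = (By (hh β + β.1, β.2.2) ∩ M).card := ⟨_, rfl⟩
    rw [← hp, ← hα] at e2
    rw [← hq, ← hγ] at e3
    rw [← hα] at e6
    rw [← hγ] at e7
    rw [← hp, ← hq]
    have e8 : a1 * a2 ≤ p * q + a2 * α + a1 * γ := ar1_544 _ _ _ _ _ _ e2 e3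
    omega
  have hsum := sum_le_sum fun β (_ : β ∈ (univ : Finset (F × R1 × R2))) => hPc β
  rw [sum_add_distrib, sum_add_distrib, ← hUc] at hsum
  have s1 : ∑ _β : F × R1 × R2, a1 * a2 = K * Fintype.card R1 * Fintype.card R2 * (a1 * a2) := by
    rw [sum_const, card_univ, Fintype.card_prod, Fintype.card_prod, smul_eq_mul, ← hK]
    ring
  have s2 : ∑ β : F × R1 × R2, a2 * (∑ h, (Ax (h, β.2.1) ∩ M).card) =
      b * ∑ x, (Ax x ∩ M).card := by
    rw [Fintype.sum_prod_type]
    simp only [Fintype.sum_prod_type, sum_const, card_univ, smul_eq_mul, ← hK]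
    rw [← h2, sum_comm (f := fun x y => (Ax (x, y) ∩ M).card)]
    simp only [← mul_sum]
    ring
  have s3 : ∑ β : F × R1 × R2, a1 * (∑ h, (By (h, β.2.2) ∩ M).card) =
      b * ∑ y, (By y ∩ M).card := by
    rw [Fintype.sum_prod_type]
    simp only [Fintype.sum_prod_type, sum_const, card_univ, smul_eq_mul, ← hK]
    rw [← h1, sum_comm (f := fun x y => (By (x, y) ∩ M).card)]
    simp only [← mul_sum]
    ring
  rw [s1, s2, s3] at hsum
  have f1 : b * (∑ x, (Ax x ∩ M).card) + b * (∑ y, (By y ∩ M).card) ≤ D := by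
    rw [← mul_add]
    calc b * _ ≤ b * M.card := Nat.mul_le_mul_left b hMsum
      _ = M.card * b := mul_comm _ _
      _ ≤ D := hMc
  have f2 : K * (K * Fintype.card R1 * Fintype.card R2 * (a1 * a2)) = b ^ 2 := by
    have : b ^ 2 = (a1 * (K * Fintype.card R1)) * (a2 * (K * Fintype.card R2)) := by
      rw [h1, h2]; ring
    rw [this]; ring
  have f3 : K * Fintype.card R1 * Fintype.card R2 * (a1 * a2) ≤ U.card + D := by omega
  have f4 := Nat.mul_le_mul_left K f3
  rw [f2] at f4
  have f5 := Nat.mul_le_mul_left K hU4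
  have f6 : K * (U.card + D) = K * U.card + K * D := by ring
  have f7 : K * (2 * U.card) = 2 * (K * U.card) := by ring
  have f8 : 3 * K * D = 3 * (K * D) := by ring
  rw [f6] at f4
  rw [f7] at f5
  rw [f8] at hcon
  omega

end Pool.Agent.Helper116.AG
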