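import Pool.Agent.Helper116.AG.Defs2

set_option autoImplicit false
open Finset
open scoped Classical

noncomputable section

namespace Pool.Agent.Helper116.AG


theorem perm_hit {V : Type} [Fintype V] (D : Finset V) (w : Equiv.Perm V → ℝ) (hw : ∀ π, 0 ≤ w π)
    (hD : ∀ π π' : Equiv.Perm V, (∀ x ∈ D, π x = π' x) → w π = w π') (u : V) (hu : u ∉ D)
    (S : Finset V) :
    ((Fintype.card V : ℝ) - D.card) * ∑ π : Equiv.Perm V, (if π u ∈ S then w π else 0) ≤
      S.card * ∑ π : Equiv.Perm V, w π := by
  have h1 : ∀ u' ∈ Dᶜ, ∑ π : Equiv.Perm V, (if π u' ∈ S then w π else 0) =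
      ∑ π : Equiv.Perm V, (if π u ∈ S then w π else 0) := by
    intro u' hu'
    rw [Finset.mem_compl] at hu'
    refine Fintype.sum_equiv (Equiv.mulRight (Equiv.swap u u')) _ _ ?_
    intro π
    have h2 : w (Equiv.mulRight (Equiv.swap u u') π) = w π := by
      apply hD
      intro x hx
      simp only [Equiv.coe_mulRight, Equiv.Perm.coe_mul, Function.comp_apply]
      rw [Equiv.swap_apply_of_ne_of_ne]
      · rintro rfl
        exact hu hx
      · rintro rfl
        exact hu' hx
    have h3 : (Equiv.mulRight (Equiv.swap u u') π) u = π u' := by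
      simp only [Equiv.coe_mulRight, Equiv.Perm.coe_mul, Function.comp_apply,
        Equiv.swap_apply_left]
    rw [h2, h3]
  have h3 : ((Fintype.card V : ℝ) - D.card) = ((Dᶜ).card : ℝ) := by
    rw [Finset.card_compl, Nat.cast_sub (Finset.card_le_univ D)]
  calc ((Fintype.card V : ℝ) - D.card) * ∑ π : Equiv.Perm V, (if π u ∈ S then w π else 0)
      = ∑ u' ∈ Dᶜ, ∑ π : Equiv.Perm V, (if π u' ∈ S then w π else 0) := by
        rw [Finset.sum_congr rfl h1, Finset.sum_const, nsmul_eq_mul, h3]
    _ = ∑ π : Equiv.Perm V, ∑ u' ∈ Dᶜ, (if π u' ∈ S then w π else 0) := Finset.sum_comm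
    _ ≤ ∑ π : Equiv.Perm V, (S.card : ℝ) * w π := by
        refine Finset.sum_le_sum fun π _ => ?_
        rw [← Finset.sum_filter, Finset.sum_const, nsmul_eq_mul]
        refine mul_le_mul_of_nonneg_right ?_ (hw π)
        have h4 : ((Dᶜ).filter fun u' => π u' ∈ S).card ≤ S.card := by
          refine Finset.card_le_card_of_injOn (fun x => π x) ?_ (π.injective.injOn)
          intro x hx
          exact (Finset.mem_filter.1 hx).2
        exact_mod_cast h4
    _ = S.card * ∑ π : Equiv.Perm V, w π := by rw [Finset.mul_sum]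

end Pool.Agent.Helper116.AG
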