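import Pool.Agent.Helper116.AG.Defs2
import Pool.Agent.Helper116.AG.J2

set_option autoImplicit false
open Finset
open scoped Classical

noncomputable section

namespace Pool.Agent.Helper116.AG





/-- touched vertices -/
def ah_touch {V : Type} (T : DT V) (O : Orc V) : Finset V :=
  (T.qs O).image Prod.fst ∪ (T.qs O).image Prod.snd

/-- number of classes that are hit -/
def ah_H {V F : Type} [Fintype F] (S : F → Finset V) (D : Finset V) (π : Equiv.Perm V) : ℕ :=
  (univ.filter fun h : F => ∃ x ∈ D, π x ∈ S h).card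

theorem ah_H_congr {V F : Type} [Fintype F] (S : F → Finset V) (D : Finset V)
    (π π' : Equiv.Perm V) (h : ∀ x ∈ D, π x = π' x) : ah_H S D π = ah_H S D π' := by
  unfold ah_H
  congr 1
  ext h'
  simp only [mem_filter, mem_univ, true_and]
  constructor
  · rintro ⟨x, hx, hh⟩
    exact ⟨x, hx, by rw [← h x hx]; exact hh⟩
  · rintro ⟨x, hx, hh⟩
    exact ⟨x, hx, by rw [h x hx]; exact hh⟩

theorem ah_H_insert {V F : Type} [Fintype V] [Fintype F] (S : F → Finset V)
    (hS : ∀ h h', h ≠ h' → Disjoint (S h) (S h')) (D : Finset V) (x : V) (π : Equiv.Perm V) :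
    (4 : ℝ) ^ ah_H S (insert x D) π ≤
      4 ^ ah_H S D π + 3 * (if π x ∈ (univ : Finset F).biUnion S then (4 : ℝ) ^ ah_H S D π else 0) := by
  by_cases hx : π x ∈ (univ : Finset F).biUnion S
  · rw [if_pos hx]
    obtain ⟨h0, _, hh0⟩ := mem_biUnion.mp hx
    have h1 : ah_H S (insert x D) π ≤ ah_H S D π + 1 := by
      unfold ah_H
      have hsub : (univ.filter fun h : F => ∃ y ∈ insert x D, π y ∈ S h) ⊆
          insert h0 (univ.filter fun h : F => ∃ y ∈ D, π y ∈ S h) := by
        intro h hh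
        obtain ⟨y, hy, hyh⟩ := (mem_filter.mp hh).2
        rcases mem_insert.mp hy with rfl | hy'
        · by_cases he : h = h0
          · subst he; exact mem_insert_self _ _
          · exact absurd hh0 (Finset.disjoint_left.mp (hS h h0 he) hyh)
        · exact mem_insert_of_mem (mem_filter.mpr ⟨mem_univ _, y, hy', hyh⟩)
      exact (card_le_card hsub).trans (card_insert_le _ _)
    calc (4 : ℝ) ^ ah_H S (insert x D) π ≤ 4 ^ (ah_H S D π + 1) :=
          pow_le_pow_right₀ (by norm_num) h1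
      _ = _ := by rw [pow_succ]; ring
  · rw [if_neg hx, mul_zero, add_zero]
    have h1 : ah_H S (insert x D) π ≤ ah_H S D π := by
      unfold ah_H
      refine card_le_card ?_
      intro h hh
      obtain ⟨y, hy, hyh⟩ := (mem_filter.mp hh).2
      rcases mem_insert.mp hy with rfl | hy'
      · exact absurd (mem_biUnion.mpr ⟨h, mem_univ _, hyh⟩) hx
      · exact mem_filter.mpr ⟨mem_univ _, y, hy', hyh⟩
    exact pow_le_pow_right₀ (by norm_num) h1

theorem ah_add_one {V F : Type} [Fintype V] [Fintype F] (S : F → Finset V)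
    (hS : ∀ h h', h ≠ h' → Disjoint (S h) (S h')) (a q : ℕ) (ha : ∀ h, (S h).card ≤ a)
    (h2 : 2 * q < Fintype.card V) (D : Finset V) (hD1 : D.card + 1 ≤ 2 * q)
    (w : Equiv.Perm V → ℝ) (hw : ∀ π, 0 ≤ w π)
    (hD : ∀ π π' : Equiv.Perm V, (∀ x ∈ D, π x = π' x) → w π = w π') (x : V) :
    ∑ π : Equiv.Perm V, w π * 4 ^ ah_H S (insert x D) π ≤
      (1 + 3 * ((Fintype.card F : ℝ) * a) / ((Fintype.card V : ℝ) - 2 * q)) *
        ∑ π : Equiv.Perm V, w π * 4 ^ ah_H S D π := by
  have hN : (0:ℝ) < (Fintype.card V : ℝ) - 2 * q := by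
    have : ((2 * q : ℕ) : ℝ) < Fintype.card V := by exact_mod_cast h2
    push_cast at this; linarith
  have hsum0 : 0 ≤ ∑ π : Equiv.Perm V, w π * 4 ^ ah_H S D π :=
    Finset.sum_nonneg (fun π _ => mul_nonneg (hw π) (by positivity))
  have hc0 : 0 ≤ 3 * ((Fintype.card F : ℝ) * a) / ((Fintype.card V : ℝ) - 2 * q) := by positivity
  by_cases hx : x ∈ D
  · rw [insert_eq_of_mem hx]
    nlinarith
  · set U : Finset V := (univ : Finset F).biUnion S with hU
    have hUcard : (U.card : ℝ) ≤ (Fintype.card F : ℝ) * a := by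
      have h3 : U.card ≤ Fintype.card F * a := by
        refine card_biUnion_le.trans ?_
        refine (Finset.sum_le_sum (fun h _ => ha h)).trans ?_
        simp
      exact_mod_cast h3
    have hhit := perm_hit D (fun π => w π * 4 ^ ah_H S D π) (fun π => mul_nonneg (hw π) (by positivity))
      (fun π π' h => by
        show w π * 4 ^ ah_H S D π = w π' * 4 ^ ah_H S D π'
        rw [hD π π' h, ah_H_congr S D π π' h]) x hx U
    have hDc : (D.card : ℝ) ≤ 2 * q := by
      have : D.card ≤ 2 * q := by omega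
      exact_mod_cast this
    set s1 := ∑ π : Equiv.Perm V, w π * (4:ℝ) ^ ah_H S D π with hs1
    set s2 := ∑ π : Equiv.Perm V, (if π x ∈ U then w π * (4:ℝ) ^ ah_H S D π else 0) with hs2
    have hs20 : 0 ≤ s2 := Finset.sum_nonneg (fun π _ => by
      split_ifs
      · exact mul_nonneg (hw π) (by positivity)
      · exact le_rfl)
    have h4 : ∑ π : Equiv.Perm V, w π * 4 ^ ah_H S (insert x D) π ≤ s1 + 3 * s2 := by
      rw [hs1, hs2, Finset.mul_sum, ← Finset.sum_add_distrib]
      refine Finset.sum_le_sum (fun π _ => ?_)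
      have h5 := mul_le_mul_of_nonneg_left (ah_H_insert S hS D x π) (hw π)
      refine h5.trans (le_of_eq ?_)
      by_cases hxU : π x ∈ U
      · rw [if_pos hxU, if_pos hxU]; ring
      · rw [if_neg hxU, if_neg hxU]; ring
    have h6 : ((Fintype.card V : ℝ) - 2 * q) * s2 ≤ ((Fintype.card F : ℝ) * a) * s1 := by
      calc ((Fintype.card V : ℝ) - 2 * q) * s2 ≤ ((Fintype.card V : ℝ) - D.card) * s2 :=
            mul_le_mul_of_nonneg_right (by linarith) hs20
        _ ≤ U.card * s1 := hhit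
        _ ≤ _ := mul_le_mul_of_nonneg_right hUcard hsum0
    have h7 : s2 ≤ ((Fintype.card F : ℝ) * a) / ((Fintype.card V : ℝ) - 2 * q) * s1 := by
      rw [div_mul_eq_mul_div, le_div_iff₀ hN]
      linarith
    refine h4.trans ?_
    calc s1 + 3 * s2 ≤ s1 + 3 * (((Fintype.card F : ℝ) * a) / ((Fintype.card V : ℝ) - 2 * q) * s1) := by linarith
      _ = _ := by ring

theorem ah_main {V F : Type} [Fintype V] [Fintype F] (O : Orc V) (S : F → Finset V)
    (hS : ∀ h h', h ≠ h' → Disjoint (S h) (S h')) (a q : ℕ) (ha : ∀ h, (S h).card ≤ a)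
    (h2 : 2 * q < Fintype.card V) (T : DT V) :
    ∀ (n : ℕ), T.depth ≤ n → ∀ (D : Finset V), D.card + 2 * n ≤ 2 * q →
    ∀ (w : Equiv.Perm V → ℝ), (∀ π, 0 ≤ w π) →
    (∀ π π' : Equiv.Perm V, (∀ x ∈ D, π x = π' x) → w π = w π') →
    ∑ π : Equiv.Perm V, w π * 4 ^ ah_H S (D ∪ ah_touch T (fun u v => O (π u) (π v))) π ≤
      (1 + 3 * ((Fintype.card F : ℝ) * a) / ((Fintype.card V : ℝ) - 2 * q)) ^ (2 * n) *
        ∑ π : Equiv.Perm V, w π * 4 ^ ah_H S D π := by
  have hN : (0:ℝ) < (Fintype.card V : ℝ) - 2 * q := by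
    have : ((2 * q : ℕ) : ℝ) < Fintype.card V := by exact_mod_cast h2
    push_cast at this; linarith
  set θ : ℝ := 1 + 3 * ((Fintype.card F : ℝ) * a) / ((Fintype.card V : ℝ) - 2 * q) with hθ
  have hθ1 : 1 ≤ θ := by
    have : 0 ≤ 3 * ((Fintype.card F : ℝ) * a) / ((Fintype.card V : ℝ) - 2 * q) := by positivity
    linarith
  induction T with
  | leaf b =>
    intro n _ D _ w hw _
    have h3 : ∀ π : Equiv.Perm V, D ∪ ah_touch (DT.leaf b : DT V) (fun u v => O (π u) (π v)) = D := by
      intro π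
      simp [ah_touch, DT.qs]
    simp only [h3]
    have hsum0 : 0 ≤ ∑ π : Equiv.Perm V, w π * 4 ^ ah_H S D π :=
      Finset.sum_nonneg (fun π _ => mul_nonneg (hw π) (by positivity))
    exact le_mul_of_one_le_left hsum0 (one_le_pow₀ hθ1)
  | ask u v k ih =>
    intro n hn D hD w hw hwD
    obtain ⟨n, rfl⟩ : ∃ n', n = n' + 1 := by
      have : 1 ≤ n := le_trans (by simp [DT.depth]) hn
      exact ⟨n - 1, by omega⟩
    have hk : ∀ b, (k b).depth ≤ n := by
      intro b
      have h3 : 1 + max (k false).depth (k true).depth ≤ n + 1 := hn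
      cases b
      · have := le_max_left (k false).depth (k true).depth; omega
      · have := le_max_right (k false).depth (k true).depth; omega
    set D1 := insert u (insert v D) with hD1
    have hc1 : (insert v D).card ≤ D.card + 1 := card_insert_le _ _
    have hc2 : D1.card ≤ (insert v D).card + 1 := card_insert_le _ _
    -- the two answers
    have hb : ∀ b : Bool, ∑ π : Equiv.Perm V, (if O (π u) (π v) = b then w π else 0) *
        4 ^ ah_H S (D1 ∪ ah_touch (k b) (fun u v => O (π u) (π v))) π ≤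
        θ ^ (2 * n) * ∑ π : Equiv.Perm V, (if O (π u) (π v) = b then w π else 0) * 4 ^ ah_H S D1 π := by
      intro b
      refine ih b n (hk b) D1 (by omega) _ (fun π => ?_) (fun π π' h => ?_)
      · split_ifs
        · exact hw π
        · exact le_rfl
      · have hu : π u = π' u := h u (mem_insert_self _ _)
        have hv : π v = π' v := h v (mem_insert_of_mem (mem_insert_self _ _))
        have hw' : w π = w π' := hwD π π' (fun x hx => h x (mem_insert_of_mem (mem_insert_of_mem hx)))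
        rw [hu, hv, hw']
    have hsplit : ∀ (f : Bool → Equiv.Perm V → ℝ) (π : Equiv.Perm V),
        w π * f (O (π u) (π v)) π =
          (if O (π u) (π v) = false then w π else 0) * f false π +
          (if O (π u) (π v) = true then w π else 0) * f true π := by
      intro f π
      cases O (π u) (π v) <;> simp
    have htouch : ∀ π : Equiv.Perm V, D ∪ ah_touch (DT.ask u v k) (fun u v => O (π u) (π v)) =
        D1 ∪ ah_touch (k (O (π u) (π v))) (fun u v => O (π u) (π v)) := by
      intro π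
      ext x
      simp only [ah_touch, DT.qs, hD1, mem_union, mem_insert, image_insert]
      tauto
    have hLHS : ∑ π : Equiv.Perm V, w π * 4 ^ ah_H S (D ∪ ah_touch (DT.ask u v k) (fun u v => O (π u) (π v))) π =
        (∑ π : Equiv.Perm V, (if O (π u) (π v) = false then w π else 0) *
          4 ^ ah_H S (D1 ∪ ah_touch (k false) (fun u v => O (π u) (π v))) π) +
        ∑ π : Equiv.Perm V, (if O (π u) (π v) = true then w π else 0) *
          4 ^ ah_H S (D1 ∪ ah_touch (k true) (fun u v => O (π u) (π v))) π := by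
      rw [← Finset.sum_add_distrib]
      refine Finset.sum_congr rfl (fun π _ => ?_)
      rw [htouch π]
      exact hsplit (fun b π => 4 ^ ah_H S (D1 ∪ ah_touch (k b) (fun u v => O (π u) (π v))) π) π
    have hmid : (∑ π : Equiv.Perm V, (if O (π u) (π v) = false then w π else 0) * (4:ℝ) ^ ah_H S D1 π) +
        ∑ π : Equiv.Perm V, (if O (π u) (π v) = true then w π else 0) * (4:ℝ) ^ ah_H S D1 π =
        ∑ π : Equiv.Perm V, w π * 4 ^ ah_H S D1 π := by
      rw [← Finset.sum_add_distrib]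
      refine Finset.sum_congr rfl (fun π _ => ?_)
      exact (hsplit (fun _ π => 4 ^ ah_H S D1 π) π).symm
    have hadd1 := ah_add_one S hS a q ha h2 D (by omega) w hw hwD v
    have hadd2 := ah_add_one S hS a q ha h2 (insert v D) (by omega) w hw
      (fun π π' h => hwD π π' (fun x hx => h x (mem_insert_of_mem hx))) u
    rw [← hθ] at hadd1 hadd2
    rw [hLHS]
    have hθ0 : 0 ≤ θ := by linarith
    calc _ ≤ θ ^ (2 * n) * (∑ π : Equiv.Perm V, (if O (π u) (π v) = false then w π else 0) * 4 ^ ah_H S D1 π) +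
          θ ^ (2 * n) * ∑ π : Equiv.Perm V, (if O (π u) (π v) = true then w π else 0) * 4 ^ ah_H S D1 π :=
          add_le_add (hb false) (hb true)
      _ = θ ^ (2 * n) * ∑ π : Equiv.Perm V, w π * 4 ^ ah_H S D1 π := by
          rw [← mul_add, hmid]
      _ ≤ θ ^ (2 * n) * (θ * (θ * ∑ π : Equiv.Perm V, w π * 4 ^ ah_H S D π)) := by
          refine mul_le_mul_of_nonneg_left ?_ (by positivity)
          exact hadd2.trans (mul_le_mul_of_nonneg_left hadd1 hθ0)
      _ = θ ^ (2 * (n + 1)) * ∑ π : Equiv.Perm V, w π * 4 ^ ah_H S D π := by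
          have : 2 * (n + 1) = 2 * n + 2 := by ring
          rw [this, pow_add]; ring

theorem ah_exp : Real.exp (6 / 10) < 2 := by
  have h1 : Real.exp (6 / 10) ^ 5 < 2 ^ 5 := by
    rw [← Real.exp_nat_mul]
    have h2 : ((5 : ℕ) : ℝ) * (6 / 10) = ((3 : ℕ) : ℝ) * 1 := by norm_num
    rw [h2, Real.exp_nat_mul]
    have h3 := Real.exp_one_lt_d9
    have h4 : Real.exp 1 ^ 3 < 2.7182818286 ^ 3 := pow_lt_pow_left₀ h3 (Real.exp_pos _).le (by norm_num)
    refine h4.trans ?_
    norm_num
  exact lt_of_pow_lt_pow_left₀ 5 (by norm_num) h1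

theorem adaptive_hit {V F : Type} [Fintype V] [Fintype F] (O : Orc V) (T : DT V) (q : ℕ)
    (hT : T.depth ≤ q) (S : F → Finset V) (hS : ∀ h h', h ≠ h' → Disjoint (S h) (S h')) (a : ℕ)
    (ha : ∀ h, (S h).card ≤ a) (h2 : 2 * q < Fintype.card V)
    (h10 : 10 * q * a ≤ Fintype.card V - 2 * q) :
    ((univ.filter fun π : Equiv.Perm V =>
        ∀ h, ∃ p ∈ T.qs (fun u v => O (π u) (π v)), π p.1 ∈ S h ∨ π p.2 ∈ S h).card : ℝ) *
      2 ^ Fintype.card F ≤ (Fintype.card V).factorial := by
  have hmain := ah_main O S hS a q ha h2 T q hT ∅ (by simp) (fun _ => 1) (fun _ => zero_le_one)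
    (fun _ _ _ => rfl)
  have hN : (0:ℝ) < (Fintype.card V : ℝ) - 2 * q := by
    have : ((2 * q : ℕ) : ℝ) < Fintype.card V := by exact_mod_cast h2
    push_cast at this; linarith
  set K := Fintype.card F with hK
  set θ : ℝ := 1 + 3 * ((K : ℝ) * a) / ((Fintype.card V : ℝ) - 2 * q) with hθ
  have hR : ∑ π : Equiv.Perm V, (1:ℝ) * 4 ^ ah_H S ∅ π = (Fintype.card V).factorial := by
    have h3 : ∀ π : Equiv.Perm V, ah_H S ∅ π = 0 := by
      intro π
      unfold ah_H
      rw [card_eq_zero]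
      ext h
      simp
    simp only [h3, pow_zero, mul_one, Finset.sum_const, nsmul_eq_mul, Finset.card_univ]
    rw [Fintype.card_perm]
  rw [hR] at hmain
  set bad := univ.filter fun π : Equiv.Perm V =>
        ∀ h, ∃ p ∈ T.qs (fun u v => O (π u) (π v)), π p.1 ∈ S h ∨ π p.2 ∈ S h with hbad
  have hL : (bad.card : ℝ) * 4 ^ K ≤
      ∑ π : Equiv.Perm V, (1:ℝ) * 4 ^ ah_H S (∅ ∪ ah_touch T (fun u v => O (π u) (π v))) π := by
    have h4 : (bad.card : ℝ) * 4 ^ K = ∑ π ∈ bad, (4:ℝ) ^ K := by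
      rw [Finset.sum_const, nsmul_eq_mul]
    rw [h4]
    refine (Finset.sum_le_sum (fun π hπ => ?_)).trans
      (Finset.sum_le_sum_of_subset_of_nonneg (Finset.subset_univ bad) (fun π _ _ => by positivity))
    rw [one_mul]
    have h5 : ah_H S (∅ ∪ ah_touch T (fun u v => O (π u) (π v))) π = K := by
      unfold ah_H
      rw [hK, ← Finset.card_univ]
      congr 1
      rw [Finset.filter_eq_self]
      intro h _
      obtain ⟨p, hp, hh⟩ := (mem_filter.mp hπ).2 h
      rw [Finset.empty_union]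
      rcases hh with hh | hh
      · exact ⟨p.1, mem_union_left _ (mem_image_of_mem _ hp), hh⟩
      · exact ⟨p.2, mem_union_right _ (mem_image_of_mem _ hp), hh⟩
    rw [h5]
  have hθpow : θ ^ (2 * q) ≤ 2 ^ K := by
    have h6 : θ ≤ Real.exp (3 * ((K : ℝ) * a) / ((Fintype.card V : ℝ) - 2 * q)) := by
      rw [hθ, add_comm]
      exact Real.add_one_le_exp _
    have hθ0 : 0 ≤ θ := by positivity
    calc θ ^ (2 * q) ≤ Real.exp (3 * ((K : ℝ) * a) / ((Fintype.card V : ℝ) - 2 * q)) ^ (2 * q) :=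
          pow_le_pow_left₀ hθ0 h6 _
      _ = Real.exp (((2 * q : ℕ) : ℝ) * (3 * ((K : ℝ) * a) / ((Fintype.card V : ℝ) - 2 * q))) := by
          rw [Real.exp_nat_mul]
      _ ≤ Real.exp ((K : ℝ) * (6 / 10)) := by
          apply Real.exp_le_exp.mpr
          rw [← mul_div_assoc, div_le_iff₀ hN]
          have h7 : ((10 * q * a : ℕ) : ℝ) ≤ (Fintype.card V : ℝ) - 2 * q := by
            have h8 : 10 * q * a + 2 * q ≤ Fintype.card V := by omega
            have h9 : ((10 * q * a + 2 * q : ℕ) : ℝ) ≤ Fintype.card V := by exact_mod_cast h8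
            push_cast at h9 ⊢
            linarith
          push_cast at h7 ⊢
          have hK0 : (0:ℝ) ≤ K := Nat.cast_nonneg _
          have := mul_le_mul_of_nonneg_left h7 hK0
          nlinarith
      _ = Real.exp (6 / 10) ^ K := by rw [Real.exp_nat_mul]
      _ ≤ 2 ^ K := pow_le_pow_left₀ (Real.exp_pos _).le ah_exp.le _
  have hfac : (0:ℝ) ≤ (Fintype.card V).factorial := Nat.cast_nonneg _
  have hfin : (bad.card : ℝ) * 4 ^ K ≤ 2 ^ K * (Fintype.card V).factorial :=
    hL.trans (hmain.trans (mul_le_mul_of_nonneg_right hθpow hfac))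
  have h4K : (4:ℝ) ^ K = 2 ^ K * 2 ^ K := by
    rw [← mul_pow]; norm_num
  rw [h4K] at hfin
  have h2K : (0:ℝ) < 2 ^ K := by positivity
  have hfin2 : (2:ℝ) ^ K * ((bad.card : ℝ) * 2 ^ K) ≤ 2 ^ K * (Fintype.card V).factorial := by
    calc (2:ℝ) ^ K * ((bad.card : ℝ) * 2 ^ K) = (bad.card : ℝ) * (2 ^ K * 2 ^ K) := by ring
      _ ≤ _ := hfin
  exact le_of_mul_le_mul_left hfin2 h2K

end Pool.Agent.Helper116.AG
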