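import Pool.Agent.Helper116.AG.Defs2

set_option autoImplicit false
open Finset
open scoped Classical

noncomputable section

namespace Pool.Agent.Helper116.AG





theorem card_par {F R1 R2 : Type} [Fintype F] [Nonempty F] [AddGroup F] [Fintype R1] [Fintype R2] :
    (univ.filter fun g : F × R1 → F × R2 → ZMod 2 => Par 0 g).card =
      (univ.filter fun g : F × R1 → F × R2 → ZMod 2 => Par 1 g).card ∧
    0 < (univ.filter fun g : F × R1 → F × R2 → ZMod 2 => Par 0 g).card := by
  constructor
  · have hE : ∀ (d : F) (r : R1) (s : R2),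
        ∑ h : F, (fun (x : F × R1) (_ : F × R2) => if x.1 = 0 then (1 : ZMod 2) else 0)
          (h, r) (h + d, s) = 1 := by
      intro d r s
      simp
    have h2 : (1 : ZMod 2) + 1 = 0 := by decide
    have hstep : ∀ (g : F × R1 → F × R2 → ZMod 2) (e : ZMod 2), Par e g →
        Par (e + 1) (fun x y => g x y + if x.1 = 0 then (1 : ZMod 2) else 0) := by
      intro g e hg d r s
      have h1 := hg d r s
      have h3 := hE d r s
      rw [Finset.sum_add_distrib, h1]
      congr 1
    have hinv : ∀ (g : F × R1 → F × R2 → ZMod 2),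
        (fun x y => (fun x y => g x y + if x.1 = 0 then (1 : ZMod 2) else 0) x y +
          if x.1 = 0 then (1 : ZMod 2) else 0) = g := by
      intro g
      funext x y
      by_cases hx : x.1 = 0
      · simp only [if_pos hx]
        rw [add_assoc, h2, add_zero]
      · simp only [if_neg hx, add_zero]
    apply Finset.card_nbij' (fun g => fun x y => g x y + if x.1 = 0 then (1 : ZMod 2) else 0)
      (fun g => fun x y => g x y + if x.1 = 0 then (1 : ZMod 2) else 0)
    · intro g hg
      have hg' : Par 0 g := by simpa using hg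
      have := hstep g 0 hg'
      rw [zero_add] at this
      simpa using this
    · intro g hg
      have hg' : Par 1 g := by simpa using hg
      have := hstep g 1 hg'
      rw [h2] at this
      simpa using this
    · intro g _
      exact hinv g
    · intro g _
      exact hinv g
  · apply Finset.card_pos.2
    refine ⟨fun _ _ => 0, ?_⟩
    rw [mem_filter]
    refine ⟨mem_univ _, ?_⟩
    intro d r s
    simp


/-- the chosen element of the block which is not seen -/
def cQ833 {V F R1 R2 : Type} [AddGroup F] {l : ℕ} (lam : V → Lb l (F × R1) (F × R2))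
    (Q : Finset (V × V)) (d : F) (r : R1) (s : R2) : F :=
  if h : ∃ h : F, ∀ p ∈ Q, ¬
    ((lam p.1 = some (Sum.inr (Sum.inl (h, r))) ∧ lam p.2 = some (Sum.inr (Sum.inr (h + d, s)))) ∨
    (lam p.2 = some (Sum.inr (Sum.inl (h, r))) ∧ lam p.1 = some (Sum.inr (Sum.inr (h + d, s)))))
  then Classical.choose h else 0

/-- the change of the labelling -/
def EQ833 {V F R1 R2 : Type} [AddGroup F] {l : ℕ} (lam : V → Lb l (F × R1) (F × R2))
    (Q : Finset (V × V)) : F × R1 → F × R2 → ZMod 2 :=
  fun x y => if x.1 = cQ833 lam Q (-x.1 + y.1) x.2 y.2 then 1 else 0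

theorem cQ833_spec {V F R1 R2 : Type} [AddGroup F] {l : ℕ} (lam : V → Lb l (F × R1) (F × R2))
    (Q : Finset (V × V)) (hQ : ¬ Full lam Q) (d : F) (r : R1) (s : R2) : ∀ p ∈ Q, ¬
    ((lam p.1 = some (Sum.inr (Sum.inl (cQ833 lam Q d r s, r))) ∧
      lam p.2 = some (Sum.inr (Sum.inr (cQ833 lam Q d r s + d, s)))) ∨
    (lam p.2 = some (Sum.inr (Sum.inl (cQ833 lam Q d r s, r))) ∧
      lam p.1 = some (Sum.inr (Sum.inr (cQ833 lam Q d r s + d, s))))) := by
  have hex : ∃ h : F, ∀ p ∈ Q, ¬
    ((lam p.1 = some (Sum.inr (Sum.inl (h, r))) ∧ lam p.2 = some (Sum.inr (Sum.inr (h + d, s)))) ∨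
    (lam p.2 = some (Sum.inr (Sum.inl (h, r))) ∧
      lam p.1 = some (Sum.inr (Sum.inr (h + d, s))))) := by
    by_contra hc
    apply hQ
    refine ⟨d, r, s, fun h => ?_⟩
    by_contra hc2
    apply hc
    refine ⟨h, fun p hp hor => hc2 ⟨p, hp, hor⟩⟩
  have e : cQ833 lam Q d r s = Classical.choose hex := by
    unfold cQ833
    rw [dif_pos hex]
  rw [e]
  exact Classical.choose_spec hex

theorem EQ833_sum {V F R1 R2 : Type} [Fintype F] [AddGroup F] {l : ℕ}
    (lam : V → Lb l (F × R1) (F × R2)) (Q : Finset (V × V)) (d : F) (r : R1) (s : R2) :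
    ∑ h : F, EQ833 lam Q (h, r) (h + d, s) = 1 := by
  unfold EQ833
  simp only [neg_add_cancel_left]
  rw [Finset.sum_ite_eq' Finset.univ (cQ833 lam Q d r s) (fun _ => (1 : ZMod 2))]
  simp

theorem EQ833_par {V F R1 R2 : Type} [Fintype F] [AddGroup F] {l : ℕ}
    (lam : V → Lb l (F × R1) (F × R2)) (Q : Finset (V × V)) (g : F × R1 → F × R2 → ZMod 2)
    (hg : Par 0 g) : Par 1 (fun x y => g x y + EQ833 lam Q x y) := by
  intro d r s
  rw [Finset.sum_add_distrib, hg d r s, EQ833_sum, zero_add]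

theorem EQ833_zero {V F R1 R2 : Type} [AddGroup F] {l : ℕ}
    (lam : V → Lb l (F × R1) (F × R2)) (Q : Finset (V × V)) (hQ : ¬ Full lam Q) (x : F × R1)
    (y : F × R2) (p : V × V) (hp : p ∈ Q)
    (h : (lam p.1 = some (Sum.inr (Sum.inl x)) ∧ lam p.2 = some (Sum.inr (Sum.inr y))) ∨
      (lam p.2 = some (Sum.inr (Sum.inl x)) ∧ lam p.1 = some (Sum.inr (Sum.inr y)))) :
    EQ833 lam Q x y = 0 := by
  unfold EQ833
  rw [if_neg]
  intro hx
  have hspec := cQ833_spec lam Q hQ (-x.1 + y.1) x.2 y.2 p hp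
  rw [← hx, add_neg_cancel_left] at hspec
  exact hspec h

theorem EQ833_tmpl {V F R1 R2 : Type} [AddGroup F] {l : ℕ}
    (code : (F × R1) ⊕ (F × R2) → Fin (l + 1) → Bool)
    (lam : V → Lb l (F × R1) (F × R2)) (Q : Finset (V × V)) (hQ : ¬ Full lam Q)
    (g : F × R1 → F × R2 → ZMod 2) (p : V × V) (hp : p ∈ Q) :
    tmpl code (fun x y => g x y + EQ833 lam Q x y) (lam p.1) (lam p.2) =
      tmpl code g (lam p.1) (lam p.2) := by
  rcases h1 : lam p.1 with _ | (i | (x | y)) <;> rcases h2 : lam p.2 with _ | (j | (x' | y')) <;>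
    simp only [tmpl]
  · have h3 := EQ833_zero lam Q hQ x y' p hp (Or.inl ⟨h1, h2⟩)
    apply decide_eq_decide.2
    rw [h3, add_zero]
  · have h3 := EQ833_zero lam Q hQ x' y p hp (Or.inr ⟨h2, h1⟩)
    apply decide_eq_decide.2
    rw [h3, add_zero]

theorem swap_yes_no {V F R1 R2 : Type} [Fintype V] [Fintype F] [AddGroup F] [Fintype R1]
    [Fintype R2] {l : ℕ} (code : (F × R1) ⊕ (F × R2) → Fin (l + 1) → Bool)
    (lam : V → Lb l (F × R1) (F × R2)) (D : Orc V → Bool) (Qs : Orc V → Finset (V × V))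
    (hloc : ∀ O O' : Orc V, (∀ p ∈ Qs O, O p.1 p.2 = O' p.1 p.2) → D O' = D O ∧ Qs O' = Qs O) :
    (univ.filter fun g : F × R1 → F × R2 → ZMod 2 =>
        Par 0 g ∧ D (orc (gr code g lam)) = true).card ≤
      (univ.filter fun g : F × R1 → F × R2 → ZMod 2 =>
        Par 1 g ∧ D (orc (gr code g lam)) = true).card +
      (univ.filter fun g : F × R1 → F × R2 → ZMod 2 =>
        Par 0 g ∧ Full lam (Qs (orc (gr code g lam)))).card := by
  have hor : ∀ g : F × R1 → F × R2 → ZMod 2, ¬ Full lam (Qs (orc (gr code g lam))) →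
      D (orc (gr code (fun x y => g x y + EQ833 lam (Qs (orc (gr code g lam))) x y) lam)) =
        D (orc (gr code g lam)) ∧
      Qs (orc (gr code (fun x y => g x y + EQ833 lam (Qs (orc (gr code g lam))) x y) lam)) =
        Qs (orc (gr code g lam)) := by
    intro g hF
    apply hloc
    intro p hp
    have h1 := EQ833_tmpl code lam _ hF g p hp
    unfold orc
    apply decide_eq_decide.2
    show (p.1 ≠ p.2 ∧ tmpl code g (lam p.1) (lam p.2) = true) ↔
      (p.1 ≠ p.2 ∧ tmpl code (fun x y => g x y + EQ833 lam (Qs (orc (gr code g lam))) x y)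
        (lam p.1) (lam p.2) = true)
    rw [h1]
  have hsplit : (univ.filter fun g : F × R1 → F × R2 → ZMod 2 =>
        Par 0 g ∧ D (orc (gr code g lam)) = true) ⊆
      (univ.filter fun g : F × R1 → F × R2 → ZMod 2 =>
        (Par 0 g ∧ D (orc (gr code g lam)) = true) ∧ ¬ Full lam (Qs (orc (gr code g lam)))) ∪
      (univ.filter fun g : F × R1 → F × R2 → ZMod 2 =>
        Par 0 g ∧ Full lam (Qs (orc (gr code g lam)))) := by
    intro g hg
    rw [mem_filter] at hg
    rw [mem_union, mem_filter, mem_filter]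
    by_cases hF : Full lam (Qs (orc (gr code g lam)))
    · exact Or.inr ⟨hg.1, hg.2.1, hF⟩
    · exact Or.inl ⟨hg.1, hg.2, hF⟩
  have hinj : (univ.filter fun g : F × R1 → F × R2 → ZMod 2 =>
        (Par 0 g ∧ D (orc (gr code g lam)) = true) ∧
          ¬ Full lam (Qs (orc (gr code g lam)))).card ≤
      (univ.filter fun g : F × R1 → F × R2 → ZMod 2 =>
        Par 1 g ∧ D (orc (gr code g lam)) = true).card := by
    apply Finset.card_le_card_of_injOn
      (fun g => fun x y => g x y + EQ833 lam (Qs (orc (gr code g lam))) x y)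
    · intro g hg
      rw [mem_coe, mem_filter] at hg
      rw [mem_coe, mem_filter]
      obtain ⟨-, ⟨h1, h2⟩, h3⟩ := hg
      refine ⟨mem_univ _, EQ833_par lam _ g h1, ?_⟩
      rw [(hor g h3).1]
      exact h2
    · intro g1 hg1 g2 hg2 heq
      rw [mem_coe, mem_filter] at hg1 hg2
      have heq' : (fun x y => g1 x y + EQ833 lam (Qs (orc (gr code g1 lam))) x y) =
          (fun x y => g2 x y + EQ833 lam (Qs (orc (gr code g2 lam))) x y) := heq
      have h1 := (hor g1 hg1.2.2).2
      have h2 := (hor g2 hg2.2.2).2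
      rw [heq'] at h1
      have hQ : Qs (orc (gr code g1 lam)) = Qs (orc (gr code g2 lam)) := h1.symm.trans h2
      rw [hQ] at heq'
      funext x y
      have h3 := congrFun (congrFun heq' x) y
      exact add_right_cancel h3
  calc _ ≤ _ := Finset.card_le_card hsplit
    _ ≤ _ := Finset.card_union_le _ _
    _ ≤ _ := Nat.add_le_add_right hinj _

end Pool.Agent.Helper116.AG
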