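import Pool.Agent.Helper116.AG.Defs2
import Pool.Agent.Helper116.AG.J1
import Pool.Agent.Helper116.AG.J3
import Pool.Agent.Helper116.AG.J5

set_option autoImplicit false
open Finset
open scoped Classical

noncomputable section

namespace Pool.Agent.Helper116.AG













theorem al_local {V : Type} (T : DT V) : ∀ O O' : Orc V,
    (∀ p ∈ T.qs O, O p.1 p.2 = O' p.1 p.2) → T.run O' = T.run O ∧ T.qs O' = T.qs O := by
  induction T with
  | leaf b => intro O O' _; exact ⟨rfl, rfl⟩
  | ask u v k ih =>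
    intro O O' h
    have h0 : O u v = O' u v := h (u, v) (by
      simp only [DT.qs]; exact Finset.mem_insert_self _ _)
    have h1 := ih (O u v) O O' (fun p hp => h p (by
      simp only [DT.qs]; exact Finset.mem_insert_of_mem hp))
    simp only [DT.run, DT.qs, ← h0, h1.1, h1.2, and_self]

theorem al_sized {N : ℕ} {l : ℕ} {A B : Type} (b a1 a2 : ℕ) (lam0 : Fin N → Lb l A B)
    (hs : Sized b a1 a2 lam0) (π : Equiv.Perm (Fin N)) :
    Sized b a1 a2 (fun v => lam0 (π v)) := by
  intro α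
  rw [← hs α]
  unfold cls
  exact Finset.card_equiv π (fun i => by simp)

theorem al_orc {V : Type} {l : ℕ} {A B : Type} (code : A ⊕ B → Fin (l + 1) → Bool)
    (g : A → B → ZMod 2) (lam0 : V → Lb l A B) (π : Equiv.Perm V) :
    orc (gr code g (fun v => lam0 (π v))) = fun u v => orc (gr code g lam0) (π u) (π v) := by
  funext u v
  unfold orc
  rw [decide_eq_decide]
  constructor
  · rintro ⟨h1, h2⟩
    exact ⟨fun h => h1 (π.injective h), h2⟩
  · rintro ⟨h1, h2⟩
    exact ⟨fun h => h1 (congrArg π h), h2⟩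

theorem al_odiff {N : ℕ} (G H : SimpleGraph (Fin N)) :
    odiff (orc G) (orc H) ≤ 2 * diff G H := by
  set P : Fin N × Fin N → Prop := fun p => ¬ (G.Adj p.1 p.2 ↔ H.Adj p.1 p.2) with hP
  have e1 : odiff (orc G) (orc H) = (univ.filter fun p : Fin N × Fin N => P p).card := by
    unfold odiff orc
    congr 1
    ext p
    simp only [Finset.mem_filter, Finset.mem_univ, true_and, hP, ne_eq, decide_eq_decide]
  have e2 : (univ.filter fun p : Fin N × Fin N => P p) ⊆
      (univ.filter fun p : Fin N × Fin N => p.1 < p.2 ∧ P p) ∪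
        (univ.filter fun p : Fin N × Fin N => p.2 < p.1 ∧ P p) := by
    intro p hp
    simp only [Finset.mem_filter, Finset.mem_univ, true_and, Finset.mem_union] at hp ⊢
    rcases lt_trichotomy p.1 p.2 with h | h | h
    · exact Or.inl ⟨h, hp⟩
    · exfalso
      apply hp
      rw [h]
      constructor <;> intro h' <;> exact absurd h' (SimpleGraph.irrefl _)
    · exact Or.inr ⟨h, hp⟩
  have e3 : (univ.filter fun p : Fin N × Fin N => p.2 < p.1 ∧ P p).card =
      (univ.filter fun p : Fin N × Fin N => p.1 < p.2 ∧ P p).card := by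
    refine Finset.card_equiv (Equiv.prodComm _ _) (fun p => ?_)
    simp only [Finset.mem_filter, Finset.mem_univ, true_and, Equiv.prodComm_apply, Prod.fst_swap,
      Prod.snd_swap, hP]
    rw [G.adj_comm, H.adj_comm]
  have e4 : diff G H = (univ.filter fun p : Fin N × Fin N => p.1 < p.2 ∧ P p).card := by
    unfold diff
    congr 1
  rw [e1, e4]
  calc _ ≤ _ := Finset.card_le_card e2
    _ ≤ _ := Finset.card_union_le _ _
    _ = _ := by rw [e3]; ring

theorem al_far {N : ℕ} {F R1 R2 : Type} [Fintype F] [Nonempty F] [AddGroup F] [Fintype R1]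
    [Fintype R2] {l : ℕ} (code : (F × R1) ⊕ (F × R2) → Fin (l + 1) → Bool) (hc : GoodCode code)
    (b a1 a2 : ℕ) (hb : 1 ≤ b)
    (h1 : a1 * (Fintype.card F * Fintype.card R1) = b)
    (h2 : a2 * (Fintype.card F * Fintype.card R2) = b)
    (lam : Fin N → Lb l (F × R1) (F × R2)) (hs : Sized b a1 a2 lam) (ε : ℝ)
    (hε : ε * (N : ℝ) ^ 2 * (3 * Fintype.card F) < (b : ℝ) ^ 2)
    (g : F × R1 → F × R2 → ZMod 2) (hg : Par 1 g) :
    Far (Tm code b a1 a2 : Set (SimpleGraph (Fin N))) ε (gr code g lam) := by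
  rintro H ⟨lam', g', hs', hg', rfl⟩
  have h3 := far_odd code hc b a1 a2 hb h1 h2 lam lam' hs hs' g g' hg hg'
  have h4 := al_odiff (gr code g lam) (gr code g' lam')
  have hF : 0 < Fintype.card F := Fintype.card_pos
  have h5 : b ^ 2 ≤ 3 * Fintype.card F * diff (gr code g lam) (gr code g' lam') := by
    have : 3 * Fintype.card F * odiff (orc (gr code g lam)) (orc (gr code g' lam')) ≤
        3 * Fintype.card F * (2 * diff (gr code g lam) (gr code g' lam')) :=
      Nat.mul_le_mul_left _ h4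
    nlinarith
  have h6 : ((b : ℝ)) ^ 2 ≤ 3 * Fintype.card F * (diff (gr code g lam) (gr code g' lam') : ℝ) := by
    exact_mod_cast h5
  have hF' : (0 : ℝ) < 3 * Fintype.card F := by positivity
  by_contra hcon
  push Not at hcon
  have := mul_le_mul_of_nonneg_right hcon hF'.le
  nlinarith

theorem al_full {N : ℕ} {F R1 R2 : Type} [Fintype F] [Nonempty F] [AddGroup F] [Fintype R1]
    [Fintype R2] {l : ℕ} (code : (F × R1) ⊕ (F × R2) → Fin (l + 1) → Bool)
    (b a1 a2 : ℕ)
    (lam0 : Fin N → Lb l (F × R1) (F × R2)) (hs : Sized b a1 a2 lam0)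
    (q : ℕ) (hq : 2 * q < N) (hq2 : 10 * q * a1 ≤ N - 2 * q) (T : DT (Fin N)) (hT : T.depth ≤ q)
    (g : F × R1 → F × R2 → ZMod 2) :
    ((univ.filter fun π : Equiv.Perm (Fin N) => Full (fun v => lam0 (π v))
      (T.qs (orc (gr code g (fun v => lam0 (π v)))))).card : ℝ) * 2 ^ Fintype.card F ≤
      Fintype.card R1 * (N.factorial : ℝ) := by
  let Sr : R1 → F → Finset (Fin N) := fun r h =>
    univ.filter fun v => lam0 v = some (Sum.inr (Sum.inl (h, r)))
  have hhit : ∀ r : R1, ((univ.filter fun π : Equiv.Perm (Fin N) =>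
        ∀ h, ∃ p ∈ T.qs (fun u v => orc (gr code g lam0) (π u) (π v)),
          π p.1 ∈ Sr r h ∨ π p.2 ∈ Sr r h).card : ℝ) *
      2 ^ Fintype.card F ≤ (N.factorial : ℝ) := by
    intro r
    have hd : ∀ h h', h ≠ h' → Disjoint (Sr r h) (Sr r h') := by
      intro h h' hne
      rw [Finset.disjoint_left]
      intro v hv hv'
      have e := (Finset.mem_filter.1 hv).2.symm.trans (Finset.mem_filter.1 hv').2
      simp only [Option.some.injEq, Sum.inr.injEq, Sum.inl.injEq, Prod.mk.injEq, and_true] at e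
      exact hne e
    have hcd : ∀ h, (Sr r h).card ≤ a1 := by
      intro h
      have e0 : cls lam0 (some (Sum.inr (Sum.inl (h, r)))) = a1 := hs (Sum.inr (Sum.inl (h, r)))
      have e1 : (Sr r h).card = cls lam0 (some (Sum.inr (Sum.inl (h, r)))) := by
        unfold cls
        congr 1
        ext v
        simp only [Sr, Finset.mem_filter]
      rw [e1, e0]
    have hcN : Fintype.card (Fin N) = N := Fintype.card_fin N
    have hq' : 2 * q < Fintype.card (Fin N) := hcN.symm ▸ hq
    have hq2' : 10 * q * a1 ≤ Fintype.card (Fin N) - 2 * q := hcN.symm ▸ hq2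
    have := adaptive_hit (orc (gr code g lam0)) T q hT (Sr r) hd a1 hcd hq' hq2'
    rw [hcN] at this
    refine le_trans (le_of_eq ?_) this
    refine congrArg (fun x : ℕ => (x : ℝ) * 2 ^ Fintype.card F) (congrArg Finset.card ?_)
    ext π
    simp only [Finset.mem_filter, Finset.mem_univ, true_and]
  have hsub : (univ.filter fun π : Equiv.Perm (Fin N) => Full (fun v => lam0 (π v))
      (T.qs (orc (gr code g (fun v => lam0 (π v)))))) ⊆
      (univ : Finset R1).biUnion (fun r => univ.filter fun π : Equiv.Perm (Fin N) =>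
        ∀ h, ∃ p ∈ T.qs (fun u v => orc (gr code g lam0) (π u) (π v)),
          π p.1 ∈ Sr r h ∨ π p.2 ∈ Sr r h) := by
    intro π hπ
    rw [Finset.mem_filter] at hπ
    obtain ⟨d, r, s, hd⟩ := hπ.2
    rw [Finset.mem_biUnion]
    refine ⟨r, Finset.mem_univ _, ?_⟩
    rw [Finset.mem_filter]
    refine ⟨Finset.mem_univ _, fun h => ?_⟩
    obtain ⟨p, hp, hp2⟩ := hd h
    rw [al_orc] at hp
    refine ⟨p, hp, ?_⟩
    rcases hp2 with ⟨h3, _⟩ | ⟨h3, _⟩
    · exact Or.inl (Finset.mem_filter.2 ⟨Finset.mem_univ _, h3⟩)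
    · exact Or.inr (Finset.mem_filter.2 ⟨Finset.mem_univ _, h3⟩)
  have hcard := (Finset.card_le_card hsub).trans Finset.card_biUnion_le
  have hcard' : ((univ.filter fun π : Equiv.Perm (Fin N) => Full (fun v => lam0 (π v))
      (T.qs (orc (gr code g (fun v => lam0 (π v)))))).card : ℝ) ≤
      ∑ r : R1, ((univ.filter fun π : Equiv.Perm (Fin N) =>
        ∀ h, ∃ p ∈ T.qs (fun u v => orc (gr code g lam0) (π u) (π v)),
          π p.1 ∈ Sr r h ∨ π p.2 ∈ Sr r h).card : ℝ) := by
    exact_mod_cast hcard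
  calc _ ≤ (∑ r : R1, ((univ.filter fun π : Equiv.Perm (Fin N) =>
        ∀ h, ∃ p ∈ T.qs (fun u v => orc (gr code g lam0) (π u) (π v)),
          π p.1 ∈ Sr r h ∨ π p.2 ∈ Sr r h).card : ℝ)) * 2 ^ Fintype.card F :=
        mul_le_mul_of_nonneg_right hcard' (by positivity)
    _ ≤ ∑ r : R1, (N.factorial : ℝ) := by
        rw [Finset.sum_mul]
        exact Finset.sum_le_sum fun r _ => hhit r
    _ = _ := by rw [Finset.sum_const, Finset.card_univ, nsmul_eq_mul]

/-- double counting of accepted instances -/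
theorem al_acc {Ω G : Type} [Fintype Ω] [Fintype G] (p : Ω → ℝ) (P : G → Prop) (R : Ω → G → Bool) :
    ∑ g ∈ univ.filter (fun g => P g), (∑ ω, if R ω g = true then p ω else 0) =
      ∑ ω, p ω * ((univ.filter fun g => P g ∧ R ω g = true).card : ℝ) := by
  rw [Finset.sum_comm]
  refine Finset.sum_congr rfl fun ω _ => ?_
  rw [← Finset.sum_filter, Finset.filter_filter, Finset.sum_const, nsmul_eq_mul, mul_comm]

theorem adaptive_lower {N : ℕ} {F R1 R2 : Type} [Fintype F] [Nonempty F] [AddGroup F] [Fintype R1]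
    [Fintype R2] {l : ℕ} (code : (F × R1) ⊕ (F × R2) → Fin (l + 1) → Bool) (hc : GoodCode code)
    (b a1 a2 : ℕ) (hb : 1 ≤ b)
    (h1 : a1 * (Fintype.card F * Fintype.card R1) = b)
    (h2 : a2 * (Fintype.card F * Fintype.card R2) = b)
    (lam0 : Fin N → Lb l (F × R1) (F × R2)) (hs : Sized b a1 a2 lam0) (ε : ℝ)
    (hε : ε * (N : ℝ) ^ 2 * (3 * Fintype.card F) < (b : ℝ) ^ 2) (q : ℕ) (hq : 2 * q < N)
    (hq2 : 10 * q * a1 ≤ N - 2 * q) (hK : 3 * Fintype.card R1 < 2 ^ Fintype.card F) :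
    ¬ ATest (Tm code b a1 a2 : Set (SimpleGraph (Fin N))) ε q := by
  rintro ⟨Ω, _, p, T, hp0, hp1, hTd, hyes, hno⟩
  obtain ⟨hY1, hY0⟩ := card_par (F := F) (R1 := R1) (R2 := R2)
  set A0 := (univ.filter fun g : F × R1 → F × R2 → ZMod 2 => Par 0 g) with hA0
  set A1 := (univ.filter fun g : F × R1 → F × R2 → ZMod 2 => Par 1 g) with hA1
  let c0 : Ω → Equiv.Perm (Fin N) → ℕ := fun ω π =>
    (univ.filter fun g : F × R1 → F × R2 → ZMod 2 =>
      Par 0 g ∧ (T ω).run (orc (gr code g (fun v => lam0 (π v)))) = true).card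
  let c1 : Ω → Equiv.Perm (Fin N) → ℕ := fun ω π =>
    (univ.filter fun g : F × R1 → F × R2 → ZMod 2 =>
      Par 1 g ∧ (T ω).run (orc (gr code g (fun v => lam0 (π v)))) = true).card
  let cf : Ω → Equiv.Perm (Fin N) → ℕ := fun ω π =>
    (univ.filter fun g : F × R1 → F × R2 → ZMod 2 =>
      Par 0 g ∧ Full (fun v => lam0 (π v))
        ((T ω).qs (orc (gr code g (fun v => lam0 (π v)))))).card
  have hswap : ∀ ω π, c0 ω π ≤ c1 ω π + cf ω π := fun ω π =>
    swap_yes_no code (fun v => lam0 (π v)) (fun O => (T ω).run O) (fun O => (T ω).qs O)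
      (fun O O' h => al_local (T ω) O O' h)
  have hc0 : ∀ π, (2 / 3 : ℝ) * A0.card ≤ ∑ ω, p ω * (c0 ω π : ℝ) := by
    intro π
    have := al_acc p (fun g : F × R1 → F × R2 → ZMod 2 => Par 0 g)
      (fun ω g => (T ω).run (orc (gr code g (fun v => lam0 (π v)))))
    change (2 / 3 : ℝ) * A0.card ≤ ∑ ω, p ω * ((univ.filter fun g : F × R1 → F × R2 → ZMod 2 =>
      Par 0 g ∧ (T ω).run (orc (gr code g (fun v => lam0 (π v)))) = true).card : ℝ)
    rw [← this]
    calc (2 / 3 : ℝ) * A0.card = ∑ g ∈ A0, (2 / 3 : ℝ) := by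
          rw [Finset.sum_const, nsmul_eq_mul, mul_comm]
      _ ≤ _ := Finset.sum_le_sum fun g hg =>
          hyes _ ⟨_, g, al_sized b a1 a2 lam0 hs π, (Finset.mem_filter.1 hg).2, rfl⟩
  have hc1 : ∀ π, ∑ ω, p ω * (c1 ω π : ℝ) ≤ (1 / 3 : ℝ) * A0.card := by
    intro π
    have := al_acc p (fun g : F × R1 → F × R2 → ZMod 2 => Par 1 g)
      (fun ω g => (T ω).run (orc (gr code g (fun v => lam0 (π v)))))
    change ∑ ω, p ω * ((univ.filter fun g : F × R1 → F × R2 → ZMod 2 =>
      Par 1 g ∧ (T ω).run (orc (gr code g (fun v => lam0 (π v)))) = true).card : ℝ) ≤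
      (1 / 3 : ℝ) * A0.card
    rw [← this, hY1]
    calc _ ≤ ∑ g ∈ A1, (1 / 3 : ℝ) := Finset.sum_le_sum fun g hg => by
          have h3 := hno _ (al_far code hc b a1 a2 hb h1 h2 (fun v => lam0 (π v))
            (al_sized b a1 a2 lam0 hs π) ε hε g (Finset.mem_filter.1 hg).2)
          have h4 : (∑ ω, if (T ω).run (orc (gr code g (fun v => lam0 (π v)))) = true
              then p ω else 0) + (∑ ω, if (T ω).run (orc (gr code g (fun v => lam0 (π v)))) = false
              then p ω else 0) = 1 := by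
            rw [← hp1, ← Finset.sum_add_distrib]
            refine Finset.sum_congr rfl fun ω _ => ?_
            cases (T ω).run (orc (gr code g (fun v => lam0 (π v)))) <;> simp
          linarith
      _ = (1 / 3 : ℝ) * A1.card := by rw [Finset.sum_const, nsmul_eq_mul, mul_comm]
  have hcf : ∀ π, (1 / 3 : ℝ) * A0.card ≤ ∑ ω, p ω * (cf ω π : ℝ) := by
    intro π
    have h3 : ∑ ω, p ω * (c0 ω π : ℝ) ≤ ∑ ω, p ω * (c1 ω π : ℝ) + ∑ ω, p ω * (cf ω π : ℝ) := by
      rw [← Finset.sum_add_distrib]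
      refine Finset.sum_le_sum fun ω _ => ?_
      rw [← mul_add]
      refine mul_le_mul_of_nonneg_left ?_ (hp0 ω)
      exact_mod_cast hswap ω π
    have h4 := hc0 π
    have h5 := hc1 π
    linarith
  have hC : ∀ ω, (∑ π, (cf ω π : ℝ)) * 2 ^ Fintype.card F ≤
      A0.card * (Fintype.card R1 * (N.factorial : ℝ)) := by
    intro ω
    have e1 : ∀ π, (cf ω π : ℝ) = ∑ g ∈ A0, (if Full (fun v => lam0 (π v))
        ((T ω).qs (orc (gr code g (fun v => lam0 (π v))))) then (1 : ℝ) else 0) := by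
      intro π
      change (((univ.filter fun g : F × R1 → F × R2 → ZMod 2 =>
        Par 0 g ∧ Full (fun v => lam0 (π v))
        ((T ω).qs (orc (gr code g (fun v => lam0 (π v)))))).card : ℕ) : ℝ) = _
      rw [← Finset.filter_filter, Finset.card_filter]
      push_cast
      rfl
    simp only [e1]
    rw [Finset.sum_comm, Finset.sum_mul]
    calc _ ≤ ∑ g ∈ A0, (Fintype.card R1 * (N.factorial : ℝ)) := by
          refine Finset.sum_le_sum fun g _ => ?_
          have h3 := al_full code b a1 a2 lam0 hs q hq hq2 (T ω) (hTd ω) g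
          rw [Finset.card_filter] at h3
          push_cast at h3
          exact h3
      _ = _ := by rw [Finset.sum_const, nsmul_eq_mul]
  -- sum over all permutations
  have hN : (0 : ℝ) < N.factorial := by exact_mod_cast Nat.factorial_pos N
  have hY : (0 : ℝ) < A0.card := by exact_mod_cast hY0
  have hsum : (N.factorial : ℝ) * ((1 / 3 : ℝ) * A0.card) ≤ ∑ ω, p ω * ∑ π, (cf ω π : ℝ) := by
    calc (N.factorial : ℝ) * ((1 / 3 : ℝ) * A0.card) =
          ∑ _π : Equiv.Perm (Fin N), ((1 / 3 : ℝ) * A0.card) := by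
          rw [Finset.sum_const, Finset.card_univ, Fintype.card_perm, Fintype.card_fin,
            nsmul_eq_mul]
      _ ≤ ∑ π : Equiv.Perm (Fin N), ∑ ω, p ω * (cf ω π : ℝ) :=
          Finset.sum_le_sum fun π _ => hcf π
      _ = _ := by
          rw [Finset.sum_comm]
          exact Finset.sum_congr rfl fun ω _ => by rw [Finset.mul_sum]
  have h2K : (0 : ℝ) < 2 ^ Fintype.card F := by positivity
  have hfin : (N.factorial : ℝ) * ((1 / 3 : ℝ) * A0.card) * 2 ^ Fintype.card F ≤
      A0.card * (Fintype.card R1 * (N.factorial : ℝ)) := by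
    calc _ ≤ (∑ ω, p ω * ∑ π, (cf ω π : ℝ)) * 2 ^ Fintype.card F :=
          mul_le_mul_of_nonneg_right hsum h2K.le
      _ = ∑ ω, p ω * ((∑ π, (cf ω π : ℝ)) * 2 ^ Fintype.card F) := by
          rw [Finset.sum_mul]
          exact Finset.sum_congr rfl fun ω _ => by ring
      _ ≤ ∑ ω, p ω * (A0.card * (Fintype.card R1 * (N.factorial : ℝ))) :=
          Finset.sum_le_sum fun ω _ => mul_le_mul_of_nonneg_left (hC ω) (hp0 ω)
      _ = _ := by rw [← Finset.sum_mul, hp1, one_mul]
  have hK' : (3 : ℝ) * Fintype.card R1 < 2 ^ Fintype.card F := by exact_mod_cast hK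
  have hprod : (0 : ℝ) < N.factorial * A0.card := mul_pos hN hY
  have h7 : (N.factorial * A0.card : ℝ) * 2 ^ Fintype.card F ≤
      (N.factorial * A0.card : ℝ) * (3 * Fintype.card R1) := by linarith
  have h8 := le_of_mul_le_mul_left h7 hprod
  linarith


end Pool.Agent.Helper116.AG
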