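import Pool.Agent.Helper116.AG.Defs2
import Pool.Agent.Helper116.AG.J2

set_option autoImplicit false
open Finset
open scoped Classical

noncomputable section

namespace Pool.Agent.Helper116.AG





theorem nonadaptive_hit_gen {V ι : Type} [Fintype V] (y : ι → V)
    (hy : Function.Injective y) (T : ι → Finset V) (n : ℕ) (hn : n ≤ Fintype.card V)
    (s : Finset ι) : s.card ≤ n →
    ((Fintype.card V : ℝ) - n) ^ s.card *
      ((univ.filter fun π : Equiv.Perm V => ∀ i ∈ s, π (y i) ∈ T i).card : ℝ) ≤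
      (∏ i ∈ s, ((T i).card : ℝ)) * (Fintype.card V).factorial := by
  have hN : (0 : ℝ) ≤ (Fintype.card V : ℝ) - n := by
    have : (n : ℝ) ≤ Fintype.card V := by exact_mod_cast hn
    linarith
  induction s using Finset.induction_on with
  | empty =>
    intro _
    simp [Fintype.card_perm]
  | insert u s hu ih =>
    intro hcard
    rw [Finset.card_insert_of_notMem hu] at hcard
    have ih' := ih (by omega)
    let w : Equiv.Perm V → ℝ := fun π => if ∀ i ∈ s, π (y i) ∈ T i then 1 else 0
    have hw : ∀ π, 0 ≤ w π := by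
      intro π
      simp only [w]
      split_ifs <;> norm_num
    have hD : ∀ π π' : Equiv.Perm V, (∀ x ∈ s.image y, π x = π' x) → w π = w π' := by
      intro π π' h
      have h2 : (∀ i ∈ s, π (y i) ∈ T i) ↔ (∀ i ∈ s, π' (y i) ∈ T i) := by
        refine forall_congr' fun i => forall_congr' fun hi => ?_
        rw [h (y i) (Finset.mem_image_of_mem y hi)]
      simp only [w, h2]
    have huD : y u ∉ s.image y := by
      intro h
      obtain ⟨i, hi, hiu⟩ := Finset.mem_image.1 h
      exact hu (hy hiu ▸ hi)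
    have key := perm_hit (s.image y) w hw hD (y u) huD (T u)
    rw [Finset.card_image_of_injective s hy] at key
    have e1 : ∑ π : Equiv.Perm V, w π =
        ((univ.filter fun π : Equiv.Perm V => ∀ i ∈ s, π (y i) ∈ T i).card : ℝ) := by
      simp only [w]
      rw [Finset.sum_boole]
    have e2 : ∑ π : Equiv.Perm V, (if π (y u) ∈ T u then w π else 0) =
        ((univ.filter fun π : Equiv.Perm V => ∀ i ∈ insert u s, π (y i) ∈ T i).card : ℝ) := by
      rw [← Finset.sum_boole]
      refine Finset.sum_congr rfl fun π _ => ?_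
      simp only [w, Finset.forall_mem_insert]
      split_ifs with h1 h2 h3 h4 <;> tauto
    rw [e1, e2] at key
    set cI : ℝ := ((univ.filter fun π : Equiv.Perm V => ∀ i ∈ insert u s, π (y i) ∈ T i).card : ℝ)
    set cS : ℝ := ((univ.filter fun π : Equiv.Perm V => ∀ i ∈ s, π (y i) ∈ T i).card : ℝ)
    have hcI : 0 ≤ cI := Nat.cast_nonneg _
    have hsn : (s.card : ℝ) ≤ n := by
      have : s.card ≤ n := by omega
      exact_mod_cast this
    rw [Finset.card_insert_of_notMem hu, Finset.prod_insert hu]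
    calc ((Fintype.card V : ℝ) - n) ^ (s.card + 1) * cI
        = ((Fintype.card V : ℝ) - n) ^ s.card * (((Fintype.card V : ℝ) - n) * cI) := by ring
      _ ≤ ((Fintype.card V : ℝ) - n) ^ s.card * (((Fintype.card V : ℝ) - s.card) * cI) := by
          apply mul_le_mul_of_nonneg_left _ (pow_nonneg hN _)
          apply mul_le_mul_of_nonneg_right _ hcI
          linarith
      _ ≤ ((Fintype.card V : ℝ) - n) ^ s.card * ((T u).card * cS) :=
          mul_le_mul_of_nonneg_left key (pow_nonneg hN _)
      _ = (T u).card * (((Fintype.card V : ℝ) - n) ^ s.card * cS) := by ring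
      _ ≤ (T u).card * ((∏ i ∈ s, ((T i).card : ℝ)) * (Fintype.card V).factorial) :=
          mul_le_mul_of_nonneg_left ih' (Nat.cast_nonneg _)
      _ = (T u).card * (∏ i ∈ s, ((T i).card : ℝ)) * (Fintype.card V).factorial := by ring

theorem nonadaptive_hit_one {V F : Type} [Fintype V] [Fintype F] (u v : F → V)
    (S S' : F → Finset V) (hS : ∀ h h', h ≠ h' → Disjoint (S h) (S h'))
    (hS' : ∀ h h', h ≠ h' → Disjoint (S' h) (S' h')) (hSS : ∀ h h', Disjoint (S h) (S' h'))
    (a a' : ℕ) (ha : ∀ h, (S h).card ≤ a) (ha' : ∀ h, (S' h).card ≤ a')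
    (hK : 2 * Fintype.card F ≤ Fintype.card V) :
    ((Fintype.card V : ℝ) - 2 * Fintype.card F) ^ (2 * Fintype.card F) *
      ((univ.filter fun π : Equiv.Perm V => ∀ h, π (u h) ∈ S h ∧ π (v h) ∈ S' h).card : ℝ) ≤
      ((a : ℝ) * a') ^ Fintype.card F * (Fintype.card V).factorial := by
  let y : F ⊕ F → V := Sum.elim u v
  let T : F ⊕ F → Finset V := Sum.elim S S'
  have hT : ∀ i j : F ⊕ F, i ≠ j → Disjoint (T i) (T j) := by
    rintro (i | i) (j | j) hij
    · exact hS i j (fun h => hij (by rw [h]))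
    · exact hSS i j
    · exact (hSS j i).symm
    · exact hS' i j (fun h => hij (by rw [h]))
  have hfil : (univ.filter fun π : Equiv.Perm V => ∀ h, π (u h) ∈ S h ∧ π (v h) ∈ S' h) =
      (univ.filter fun π : Equiv.Perm V => ∀ i ∈ (univ : Finset (F ⊕ F)), π (y i) ∈ T i) := by
    apply Finset.filter_congr
    intro π _
    constructor
    · intro h i _
      rcases i with i | i
      · exact (h i).1
      · exact (h i).2
    · intro h i
      exact ⟨h (Sum.inl i) (Finset.mem_univ _), h (Sum.inr i) (Finset.mem_univ _)⟩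
  rw [hfil]
  by_cases hy : Function.Injective y
  · have h := nonadaptive_hit_gen y hy T (2 * Fintype.card F) hK (univ : Finset (F ⊕ F))
      (by rw [Finset.card_univ, Fintype.card_sum]; omega)
    rw [Finset.card_univ, Fintype.card_sum, ← two_mul] at h
    push_cast at h
    refine le_trans (le_of_eq ?_) (h.trans ?_)
    · congr!
    apply mul_le_mul_of_nonneg_right _ (Nat.cast_nonneg _)
    rw [Fintype.prod_sum_type, mul_pow]
    have h1 : ∏ i : F, ((T (Sum.inl i)).card : ℝ) ≤ (a : ℝ) ^ Fintype.card F := by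
      calc ∏ i : F, ((T (Sum.inl i)).card : ℝ) ≤ ∏ _i : F, (a : ℝ) := by
            apply Finset.prod_le_prod
            · intro i _; exact Nat.cast_nonneg _
            · intro i _; exact_mod_cast ha i
        _ = (a : ℝ) ^ Fintype.card F := by rw [Finset.prod_const, Finset.card_univ]
    have h2 : ∏ i : F, ((T (Sum.inr i)).card : ℝ) ≤ (a' : ℝ) ^ Fintype.card F := by
      calc ∏ i : F, ((T (Sum.inr i)).card : ℝ) ≤ ∏ _i : F, (a' : ℝ) := by
            apply Finset.prod_le_prod
            · intro i _; exact Nat.cast_nonneg _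
            · intro i _; exact_mod_cast ha' i
        _ = (a' : ℝ) ^ Fintype.card F := by rw [Finset.prod_const, Finset.card_univ]
    exact mul_le_mul h1 h2 (Finset.prod_nonneg fun i _ => Nat.cast_nonneg _)
      (pow_nonneg (Nat.cast_nonneg _) _)
  · have h0 : (univ.filter fun π : Equiv.Perm V =>
        ∀ i ∈ (univ : Finset (F ⊕ F)), π (y i) ∈ T i) = ∅ := by
      rw [Finset.filter_eq_empty_iff]
      intro π _ hπ
      apply hy
      intro i j hij
      by_contra hne
      have h1 := hπ i (Finset.mem_univ _)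
      have h2 := hπ j (Finset.mem_univ _)
      rw [hij] at h1
      exact (Finset.disjoint_left.1 (hT i j hne)) h1 h2
    rw [h0]
    simp only [Finset.card_empty, Nat.cast_zero, mul_zero]
    positivity

theorem nonadaptive_hit {V F : Type} [Fintype V] [Fintype F] (Q : Finset (V × V))
    (S S' : F → Finset V) (hS : ∀ h h', h ≠ h' → Disjoint (S h) (S h'))
    (hS' : ∀ h h', h ≠ h' → Disjoint (S' h) (S' h')) (hSS : ∀ h h', Disjoint (S h) (S' h'))
    (a a' : ℕ) (ha : ∀ h, (S h).card ≤ a) (ha' : ∀ h, (S' h).card ≤ a')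
    (hK : 2 * Fintype.card F ≤ Fintype.card V) :
    ((univ.filter fun π : Equiv.Perm V =>
        ∀ h, ∃ p ∈ Q, (π p.1 ∈ S h ∧ π p.2 ∈ S' h) ∨ (π p.2 ∈ S h ∧ π p.1 ∈ S' h)).card : ℝ) *
      ((Fintype.card V : ℝ) - 2 * Fintype.card F) ^ (2 * Fintype.card F) ≤
      (2 * Q.card * a * a' : ℝ) ^ Fintype.card F * (Fintype.card V).factorial := by
  let U : (F → (Q × Bool)) → F → V := fun e h =>
    if (e h).2 then ((e h).1 : V × V).1 else ((e h).1 : V × V).2
  let W : (F → (Q × Bool)) → F → V := fun e h =>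
    if (e h).2 then ((e h).1 : V × V).2 else ((e h).1 : V × V).1
  let E : (F → (Q × Bool)) → Finset (Equiv.Perm V) := fun e =>
    univ.filter fun π : Equiv.Perm V => ∀ h, π (U e h) ∈ S h ∧ π (W e h) ∈ S' h
  have hsub : (univ.filter fun π : Equiv.Perm V =>
        ∀ h, ∃ p ∈ Q, (π p.1 ∈ S h ∧ π p.2 ∈ S' h) ∨ (π p.2 ∈ S h ∧ π p.1 ∈ S' h)) ⊆
      (univ : Finset (F → (Q × Bool))).biUnion E := by
    intro π hπ
    have hπ' := (Finset.mem_filter.1 hπ).2
    have hex : ∀ h, ∃ q : Q × Bool,
        π (if q.2 then (q.1 : V × V).1 else (q.1 : V × V).2) ∈ S h ∧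
        π (if q.2 then (q.1 : V × V).2 else (q.1 : V × V).1) ∈ S' h := by
      intro h
      obtain ⟨p, hp, h1 | h1⟩ := hπ' h
      · exact ⟨(⟨p, hp⟩, true), by simpa using h1⟩
      · exact ⟨(⟨p, hp⟩, false), by simpa using h1⟩
    choose e he using hex
    refine Finset.mem_biUnion.2 ⟨e, Finset.mem_univ _, ?_⟩
    exact Finset.mem_filter.2 ⟨Finset.mem_univ _, he⟩
  have hN : (0 : ℝ) ≤ (Fintype.card V : ℝ) - 2 * Fintype.card F := by
    have : ((2 * Fintype.card F : ℕ) : ℝ) ≤ Fintype.card V := by exact_mod_cast hK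
    push_cast at this
    linarith
  have hcard : ((univ.filter fun π : Equiv.Perm V =>
        ∀ h, ∃ p ∈ Q, (π p.1 ∈ S h ∧ π p.2 ∈ S' h) ∨ (π p.2 ∈ S h ∧ π p.1 ∈ S' h)).card : ℝ) ≤
      ∑ e : F → (Q × Bool), ((E e).card : ℝ) := by
    have h1 := (Finset.card_le_card hsub).trans Finset.card_biUnion_le
    exact_mod_cast h1
  have hone : ∀ e : F → (Q × Bool),
      ((Fintype.card V : ℝ) - 2 * Fintype.card F) ^ (2 * Fintype.card F) * ((E e).card : ℝ) ≤
      ((a : ℝ) * a') ^ Fintype.card F * (Fintype.card V).factorial := fun e =>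
    nonadaptive_hit_one (U e) (W e) S S' hS hS' hSS a a' ha ha' hK
  calc ((univ.filter fun π : Equiv.Perm V =>
        ∀ h, ∃ p ∈ Q, (π p.1 ∈ S h ∧ π p.2 ∈ S' h) ∨ (π p.2 ∈ S h ∧ π p.1 ∈ S' h)).card : ℝ) *
      ((Fintype.card V : ℝ) - 2 * Fintype.card F) ^ (2 * Fintype.card F)
      ≤ (∑ e : F → (Q × Bool), ((E e).card : ℝ)) *
        ((Fintype.card V : ℝ) - 2 * Fintype.card F) ^ (2 * Fintype.card F) :=
        mul_le_mul_of_nonneg_right hcard (pow_nonneg hN _)
    _ = ∑ e : F → (Q × Bool),
        ((Fintype.card V : ℝ) - 2 * Fintype.card F) ^ (2 * Fintype.card F) * ((E e).card : ℝ) := by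
        rw [Finset.sum_mul]
        refine Finset.sum_congr rfl fun e _ => ?_
        ring
    _ ≤ ∑ _e : F → (Q × Bool), ((a : ℝ) * a') ^ Fintype.card F * (Fintype.card V).factorial :=
        Finset.sum_le_sum fun e _ => hone e
    _ = (2 * Q.card * a * a' : ℝ) ^ Fintype.card F * (Fintype.card V).factorial := by
        rw [Finset.sum_const, Finset.card_univ, nsmul_eq_mul, Fintype.card_fun, Fintype.card_prod,
          Fintype.card_coe, Fintype.card_bool]
        push_cast
        rw [← mul_assoc, ← mul_pow]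
        congr 2
        ring

end Pool.Agent.Helper116.AG
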