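import Pool.Agent.Helper116.AG.Defs2
import Pool.Agent.Helper116.AG.J1
import Pool.Agent.Helper116.AG.J4
import Pool.Agent.Helper116.AG.J5

set_option autoImplicit false
open Finset
open scoped Classical

noncomputable section

namespace Pool.Agent.Helper116.AG













theorem nal_odiff {N : ℕ} (G H : SimpleGraph (Fin N)) :
    odiff (orc G) (orc H) ≤ 2 * diff G H := by
  unfold odiff diff
  set A := univ.filter fun p : Fin N × Fin N =>
    p.1 < p.2 ∧ ¬ (G.Adj p.1 p.2 ↔ H.Adj p.1 p.2) with hA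
  have hsub : (univ.filter fun p : Fin N × Fin N => orc G p.1 p.2 ≠ orc H p.1 p.2) ⊆
      A ∪ A.image Prod.swap := by
    rintro ⟨u, v⟩ h
    have h1 := (mem_filter.1 h).2
    have h2 : ¬ (G.Adj u v ↔ H.Adj u v) := by
      intro h3; apply h1; simp [orc, h3]
    have hne : u ≠ v := by rintro rfl; apply h2; simp
    rcases lt_or_gt_of_ne hne with h4 | h4
    · exact mem_union_left _ (mem_filter.2 ⟨mem_univ _, h4, h2⟩)
    · refine mem_union_right _ (mem_image.2 ⟨(v, u), mem_filter.2 ⟨mem_univ _, h4, ?_⟩, rfl⟩)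
      rwa [G.adj_comm, H.adj_comm]
  calc _ ≤ (A ∪ A.image Prod.swap).card := card_le_card hsub
    _ ≤ A.card + (A.image Prod.swap).card := card_union_le _ _
    _ ≤ A.card + A.card := Nat.add_le_add_left card_image_le _
    _ = 2 * A.card := by ring

theorem nal_card_mono {α : Type} (f1 f2 : Fintype α) (p q : α → Prop) (i1 : DecidablePred p)
    (i2 : DecidablePred q) (h : ∀ a, p a → q a) :
    (@Finset.filter α p i1 (@Finset.univ α f1)).card ≤
      (@Finset.filter α q i2 (@Finset.univ α f2)).card := by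
  have hf : f1 = f2 := Subsingleton.elim _ _
  subst hf
  apply card_le_card
  intro a ha
  rw [mem_filter] at ha ⊢
  exact ⟨ha.1, h a ha.2⟩

/-- number of permutations that complete a block -/
theorem nal_full {N : ℕ} {F R1 R2 : Type} [Fintype F] [Nonempty F] [AddGroup F]
    [Fintype R1] [Fintype R2] {l : ℕ} (b a1 a2 : ℕ)
    (lam0 : Fin N → Lb l (F × R1) (F × R2)) (hs : Sized b a1 a2 lam0) (q : ℕ)
    (hN : 2 * Fintype.card F ≤ N) (Q : Finset (Fin N × Fin N)) (hQ : Q.card ≤ q) :
    ((univ.filter fun π : Equiv.Perm (Fin N) => Full (fun v => lam0 (π v)) Q).card : ℝ) *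
      ((N : ℝ) - 2 * Fintype.card F) ^ (2 * Fintype.card F) ≤
      (Fintype.card F * Fintype.card R1 * Fintype.card R2 : ℝ) *
        ((2 * q * a1 * a2 : ℝ) ^ Fintype.card F * (N.factorial : ℝ)) := by
  set W : ℝ := ((N : ℝ) - 2 * Fintype.card F) ^ (2 * Fintype.card F) with hW
  have hW0 : 0 ≤ W := (even_two_mul _).pow_nonneg _
  have hS1 : ∀ (h : F) (r : R1),
      (univ.filter fun v => lam0 v = some (Sum.inr (Sum.inl (h, r)))).card ≤ a1 := by
    intro h r
    have h3 := hs (Sum.inr (Sum.inl (h, r)))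
    unfold cls at h3
    have h4 : sz b a1 a2 (Sum.inr (Sum.inl (h, r)) : Fin (l + 1) ⊕ ((F × R1) ⊕ (F × R2))) = a1 :=
      rfl
    rw [h4] at h3
    exact le_trans (nal_card_mono _ _ _ _ _ _ fun v hv => hv) h3.le
  have hS2 : ∀ (h : F) (r : R2),
      (univ.filter fun v => lam0 v = some (Sum.inr (Sum.inr (h, r)))).card ≤ a2 := by
    intro h r
    have h3 := hs (Sum.inr (Sum.inr (h, r)))
    unfold cls at h3
    have h4 : sz b a1 a2 (Sum.inr (Sum.inr (h, r)) : Fin (l + 1) ⊕ ((F × R1) ⊕ (F × R2))) = a2 :=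
      rfl
    rw [h4] at h3
    exact le_trans (nal_card_mono _ _ _ _ _ _ fun v hv => hv) h3.le
  let P : F × R1 × R2 → Finset (Equiv.Perm (Fin N)) := fun β =>
    univ.filter fun π : Equiv.Perm (Fin N) => ∀ h : F, ∃ p ∈ Q,
      (π p.1 ∈ (univ.filter fun v => lam0 v = some (Sum.inr (Sum.inl (h, β.2.1)))) ∧
        π p.2 ∈ (univ.filter fun v => lam0 v = some (Sum.inr (Sum.inr (h + β.1, β.2.2))))) ∨
      (π p.2 ∈ (univ.filter fun v => lam0 v = some (Sum.inr (Sum.inl (h, β.2.1)))) ∧
        π p.1 ∈ (univ.filter fun v => lam0 v = some (Sum.inr (Sum.inr (h + β.1, β.2.2)))))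
  have hP : ∀ β, ((P β).card : ℝ) * W ≤ (2 * q * a1 * a2 : ℝ) ^ Fintype.card F * N.factorial := by
    rintro ⟨d, r, s⟩
    have h1 := nonadaptive_hit Q
      (fun h => univ.filter fun v => lam0 v = some (Sum.inr (Sum.inl (h, r))))
      (fun h => univ.filter fun v => lam0 v = some (Sum.inr (Sum.inr (h + d, s))))
      (by
        intro h h' hh
        rw [disjoint_left]
        intro v hv hv'
        have e1 := (mem_filter.1 hv).2
        have e2 := (mem_filter.1 hv').2
        rw [e1] at e2
        simp at e2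
        exact hh e2)
      (by
        intro h h' hh
        rw [disjoint_left]
        intro v hv hv'
        have e1 := (mem_filter.1 hv).2
        have e2 := (mem_filter.1 hv').2
        rw [e1] at e2
        simp at e2
        exact hh e2)
      (by
        intro h h'
        rw [disjoint_left]
        intro v hv hv'
        have e1 := (mem_filter.1 hv).2
        have e2 := (mem_filter.1 hv').2
        rw [e1] at e2
        simp at e2)
      a1 a2 (fun h => hS1 h r) (fun h => hS2 (h + d) s)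
      (by rw [Fintype.card_fin]; exact hN)
    rw [Fintype.card_fin] at h1
    refine le_trans (mul_le_mul_of_nonneg_right (Nat.cast_le.2
      (nal_card_mono _ _ _ _ _ _ fun π hπ => hπ)) hW0) (h1.trans ?_)
    have hq : (Q.card : ℝ) ≤ q := by exact_mod_cast hQ
    gcongr
  have hsub : (univ.filter fun π : Equiv.Perm (Fin N) => Full (fun v => lam0 (π v)) Q) ⊆
      univ.biUnion P := by
    intro π hπ
    obtain ⟨d, r, s, h1⟩ := (mem_filter.1 hπ).2
    rw [mem_biUnion]
    refine ⟨(d, r, s), mem_univ _, mem_filter.2 ⟨mem_univ _, fun h => ?_⟩⟩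
    obtain ⟨e, he, h2⟩ := h1 h
    refine ⟨e, he, ?_⟩
    rcases h2 with ⟨h3, h4⟩ | ⟨h3, h4⟩
    · exact Or.inl ⟨mem_filter.2 ⟨mem_univ _, h3⟩, mem_filter.2 ⟨mem_univ _, h4⟩⟩
    · exact Or.inr ⟨mem_filter.2 ⟨mem_univ _, h3⟩, mem_filter.2 ⟨mem_univ _, h4⟩⟩
  have hc1 : ((univ.filter fun π : Equiv.Perm (Fin N) =>
      Full (fun v => lam0 (π v)) Q).card : ℝ) ≤ ∑ β, ((P β).card : ℝ) := by
    have := (card_le_card hsub).trans card_biUnion_le
    exact_mod_cast this
  calc _ ≤ (∑ β, ((P β).card : ℝ)) * W := mul_le_mul_of_nonneg_right hc1 hW0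
    _ = ∑ β, ((P β).card : ℝ) * W := by rw [sum_mul]
    _ ≤ ∑ β : F × R1 × R2, (2 * q * a1 * a2 : ℝ) ^ Fintype.card F * N.factorial :=
        sum_le_sum fun β _ => hP β
    _ = _ := by
        rw [sum_const, card_univ, Fintype.card_prod, Fintype.card_prod, nsmul_eq_mul]
        push_cast
        ring

theorem nonadaptive_lower {N : ℕ} {F R1 R2 : Type} [Fintype F] [Nonempty F] [AddGroup F]
    [Fintype R1] [Fintype R2] {l : ℕ} (code : (F × R1) ⊕ (F × R2) → Fin (l + 1) → Bool)
    (hc : GoodCode code) (b a1 a2 : ℕ) (hb : 1 ≤ b)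
    (h1 : a1 * (Fintype.card F * Fintype.card R1) = b)
    (h2 : a2 * (Fintype.card F * Fintype.card R2) = b)
    (lam0 : Fin N → Lb l (F × R1) (F × R2)) (hs : Sized b a1 a2 lam0) (ε : ℝ)
    (hε : ε * (N : ℝ) ^ 2 * (3 * Fintype.card F) < (b : ℝ) ^ 2) (q : ℕ)
    (hN : 2 * Fintype.card F ≤ N)
    (hK : (3 * Fintype.card F * Fintype.card R1 * Fintype.card R2 : ℝ) *
        (2 * q * a1 * a2 : ℝ) ^ Fintype.card F <
        ((N : ℝ) - 2 * Fintype.card F) ^ (2 * Fintype.card F)) :
    ¬ NTest (Tm code b a1 a2 : Set (SimpleGraph (Fin N))) ε q := by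
  rintro ⟨Ω, _, p, Q, D, hp, hp1, hQ, hloc, hyes, hno⟩
  have hKpos : (0:ℝ) < Fintype.card F := by exact_mod_cast Fintype.card_pos
  have hsz : ∀ π : Equiv.Perm (Fin N), Sized b a1 a2 (fun v => lam0 (π v)) := by
    intro π α
    rw [← hs α]
    unfold cls
    apply card_equiv π
    intro v
    simp
  have hfar : ∀ (π : Equiv.Perm (Fin N)) (g : F × R1 → F × R2 → ZMod 2), Par 1 g →
      Far (Tm code b a1 a2) ε (gr code g fun v => lam0 (π v)) := by
    rintro π g hg H ⟨lam', g', hs', hg', rfl⟩
    have h3 := far_odd code hc b a1 a2 hb h1 h2 (fun v => lam0 (π v)) lam' (hsz π) hs' g g' hg hg'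
    have h4 := nal_odiff (gr code g fun v => lam0 (π v)) (gr code g' lam')
    have h5 : 2 * b ^ 2 ≤ 3 * Fintype.card F *
        (2 * diff (gr code g fun v => lam0 (π v)) (gr code g' lam')) :=
      h3.trans (Nat.mul_le_mul_left _ h4)
    have h6 : (2:ℝ) * (b:ℝ) ^ 2 ≤ 3 * Fintype.card F *
        (2 * diff (gr code g fun v => lam0 (π v)) (gr code g' lam')) := by exact_mod_cast h5
    have h7 : ε * (N:ℝ) ^ 2 * (3 * Fintype.card F) <
        (diff (gr code g fun v => lam0 (π v)) (gr code g' lam') : ℝ) * (3 * Fintype.card F) := by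
      linarith
    exact lt_of_mul_lt_mul_right h7 (by positivity)
  obtain ⟨hY1, hY0⟩ := card_par (F := F) (R1 := R1) (R2 := R2)
  set Y : ℕ := (univ.filter fun g : F × R1 → F × R2 → ZMod 2 => Par 0 g).card with hY
  have hY0' : (0:ℝ) < Y := by exact_mod_cast hY0
  have swapsum : ∀ (π : Equiv.Perm (Fin N)) (e : ZMod 2),
      ∑ g ∈ (univ.filter fun g : F × R1 → F × R2 → ZMod 2 => Par e g),
        (∑ ω, if D ω (orc (gr code g fun v => lam0 (π v))) = true then p ω else 0) =
      ∑ ω, p ω * ((univ.filter fun g : F × R1 → F × R2 → ZMod 2 =>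
        Par e g ∧ D ω (orc (gr code g fun v => lam0 (π v))) = true).card : ℝ) := by
    intro π e
    rw [sum_comm]
    apply sum_congr rfl
    intro ω _
    rw [← sum_filter, sum_const, nsmul_eq_mul, filter_filter, mul_comm]
  have key : ∀ π : Equiv.Perm (Fin N),
      (1:ℝ) / 3 ≤ ∑ ω, p ω * (if Full (fun v => lam0 (π v)) (Q ω) then 1 else 0) := by
    intro π
    have hA : (2:ℝ) / 3 * Y ≤ ∑ ω, p ω * ((univ.filter fun g : F × R1 → F × R2 → ZMod 2 =>
        Par 0 g ∧ D ω (orc (gr code g fun v => lam0 (π v))) = true).card : ℝ) := by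
      rw [← swapsum π 0]
      calc (2:ℝ) / 3 * Y = ∑ g ∈ (univ.filter fun g : F × R1 → F × R2 → ZMod 2 => Par 0 g),
            (2:ℝ) / 3 := by rw [sum_const, nsmul_eq_mul, mul_comm]
        _ ≤ _ := by
            apply sum_le_sum
            intro g hg
            exact hyes _ ⟨_, g, hsz π, (mem_filter.1 hg).2, rfl⟩
    have hB : ∑ ω, p ω * ((univ.filter fun g : F × R1 → F × R2 → ZMod 2 =>
        Par 1 g ∧ D ω (orc (gr code g fun v => lam0 (π v))) = true).card : ℝ) ≤ 1 / 3 * Y := by
      rw [← swapsum π 1]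
      calc _ ≤ ∑ g ∈ (univ.filter fun g : F × R1 → F × R2 → ZMod 2 => Par 1 g),
            (1:ℝ) / 3 := by
            apply sum_le_sum
            intro g hg
            have h3 := hno _ (hfar π g (mem_filter.1 hg).2)
            have h4 : (∑ ω, if D ω (orc (gr code g fun v => lam0 (π v))) = true then p ω else 0) +
                (∑ ω, if D ω (orc (gr code g fun v => lam0 (π v))) = false then p ω else 0) =
                1 := by
              rw [← sum_add_distrib, ← hp1]
              apply sum_congr rfl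
              intro ω _
              cases D ω (orc (gr code g fun v => lam0 (π v))) <;> simp
            linarith
        _ = 1 / 3 * Y := by
            rw [sum_const, nsmul_eq_mul, mul_comm, ← hY1]
    have hC : ∀ ω, p ω * ((univ.filter fun g : F × R1 → F × R2 → ZMod 2 =>
        Par 0 g ∧ D ω (orc (gr code g fun v => lam0 (π v))) = true).card : ℝ) ≤
        p ω * ((univ.filter fun g : F × R1 → F × R2 → ZMod 2 =>
        Par 1 g ∧ D ω (orc (gr code g fun v => lam0 (π v))) = true).card : ℝ) +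
        (p ω * (if Full (fun v => lam0 (π v)) (Q ω) then 1 else 0)) * Y := by
      intro ω
      have h3 := swap_yes_no code (fun v => lam0 (π v)) (D ω) (fun _ => Q ω)
        (fun O O' hO => ⟨(hloc ω O O' hO).symm, rfl⟩)
      have h4 : (univ.filter fun g : F × R1 → F × R2 → ZMod 2 =>
          Par 0 g ∧ Full (fun v => lam0 (π v)) (Q ω)).card =
          if Full (fun v => lam0 (π v)) (Q ω) then Y else 0 := by
        split_ifs with hF
        · rw [hY]
          congr 1
          ext g
          simp [hF]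
        · rw [card_eq_zero, filter_eq_empty_iff]
          intro g _ hg
          exact hF hg.2
      rw [h4] at h3
      have h5 : ((univ.filter fun g : F × R1 → F × R2 → ZMod 2 =>
        Par 0 g ∧ D ω (orc (gr code g fun v => lam0 (π v))) = true).card : ℝ) ≤
        ((univ.filter fun g : F × R1 → F × R2 → ZMod 2 =>
        Par 1 g ∧ D ω (orc (gr code g fun v => lam0 (π v))) = true).card : ℝ) +
        (if Full (fun v => lam0 (π v)) (Q ω) then 1 else 0) * Y := by
        have h6 : ((((univ.filter fun g : F × R1 → F × R2 → ZMod 2 =>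
          Par 0 g ∧ D ω (orc (gr code g fun v => lam0 (π v))) = true).card : ℕ)) : ℝ) ≤
          (((univ.filter fun g : F × R1 → F × R2 → ZMod 2 =>
          Par 1 g ∧ D ω (orc (gr code g fun v => lam0 (π v))) = true).card +
          (if Full (fun v => lam0 (π v)) (Q ω) then Y else 0) : ℕ) : ℝ) := by
          exact_mod_cast h3
        refine h6.trans (le_of_eq ?_)
        split_ifs <;> push_cast <;> ring
      calc _ ≤ p ω * (((univ.filter fun g : F × R1 → F × R2 → ZMod 2 =>
        Par 1 g ∧ D ω (orc (gr code g fun v => lam0 (π v))) = true).card : ℝ) +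
        (if Full (fun v => lam0 (π v)) (Q ω) then 1 else 0) * Y) :=
            mul_le_mul_of_nonneg_left h5 (hp ω)
        _ = _ := by ring
    have hD := sum_le_sum fun ω (_ : ω ∈ (univ : Finset Ω)) => hC ω
    rw [sum_add_distrib, ← sum_mul] at hD
    have hE : (1:ℝ) / 3 * Y ≤
        (∑ ω, p ω * (if Full (fun v => lam0 (π v)) (Q ω) then 1 else 0)) * Y := by linarith
    exact le_of_mul_le_mul_right hE hY0'
  -- sum over the permutations
  have hsum : (1:ℝ) / 3 * (N.factorial : ℝ) ≤ ∑ ω, p ω *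
      ((univ.filter fun π : Equiv.Perm (Fin N) => Full (fun v => lam0 (π v)) (Q ω)).card : ℝ) := by
    calc (1:ℝ) / 3 * (N.factorial : ℝ) = ∑ π : Equiv.Perm (Fin N), (1:ℝ) / 3 := by
          rw [sum_const, card_univ, Fintype.card_perm, Fintype.card_fin, nsmul_eq_mul, mul_comm]
      _ ≤ ∑ π : Equiv.Perm (Fin N), ∑ ω, p ω *
            (if Full (fun v => lam0 (π v)) (Q ω) then 1 else 0) := sum_le_sum fun π _ => key π
      _ = _ := by
          rw [sum_comm]
          apply sum_congr rfl
          intro ω _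
          rw [← mul_sum]
          congr 1
          simp
  set W : ℝ := ((N : ℝ) - 2 * Fintype.card F) ^ (2 * Fintype.card F) with hW
  have hW0 : 0 ≤ W := (even_two_mul _).pow_nonneg _
  have hfin : (1:ℝ) / 3 * (N.factorial : ℝ) * W ≤
      (Fintype.card F * Fintype.card R1 * Fintype.card R2 : ℝ) *
        ((2 * q * a1 * a2 : ℝ) ^ Fintype.card F * (N.factorial : ℝ)) := by
    calc (1:ℝ) / 3 * (N.factorial : ℝ) * W ≤ (∑ ω, p ω *
      ((univ.filter fun π : Equiv.Perm (Fin N) =>
        Full (fun v => lam0 (π v)) (Q ω)).card : ℝ)) * W := mul_le_mul_of_nonneg_right hsum hW0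
      _ = ∑ ω, p ω * (((univ.filter fun π : Equiv.Perm (Fin N) =>
        Full (fun v => lam0 (π v)) (Q ω)).card : ℝ) * W) := by
          rw [sum_mul]
          exact sum_congr rfl fun ω _ => by ring
      _ ≤ ∑ ω, p ω * ((Fintype.card F * Fintype.card R1 * Fintype.card R2 : ℝ) *
        ((2 * q * a1 * a2 : ℝ) ^ Fintype.card F * (N.factorial : ℝ))) :=
          sum_le_sum fun ω _ => mul_le_mul_of_nonneg_left
            (nal_full b a1 a2 lam0 hs q hN (Q ω) (hQ ω)) (hp ω)
      _ = _ := by rw [← sum_mul, hp1, one_mul]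
  have hfac : (0:ℝ) < N.factorial := by exact_mod_cast N.factorial_pos
  have h9 : W * (N.factorial : ℝ) ≤ ((3 * Fintype.card F * Fintype.card R1 * Fintype.card R2 : ℝ) *
        (2 * q * a1 * a2 : ℝ) ^ Fintype.card F) * (N.factorial : ℝ) := by
    calc W * (N.factorial : ℝ) = 3 * ((1:ℝ) / 3 * (N.factorial : ℝ) * W) := by ring
      _ ≤ 3 * ((Fintype.card F * Fintype.card R1 * Fintype.card R2 : ℝ) *
        ((2 * q * a1 * a2 : ℝ) ^ Fintype.card F * (N.factorial : ℝ))) := by linarith
      _ = _ := by ring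
  have h10 := le_of_mul_le_mul_right h9 hfac
  linarith

end Pool.Agent.Helper116.AG
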