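import Pool.Agent.Helper116.AG.Fa
import Pool.Agent.Helper116.AG.J9
import Pool.Agent.Helper116.AG.J6
import Pool.Agent.Helper116.AG.J7
import Pool.Agent.Helper116.AG.J20

set_option autoImplicit false
open Finset
open scoped Classical

noncomputable section

namespace Pool.Agent.Helper116.AG

theorem ATest.mono_eps {N : ℕ} {S : Set (SimpleGraph (Fin N))} {ε ε' : ℝ} {q : ℕ}
    (h : ATest S ε q) (he : ε ≤ ε') : ATest S ε' q := by
  obtain ⟨Ω, i, p, T, h0, h1, h2, h3, h4⟩ := h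
  refine ⟨Ω, i, p, T, h0, h1, h2, h3, fun G hG => h4 G fun H hH => ?_⟩
  exact lt_of_le_of_lt (mul_le_mul_of_nonneg_right he (by positivity)) (hG H hH)

theorem NTest.mono_eps {N : ℕ} {S : Set (SimpleGraph (Fin N))} {ε ε' : ℝ} {q : ℕ}
    (h : NTest S ε q) (he : ε ≤ ε') : NTest S ε' q := by
  obtain ⟨Ω, i, p, Q, D, h0, h1, h2, h3, h4, h5⟩ := h
  refine ⟨Ω, i, p, Q, D, h0, h1, h2, h3, h4, fun G hG => h5 G fun H hH => ?_⟩
  exact lt_of_le_of_lt (mul_le_mul_of_nonneg_right he (by positivity)) (hG H hH)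

theorem exists_sized {V : Type} [Fintype V] {l : ℕ} {A B : Type} [Fintype A] [Fintype B]
    (b a1 a2 : ℕ)
    (h1 : a1 * Fintype.card A = b) (h2 : a2 * Fintype.card B = b)
    (hN : mu l * b ≤ Fintype.card V) :
    ∃ lam : V → Lb l A B, Sized b a1 a2 lam := by
  obtain ⟨lam, h, -⟩ := relabel (V := V) (X := Fin (l + 1) ⊕ (A ⊕ B)) (fun _ => none)
    (sz b a1 a2) (by rw [sum_sz b a1 a2 h1 h2]; exact hN)
  refine ⟨lam, fun α => ?_⟩
  have h9 := h α
  unfold cls
  convert h9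

theorem pow_le_exp (x : ℝ) (n : ℕ) (hx : x ≤ 1) : (1 - x) ^ n ≤ Real.exp (-(n * x)) := by
  have h1 : 1 - x ≤ Real.exp (-x) := by
    have := Real.add_one_le_exp (-x); linarith
  calc (1 - x) ^ n ≤ (Real.exp (-x)) ^ n := pow_le_pow_left₀ (by linarith) h1 n
    _ = Real.exp (-(n * x)) := by rw [← Real.exp_nat_mul]; ring_nf

theorem mu_le (l : ℕ) : mu l ≤ 6 * (l + 1) ^ 2 := by
  unfold mu; nlinarith

theorem mu_pos (l : ℕ) : 1 ≤ mu l := by
  unfold mu; nlinarith

theorem two_pow_le_exp (n : ℕ) : ((2 : ℕ) ^ n : ℝ) ≤ Real.exp n := by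
  have h : (2 : ℝ) ≤ Real.exp 1 := by
    have := Real.add_one_le_exp (1 : ℝ); linarith
  calc ((2 : ℕ) ^ n : ℝ) = (2 : ℝ) ^ n := by push_cast; rfl
    _ ≤ (Real.exp 1) ^ n := pow_le_pow_left₀ (by norm_num) h n
    _ = Real.exp n := by rw [← Real.exp_nat_mul]; simp

theorem exp_seven (M : ℝ) (hM : 0 ≤ M) : (1 + M) ^ 7 ≤ Real.exp (7 * M) := by
  have h : 1 + M ≤ Real.exp M := by
    have := Real.add_one_le_exp M; linarith
  calc (1 + M) ^ 7 ≤ (Real.exp M) ^ 7 := pow_le_pow_left₀ (by linarith) h 7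
    _ = Real.exp (7 * M) := by rw [← Real.exp_nat_mul]; norm_num

theorem up_core {N : ℕ} {F R1 R2 : Type} [Fintype F] [Nonempty F] [AddGroup F] [Fintype R1]
    [Fintype R2] [Nonempty R1] [Nonempty R2] {l : ℕ}
    (code : (F × R1) ⊕ (F × R2) → Fin (l + 1) → Bool) (hc : GoodCode code)
    (b a1 a2 W : ℕ) (hb : 3 ≤ b) (hW : 1 ≤ W)
    (h1 : a1 * (Fintype.card F * Fintype.card R1) = b)
    (h2 : a2 * (Fintype.card F * Fintype.card R2) = b) (hN : N = W * mu l * b)
    (ε : ℝ) (hε0 : 0 < ε) (hε : ε * (W : ℝ) ^ 2 ≤ 16)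
    (hl : 4 ≤ l) (hWl : W ≤ 2 ^ l) (hKl : Fintype.card F ≤ l + 1)
    (hlab : Fintype.card F * (Fintype.card R1 + Fintype.card R2) + 1 ≤ 2 ^ l)
    (h12 : Fintype.card R2 ≤ Fintype.card R1) (s2 s3 t3 sA sB : ℕ)
    (es2 : s2 = ⌈128 * (l + 1 : ℝ) * W * mu l * (Fintype.card F * Fintype.card R1) *
      (64 / (ε * (W : ℝ) ^ 2)) ^ 2⌉₊) (es3 : s3 = ⌈4 / ε⌉₊)
    (et3 : t3 = ⌈64 / (ε * (W : ℝ) ^ 2)⌉₊)
    (esA : sA = 16 * (l + 1) * W * mu l * (Fintype.card F * Fintype.card R1))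
    (esB : sB = 16 * (l + 1) * W * mu l * (Fintype.card F * Fintype.card R2)) :
    ATest (Tm code b a1 a2 : Set (SimpleGraph (Fin N))) ε ((3 * W * mu l * (l + 1)) *
        (128 * W * mu l ^ 2 * (l + 1)) +
        (l + 1) * (s2 + 2 * s3 + t3 * (Fintype.card F * (sA + sB))) + s3 +
        t3 * Fintype.card F) ∧
    NTest (Tm code b a1 a2 : Set (SimpleGraph (Fin N))) ε ((3 * W * mu l * (l + 1)) *
        (128 * W * mu l ^ 2 * (l + 1)) +
        (3 * W * mu l * (l + 1)) * (s2 + 2 * s3 + t3 * (Fintype.card F * (sA + sB))) + s3 +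
        t3 * Fintype.card F * sA * sB) := by
  have hmu1 : 1 ≤ mu l := mu_pos l
  have hmu62 : 62 ≤ mu l := by unfold mu; nlinarith
  have hr0 : 0 < 3 * W * mu l * (l + 1) := by positivity
  obtain ⟨r, hr⟩ : ∃ r, r + 1 = 3 * W * mu l * (l + 1) :=
    ⟨3 * W * mu l * (l + 1) - 1, by omega⟩
  have hM5 : (5 : ℝ) ≤ (l + 1 : ℝ) := by
    have : (4 : ℝ) ≤ l := by exact_mod_cast hl
    linarith
  have hWr : (1 : ℝ) ≤ W := by exact_mod_cast hW
  have hmur : (62 : ℝ) ≤ mu l := by exact_mod_cast hmu62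
  have hmu6 : (mu l : ℝ) ≤ 6 * (l + 1 : ℝ) ^ 2 := by exact_mod_cast mu_le l
  have hbr : (3 : ℝ) ≤ b := by exact_mod_cast hb
  have hNr : (N : ℝ) = W * mu l * b := by rw [hN]; push_cast; ring
  have hN0 : (0 : ℝ) < N := by rw [hNr]; positivity
  have hcF : 1 ≤ Fintype.card F := Fintype.card_pos
  have hcR1 : 1 ≤ Fintype.card R1 := Fintype.card_pos
  have hcR2 : 1 ≤ Fintype.card R2 := Fintype.card_pos
  have ha1 : 1 ≤ a1 := by
    rcases Nat.eq_zero_or_pos a1 with h | h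
    · rw [h, zero_mul] at h1; omega
    · exact h
  have ha2 : 1 ≤ a2 := by
    rcases Nat.eq_zero_or_pos a2 with h | h
    · rw [h, zero_mul] at h2; omega
    · exact h
  have ha1b : a1 ≤ b := by
    rw [← h1]; exact Nat.le_mul_of_pos_right _ (by positivity)
  have ha12 : a1 ≤ a2 := by
    by_contra hcon
    push Not at hcon
    have : a2 * (Fintype.card F * Fintype.card R2) < a1 * (Fintype.card F * Fintype.card R1) := by
      calc a2 * (Fintype.card F * Fintype.card R2) ≤ a2 * (Fintype.card F * Fintype.card R1) := by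
            gcongr
        _ < a1 * (Fintype.card F * Fintype.card R1) := by
            apply Nat.mul_lt_mul_of_pos_right hcon; positivity
    omega
  have hsz : ∀ α : Fin (l + 1) ⊕ ((F × R1) ⊕ (F × R2)), a1 ≤ sz b a1 a2 α := by
    intro α
    rcases α with j | (x | y)
    · simp only [sz]; nlinarith
    · simp only [sz]; exact le_rfl
    · simp only [sz]; exact ha12
  have h1r : (a1 : ℝ) * ((Fintype.card F : ℝ) * Fintype.card R1) = b := by exact_mod_cast h1
  have h2r : (a2 : ℝ) * ((Fintype.card F : ℝ) * Fintype.card R2) = b := by exact_mod_cast h2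
  have hWpow : (0 : ℝ) < ε * (W : ℝ) ^ 2 := by positivity
  set M : ℝ := (l + 1 : ℝ) with hMdef
  have hexpM : ((2 : ℕ) ^ l : ℝ) ≤ Real.exp M := by
    refine (two_pow_le_exp l).trans (Real.exp_le_exp.2 (by rw [hMdef]; linarith))
  have hexp7 : (1 + M) ^ 7 ≤ Real.exp (7 * M) := exp_seven M (by linarith)
  have hKM : (Fintype.card F : ℝ) ≤ M := by rw [hMdef]; exact_mod_cast hKl
  have key := tester_scale code hc b a1 a2 W hb hW h1 h2 hN ε hε0 hε r
    (128 * W * mu l ^ 2 * (l + 1)) s2 s3 t3 sA sB (Nat.succ_le_of_lt (by positivity)) ?_ ?_ ?_ ?_ ?_ ?_ ?_ ?_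
  · rw [hr] at key; exact key
  · -- hr
    rw [hr]
    have hx : 4 * (b : ℝ) / N ≤ 1 := by
      rw [div_le_one hN0, hNr]
      have : (62 : ℝ) ≤ W * mu l := by nlinarith
      nlinarith
    have h3 := pow_le_exp (4 * (b : ℝ) / N) (3 * W * mu l * (l + 1)) hx
    have h4 : ((3 * W * mu l * (l + 1) : ℕ) : ℝ) * (4 * (b : ℝ) / N) = 12 * M := by
      rw [hNr]; push_cast; rw [hMdef]; field_simp; ring
    rw [h4] at h3
    have h5 : 12 * M + 1 ≤ Real.exp (12 * M) := Real.add_one_le_exp _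
    calc M * (1 - 4 * (b : ℝ) / N) ^ (3 * W * mu l * (l + 1)) ≤ M * Real.exp (-(12 * M)) := by
          gcongr
      _ = M / Real.exp (12 * M) := by rw [Real.exp_neg]; rfl
      _ ≤ 1 / 10 := by
          rw [div_le_div_iff₀ (Real.exp_pos _) (by norm_num)]
          linarith
  · -- hs1'
    have h4 : ((128 * W * mu l ^ 2 * (l + 1) : ℕ) : ℝ) * b / (16 * N * mu l) = 8 * M := by
      rw [hNr]; push_cast; rw [hMdef]; field_simp; ring
    rw [h4]
    have h5 : ((r : ℝ) + 1) = 3 * W * mu l * M := by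
      have : ((r + 1 : ℕ) : ℝ) = ((3 * W * mu l * (l + 1) : ℕ) : ℝ) := by rw [hr]
      push_cast at this
      rw [this, hMdef]
    rw [h5]
    have h6 : (W : ℝ) ≤ Real.exp M := by
      refine le_trans ?_ hexpM
      exact_mod_cast hWl
    rw [show -(8 * M) = -(M + 7 * M) by ring, Real.exp_neg, Real.exp_add]
    have h7 : 60 * (W : ℝ) * mu l * M ≤ Real.exp M * Real.exp (7 * M) := by
      have h8 : 60 * (mu l : ℝ) * M ≤ Real.exp (7 * M) := by
        refine le_trans ?_ hexp7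
        have e1 : 60 * (mu l : ℝ) * M ≤ 360 * M ^ 3 := by nlinarith
        have e2 : M ^ 3 * 6 ^ 4 ≤ (1 + M) ^ 3 * (1 + M) ^ 4 := by
          gcongr <;> linarith
        have e3 : (1 + M) ^ 3 * (1 + M) ^ 4 = (1 + M) ^ 7 := by ring
        have e4 : 0 ≤ M ^ 3 := by positivity
        nlinarith
      calc 60 * (W : ℝ) * mu l * M = W * (60 * (mu l : ℝ) * M) := by ring
        _ ≤ Real.exp M * Real.exp (7 * M) := by
          apply mul_le_mul h6 h8 (by positivity) (by positivity)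
    rw [← div_eq_mul_inv, div_le_div_iff₀ (by positivity) (by norm_num)]
    linarith
  · -- hs2
    intro α
    have e1 : (128 * M * W * mu l * (Fintype.card F * Fintype.card R1) *
      (64 / (ε * (W : ℝ) ^ 2)) ^ 2 : ℝ) ≤ s2 := by rw [es2]; exact Nat.le_ceil _
    have e2 : (a1 : ℝ) ≤ sz b a1 a2 α := by exact_mod_cast hsz α
    calc 128 * (N : ℝ) ≤ 128 * M * N := by nlinarith
      _ = (128 * M * W * mu l * (Fintype.card F * Fintype.card R1) *
      (64 / (ε * (W : ℝ) ^ 2)) ^ 2) * (ε * (W : ℝ) ^ 2 / 64) ^ 2 * a1 := by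
          rw [hNr, ← h1r]; field_simp
      _ ≤ s2 * (ε * (W : ℝ) ^ 2 / 64) ^ 2 * sz b a1 a2 α := by gcongr
  · -- hs2'
    intro α
    have e1 : (128 * M * W * mu l * (Fintype.card F * Fintype.card R1) *
      (64 / (ε * (W : ℝ) ^ 2)) ^ 2 : ℝ) ≤ s2 := by rw [es2]; exact Nat.le_ceil _
    have e2 : (a1 : ℝ) ≤ sz b a1 a2 α := by exact_mod_cast hsz α
    have e3 : 128 * M * N ≤ s2 * (ε * (W : ℝ) ^ 2 / 64) ^ 2 * sz b a1 a2 α := by
      calc 128 * M * N = (128 * M * W * mu l * (Fintype.card F * Fintype.card R1) *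
      (64 / (ε * (W : ℝ) ^ 2)) ^ 2) * (ε * (W : ℝ) ^ 2 / 64) ^ 2 * a1 := by
            rw [hNr, ← h1r]; field_simp
        _ ≤ s2 * (ε * (W : ℝ) ^ 2 / 64) ^ 2 * sz b a1 a2 α := by gcongr
    have e4 : 8 * M ≤ s2 * (ε * (W : ℝ) ^ 2 / 64) ^ 2 * sz b a1 a2 α / (16 * N) := by
      rw [le_div_iff₀ (by positivity)]
      linarith
    have e5 : Real.exp (-(s2 * (ε * (W : ℝ) ^ 2 / 64) ^ 2 * sz b a1 a2 α / (16 * N))) ≤
        Real.exp (-(8 * M)) := Real.exp_le_exp.2 (by linarith)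
    have e6 : (Fintype.card (Fin (l + 1) ⊕ ((F × R1) ⊕ (F × R2))) : ℝ) ≤ 2 * Real.exp M := by
      have f1 : Fintype.card (Fin (l + 1) ⊕ ((F × R1) ⊕ (F × R2))) ≤ 2 * 2 ^ l := by
        simp only [Fintype.card_sum, Fintype.card_prod, Fintype.card_fin]
        have f2 : l < 2 ^ l := Nat.lt_two_pow_self
        have f3 : Fintype.card F * Fintype.card R1 + Fintype.card F * Fintype.card R2 =
          Fintype.card F * (Fintype.card R1 + Fintype.card R2) := by ring
        omega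
      have f4 : (Fintype.card (Fin (l + 1) ⊕ ((F × R1) ⊕ (F × R2))) : ℝ) ≤ 2 * (2 : ℕ) ^ l := by
        exact_mod_cast f1
      linarith
    calc 20 * (Fintype.card (Fin (l + 1) ⊕ ((F × R1) ⊕ (F × R2))) : ℝ) *
        Real.exp (-(s2 * (ε * (W : ℝ) ^ 2 / 64) ^ 2 * sz b a1 a2 α / (16 * N)))
        ≤ 20 * (2 * Real.exp M) * Real.exp (-(8 * M)) := by gcongr
      _ = 40 * Real.exp (-(7 * M)) := by
          have f5 : Real.exp (-(8 * M)) = Real.exp (-(7 * M)) / Real.exp M := by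
            rw [← Real.exp_sub]; congr 1; ring
          rw [f5]
          field_simp
          norm_num
      _ ≤ 1 := by
          rw [Real.exp_neg, ← div_eq_mul_inv, div_le_one (Real.exp_pos _)]
          refine le_trans ?_ hexp7
          have : (6 : ℝ) ^ 7 ≤ (1 + M) ^ 7 := by gcongr; linarith
          norm_num at this
          linarith
  · -- hs3
    have e1 : 4 / ε ≤ s3 := by rw [es3]; exact Nat.le_ceil _
    rw [div_le_iff₀ hε0] at e1
    exact e1
  · -- ht3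
    have e1 : 64 / (ε * (W : ℝ) ^ 2) ≤ t3 := by rw [et3]; exact Nat.le_ceil _
    rw [div_le_iff₀ hWpow] at e1
    have e2 : (1 : ℝ) ≤ (mu l : ℝ) ^ 2 := by nlinarith
    calc (64 : ℝ) ≤ t3 * (ε * (W : ℝ) ^ 2) := e1
      _ ≤ t3 * (ε * (W : ℝ) ^ 2) * (mu l : ℝ) ^ 2 := le_mul_of_one_le_right (by positivity) e2
      _ = _ := by ring
  · -- hsA
    have hx : 3 / 4 * (a1 : ℝ) / N ≤ 1 := by
      rw [div_le_one hN0, hNr]
      have f1 : (a1 : ℝ) ≤ b := by exact_mod_cast ha1b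
      have : (62 : ℝ) ≤ W * mu l := by nlinarith
      nlinarith
    have h3 := pow_le_exp (3 / 4 * (a1 : ℝ) / N) sA hx
    have h4 : (sA : ℝ) * (3 / 4 * (a1 : ℝ) / N) = 12 * M := by
      rw [hNr, esA, ← h1r]; push_cast; rw [hMdef]; field_simp; ring
    rw [h4] at h3
    have h5 : 12 * M + 1 ≤ Real.exp (12 * M) := Real.add_one_le_exp _
    refine h3.trans ?_
    have hF0 : (0 : ℝ) < Fintype.card F := by exact_mod_cast hcF
    rw [Real.exp_neg, inv_eq_one_div]
    apply one_div_le_one_div_of_le (by positivity)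
    linarith
  · -- hsB
    have hx : 3 / 4 * (a2 : ℝ) / N ≤ 1 := by
      rw [div_le_one hN0, hNr]
      have f1 : (a2 : ℝ) ≤ b := by
        have : a2 ≤ b := by rw [← h2]; exact Nat.le_mul_of_pos_right _ (by positivity)
        exact_mod_cast this
      have : (62 : ℝ) ≤ W * mu l := by nlinarith
      nlinarith
    have h3 := pow_le_exp (3 / 4 * (a2 : ℝ) / N) sB hx
    have h4 : (sB : ℝ) * (3 / 4 * (a2 : ℝ) / N) = 12 * M := by
      rw [hNr, esB, ← h2r]; push_cast; rw [hMdef]; field_simp; ring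
    rw [h4] at h3
    have h5 : 12 * M + 1 ≤ Real.exp (12 * M) := Real.add_one_le_exp _
    refine h3.trans ?_
    have hF0 : (0 : ℝ) < Fintype.card F := by exact_mod_cast hcF
    rw [Real.exp_neg, inv_eq_one_div]
    apply one_div_le_one_div_of_le (by positivity)
    linarith

end Pool.Agent.Helper116.AG
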