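import Pool.Agent.Helper116.AG.Defs2

set_option autoImplicit false
open Finset
open scoped Classical

noncomputable section

namespace Pool.Agent.Helper116.AG


/-- the tree asking the pairs of a list one after the other -/
def ttTree {V : Type} : List (V × V) → DT V
  | [] => DT.leaf true
  | e :: l => DT.ask e.1 e.2 (fun b => bif b then DT.leaf false else ttTree l)

lemma ttTree_depth {V : Type} (l : List (V × V)) : (ttTree l).depth ≤ l.length := by
  induction l with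
  | nil => simp [ttTree, DT.depth]
  | cons e l ih =>
    simp only [ttTree, DT.depth, cond_false, cond_true, List.length_cons]
    omega

lemma ttTree_run {V : Type} (l : List (V × V)) (O : Orc V) :
    (ttTree l).run O = true ↔ ∀ e ∈ l, O e.1 e.2 = false := by
  induction l with
  | nil => simp [ttTree, DT.run]
  | cons e l ih =>
    cases h : O e.1 e.2
    · simp [ttTree, DT.run, h, ih]
    · simp [ttTree, DT.run, h]

lemma tt_adj_card {N : ℕ} (G : SimpleGraph (Fin N)) :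
    (univ.filter fun e : Fin N × Fin N => G.Adj e.1 e.2).card = 2 * diff G ⊥ := by
  have h1 : (univ.filter fun e : Fin N × Fin N => G.Adj e.1 e.2) =
      (univ.filter fun e : Fin N × Fin N => e.1 < e.2 ∧ G.Adj e.1 e.2) ∪
      (univ.filter fun e : Fin N × Fin N => e.2 < e.1 ∧ G.Adj e.1 e.2) := by
    ext e
    simp only [mem_filter, mem_univ, true_and, mem_union]
    constructor
    · intro h
      rcases lt_trichotomy e.1 e.2 with h' | h' | h'
      · exact Or.inl ⟨h', h⟩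
      · exact absurd h' h.ne
      · exact Or.inr ⟨h', h⟩
    · rintro (h | h) <;> exact h.2
  have h2 : Disjoint (univ.filter fun e : Fin N × Fin N => e.1 < e.2 ∧ G.Adj e.1 e.2)
      (univ.filter fun e : Fin N × Fin N => e.2 < e.1 ∧ G.Adj e.1 e.2) := by
    rw [Finset.disjoint_left]
    intro e h h'
    simp only [mem_filter, mem_univ, true_and] at h h'
    exact lt_asymm h.1 h'.1
  have h3 : (univ.filter fun e : Fin N × Fin N => e.2 < e.1 ∧ G.Adj e.1 e.2).card =
      (univ.filter fun e : Fin N × Fin N => e.1 < e.2 ∧ G.Adj e.1 e.2).card := by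
    refine Finset.card_bij (fun e _ => (e.2, e.1)) ?_ ?_ ?_
    · intro e he
      simp only [mem_filter, mem_univ, true_and] at he ⊢
      exact ⟨he.1, he.2.symm⟩
    · intro e _ e' _ h
      simp only [Prod.mk.injEq] at h
      exact Prod.ext h.2 h.1
    · intro e he
      simp only [mem_filter, mem_univ, true_and] at he
      exact ⟨(e.2, e.1), by simpa using ⟨he.1, he.2.symm⟩, rfl⟩
  have h4 : diff G ⊥ = (univ.filter fun e : Fin N × Fin N => e.1 < e.2 ∧ G.Adj e.1 e.2).card := by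
    unfold diff
    congr 1
    ext e
    simp
  rw [h1, Finset.card_union_of_disjoint h2, h3, h4]
  ring

lemma tt_diff_tri {N : ℕ} (G H : SimpleGraph (Fin N)) : diff G H ≤ diff G ⊥ + diff H ⊥ := by
  unfold diff
  refine le_trans (Finset.card_le_card ?_) (Finset.card_union_le _ _)
  intro e he
  simp only [mem_filter, mem_univ, true_and, mem_union, SimpleGraph.bot_adj, iff_false,
    not_not] at he ⊢
  by_cases h1 : G.Adj e.1 e.2
  · exact Or.inl ⟨he.1, h1⟩
  · refine Or.inr ⟨he.1, ?_⟩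
    by_contra h2
    exact he.2 ⟨fun h => absurd h h1, fun h => absurd h h2⟩

lemma tt_core_true {N : ℕ} (hN : 1 ≤ N) (q : ℕ) (G : SimpleGraph (Fin N))
    (b : (Fin q → Fin N × Fin N) → Bool)
    (hb : ∀ ω, b ω = true ↔ ∀ i, ¬ G.Adj (ω i).1 (ω i).2) :
    ∑ ω, (if b ω = true then (1 : ℝ) / (Fintype.card (Fin q → Fin N × Fin N) : ℝ) else 0) =
      (1 - 2 * (diff G ⊥ : ℝ) / (N : ℝ) ^ 2) ^ q := by
  have hN0 : (N : ℝ) ≠ 0 := by
    have : N ≠ 0 := by omega
    exact_mod_cast this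
  rw [← Finset.sum_filter, Finset.sum_const, nsmul_eq_mul]
  have h1 : (univ.filter fun ω : Fin q → Fin N × Fin N => b ω = true) =
      Fintype.piFinset (fun _ : Fin q => univ.filter fun e : Fin N × Fin N => ¬ G.Adj e.1 e.2) := by
    ext ω
    simp only [mem_filter, mem_univ, true_and, Fintype.mem_piFinset, hb]
  rw [h1, Fintype.card_piFinset]
  have h2 : (univ.filter fun e : Fin N × Fin N => G.Adj e.1 e.2).card +
      (univ.filter fun e : Fin N × Fin N => ¬ G.Adj e.1 e.2).card = N * N := by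
    rw [Finset.card_filter_add_card_filter_not]
    simp
  rw [tt_adj_card] at h2
  have h3 : ((univ.filter fun e : Fin N × Fin N => ¬ G.Adj e.1 e.2).card : ℝ) =
      (N : ℝ) ^ 2 - 2 * (diff G ⊥ : ℝ) := by
    have h4 : ((2 * diff G ⊥ + (univ.filter fun e : Fin N × Fin N => ¬ G.Adj e.1 e.2).card : ℕ) : ℝ)
      = ((N * N : ℕ) : ℝ) := by rw [h2]
    push_cast at h4
    nlinarith [h4]
  rw [Finset.prod_const, Finset.card_univ, Fintype.card_fin]
  have h5 : Fintype.card (Fin q → Fin N × Fin N) = (N * N) ^ q := by simp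
  rw [h5]
  push_cast
  rw [h3, mul_one_div, ← div_pow]
  congr 1
  field_simp

lemma tt_core_false {N : ℕ} (hN : 1 ≤ N) (q : ℕ) (G : SimpleGraph (Fin N))
    (b : (Fin q → Fin N × Fin N) → Bool)
    (hb : ∀ ω, b ω = true ↔ ∀ i, ¬ G.Adj (ω i).1 (ω i).2) :
    ∑ ω, (if b ω = false then (1 : ℝ) / (Fintype.card (Fin q → Fin N × Fin N) : ℝ) else 0) =
      1 - (1 - 2 * (diff G ⊥ : ℝ) / (N : ℝ) ^ 2) ^ q := by
  rw [← tt_core_true hN q G b hb, eq_sub_iff_add_eq, ← Finset.sum_add_distrib]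
  have hc : (Fintype.card (Fin q → Fin N × Fin N) : ℝ) ≠ 0 := by
    have h5 : Fintype.card (Fin q → Fin N × Fin N) = (N * N) ^ q := by simp
    rw [h5]
    have : (N * N) ^ q ≠ 0 := by
      have : N ≠ 0 := by omega
      positivity
    exact_mod_cast this
  have h1 : ∀ ω : Fin q → Fin N × Fin N,
      ((if b ω = false then (1 : ℝ) / (Fintype.card (Fin q → Fin N × Fin N) : ℝ) else 0) +
      (if b ω = true then (1 : ℝ) / (Fintype.card (Fin q → Fin N × Fin N) : ℝ) else 0)) =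
      1 / (Fintype.card (Fin q → Fin N × Fin N) : ℝ) := by
    intro ω
    cases b ω <;> simp
  rw [Finset.sum_congr rfl fun ω _ => h1 ω, Finset.sum_const, Finset.card_univ, nsmul_eq_mul]
  field_simp

lemma tt_yes {N : ℕ} (hN : 1 ≤ N) (G : SimpleGraph (Fin N))
    (ε : ℝ) (hε : 0 < ε) (hε1 : ε ≤ 1) (hS : (diff G ⊥ : ℝ) ≤ ε * (N : ℝ) ^ 2 / 32)
    (q : ℕ) (hq2 : (q : ℝ) ≤ 3 / ε) :
    2 / 3 ≤ (1 - 2 * (diff G ⊥ : ℝ) / (N : ℝ) ^ 2) ^ q := by
  have hN0 : (0 : ℝ) < (N : ℝ) ^ 2 := by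
    have : 0 < N := by omega
    positivity
  have h0 : 0 ≤ 2 * (diff G ⊥ : ℝ) / (N : ℝ) ^ 2 := by positivity
  have h1 : 2 * (diff G ⊥ : ℝ) / (N : ℝ) ^ 2 ≤ ε / 16 := by
    rw [div_le_iff₀ hN0]
    linarith
  have h2 := one_add_mul_le_pow (a := -(2 * (diff G ⊥ : ℝ) / (N : ℝ) ^ 2)) (by linarith) q
  have h3 : (q : ℝ) * (2 * (diff G ⊥ : ℝ) / (N : ℝ) ^ 2) ≤ (3 / ε) * (ε / 16) :=
    mul_le_mul hq2 h1 h0 (by positivity)
  have h4 : (3 / ε) * (ε / 16) = 3 / 16 := by
    field_simp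
  have h5 : 1 + -(2 * (diff G ⊥ : ℝ) / (N : ℝ) ^ 2) = 1 - 2 * (diff G ⊥ : ℝ) / (N : ℝ) ^ 2 := by
    ring
  rw [h5] at h2
  linarith

lemma tt_no {N : ℕ} (hN : 1 ≤ N) (G H : SimpleGraph (Fin N))
    (ε : ℝ) (hε : 0 < ε) (hε1 : ε ≤ 1) (hS : (diff H ⊥ : ℝ) ≤ ε * (N : ℝ) ^ 2 / 32)
    (hG : ε * (N : ℝ) ^ 2 < diff G H) (q : ℕ) (hq : 2 / ε ≤ q) :
    2 / 3 ≤ 1 - (1 - 2 * (diff G ⊥ : ℝ) / (N : ℝ) ^ 2) ^ q := by
  have hN0 : (0 : ℝ) < (N : ℝ) ^ 2 := by
    have : 0 < N := by omega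
    positivity
  have htri : (diff G H : ℝ) ≤ diff G ⊥ + diff H ⊥ := by exact_mod_cast tt_diff_tri G H
  have h1 : (31 / 16) * ε ≤ 2 * (diff G ⊥ : ℝ) / (N : ℝ) ^ 2 := by
    rw [le_div_iff₀ hN0]
    nlinarith
  have h2 : 2 * (diff G ⊥ : ℝ) / (N : ℝ) ^ 2 ≤ 1 := by
    rw [div_le_one hN0, ← Nat.cast_two, ← Nat.cast_mul, ← tt_adj_card, sq, ← Nat.cast_mul]
    have h := Finset.card_le_univ (univ.filter fun e : Fin N × Fin N => G.Adj e.1 e.2)
    have h' : Fintype.card (Fin N × Fin N) = N * N := by simp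
    rw [h'] at h
    exact_mod_cast h
  have h3 : (1 - 2 * (diff G ⊥ : ℝ) / (N : ℝ) ^ 2) ^ q ≤
      Real.exp (-(2 * (diff G ⊥ : ℝ) / (N : ℝ) ^ 2)) ^ q := by
    refine pow_le_pow_left₀ (by linarith) ?_ q
    have := Real.add_one_le_exp (-(2 * (diff G ⊥ : ℝ) / (N : ℝ) ^ 2))
    linarith
  rw [← Real.exp_nat_mul] at h3
  have h4 : (q : ℝ) * -(2 * (diff G ⊥ : ℝ) / (N : ℝ) ^ 2) ≤ -(31 / 8) := by
    have h5 : (2 / ε) * ((31 / 16) * ε) ≤ (q : ℝ) * (2 * (diff G ⊥ : ℝ) / (N : ℝ) ^ 2) :=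
      mul_le_mul hq h1 (by positivity) (by positivity)
    have h6 : (2 / ε) * ((31 / 16) * ε) = 31 / 8 := by
      field_simp
      norm_num
    linarith
  have h7 : Real.exp (-(31 / 8)) ≤ 1 / 3 := by
    rw [Real.exp_neg, one_div]
    refine inv_anti₀ (by norm_num) ?_
    have := Real.add_one_le_exp ((31 : ℝ) / 8)
    linarith
  have h8 := Real.exp_le_exp.2 h4
  linarith


theorem trivial_tester {N : ℕ} (hN : 1 ≤ N) (S : Set (SimpleGraph (Fin N))) (hne : S.Nonempty)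
    (ε : ℝ) (hε : 0 < ε) (hε1 : ε ≤ 1) (hS : ∀ H ∈ S, (diff H ⊥ : ℝ) ≤ ε * (N : ℝ) ^ 2 / 32)
    (q : ℕ) (hq : 2 / ε ≤ q) (hq2 : (q : ℝ) ≤ 3 / ε) : ATest S ε q ∧ NTest S ε q := by
  obtain ⟨H0, hH0⟩ := hne
  have hc : (0 : ℝ) < (Fintype.card (Fin q → Fin N × Fin N) : ℝ) := by
    have h5 : Fintype.card (Fin q → Fin N × Fin N) = (N * N) ^ q := by simp
    rw [h5]
    have : 0 < (N * N) ^ q := by
      have : 0 < N := by omega
      positivity
    exact_mod_cast this
  have hsum : ∑ _ω : Fin q → Fin N × Fin N,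
      (1 : ℝ) / (Fintype.card (Fin q → Fin N × Fin N) : ℝ) = 1 := by
    rw [Finset.sum_const, Finset.card_univ, nsmul_eq_mul, mul_one_div, div_self hc.ne']
  constructor
  · have hb : ∀ (G : SimpleGraph (Fin N)) (ω : Fin q → Fin N × Fin N),
        (ttTree (List.ofFn ω)).run (orc G) = true ↔ ∀ i, ¬ G.Adj (ω i).1 (ω i).2 := by
      intro G ω
      rw [ttTree_run]
      simp [List.mem_ofFn, orc]
    refine ⟨Fin q → Fin N × Fin N, inferInstance,
      fun _ => (1 : ℝ) / (Fintype.card (Fin q → Fin N × Fin N) : ℝ),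
      fun ω => ttTree (List.ofFn ω), fun ω => by positivity, hsum, ?_, ?_, ?_⟩
    · intro ω
      refine (ttTree_depth _).trans ?_
      simp
    · intro G hG
      have h := tt_core_true hN q G (fun ω => (ttTree (List.ofFn ω)).run (orc G)) (hb G)

      refine le_of_le_of_eq ?_ h.symm
      exact tt_yes hN G ε hε hε1 (hS G hG) q hq2
    · intro G hG
      have h := tt_core_false hN q G (fun ω => (ttTree (List.ofFn ω)).run (orc G)) (hb G)

      refine le_of_le_of_eq ?_ h.symm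
      exact tt_no hN G H0 ε hε hε1 (hS H0 hH0) (hG H0 hH0) q hq
  · have hb : ∀ (G : SimpleGraph (Fin N)) (ω : Fin q → Fin N × Fin N),
        (decide (∀ i, orc G (ω i).1 (ω i).2 = false)) = true ↔
          ∀ i, ¬ G.Adj (ω i).1 (ω i).2 := by
      intro G ω
      simp [orc]
    refine ⟨Fin q → Fin N × Fin N, inferInstance,
      fun _ => (1 : ℝ) / (Fintype.card (Fin q → Fin N × Fin N) : ℝ),
      fun ω => univ.image ω, fun ω O => decide (∀ i, O (ω i).1 (ω i).2 = false),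
      fun ω => by positivity, hsum, ?_, ?_, ?_, ?_⟩
    · intro ω
      refine Finset.card_image_le.trans ?_
      simp
    · intro ω O O' h
      have h1 : ∀ i, O (ω i).1 (ω i).2 = O' (ω i).1 (ω i).2 := fun i =>
        h (ω i) (Finset.mem_image_of_mem _ (mem_univ i))
      simp only [h1]
    · intro G hG
      have h := tt_core_true hN q G (fun ω => decide (∀ i, orc G (ω i).1 (ω i).2 = false)) (hb G)

      refine le_of_le_of_eq ?_ h.symm
      exact tt_yes hN G ε hε hε1 (hS G hG) q hq2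
    · intro G hG
      have h := tt_core_false hN q G (fun ω => decide (∀ i, orc G (ω i).1 (ω i).2 = false)) (hb G)

      refine le_of_le_of_eq ?_ h.symm
      exact tt_no hN G H0 ε hε hε1 (hS H0 hH0) (hG H0 hH0) q hq

end Pool.Agent.Helper116.AG
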