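import Pool.Agent.Helper116.AG.Fb
import Pool.Agent.Helper116.AG.J19

set_option autoImplicit false
open Finset
open scoped Classical

noncomputable section

namespace Pool.Agent.Helper116.AG

theorem num_bound (A : ℕ) (hA : 5 ≤ A) (β : ℝ) (hβ : 0 ≤ β)
    (W X M m K ρ1 ρ2 s2 s3 t3 sA sB : ℝ) (hW : 1 ≤ W) (hWX : W ≤ X) (hM : 1 ≤ M) (hm : 0 ≤ m)
    (hm2 : m ≤ 6 * M ^ 2) (hK0 : 0 ≤ K) (hK : K ≤ M) (hρ1 : ρ1 = W ^ (A - 1)) (hρ2 : 0 ≤ ρ2)
    (hρ2' : ρ2 ≤ W ^ β) (hρ21 : ρ2 ≤ ρ1) (h20 : 0 ≤ s2) (h30 : 0 ≤ s3) (ht0 : 0 ≤ t3)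
    (hs2 : s2 ≤ 128 * M * W * m * (K * ρ1) * (4 * X ^ 2 / W ^ 2) ^ 2 + 1)
    (hs3 : s3 ≤ X ^ 2 / 4 + 1) (ht3 : t3 ≤ 4 * X ^ 2 / W ^ 2 + 1)
    (hsA : sA = 16 * M * W * m * (K * ρ1)) (hsB : sB = 16 * M * W * m * (K * ρ2)) :
    (3 * W * m * M) * (128 * W * m ^ 2 * M) + M * (s2 + 2 * s3 + t3 * (K * (sA + sB))) + s3 +
      t3 * K ≤ 10 ^ 6 * M ^ 8 * X ^ A ∧
    (3 * W * m * M) * (128 * W * m ^ 2 * M) +
      (3 * W * m * M) * (s2 + 2 * s3 + t3 * (K * (sA + sB))) + s3 +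
      t3 * K * sA * sB ≤ 10 ^ 6 * M ^ 9 * X ^ ((A : ℝ) + 1 + β) := by
  have hX : 1 ≤ X := hW.trans hWX
  have hX0 : 0 < X := by linarith
  have hW0 : 0 < W := by linarith
  have hM0 : 0 < M := by linarith
  have hXA1 : 1 ≤ X ^ A := one_le_pow₀ hX
  have hX2A : X ^ 2 ≤ X ^ A := pow_le_pow_right₀ hX (by omega)
  have hX21 : 1 ≤ X ^ 2 := one_le_pow₀ hX
  have hMk : ∀ k : ℕ, 1 ≤ M ^ k := fun k => one_le_pow₀ hM
  have hMle : ∀ j k : ℕ, j ≤ k → M ^ j ≤ M ^ k := fun j k h => pow_le_pow_right₀ hM h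
  have hρ10 : 0 ≤ ρ1 := by rw [hρ1]; positivity
  -- step 1
  have e1 : (3 * W * m * M) * (128 * W * m ^ 2 * M) ≤ 82944 * M ^ 8 * X ^ 2 := by
    calc (3 * W * m * M) * (128 * W * m ^ 2 * M) = 384 * W ^ 2 * m ^ 3 * M ^ 2 := by ring
      _ ≤ 384 * X ^ 2 * (6 * M ^ 2) ^ 3 * M ^ 2 := by gcongr
      _ = 82944 * M ^ 8 * X ^ 2 := by ring
  -- step 2
  have hWρ : W * ρ1 = W ^ A := by
    rw [hρ1, ← pow_succ']; congr 1; omega
  have e2 : s2 ≤ 12289 * M ^ 4 * X ^ A := by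
    have f1 : 128 * M * W * m * (K * ρ1) * (4 * X ^ 2 / W ^ 2) ^ 2 =
        2048 * M * m * K * W ^ (A - 4) * X ^ 4 := by
      have : W ^ A = W ^ (A - 4) * W ^ 4 := by rw [← pow_add]; congr 1; omega
      calc 128 * M * W * m * (K * ρ1) * (4 * X ^ 2 / W ^ 2) ^ 2
          = 128 * M * m * K * (W * ρ1) * (4 * X ^ 2 / W ^ 2) ^ 2 := by ring
        _ = _ := by rw [hWρ, this]; field_simp; ring
    have f2 : 2048 * M * m * K * W ^ (A - 4) * X ^ 4 ≤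
        2048 * M * (6 * M ^ 2) * M * X ^ (A - 4) * X ^ 4 := by gcongr
    have f3 : 2048 * M * (6 * M ^ 2) * M * X ^ (A - 4) * X ^ 4 = 12288 * M ^ 4 * X ^ A := by
      have : X ^ A = X ^ (A - 4) * X ^ 4 := by rw [← pow_add]; congr 1; omega
      rw [this]; ring
    have f4 : 1 ≤ M ^ 4 * X ^ A := one_le_mul_of_one_le_of_one_le (hMk 4) hXA1
    rw [f1] at hs2
    linarith
  have e3 : s3 ≤ 2 * X ^ 2 := by linarith
  have hXW : 1 ≤ X ^ 2 / W ^ 2 := by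
    rw [one_le_div (by positivity)]; gcongr
  have e4 : t3 ≤ 5 * X ^ 2 / W ^ 2 := by
    have : 5 * X ^ 2 / W ^ 2 = 4 * X ^ 2 / W ^ 2 + X ^ 2 / W ^ 2 := by ring
    rw [this]; linarith
  have hsA0 : 0 ≤ sA := by rw [hsA]; positivity
  have hsB0 : 0 ≤ sB := by rw [hsB]; positivity
  have e5 : t3 * (K * (sA + sB)) ≤ 960 * M ^ 5 * X ^ A := by
    have f1 : K * (sA + sB) ≤ 192 * M ^ 5 * W ^ A := by
      calc K * (sA + sB) = K * (16 * M * W * m * (K * ρ1) + 16 * M * W * m * (K * ρ2)) := by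
            rw [hsA, hsB]
        _ ≤ K * (16 * M * W * m * (K * ρ1) + 16 * M * W * m * (K * ρ1)) := by gcongr
        _ = 32 * M * K * K * m * (W * ρ1) := by ring
        _ ≤ 32 * M * M * M * (6 * M ^ 2) * (W * ρ1) := by gcongr
        _ = 192 * M ^ 5 * W ^ A := by rw [hWρ]; ring
    calc t3 * (K * (sA + sB)) ≤ (5 * X ^ 2 / W ^ 2) * (192 * M ^ 5 * W ^ A) := by gcongr
      _ = 960 * M ^ 5 * X ^ 2 * W ^ (A - 2) := by
          have : W ^ A = W ^ (A - 2) * W ^ 2 := by rw [← pow_add]; congr 1; omega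
          rw [this]; field_simp; ring
      _ ≤ 960 * M ^ 5 * X ^ 2 * X ^ (A - 2) := by gcongr
      _ = 960 * M ^ 5 * X ^ A := by
          have : X ^ A = X ^ (A - 2) * X ^ 2 := by rw [← pow_add]; congr 1; omega
          rw [this]; ring
  have e6 : s2 + 2 * s3 + t3 * (K * (sA + sB)) ≤ 13253 * M ^ 5 * X ^ A := by
    have f1 : M ^ 4 * X ^ A ≤ M ^ 5 * X ^ A := by
      have := hMle 4 5 (by norm_num); gcongr
    have f2 : X ^ 2 ≤ M ^ 5 * X ^ A := by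
      calc X ^ 2 ≤ X ^ A := hX2A
        _ ≤ M ^ 5 * X ^ A := le_mul_of_one_le_left (by positivity) (hMk 5)
    linarith
  have hI0 : 0 ≤ s2 + 2 * s3 + t3 * (K * (sA + sB)) := by positivity
  constructor
  · have f1 : M * (s2 + 2 * s3 + t3 * (K * (sA + sB))) ≤ 13253 * M ^ 8 * X ^ A := by
      calc M * (s2 + 2 * s3 + t3 * (K * (sA + sB))) ≤ M * (13253 * M ^ 5 * X ^ A) := by gcongr
        _ = 13253 * M ^ 6 * X ^ A := by ring
        _ ≤ 13253 * M ^ 8 * X ^ A := by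
            have := hMle 6 8 (by norm_num); gcongr
    have f2 : X ^ 2 ≤ M ^ 8 * X ^ A := by
      calc X ^ 2 ≤ X ^ A := hX2A
        _ ≤ M ^ 8 * X ^ A := le_mul_of_one_le_left (by positivity) (hMk 8)
    have f3 : M ^ 8 * X ^ 2 ≤ M ^ 8 * X ^ A := by gcongr
    have f4 : t3 * K ≤ 5 * (M ^ 8 * X ^ A) := by
      have g1 : t3 ≤ 5 * X ^ 2 := by
        refine e4.trans ?_
        apply div_le_self (by positivity)
        exact one_le_pow₀ hW
      calc t3 * K ≤ (5 * X ^ 2) * M := by gcongr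
        _ ≤ (5 * X ^ A) * M ^ 8 := by
            have : M ≤ M ^ 8 := le_self_pow₀ hM (by norm_num)
            gcongr
        _ = _ := by ring
    have f5 : 0 ≤ M ^ 8 * X ^ A := by positivity
    linarith
  · set Y : ℝ := X ^ ((A : ℝ) + 1 + β) with hY
    have hY1 : X ^ (A + 1) ≤ Y := by
      rw [hY, ← Real.rpow_natCast]
      apply Real.rpow_le_rpow_of_exponent_le hX
      push_cast; linarith
    have hYA : X ^ A ≤ Y := (pow_le_pow_right₀ hX (by omega)).trans hY1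
    have hY0 : 0 < Y := by positivity
    have f0 : 3 * W * m * M ≤ 18 * M ^ 3 * X := by
      calc 3 * W * m * M ≤ 3 * X * (6 * M ^ 2) * M := by gcongr
        _ = _ := by ring
    have f1 : (3 * W * m * M) * (s2 + 2 * s3 + t3 * (K * (sA + sB))) ≤
        238554 * (M ^ 9 * Y) := by
      calc (3 * W * m * M) * (s2 + 2 * s3 + t3 * (K * (sA + sB)))
          ≤ (18 * M ^ 3 * X) * (13253 * M ^ 5 * X ^ A) := by gcongr
        _ = 238554 * (M ^ 8 * X ^ (A + 1)) := by ring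
        _ ≤ 238554 * (M ^ 9 * Y) := by
            have := hMle 8 9 (by norm_num); gcongr
    have f2 : X ^ 2 ≤ M ^ 9 * Y := by
      calc X ^ 2 ≤ X ^ A := hX2A
        _ ≤ Y := hYA
        _ ≤ M ^ 9 * Y := le_mul_of_one_le_left (by positivity) (hMk 9)
    have f3 : M ^ 8 * X ^ 2 ≤ M ^ 9 * Y := by
      have := hMle 8 9 (by norm_num)
      have : X ^ 2 ≤ Y := hX2A.trans hYA
      gcongr
    have f4 : t3 * K * sA * sB ≤ 46080 * (M ^ 9 * Y) := by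
      have g2 : ρ1 * ρ2 ≤ X ^ (A - 1) * X ^ β := by
        have : W ^ β ≤ X ^ β := Real.rpow_le_rpow hW0.le hWX hβ
        rw [hρ1]
        gcongr
        exact hρ2'.trans this
      have g3 : X ^ 2 * (X ^ (A - 1) * X ^ β) = Y := by
        rw [hY, ← mul_assoc, ← pow_add, show 2 + (A - 1) = A + 1 by omega, ← Real.rpow_natCast,
          ← Real.rpow_add hX0]
        congr 1; push_cast; ring
      calc t3 * K * sA * sB ≤ (5 * X ^ 2 / W ^ 2) * K * sA * sB := by gcongr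
        _ = 1280 * X ^ 2 * K * M ^ 2 * m ^ 2 * K ^ 2 * (ρ1 * ρ2) := by
            rw [hsA, hsB]; field_simp; ring
        _ ≤ 1280 * X ^ 2 * M * M ^ 2 * (6 * M ^ 2) ^ 2 * M ^ 2 * (X ^ (A - 1) * X ^ β) := by
            gcongr
        _ = 46080 * (M ^ 9 * (X ^ 2 * (X ^ (A - 1) * X ^ β))) := by ring
        _ = 46080 * (M ^ 9 * Y) := by rw [g3]
    have f5 : 0 ≤ M ^ 9 * Y := by positivity
    linarith

/-! ## parameters at scale `i` -/

/-- the group at scale `i` -/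
abbrev Fi (A i : ℕ) : Type := ZMod (A * i + 3 + 1)

/-- block side 1 -/
abbrev R1i (A i : ℕ) : Type := Fin (2 ^ ((A - 1) * i))

/-- block side 2 -/
abbrev R2i (e : ℕ) : Type := Fin (2 ^ e)

def li (A i : ℕ) : ℕ := 2 * A * i + 4

def m1 (A i : ℕ) : ℕ := (A * i + 4) * 2 ^ ((A - 1) * i)

def m2 (A i e : ℕ) : ℕ := (A * i + 4) * 2 ^ e

/-- the code of the classes at scale `i` -/
def codei (A i e : ℕ) : (Fi A i × R1i A i) ⊕ (Fi A i × R2i e) → Fin (li A i + 1) → Bool :=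
  Classical.epsilon GoodCode

theorem card_Fi (A i : ℕ) : Fintype.card (Fi A i) = A * i + 4 := ZMod.card _

theorem n4 (n : ℕ) : n + 4 ≤ 2 ^ (n + 2) := by
  induction n with
  | zero => norm_num
  | succ n ih => rw [show n + 1 + 2 = (n + 2) + 1 by ring, pow_succ]; omega

theorem lab_count (A i e : ℕ) (hA : 1 ≤ A) (he : e ≤ (A - 1) * i) (hi : 1 ≤ i) :
    (A * i + 4) * (2 ^ ((A - 1) * i) + 2 ^ e) + 1 ≤ 2 ^ (li A i) := by
  have h1 : 2 ^ e ≤ 2 ^ ((A - 1) * i) := Nat.pow_le_pow_right (by norm_num) he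
  have h2 : A * i + 4 ≤ 2 ^ (A * i + 2) := n4 _
  have h3 : (A - 1) * i + i = A * i := by
    obtain ⟨a, rfl⟩ : ∃ a, A = a + 1 := ⟨A - 1, by omega⟩
    simp; ring
  have h4 : (A * i + 4) * (2 ^ ((A - 1) * i) + 2 ^ e) ≤
      2 ^ (A * i + 2) * (2 * 2 ^ ((A - 1) * i)) := by
    apply Nat.mul_le_mul h2; omega
  have h5 : 2 ^ (A * i + 2) * (2 * 2 ^ ((A - 1) * i)) = 2 ^ (A * i + 2 + 1 + (A - 1) * i) := by
    rw [pow_add, pow_add, pow_add]; ring
  have h6 : 2 ^ (A * i + 2 + 1 + (A - 1) * i) * 2 ≤ 2 ^ (li A i) := by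
    rw [← pow_succ]
    apply Nat.pow_le_pow_right (by norm_num)
    unfold li
    have : 2 * A * i = A * i + A * i := by ring
    omega
  have h7 : 1 ≤ 2 ^ (A * i + 2 + 1 + (A - 1) * i) := Nat.one_le_two_pow
  omega

theorem codei_good (A i e : ℕ) (hA : 1 ≤ A) (he : e ≤ (A - 1) * i) (hi : 1 ≤ i) :
    GoodCode (codei A i e) := by
  unfold codei
  apply Classical.epsilon_spec
  apply exists_code
  have := lab_count A i e hA he hi
  rw [Fintype.card_sum, Fintype.card_prod, Fintype.card_prod, card_Fi, Fintype.card_fin,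
    Fintype.card_fin]
  calc _ = (A * i + 4) * (2 ^ ((A - 1) * i) + 2 ^ e) + 1 := by ring
    _ ≤ _ := this

/-- the property at scale `i` with `b` -/
def Si (A i e b N : ℕ) : Set (SimpleGraph (Fin N)) :=
  Tm (codei A i e) b (b / m1 A i) (b / m2 A i e)

theorem X_facts (ε : ℝ) (hε0 : 0 < ε) (hε1 : ε ≤ 1 / 4) :
    8 ≤ 4 / √ε ∧ (4 / √ε) ^ 2 = 16 / ε ∧ 1 ≤ Real.log (1 / ε) ∧
    Real.log (4 / √ε) ≤ 3 / 2 * Real.log (1 / ε) := by
  have hs : 0 < √ε := Real.sqrt_pos.2 hε0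
  have hs2 : √ε ^ 2 = ε := Real.sq_sqrt hε0.le
  have h1 : √ε ≤ 1 / 2 := by
    rw [show (1 : ℝ) / 2 = √(1 / 4) by
      rw [show (1 : ℝ) / 4 = (1 / 2) ^ 2 by norm_num, Real.sqrt_sq (by norm_num)]]
    exact Real.sqrt_le_sqrt hε1
  have h4 : Real.log 4 ≤ Real.log (1 / ε) := by
    apply Real.log_le_log (by norm_num)
    rw [le_div_iff₀ hε0]; linarith
  have h5 : Real.log 4 = 2 * Real.log 2 := by
    rw [show (4 : ℝ) = 2 ^ 2 by norm_num, Real.log_pow]; norm_num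
  have h6 := Real.log_two_gt_d9
  refine ⟨?_, ?_, by linarith, ?_⟩
  · rw [le_div_iff₀ hs]; linarith
  · rw [div_pow, hs2]; norm_num
  · rw [Real.log_div (by norm_num) hs.ne', Real.log_sqrt hε0.le, one_div, Real.log_inv] at *
    linarith

end Pool.Agent.Helper116.AG
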