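import Pool.Agent.Helper116.AG.Fc

set_option autoImplicit false
open Finset
open scoped Classical

noncomputable section

namespace Pool.Agent.Helper116.AG

theorem mu62 (l : ℕ) (hl : 4 ≤ l) : 62 ≤ mu l := by unfold mu; nlinarith

theorem up_scale (A i e b N : ℕ) (hA : 5 ≤ A) (hi : 1 ≤ i) (he : e ≤ (A - 1) * i) (β : ℝ)
    (hβ : 0 ≤ β) (hβe : (2 : ℝ) ^ e ≤ ((2 : ℝ) ^ i) ^ β) (hb : 3 ≤ b) (hd1 : m1 A i ∣ b)
    (hd2 : m2 A i e ∣ b) (hN : N = 2 ^ i * mu (li A i) * b) (ε : ℝ) (hε0 : 0 < ε)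
    (hε1 : ε ≤ 1 / 4) :
    ∃ qa qn : ℕ, ATest (Si A i e b N) ε qa ∧ NTest (Si A i e b N) ε qn ∧
      (qa : ℝ) ≤ 10 ^ 6 * ((6 * A + 5) * Real.log (1 / ε)) ^ 8 * (4 / √ε) ^ A ∧
      (qn : ℝ) ≤ 10 ^ 6 * ((6 * A + 5) * Real.log (1 / ε)) ^ 9 * (4 / √ε) ^ ((A : ℝ) + 1 + β) := by
  obtain ⟨hX8, hX2, hL1, hXL⟩ := X_facts ε hε0 hε1
  set X : ℝ := 4 / √ε with hXd
  set L : ℝ := Real.log (1 / ε) with hLd
  have hX0 : 0 < X := by linarith
  have hX1 : 1 ≤ X := by linarith
  have hAr : (5 : ℝ) ≤ A := by exact_mod_cast hA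
  have hML1 : (1 : ℝ) ≤ (6 * A + 5) * L := by nlinarith
  have hcf : Fintype.card (Fi A i) = A * i + 4 := card_Fi A i
  have hm1 : m1 A i = Fintype.card (Fi A i) * Fintype.card (R1i A i) := by
    rw [hcf, Fintype.card_fin]; rfl
  have hm2 : m2 A i e = Fintype.card (Fi A i) * Fintype.card (R2i e) := by
    rw [hcf, Fintype.card_fin]; rfl
  have h1 : b / m1 A i * (Fintype.card (Fi A i) * Fintype.card (R1i A i)) = b := by
    rw [← hm1]; exact Nat.div_mul_cancel hd1
  have h2 : b / m2 A i e * (Fintype.card (Fi A i) * Fintype.card (R2i e)) = b := by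
    rw [← hm2]; exact Nat.div_mul_cancel hd2
  have hgood := codei_good A i e (by omega) he hi
  have hmu1 : 1 ≤ mu (li A i) := mu_pos _
  by_cases hbig : 16 ≤ ε * ((2 : ℝ) ^ i) ^ 2
  · -- trivial tester
    have hN1 : 1 ≤ N := by
      rw [hN]; exact Nat.succ_le_of_lt (by positivity)
    have hNr : (N : ℝ) = 2 ^ i * mu (li A i) * b := by rw [hN]; push_cast; ring
    obtain ⟨lam, hlam⟩ := exists_sized (V := Fin N) (l := li A i) (A := Fi A i × R1i A i)
      (B := Fi A i × R2i e) b (b / m1 A i) (b / m2 A i e)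
      (by rw [Fintype.card_prod]; exact h1) (by rw [Fintype.card_prod]; exact h2)
      (by
        rw [Fintype.card_fin, hN]
        calc mu (li A i) * b = 1 * mu (li A i) * b := by ring
          _ ≤ 2 ^ i * mu (li A i) * b := by gcongr; exact Nat.one_le_two_pow)
    have hne : (Si A i e b N).Nonempty :=
      ⟨_, lam, fun _ _ => 0, hlam, fun _ _ _ => by simp, rfl⟩
    have hq1 : 2 / ε ≤ (⌈2 / ε⌉₊ : ℝ) := Nat.le_ceil _
    have hq2 : (⌈2 / ε⌉₊ : ℝ) ≤ 3 / ε := by
      have h3 : (⌈2 / ε⌉₊ : ℝ) < 2 / ε + 1 := Nat.ceil_lt_add_one (by positivity)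
      have h4 : 1 ≤ 1 / ε := by rw [le_div_iff₀ hε0]; linarith
      have h5 : 3 / ε = 2 / ε + 1 / ε := by ring
      linarith
    have key := trivial_tester hN1 (Si A i e b N) hne ε hε0 (by linarith) ?_ ⌈2 / ε⌉₊ hq1 hq2
    · have h3 : 3 / ε ≤ X ^ A := by
        have h4 : 3 / ε ≤ X ^ 2 := by
          rw [hX2]; gcongr; norm_num
        exact h4.trans (pow_le_pow_right₀ hX1 (by omega))
      refine ⟨_, _, key.1, key.2, ?_, ?_⟩
      · calc (⌈2 / ε⌉₊ : ℝ) ≤ X ^ A := hq2.trans h3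
          _ = 1 * X ^ A := by ring
          _ ≤ 10 ^ 6 * ((6 * A + 5) * L) ^ 8 * X ^ A := by
            gcongr
            have := one_le_pow₀ hML1 (n := 8)
            linarith
      · have h5 : X ^ A ≤ X ^ ((A : ℝ) + 1 + β) := by
          rw [← Real.rpow_natCast]
          apply Real.rpow_le_rpow_of_exponent_le hX1
          linarith
        calc (⌈2 / ε⌉₊ : ℝ) ≤ X ^ ((A : ℝ) + 1 + β) := (hq2.trans h3).trans h5
          _ = 1 * X ^ ((A : ℝ) + 1 + β) := by ring
          _ ≤ 10 ^ 6 * ((6 * A + 5) * L) ^ 9 * X ^ ((A : ℝ) + 1 + β) := by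
            gcongr
            have := one_le_pow₀ hML1 (n := 9)
            linarith
    · intro H hH
      refine (Tm_sparse _ b _ _ h1 h2 H hH).trans ?_
      rw [hNr]
      push_cast
      have h5 : 0 ≤ ((mu (li A i) : ℝ) * b) ^ 2 := by positivity
      nlinarith
  · push Not at hbig
    have hWX : (2 : ℝ) ^ i ≤ X := by
      have : ((2 : ℝ) ^ i) ^ 2 ≤ X ^ 2 := by
        rw [hX2, le_div_iff₀ hε0]; linarith
      exact (sq_le_sq₀ (by positivity) hX0.le).1 this
    have hiL : (i : ℝ) ≤ 3 * L := by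
      have h3 : Real.log ((2 : ℝ) ^ i) ≤ Real.log X := Real.log_le_log (by positivity) hWX
      rw [Real.log_pow] at h3
      have h6 := Real.log_two_gt_d9
      have hi0 : (0 : ℝ) ≤ i := by positivity
      nlinarith
    have hMle : ((li A i : ℝ) + 1) ≤ (6 * A + 5) * L := by
      unfold li; push_cast
      have : (A : ℝ) * i ≤ A * (3 * L) := by gcongr
      nlinarith
    have hlil : i ≤ li A i := by
      unfold li; nlinarith
    have hK1 : A * i + 4 ≤ li A i + 1 := by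
      unfold li
      have : 0 ≤ A * i := Nat.zero_le _
      have h3 : 2 * A * i = A * i + A * i := by ring
      omega
    have key := up_core (N := N) (codei A i e) hgood b (b / m1 A i) (b / m2 A i e) (2 ^ i) hb
      Nat.one_le_two_pow h1 h2 hN ε hε0 (by push_cast; exact hbig.le) (by unfold li; omega)
      (Nat.pow_le_pow_right (by norm_num) hlil) (by rw [hcf]; exact hK1)
      (by
        rw [hcf, Fintype.card_fin, Fintype.card_fin]
        exact lab_count A i e (by omega) he hi)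
      (by
        rw [Fintype.card_fin, Fintype.card_fin]
        exact Nat.pow_le_pow_right (by norm_num) he) _ _ _ _ _ rfl rfl rfl rfl rfl
    refine ⟨_, _, key.1, key.2, ?_, ?_⟩
    all_goals
      have hX2' : 4 * X ^ 2 = 64 / ε := by rw [hX2]; ring
      have hceil : ∀ y : ℝ, 0 ≤ y → (⌈y⌉₊ : ℝ) ≤ y + 1 := fun y hy =>
        (Nat.ceil_lt_add_one hy).le
      have nb := num_bound A hA β hβ ((2 : ℝ) ^ i) X ((li A i : ℝ) + 1) (mu (li A i))
        (Fintype.card (Fi A i)) (Fintype.card (R1i A i)) (Fintype.card (R2i e))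
        (⌈128 * ((li A i : ℝ) + 1) * (2 ^ i : ℕ) * mu (li A i) *
          (Fintype.card (Fi A i) * Fintype.card (R1i A i)) *
          (64 / (ε * ((2 ^ i : ℕ) : ℝ) ^ 2)) ^ 2⌉₊ : ℝ) (⌈4 / ε⌉₊ : ℝ)
        (⌈64 / (ε * ((2 ^ i : ℕ) : ℝ) ^ 2)⌉₊ : ℝ)
        ((16 * (li A i + 1) * 2 ^ i * mu (li A i) *
          (Fintype.card (Fi A i) * Fintype.card (R1i A i)) : ℕ) : ℝ)
        ((16 * (li A i + 1) * 2 ^ i * mu (li A i) *
          (Fintype.card (Fi A i) * Fintype.card (R2i e)) : ℕ) : ℝ)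
        (one_le_pow₀ (by norm_num)) hWX
        (by have : (0 : ℝ) ≤ li A i := by positivity
            linarith) (by positivity) (by exact_mod_cast mu_le _) (by positivity)
        (by rw [hcf]; exact_mod_cast hK1)
        (by rw [Fintype.card_fin]; push_cast; rw [← pow_mul, mul_comm i])
        (by positivity)
        (by rw [Fintype.card_fin]; push_cast; exact hβe)
        (by
          rw [Fintype.card_fin, Fintype.card_fin]
          exact_mod_cast Nat.pow_le_pow_right (by norm_num : 0 < 2) he)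
        (by positivity) (by positivity) (by positivity)
        (by
          refine (hceil _ (by positivity)).trans ?_
          rw [hX2']
          push_cast
          apply le_of_eq
          field_simp)
        (by
          refine (hceil _ (by positivity)).trans ?_
          rw [hX2]
          apply le_of_eq
          ring)
        (by
          refine (hceil _ (by positivity)).trans ?_
          rw [hX2']
          push_cast
          apply le_of_eq
          field_simp)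
        (by push_cast; ring) (by push_cast; ring)
    · refine le_trans (le_of_eq ?_) (nb.1.trans ?_)
      · push_cast
        ring
      · gcongr
    · refine le_trans (le_of_eq ?_) (nb.2.trans ?_)
      · push_cast
        ring
      · gcongr

theorem low_adaptive (A i e b N : ℕ) (hA : 1 ≤ A) (hi : 1 ≤ i) (he : e ≤ (A - 1) * i)
    (hb : 1 ≤ b) (hd1 : m1 A i ∣ b) (hd2 : m2 A i e ∣ b) (hN : N = 2 ^ i * mu (li A i) * b)
    (ε : ℝ) (hε : ε * (3 * (A * i + 4) * (2 ^ i) ^ 2 * (mu (li A i) : ℝ) ^ 2) < 1) :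
    ¬ ATest (Si A i e b N) ε (2 ^ i * m1 A i) := by
  have hcf : Fintype.card (Fi A i) = A * i + 4 := card_Fi A i
  have hm1 : m1 A i = Fintype.card (Fi A i) * Fintype.card (R1i A i) := by
    rw [hcf, Fintype.card_fin]; rfl
  have hm2 : m2 A i e = Fintype.card (Fi A i) * Fintype.card (R2i e) := by
    rw [hcf, Fintype.card_fin]; rfl
  have h1 : b / m1 A i * (Fintype.card (Fi A i) * Fintype.card (R1i A i)) = b := by
    rw [← hm1]; exact Nat.div_mul_cancel hd1
  have h2 : b / m2 A i e * (Fintype.card (Fi A i) * Fintype.card (R2i e)) = b := by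
    rw [← hm2]; exact Nat.div_mul_cancel hd2
  have hgood := codei_good A i e hA he hi
  have hmu62 : 62 ≤ mu (li A i) := mu62 _ (by unfold li; omega)
  obtain ⟨lam, hlam⟩ := exists_sized (V := Fin N) (l := li A i) (A := Fi A i × R1i A i)
      (B := Fi A i × R2i e) b (b / m1 A i) (b / m2 A i e)
      (by rw [Fintype.card_prod]; exact h1) (by rw [Fintype.card_prod]; exact h2)
      (by
        rw [Fintype.card_fin, hN]
        calc mu (li A i) * b = 1 * mu (li A i) * b := by ring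
          _ ≤ 2 ^ i * mu (li A i) * b := by gcongr; exact Nat.one_le_two_pow)
  have hm1b : m1 A i ≤ b := Nat.le_of_dvd hb hd1
  have hNb : 62 * (2 ^ i * b) ≤ N := by
    rw [hN]
    calc 62 * (2 ^ i * b) = 2 ^ i * 62 * b := by ring
      _ ≤ 2 ^ i * mu (li A i) * b := by gcongr
  have hq : 2 ^ i * m1 A i ≤ 2 ^ i * b := Nat.mul_le_mul_left _ hm1b
  have hWb : 0 < 2 ^ i * b := by positivity
  refine adaptive_lower (codei A i e) hgood b (b / m1 A i) (b / m2 A i e) hb h1 h2 lam hlam ε ?_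
    (2 ^ i * m1 A i) ?_ ?_ ?_
  · have hbr : (0 : ℝ) < b := by exact_mod_cast hb
    have hNr : (N : ℝ) = 2 ^ i * mu (li A i) * b := by rw [hN]; push_cast; ring
    rw [hNr, hcf]
    push_cast
    calc ε * (2 ^ i * (mu (li A i) : ℝ) * b) ^ 2 * (3 * ((A : ℝ) * i + 4))
        = (ε * (3 * (A * i + 4) * (2 ^ i) ^ 2 * (mu (li A i) : ℝ) ^ 2)) * (b : ℝ) ^ 2 := by ring
      _ < 1 * (b : ℝ) ^ 2 := by gcongr
      _ = _ := by ring
  · omega
  · have h3 : 2 ^ i * m1 A i * (b / m1 A i) = 2 ^ i * b := by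
      rw [mul_assoc, Nat.mul_div_cancel' hd1]
    have h4 : 10 * (2 ^ i * m1 A i) * (b / m1 A i) = 10 * (2 ^ i * b) := by
      rw [← h3]; ring
    rw [h4]; omega
  · rw [hcf, Fintype.card_fin]
    have h3 : (A - 1) * i ≤ A * i := Nat.mul_le_mul_right _ (Nat.sub_le _ _)
    have h4 : 2 ^ ((A - 1) * i) ≤ 2 ^ (A * i) := Nat.pow_le_pow_right (by norm_num) h3
    have h5 : 2 ^ (A * i + 4) = 16 * 2 ^ (A * i) := by rw [pow_add]; ring
    have h6 : 0 < 2 ^ (A * i) := by positivity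
    omega

theorem low_nonadaptive (A i e b N : ℕ) (hA : 1 ≤ A) (hi : 1 ≤ i) (he : e ≤ (A - 1) * i)
    (hb : 1 ≤ b) (hd1 : m1 A i ∣ b) (hd2 : m2 A i e ∣ b) (hN : N = 2 ^ i * mu (li A i) * b)
    (ε : ℝ) (hε : ε * (3 * (A * i + 4) * (2 ^ i) ^ 2 * (mu (li A i) : ℝ) ^ 2) < 1) :
    ¬ NTest (Si A i e b N) ε ((2 ^ i) ^ 2 * m1 A i * m2 A i e) := by
  have hcf : Fintype.card (Fi A i) = A * i + 4 := card_Fi A i
  have hm1 : m1 A i = Fintype.card (Fi A i) * Fintype.card (R1i A i) := by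
    rw [hcf, Fintype.card_fin]; rfl
  have hm2 : m2 A i e = Fintype.card (Fi A i) * Fintype.card (R2i e) := by
    rw [hcf, Fintype.card_fin]; rfl
  have h1 : b / m1 A i * (Fintype.card (Fi A i) * Fintype.card (R1i A i)) = b := by
    rw [← hm1]; exact Nat.div_mul_cancel hd1
  have h2 : b / m2 A i e * (Fintype.card (Fi A i) * Fintype.card (R2i e)) = b := by
    rw [← hm2]; exact Nat.div_mul_cancel hd2
  have hgood := codei_good A i e hA he hi
  have hmu62 : 62 ≤ mu (li A i) := mu62 _ (by unfold li; omega)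
  obtain ⟨lam, hlam⟩ := exists_sized (V := Fin N) (l := li A i) (A := Fi A i × R1i A i)
      (B := Fi A i × R2i e) b (b / m1 A i) (b / m2 A i e)
      (by rw [Fintype.card_prod]; exact h1) (by rw [Fintype.card_prod]; exact h2)
      (by
        rw [Fintype.card_fin, hN]
        calc mu (li A i) * b = 1 * mu (li A i) * b := by ring
          _ ≤ 2 ^ i * mu (li A i) * b := by gcongr; exact Nat.one_le_two_pow)
  have hKm1 : A * i + 4 ≤ m1 A i := Nat.le_mul_of_pos_right _ (by positivity)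
  have hm1b : m1 A i ≤ b := Nat.le_of_dvd hb hd1
  have hNb : 62 * (2 ^ i * b) ≤ N := by
    rw [hN]
    calc 62 * (2 ^ i * b) = 2 ^ i * 62 * b := by ring
      _ ≤ 2 ^ i * mu (li A i) * b := by gcongr
  have hWb : b ≤ 2 ^ i * b := Nat.le_mul_of_pos_left _ (by positivity)
  have hNr : (N : ℝ) = 2 ^ i * mu (li A i) * b := by rw [hN]; push_cast; ring
  have hbr : (0 : ℝ) < b := by exact_mod_cast hb
  refine nonadaptive_lower (codei A i e) hgood b (b / m1 A i) (b / m2 A i e) hb h1 h2 lam hlam ε ?_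
    ((2 ^ i) ^ 2 * m1 A i * m2 A i e) ?_ ?_
  · rw [hNr, hcf]
    push_cast
    calc ε * (2 ^ i * (mu (li A i) : ℝ) * b) ^ 2 * (3 * ((A : ℝ) * i + 4))
        = (ε * (3 * (A * i + 4) * (2 ^ i) ^ 2 * (mu (li A i) : ℝ) ^ 2)) * (b : ℝ) ^ 2 := by ring
      _ < 1 * (b : ℝ) ^ 2 := by gcongr
      _ = _ := by ring
  · rw [hcf]; omega
  · have ha1 : (m1 A i : ℝ) * ((b / m1 A i : ℕ) : ℝ) = b := by
      exact_mod_cast Nat.mul_div_cancel' hd1
    have ha2 : (m2 A i e : ℝ) * ((b / m2 A i e : ℕ) : ℝ) = b := by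
      exact_mod_cast Nat.mul_div_cancel' hd2
    have h3 : (2 * (((2 ^ i) ^ 2 * m1 A i * m2 A i e : ℕ) : ℝ) * ((b / m1 A i : ℕ) : ℝ) *
        ((b / m2 A i e : ℕ) : ℝ)) = 2 * ((2 : ℝ) ^ i * b) ^ 2 := by
      push_cast
      calc _ = 2 * ((2 : ℝ) ^ i) ^ 2 * ((m1 A i : ℝ) * ((b / m1 A i : ℕ) : ℝ)) *
            ((m2 A i e : ℝ) * ((b / m2 A i e : ℕ) : ℝ)) := by push_cast; ring
        _ = _ := by rw [ha1, ha2]; ring
    rw [h3, hcf, Fintype.card_fin, Fintype.card_fin]
    have h4 : 60 * ((2 : ℝ) ^ i * b) ≤ (N : ℝ) - 2 * ((A * i + 4 : ℕ) : ℝ) := by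
      have : 60 * (2 ^ i * b) + 2 * (A * i + 4) ≤ N := by omega
      have h5 : ((60 * (2 ^ i * b) + 2 * (A * i + 4) : ℕ) : ℝ) ≤ N := by exact_mod_cast this
      push_cast at h5 ⊢
      linarith
    have h5 : (0 : ℝ) < (2 : ℝ) ^ i * b := by positivity
    have h6 : 480 * (2 * ((2 : ℝ) ^ i * b) ^ 2) ≤ ((N : ℝ) - 2 * ((A * i + 4 : ℕ) : ℝ)) ^ 2 := by
      calc 480 * (2 * ((2 : ℝ) ^ i * b) ^ 2) ≤ (60 * ((2 : ℝ) ^ i * b)) ^ 2 := by nlinarith
        _ ≤ _ := by gcongr
    rw [pow_mul ((N : ℝ) - 2 * ((A * i + 4 : ℕ) : ℝ)) 2 (A * i + 4)]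
    calc (3 * ((A * i + 4 : ℕ) : ℝ) * ((2 ^ ((A - 1) * i) : ℕ) : ℝ) * ((2 ^ e : ℕ) : ℝ)) *
          (2 * ((2 : ℝ) ^ i * b) ^ 2) ^ (A * i + 4)
        < 480 ^ (A * i + 4) * (2 * ((2 : ℝ) ^ i * b) ^ 2) ^ (A * i + 4) := by
          gcongr
          have g1 : A * i + 4 ≤ 2 ^ (A * i + 4) := Nat.lt_two_pow_self.le
          have g2 : 2 ^ ((A - 1) * i) ≤ 2 ^ (A * i + 4) :=
            Nat.pow_le_pow_right (by norm_num)
              ((Nat.mul_le_mul_right _ (Nat.sub_le _ _)).trans (Nat.le_add_right _ _))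
          have g3 : 2 ^ e ≤ 2 ^ (A * i + 4) :=
            Nat.pow_le_pow_right (by norm_num)
              (he.trans ((Nat.mul_le_mul_right _ (Nat.sub_le _ _)).trans (Nat.le_add_right _ _)))
          have g4 : 3 * (A * i + 4) * 2 ^ ((A - 1) * i) * 2 ^ e < 480 ^ (A * i + 4) := by
            calc 3 * (A * i + 4) * 2 ^ ((A - 1) * i) * 2 ^ e
                ≤ 3 * 2 ^ (A * i + 4) * 2 ^ (A * i + 4) * 2 ^ (A * i + 4) := by gcongr
              _ = 3 * 8 ^ (A * i + 4) := by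
                  rw [show (8 : ℕ) = 2 * 2 * 2 by norm_num, mul_pow, mul_pow]; ring
              _ < 60 ^ (A * i + 4) * 8 ^ (A * i + 4) := by
                  gcongr
                  calc 3 < 60 ^ 1 := by norm_num
                    _ ≤ 60 ^ (A * i + 4) := Nat.pow_le_pow_right (by norm_num) (by omega)
              _ = 480 ^ (A * i + 4) := by rw [← mul_pow]; norm_num
          exact_mod_cast g4
      _ = (480 * (2 * ((2 : ℝ) ^ i * b) ^ 2)) ^ (A * i + 4) := (mul_pow _ _ _).symm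
      _ ≤ _ := by gcongr

end Pool.Agent.Helper116.AG
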