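import Pool.Agent.Helper116.AG.Defs2

set_option autoImplicit false
open Finset
open scoped Classical

noncomputable section

namespace Pool.Agent.Helper116.AG



theorem elw_run_eq {V : Type} (t : DT V) (O O' : Orc V)
    (h : ∀ z ∈ t.qs O, O z.1 z.2 = O' z.1 z.2) : t.run O = t.run O' := by
  induction t with
  | leaf b => rfl
  | ask u v k ih =>
    have h0 : O u v = O' u v := h (u, v) (Finset.mem_insert_self _ _)
    change (k (O u v)).run O = (k (O' u v)).run O'
    rw [← h0]
    exact ih _ fun z hz => h z (Finset.mem_insert_of_mem hz)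

theorem elw_qs_card {V : Type} (t : DT V) (O : Orc V) : (t.qs O).card ≤ t.depth := by
  induction t with
  | leaf b => exact le_of_eq rfl
  | ask u v k ih =>
    change (insert (u, v) ((k (O u v)).qs O)).card ≤ 1 + max (k false).depth (k true).depth
    refine (Finset.card_insert_le _ _).trans ?_
    have h1 := ih (O u v)
    have h2 : (k (O u v)).depth ≤ max (k false).depth (k true).depth := by
      cases O u v
      · exact le_max_left _ _
      · exact le_max_right _ _
    omega

theorem elw_orc_false {V : Type} {G : SimpleGraph V} {u v : V} (h : ¬ G.Adj u v) :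
    orc G u v = false := by
  unfold orc
  exact decide_eq_false h

/-- the graph of a set of pairs -/
def elwG {N : ℕ} (E : Finset (Fin N × Fin N)) : SimpleGraph (Fin N) where
  Adj u v := u ≠ v ∧ ((u, v) ∈ E ∨ (v, u) ∈ E)
  symm := ⟨fun _ _ h => ⟨h.1.symm, h.2.symm⟩⟩
  loopless := ⟨fun _ h => h.1 rfl⟩

/-- increasing pairs -/
def elwP (N : ℕ) : Finset (Fin N × Fin N) := univ.filter fun p => p.1 < p.2

theorem elw_card (N : ℕ) : 2 * (elwP N).card + N = N * N := by
  have h1 : (univ : Finset (Fin N × Fin N)).card = N * N := by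
    rw [Finset.card_univ, Fintype.card_prod, Fintype.card_fin]
  have h2 : (univ.filter fun p : Fin N × Fin N => p.2 < p.1).card = (elwP N).card := by
    refine Finset.card_bij (fun p _ => (p.2, p.1)) ?_ ?_ ?_
    · intro p hp
      rw [Finset.mem_filter] at hp
      exact Finset.mem_filter.2 ⟨Finset.mem_univ _, hp.2⟩
    · intro p _ q _ h
      rw [Prod.mk.injEq] at h
      exact Prod.ext h.2 h.1
    · intro p hp
      have hp' := Finset.mem_filter.1 hp
      exact ⟨(p.2, p.1), Finset.mem_filter.2 ⟨Finset.mem_univ _, hp'.2⟩, rfl⟩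
  have h3 : (univ.filter fun p : Fin N × Fin N => p.1 = p.2).card = N := by
    have : (univ.filter fun p : Fin N × Fin N => p.1 = p.2).card = (univ : Finset (Fin N)).card := by
      refine Finset.card_bij (fun p _ => p.1) ?_ ?_ ?_
      · intro p _
        exact Finset.mem_univ _
      · intro p hp q hq h
        have hp' := (Finset.mem_filter.1 hp).2
        have hq' := (Finset.mem_filter.1 hq).2
        exact Prod.ext h (by rw [← hp', ← hq']; exact h)
      · intro a _
        exact ⟨(a, a), Finset.mem_filter.2 ⟨Finset.mem_univ _, rfl⟩, rfl⟩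
    rw [this, Finset.card_univ, Fintype.card_fin]
  have h4 : (univ : Finset (Fin N × Fin N)) = elwP N ∪
      ((univ.filter fun p : Fin N × Fin N => p.2 < p.1) ∪
        (univ.filter fun p : Fin N × Fin N => p.1 = p.2)) := by
    ext p
    simp only [elwP, Finset.mem_univ, Finset.mem_union, Finset.mem_filter, true_and, true_iff]
    rcases lt_trichotomy p.1 p.2 with h | h | h
    · exact Or.inl h
    · exact Or.inr (Or.inr h)
    · exact Or.inr (Or.inl h)
  have d1 : Disjoint (univ.filter fun p : Fin N × Fin N => p.2 < p.1)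
      (univ.filter fun p : Fin N × Fin N => p.1 = p.2) := by
    rw [Finset.disjoint_left]
    intro p h h'
    exact absurd (Finset.mem_filter.1 h').2 (Finset.mem_filter.1 h).2.ne'
  have d2 : Disjoint (elwP N) ((univ.filter fun p : Fin N × Fin N => p.2 < p.1) ∪
        (univ.filter fun p : Fin N × Fin N => p.1 = p.2)) := by
    rw [Finset.disjoint_left]
    intro p h h'
    have hlt : p.1 < p.2 := (Finset.mem_filter.1 h).2
    rcases Finset.mem_union.1 h' with h' | h'
    · exact absurd (Finset.mem_filter.1 h').2 hlt.not_gt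
    · exact absurd (Finset.mem_filter.1 h').2 hlt.ne
  have h5 := congrArg Finset.card h4
  rw [Finset.card_union_of_disjoint d2, Finset.card_union_of_disjoint d1, h1, h2, h3] at h5
  omega

theorem elw_diff_eq {N : ℕ} (G H : SimpleGraph (Fin N)) (E : Finset (Fin N × Fin N))
    (hE : ∀ p : Fin N × Fin N, p ∈ E ↔ (p.1 < p.2 ∧ ¬ (G.Adj p.1 p.2 ↔ H.Adj p.1 p.2))) :
    diff G H = E.card := by
  unfold diff
  congr 1
  ext p
  rw [Finset.mem_filter, hE]
  exact ⟨fun h => h.2, fun h => ⟨Finset.mem_univ _, h⟩⟩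

theorem elw_diff {N : ℕ} (E : Finset (Fin N × Fin N)) (hE : E ⊆ elwP N) :
    diff (elwG E) ⊥ = E.card := by
  apply elw_diff_eq
  intro p
  constructor
  · intro hp
    have hlt : p.1 < p.2 := (Finset.mem_filter.1 (hE hp)).2
    refine ⟨hlt, fun h => ?_⟩
    have := h.1 ⟨hlt.ne, Or.inl hp⟩
    simp at this
  · rintro ⟨hlt, h⟩
    have hadj : (elwG E).Adj p.1 p.2 := by
      by_contra hcon
      exact h ⟨fun h' => absurd h' hcon, fun h' => absurd h' (by simp)⟩
    rcases hadj.2 with h' | h'
    · exact h'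
    · exact absurd (Finset.mem_filter.1 (hE h')).2 (lt_asymm hlt)

/-- `z` or its reversal lies in `E` -/
def elwHit {N : ℕ} (z : Fin N × Fin N) (E : Finset (Fin N × Fin N)) : Prop :=
  z.1 ≠ z.2 ∧ ((z.1, z.2) ∈ E ∨ (z.2, z.1) ∈ E)

theorem elw_contain {α : Type} [DecidableEq α] (P : Finset α) (e : ℕ) (he : 1 ≤ e) (a : α)
    (ha : a ∈ P) : ((P.powersetCard e).filter fun E => a ∈ E).card * P.card =
      e * (P.powersetCard e).card := by
  have h1 : ((P.powersetCard e).filter fun E => a ∈ E).card =
      ((P.erase a).powersetCard (e - 1)).card := by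
    refine Finset.card_bij' (fun E _ => E.erase a) (fun E _ => insert a E) ?_ ?_ ?_ ?_
    · intro E hE
      rw [Finset.mem_filter, Finset.mem_powersetCard] at hE
      rw [Finset.mem_powersetCard]
      refine ⟨Finset.erase_subset_erase _ hE.1.1, ?_⟩
      rw [Finset.card_erase_of_mem hE.2, hE.1.2]
    · intro E hE
      rw [Finset.mem_powersetCard] at hE
      rw [Finset.mem_filter, Finset.mem_powersetCard]
      have hna : a ∉ E := fun h => absurd (hE.1 h) (Finset.notMem_erase a P)
      refine ⟨⟨?_, ?_⟩, Finset.mem_insert_self _ _⟩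
      · exact Finset.insert_subset ha (hE.1.trans (Finset.erase_subset _ _))
      · rw [Finset.card_insert_of_notMem hna, hE.2]
        omega
    · intro E hE
      rw [Finset.mem_filter] at hE
      exact Finset.insert_erase hE.2
    · intro E hE
      rw [Finset.mem_powersetCard] at hE
      have hna : a ∉ E := fun h => absurd (hE.1 h) (Finset.notMem_erase a P)
      exact Finset.erase_insert hna
  rw [h1, Finset.card_powersetCard, Finset.card_powersetCard, Finset.card_erase_of_mem ha]
  have hP : 1 ≤ P.card := Finset.card_pos.2 ⟨a, ha⟩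
  obtain ⟨m, hm⟩ : ∃ m, P.card = m + 1 := ⟨P.card - 1, by omega⟩
  obtain ⟨f, hf⟩ : ∃ f, e = f + 1 := ⟨e - 1, by omega⟩
  rw [hm, hf, Nat.add_sub_cancel, Nat.add_sub_cancel]
  have := Nat.add_one_mul_choose_eq m f
  rw [mul_comm, this, mul_comm]

theorem elw_hit_count {N : ℕ} (e : ℕ) (he : 1 ≤ e) (z : Fin N × Fin N) :
    (((elwP N).powersetCard e).filter fun E => elwHit z E).card * (elwP N).card ≤
      e * ((elwP N).powersetCard e).card := by
  rcases lt_trichotomy z.1 z.2 with h | h | h
  · have hz : (z.1, z.2) ∈ elwP N := Finset.mem_filter.2 ⟨Finset.mem_univ _, h⟩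
    rw [← elw_contain (elwP N) e he _ hz]
    refine Nat.mul_le_mul_right _ (Finset.card_le_card ?_)
    intro E hE
    rw [Finset.mem_filter] at hE ⊢
    refine ⟨hE.1, ?_⟩
    rcases hE.2.2 with h' | h'
    · exact h'
    · have := (Finset.mem_filter.1 ((Finset.mem_powersetCard.1 hE.1).1 h')).2
      exact absurd this (lt_asymm h)
  · have : (((elwP N).powersetCard e).filter fun E => elwHit z E) = ∅ := by
      rw [Finset.filter_eq_empty_iff]
      intro E _ hE
      exact hE.1 h
    rw [this, Finset.card_empty, zero_mul]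
    exact Nat.zero_le _
  · have hz : (z.2, z.1) ∈ elwP N := Finset.mem_filter.2 ⟨Finset.mem_univ _, h⟩
    rw [← elw_contain (elwP N) e he _ hz]
    refine Nat.mul_le_mul_right _ (Finset.card_le_card ?_)
    intro E hE
    rw [Finset.mem_filter] at hE ⊢
    refine ⟨hE.1, ?_⟩
    rcases hE.2.2 with h' | h'
    · have := (Finset.mem_filter.1 ((Finset.mem_powersetCard.1 hE.1).1 h')).2
      exact absurd this (lt_asymm h)
    · exact h'

theorem edgeless_lower {N : ℕ} (hN : 2 ≤ N) (ε : ℝ) (hε : 0 < ε) (hε2 : ε ≤ 1 / 4)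
    (hNε : 8 ≤ ε * (N : ℝ) ^ 2) (q : ℕ) (h : ATest ({⊥} : Set (SimpleGraph (Fin N))) ε q) :
    1 / (16 * ε) ≤ q := by
  obtain ⟨Ω, hΩ, p, T, hp0, hp1, hdep, hS, hfar⟩ := h
  have hN0 : (0 : ℝ) ≤ N := Nat.cast_nonneg N
  have hN6 : 6 ≤ N := by
    by_contra hcon
    have hN5 : (N : ℝ) ≤ 5 := by exact_mod_cast (by omega : N ≤ 5)
    nlinarith [mul_le_mul hε2 (mul_self_le_mul_self hN0 hN5) (by positivity) (by norm_num)]
  have hN6' : (6 : ℝ) ≤ N := by exact_mod_cast hN6
  set M := (elwP N).card with hM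
  have hMr : 2 * (M : ℝ) + N = N * N := by exact_mod_cast elw_card N
  have hMlow : 5 / 12 * (N : ℝ) ^ 2 ≤ M := by nlinarith
  set e := ⌊ε * (N : ℝ) ^ 2⌋₊ + 1 with he
  have hpos : 0 ≤ ε * (N : ℝ) ^ 2 := by positivity
  have he1 : ε * (N : ℝ) ^ 2 < e := by
    rw [he]
    push_cast
    exact Nat.lt_floor_add_one _
  have he2 : (e : ℝ) ≤ 9 / 8 * (ε * (N : ℝ) ^ 2) := by
    rw [he]
    push_cast
    have := Nat.floor_le hpos
    linarith
  have heM : e ≤ M := by
    have : (e : ℝ) ≤ M := by nlinarith
    exact_mod_cast this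
  have he0 : 1 ≤ e := by omega
  set 𝓔 := (elwP N).powersetCard e with h𝓔
  have h𝓔pos : 0 < 𝓔.card := by
    rw [h𝓔, Finset.card_powersetCard]
    exact Nat.choose_pos heM
  have hMpos : 0 < M := by omega
  -- far
  have hF : ∀ E ∈ 𝓔, 2 / 3 ≤ ∑ ω, if (T ω).run (orc (elwG E)) = false then p ω else 0 := by
    intro E hE
    rw [h𝓔, Finset.mem_powersetCard] at hE
    apply hfar
    intro H hH
    rw [Set.mem_singleton_iff.1 hH, elw_diff E hE.1, hE.2]
    exact he1
  have hB : 2 / 3 ≤ ∑ ω, if (T ω).run (orc (⊥ : SimpleGraph (Fin N))) = true then p ω else 0 :=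
    hS ⊥ rfl
  have hB' : ∑ ω, (if (T ω).run (orc (⊥ : SimpleGraph (Fin N))) = false then p ω else 0) ≤ 1 / 3 := by
    have : ∑ ω, (if (T ω).run (orc (⊥ : SimpleGraph (Fin N))) = true then p ω else 0) +
        ∑ ω, (if (T ω).run (orc (⊥ : SimpleGraph (Fin N))) = false then p ω else 0) = 1 := by
      rw [← Finset.sum_add_distrib, ← hp1]
      refine Finset.sum_congr rfl fun ω _ => ?_
      cases (T ω).run (orc (⊥ : SimpleGraph (Fin N))) <;> simp
    linarith
  -- per ω
  have hω : ∀ ω, ((𝓔.filter fun E => (T ω).run (orc (elwG E)) = false).card : ℝ) ≤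
      𝓔.card * ((if (T ω).run (orc (⊥ : SimpleGraph (Fin N))) = false then 1 else 0) +
        q * (e / M)) := by
    intro ω
    by_cases hb : (T ω).run (orc (⊥ : SimpleGraph (Fin N))) = false
    · rw [if_pos hb]
      have h1 : ((𝓔.filter fun E => (T ω).run (orc (elwG E)) = false).card : ℝ) ≤ 𝓔.card := by
        exact_mod_cast Finset.card_filter_le _ _
      have h2 : (0 : ℝ) ≤ 𝓔.card * (q * (e / M)) := by positivity
      linarith
    · rw [if_neg hb, zero_add]
      set Z := (T ω).qs (orc (⊥ : SimpleGraph (Fin N))) with hZ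
      have hsub : (𝓔.filter fun E => (T ω).run (orc (elwG E)) = false) ⊆
          Z.biUnion fun z => 𝓔.filter fun E => elwHit z E := by
        intro E hE
        rw [Finset.mem_filter] at hE
        by_contra hcon
        apply hb
        rw [← hE.2]
        apply elw_run_eq
        intro z hz
        have hnot : ¬ elwHit z E := by
          intro hh
          apply hcon
          rw [Finset.mem_biUnion]
          exact ⟨z, hz, Finset.mem_filter.2 ⟨hE.1, hh⟩⟩
        have hadj : ¬ (elwG E).Adj z.1 z.2 := hnot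
        rw [elw_orc_false hadj, elw_orc_false (G := (⊥ : SimpleGraph (Fin N))) (by simp)]
      have h1 : ((𝓔.filter fun E => (T ω).run (orc (elwG E)) = false).card : ℝ) ≤
          ∑ z ∈ Z, ((𝓔.filter fun E => elwHit z E).card : ℝ) := by
        exact_mod_cast (Finset.card_le_card hsub).trans Finset.card_biUnion_le
      have h2 : ∀ z ∈ Z, ((𝓔.filter fun E => elwHit z E).card : ℝ) ≤ 𝓔.card * (e / M) := by
        intro z _
        have := elw_hit_count (N := N) e he0 z
        rw [← h𝓔, ← hM] at this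
        have h' : ((𝓔.filter fun E => elwHit z E).card : ℝ) * M ≤ e * 𝓔.card := by
          exact_mod_cast this
        have hMp : (0 : ℝ) < M := by exact_mod_cast hMpos
        rw [← mul_div_assoc, le_div_iff₀ hMp]
        linarith
      have h3 := Finset.sum_le_card_nsmul Z _ _ h2
      rw [nsmul_eq_mul] at h3
      have h4 : (Z.card : ℝ) ≤ q := by
        exact_mod_cast (elw_qs_card _ _).trans (hdep ω)
      have h5 : (Z.card : ℝ) * (𝓔.card * (e / M)) ≤ q * (𝓔.card * (e / M)) :=
        mul_le_mul_of_nonneg_right h4 (by positivity)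
      linarith
  -- sum
  have hsum : (2 / 3 : ℝ) * 𝓔.card ≤ 𝓔.card * (1 / 3 + q * (e / M)) := by
    calc (2 / 3 : ℝ) * 𝓔.card = ∑ E ∈ 𝓔, (2 / 3 : ℝ) := by
          rw [Finset.sum_const, nsmul_eq_mul, mul_comm]
      _ ≤ ∑ E ∈ 𝓔, ∑ ω, (if (T ω).run (orc (elwG E)) = false then p ω else 0) :=
          Finset.sum_le_sum hF
      _ = ∑ ω, p ω * ((𝓔.filter fun E => (T ω).run (orc (elwG E)) = false).card : ℝ) := by
          rw [Finset.sum_comm]
          refine Finset.sum_congr rfl fun ω _ => ?_
          rw [← Finset.sum_filter, Finset.sum_const, nsmul_eq_mul, mul_comm]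
      _ ≤ ∑ ω, p ω * (𝓔.card * ((if (T ω).run (orc (⊥ : SimpleGraph (Fin N))) = false then 1
            else 0) + q * (e / M))) :=
          Finset.sum_le_sum fun ω _ => mul_le_mul_of_nonneg_left (hω ω) (hp0 ω)
      _ = 𝓔.card * (∑ ω, (if (T ω).run (orc (⊥ : SimpleGraph (Fin N))) = false then p ω else 0) +
            (∑ ω, p ω) * (q * (e / M))) := by
          rw [Finset.sum_mul, ← Finset.sum_add_distrib, Finset.mul_sum]
          refine Finset.sum_congr rfl fun ω _ => ?_
          split_ifs <;> ring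
      _ ≤ 𝓔.card * (1 / 3 + q * (e / M)) := by
          rw [hp1, one_mul]
          have : (0 : ℝ) ≤ 𝓔.card := Nat.cast_nonneg _
          exact mul_le_mul_of_nonneg_left (by linarith) this
  have h𝓔r : (0 : ℝ) < 𝓔.card := by exact_mod_cast h𝓔pos
  have hMp : (0 : ℝ) < M := by exact_mod_cast hMpos
  have hfin : (1 / 3 : ℝ) ≤ q * (e / M) := by
    have := le_of_mul_le_mul_left (by linarith : (𝓔.card : ℝ) * (2 / 3) ≤
      𝓔.card * (1 / 3 + q * (e / M))) h𝓔r
    linarith
  rw [← mul_div_assoc, le_div_iff₀ hMp] at hfin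
  have hq0 : (0 : ℝ) ≤ q := Nat.cast_nonneg q
  have h6 : (q : ℝ) * e ≤ q * (9 / 8 * (ε * (N : ℝ) ^ 2)) := mul_le_mul_of_nonneg_left he2 hq0
  have hN2 : (0 : ℝ) < (N : ℝ) ^ 2 := by positivity
  have h7 : 5 / 36 * (N : ℝ) ^ 2 ≤ (9 / 8 * q * ε) * (N : ℝ) ^ 2 := by nlinarith
  have h8 := le_of_mul_le_mul_right h7 hN2
  rw [div_le_iff₀ (by positivity)]
  nlinarith

/-- ask all pairs of a list, then decide -/
def elwAsk {V : Type} : List (V × V) → (Orc V → Bool) → Orc V → DT V
  | [], D, O0 => DT.leaf (D O0)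
  | e :: L, D, O0 => DT.ask e.1 e.2 fun b =>
      elwAsk L D (fun u v => if (u, v) = e then b else O0 u v)

theorem elwAsk_depth {V : Type} (L : List (V × V)) (D : Orc V → Bool) (O0 : Orc V) :
    (elwAsk L D O0).depth = L.length := by
  induction L generalizing O0 with
  | nil => rfl
  | cons e L ih =>
    change 1 + max (elwAsk L D _).depth (elwAsk L D _).depth = _
    rw [ih, ih, max_self, List.length_cons]
    omega

theorem elwAsk_run {V : Type} (L : List (V × V)) (D : Orc V → Bool) (O0 O : Orc V) :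
    (elwAsk L D O0).run O = D (fun u v => if (u, v) ∈ L then O u v else O0 u v) := by
  induction L generalizing O0 with
  | nil =>
    change D O0 = _
    congr 1
  | cons e L ih =>
    change (elwAsk L D (fun u v => if (u, v) = e then O e.1 e.2 else O0 u v)).run O = _
    rw [ih]
    congr 1
    funext u v
    by_cases h1 : (u, v) ∈ L
    · rw [if_pos h1, if_pos (List.mem_cons_of_mem _ h1)]
    · rw [if_neg h1]
      by_cases h2 : (u, v) = e
      · rw [if_pos h2, if_pos (by rw [h2]; exact List.mem_cons_self), ← h2]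
      · rw [if_neg h2, if_neg]
        intro h3
        rcases List.mem_cons.1 h3 with h3 | h3
        · exact h2 h3
        · exact h1 h3

/-- a non-adaptive tester is an adaptive tester -/
theorem NTest.toATest {N : ℕ} {S : Set (SimpleGraph (Fin N))} {ε : ℝ} {q : ℕ} (h : NTest S ε q) :
    ATest S ε q := by
  obtain ⟨Ω, hΩ, p, Q, D, hp0, hp1, hQ, hD, hS, hfar⟩ := h
  have hrun : ∀ ω O, (elwAsk (Q ω).toList (D ω) (fun _ _ => false)).run O = D ω O := by
    intro ω O
    rw [elwAsk_run]
    apply hD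
    intro e he
    exact if_pos (Finset.mem_toList.2 he)
  refine ⟨Ω, hΩ, p, fun ω => elwAsk (Q ω).toList (D ω) (fun _ _ => false), hp0, hp1, ?_, ?_, ?_⟩
  · intro ω
    rw [elwAsk_depth, Finset.length_toList]
    exact hQ ω
  · intro G hG
    simp only [hrun]
    exact hS G hG
  · intro G hG
    simp only [hrun]
    exact hfar G hG

end Pool.Agent.Helper116.AG
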