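import Pool.Agent.Helper116.AG.Fd
import Pool.Agent.Helper116.AG.J22

set_option autoImplicit false
open Finset
open scoped Classical

noncomputable section

namespace Pool.Agent.Helper116.AG

/-! ## calculus of `SoftTheta` -/

theorem log_one {ε : ℝ} (h0 : 0 < ε) (h1 : ε < 1 / 4) : 1 ≤ Real.log (1 / ε) :=
  (X_facts ε h0 h1.le).2.2.1

theorem SoftTheta.symm {f g : ℕ → ℝ → ℝ} (h : SoftTheta f g) : SoftTheta g f := by
  obtain ⟨C, hC, k, ε₀, h0, h1, h2⟩ := h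
  exact ⟨C, hC, k, ε₀, h0, h1, fun N₀ ε ha hb => ⟨(h2 N₀ ε ha hb).2, (h2 N₀ ε ha hb).1⟩⟩

theorem SoftTheta.trans {f g h : ℕ → ℝ → ℝ} (h1 : SoftTheta f g) (h2 : SoftTheta g h) :
    SoftTheta f h := by
  obtain ⟨C, hC, k, ε₀, h0, hl, h1⟩ := h1
  obtain ⟨C', hC', k', ε₀', h0', hl', h2⟩ := h2
  refine ⟨C * C', by positivity, k + k', min ε₀ ε₀', lt_min h0 h0', (min_le_left _ _).trans_lt hl,
    fun N₀ ε ha hb => ?_⟩
  obtain ⟨a1, a2⟩ := h1 N₀ ε ha (hb.trans_le (min_le_left _ _))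
  obtain ⟨b1, b2⟩ := h2 N₀ ε ha (hb.trans_le (min_le_right _ _))
  have hL : 0 ≤ Real.log (1 / ε) := by
    apply Real.log_nonneg
    rw [le_div_iff₀ ha]
    have := hb.trans_le (min_le_left _ _)
    linarith
  constructor
  · calc f N₀ ε ≤ C * Real.log (1 / ε) ^ k * g N₀ ε := a1
      _ ≤ C * Real.log (1 / ε) ^ k * (C' * Real.log (1 / ε) ^ k' * h N₀ ε) := by gcongr
      _ = _ := by rw [pow_add]; ring
  · calc h N₀ ε ≤ C' * Real.log (1 / ε) ^ k' * g N₀ ε := b2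
      _ ≤ C' * Real.log (1 / ε) ^ k' * (C * Real.log (1 / ε) ^ k * f N₀ ε) := by gcongr
      _ = _ := by rw [pow_add]; ring

theorem SoftTheta.rpow {f g : ℕ → ℝ → ℝ} (h1 : SoftTheta f g) (hf : ∀ N₀ ε, 0 < ε → 0 ≤ f N₀ ε)
    (hg : ∀ N₀ ε, 0 < ε → 0 ≤ g N₀ ε) (c : ℝ) (hc0 : 0 ≤ c) (hc2 : c ≤ 2) :
    SoftTheta (fun N₀ ε => f N₀ ε ^ c) (fun N₀ ε => g N₀ ε ^ c) := by
  obtain ⟨C, hC, k, ε₀, h0, hl, h1⟩ := h1
  refine ⟨(C + 1) ^ 2, by positivity, 2 * k, min ε₀ (1 / 4), lt_min h0 (by norm_num),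
    (min_le_left _ _).trans_lt hl, fun N₀ ε ha hb => ?_⟩
  obtain ⟨a1, a2⟩ := h1 N₀ ε ha (hb.trans_le (min_le_left _ _))
  have hL : 1 ≤ Real.log (1 / ε) := log_one ha (hb.trans_le (min_le_right _ _))
  have hLk : 1 ≤ Real.log (1 / ε) ^ k := one_le_pow₀ hL
  have hD1 : 1 ≤ (C + 1) * Real.log (1 / ε) ^ k := by nlinarith
  have hD : ((C + 1) * Real.log (1 / ε) ^ k) ^ c ≤ (C + 1) ^ 2 * Real.log (1 / ε) ^ (2 * k) := by
    calc ((C + 1) * Real.log (1 / ε) ^ k) ^ c ≤ ((C + 1) * Real.log (1 / ε) ^ k) ^ (2 : ℝ) :=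
          Real.rpow_le_rpow_of_exponent_le hD1 hc2
      _ = ((C + 1) * Real.log (1 / ε) ^ k) ^ 2 := by norm_cast
      _ = _ := by rw [mul_pow, ← pow_mul, mul_comm k]
  have key : ∀ x y : ℝ, 0 ≤ x → 0 ≤ y → x ≤ C * Real.log (1 / ε) ^ k * y →
      x ^ c ≤ (C + 1) ^ 2 * Real.log (1 / ε) ^ (2 * k) * y ^ c := by
    intro x y hx hy hxy
    calc x ^ c ≤ ((C + 1) * Real.log (1 / ε) ^ k * y) ^ c := by
          apply Real.rpow_le_rpow hx _ hc0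
          refine hxy.trans ?_
          gcongr
          linarith
      _ = ((C + 1) * Real.log (1 / ε) ^ k) ^ c * y ^ c := by
          rw [Real.mul_rpow (by positivity) hy]
      _ ≤ _ := by gcongr
  exact ⟨key _ _ (hf N₀ ε ha) (hg N₀ ε ha) a1, key _ _ (hg N₀ ε ha) (hf N₀ ε ha) a2⟩

/-! ## query complexities -/

section
variable (P : ∀ N : ℕ, Set (SimpleGraph (Fin N)))

theorem qA_le (N₀ : ℕ) (ε B : ℝ) (h : ∀ N, ∃ q : ℕ, ATest (P N) ε q ∧ (q : ℝ) ≤ B) :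
    (qA P N₀ ε : ℝ) ≤ B := by
  have hB : 0 ≤ B := by
    obtain ⟨q, -, hq⟩ := h 0
    exact le_trans (by positivity) hq
  have : qA P N₀ ε ≤ ⌊B⌋₊ := by
    apply Nat.sInf_le
    intro N _
    obtain ⟨q, h1, h2⟩ := h N
    exact h1.mono (Nat.le_floor h2)
  calc (qA P N₀ ε : ℝ) ≤ (⌊B⌋₊ : ℝ) := by exact_mod_cast this
    _ ≤ B := Nat.floor_le hB

theorem qN_le (N₀ : ℕ) (ε B : ℝ) (h : ∀ N, ∃ q : ℕ, NTest (P N) ε q ∧ (q : ℝ) ≤ B) :
    (qN P N₀ ε : ℝ) ≤ B := by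
  have hB : 0 ≤ B := by
    obtain ⟨q, -, hq⟩ := h 0
    exact le_trans (by positivity) hq
  have : qN P N₀ ε ≤ ⌊B⌋₊ := by
    apply Nat.sInf_le
    intro N _
    obtain ⟨q, h1, h2⟩ := h N
    exact h1.mono (Nat.le_floor h2)
  calc (qN P N₀ ε : ℝ) ≤ (⌊B⌋₊ : ℝ) := by exact_mod_cast this
    _ ≤ B := Nat.floor_le hB

theorem lt_qA (N₀ : ℕ) (ε : ℝ) (hne : ∃ q : ℕ, ∀ N, NTest (P N) ε q) (N : ℕ) (hN : N₀ ≤ N)
    (q : ℕ) (h : ¬ ATest (P N) ε q) : q < qA P N₀ ε := by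
  by_contra hcon
  push Not at hcon
  apply h
  have hmem : qA P N₀ ε ∈ {q : ℕ | ∀ N, N₀ ≤ N → ATest (P N) ε q} := by
    apply Nat.sInf_mem
    obtain ⟨q', hq'⟩ := hne
    exact ⟨q', fun N _ => (hq' N).toATest⟩
  exact (hmem N hN).mono hcon

theorem lt_qN (N₀ : ℕ) (ε : ℝ) (hne : ∃ q : ℕ, ∀ N, NTest (P N) ε q) (N : ℕ) (hN : N₀ ≤ N)
    (q : ℕ) (h : ¬ NTest (P N) ε q) : q < qN P N₀ ε := by
  by_contra hcon
  push Not at hcon
  apply h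
  have hmem : qN P N₀ ε ∈ {q : ℕ | ∀ N, N₀ ≤ N → NTest (P N) ε q} := by
    apply Nat.sInf_mem
    obtain ⟨q', hq'⟩ := hne
    exact ⟨q', fun N _ => hq' N⟩
  exact (hmem N hN).mono hcon

end

/-! ## `c = 1` -/

/-- the edgeless property -/
def P1 (N : ℕ) : Set (SimpleGraph (Fin N)) := {⊥}

theorem P1_iso : IsoClosed P1 := by
  intro N G H ⟨e⟩ hG
  have hG' : G = ⊥ := hG
  subst hG'
  show H = ⊥
  ext u v
  constructor
  · intro h
    exact (e.symm.map_rel_iff (a := u) (b := v)).2 h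
  · intro h
    exact absurd h (by simp)

theorem P1_upper (ε : ℝ) (hε0 : 0 < ε) (hε1 : ε ≤ 1) (N : ℕ) :
    ATest (P1 N) ε ⌈2 / ε⌉₊ ∧ NTest (P1 N) ε ⌈2 / ε⌉₊ ∧ (⌈2 / ε⌉₊ : ℝ) ≤ 3 / ε := by
  have hq1 : 2 / ε ≤ (⌈2 / ε⌉₊ : ℝ) := Nat.le_ceil _
  have hq2 : (⌈2 / ε⌉₊ : ℝ) ≤ 3 / ε := by
    have h3 : (⌈2 / ε⌉₊ : ℝ) < 2 / ε + 1 := Nat.ceil_lt_add_one (by positivity)
    have h4 : 1 ≤ 1 / ε := by rw [le_div_iff₀ hε0]; linarith
    have h5 : 3 / ε = 2 / ε + 1 / ε := by ring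
    linarith
  rcases Nat.eq_zero_or_pos N with h | h
  · subst h
    have h1 : P1 0 = Set.univ := by
      ext G
      simp only [Set.mem_univ, iff_true]
      show G = ⊥
      ext u
      exact u.elim0
    rw [h1]
    exact ⟨(test_univ ε hε0).1.mono (Nat.zero_le _), (test_univ ε hε0).2.mono (Nat.zero_le _), hq2⟩
  · have key := trivial_tester h (P1 N) ⟨⊥, rfl⟩ ε hε0 hε1 (by
      intro H hH
      have hH' : H = ⊥ := hH
      subst hH'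
      have : diff (⊥ : SimpleGraph (Fin N)) ⊥ = 0 := by simp [diff]
      rw [this, Nat.cast_zero]
      positivity) ⌈2 / ε⌉₊ hq1 hq2
    exact ⟨key.1, key.2, hq2⟩

theorem P1_testable (ε : ℝ) (hε0 : 0 < ε) : ∃ q : ℕ, ∀ N, NTest (P1 N) ε q := by
  rcases le_total ε 1 with h | h
  · exact ⟨_, fun N => (P1_upper ε hε0 h N).2.1⟩
  · exact ⟨_, fun N => (P1_upper 1 one_pos le_rfl N).2.1.mono_eps h⟩

theorem P1_lower (ε : ℝ) (hε0 : 0 < ε) (hε1 : ε ≤ 1 / 4) (N₀ : ℕ) :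
    1 / (16 * ε) ≤ (qA P1 N₀ ε : ℝ) ∧ 1 / (16 * ε) ≤ (qN P1 N₀ ε : ℝ) := by
  obtain ⟨n, hn⟩ := exists_nat_ge (8 / ε)
  set N := max N₀ (max 2 n) with hN
  have hN2 : 2 ≤ N := (le_max_left _ _).trans (le_max_right _ _)
  have hNn : n ≤ N := (le_max_right _ _).trans (le_max_right _ _)
  have hN0 : N₀ ≤ N := le_max_left _ _
  have h8 : 8 ≤ ε * (N : ℝ) ^ 2 := by
    have h1 : 8 / ε ≤ N := hn.trans (by exact_mod_cast hNn)
    rw [div_le_iff₀ hε0] at h1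
    have h2 : (1 : ℝ) ≤ N := by exact_mod_cast (by omega : 1 ≤ N)
    nlinarith
  have memA : ATest (P1 N) ε (qA P1 N₀ ε) := by
    have hmem : qA P1 N₀ ε ∈ {q : ℕ | ∀ N, N₀ ≤ N → ATest (P1 N) ε q} := by
      apply Nat.sInf_mem
      obtain ⟨q', hq'⟩ := P1_testable ε hε0
      exact ⟨q', fun N _ => (hq' N).toATest⟩
    exact hmem N hN0
  have memN : NTest (P1 N) ε (qN P1 N₀ ε) := by
    have hmem : qN P1 N₀ ε ∈ {q : ℕ | ∀ N, N₀ ≤ N → NTest (P1 N) ε q} := by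
      apply Nat.sInf_mem
      obtain ⟨q', hq'⟩ := P1_testable ε hε0
      exact ⟨q', fun N _ => hq' N⟩
    exact hmem N hN0
  exact ⟨edgeless_lower hN2 ε hε0 hε1 h8 _ memA, edgeless_lower hN2 ε hε0 hε1 h8 _ memN.toATest⟩

theorem achievable_one : Achievable 1 := by
  refine ⟨P1, P1_iso, P1_testable, ⟨1, le_rfl, ?_⟩, ?_⟩
  · refine ⟨16, by norm_num, 0, 1 / 4, by norm_num, by norm_num, fun N₀ ε h0 h1 => ?_⟩
    have hlow := (P1_lower ε h0 h1.le N₀).1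
    have hup := qA_le P1 N₀ ε (3 / ε) fun N =>
      ⟨_, (P1_upper ε h0 (by linarith) N).1, (P1_upper ε h0 (by linarith) N).2.2⟩
    have e1 : ε ^ (-(1 : ℝ)) = 1 / ε := by rw [Real.rpow_neg_one, one_div]
    simp only [pow_zero, mul_one]
    rw [e1]
    have e2 : 0 < 1 / ε := by positivity
    have e3 : 3 / ε = 3 * (1 / ε) := by ring
    have e4 : 1 / (16 * ε) = (1 / ε) / 16 := by ring
    rw [e3] at hup
    rw [e4] at hlow
    constructor <;> linarith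
  · refine ⟨48, by norm_num, 0, 1 / 4, by norm_num, by norm_num, fun N₀ ε h0 h1 => ?_⟩
    have hlow := P1_lower ε h0 h1.le N₀
    have hup := qA_le P1 N₀ ε (3 / ε) fun N =>
      ⟨_, (P1_upper ε h0 (by linarith) N).1, (P1_upper ε h0 (by linarith) N).2.2⟩
    have hup' := qN_le P1 N₀ ε (3 / ε) fun N =>
      ⟨_, (P1_upper ε h0 (by linarith) N).2.1, (P1_upper ε h0 (by linarith) N).2.2⟩
    simp only [pow_zero, mul_one, Real.rpow_one]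
    have e2 : 0 < 1 / ε := by positivity
    have e3 : 3 / ε = 3 * (1 / ε) := by ring
    have e4 : 1 / (16 * ε) = (1 / ε) / 16 := by ring
    rw [e3] at hup hup'
    rw [e4] at hlow
    constructor <;> linarith

/-! ## the property for `c > 1` -/

/-- the divisor attached to scale `i` -/
def uu (A : ℕ) (e : ℕ → ℕ) (i : ℕ) : ℕ := 2 ^ i * mu (li A i) * (m1 A i * m2 A i (e i))

def UU (A : ℕ) (e : ℕ → ℕ) (i : ℕ) : ℕ := ∏ j ∈ range i, uu A e (j + 1)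

/-- the scale of `N`: the largest `i` such that `UU i` divides `N` -/
def ix (A : ℕ) (e : ℕ → ℕ) (N : ℕ) : ℕ := Nat.findGreatest (fun i => UU A e i ∣ N) N

/-- the property -/
def PP (A : ℕ) (e : ℕ → ℕ) (N : ℕ) : Set (SimpleGraph (Fin N)) :=
  if ix A e N = 0 then Set.univ
  else Si A (ix A e N) (e (ix A e N)) (N / (2 ^ ix A e N * mu (li A (ix A e N)))) N

theorem m1_pos (A i : ℕ) : 4 ≤ m1 A i := by
  unfold m1
  calc 4 = 4 * 1 := by norm_num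
    _ ≤ (A * i + 4) * 2 ^ ((A - 1) * i) := Nat.mul_le_mul (by omega) Nat.one_le_two_pow

theorem m2_pos (A i e : ℕ) : 4 ≤ m2 A i e := by
  unfold m2
  calc 4 = 4 * 1 := by norm_num
    _ ≤ (A * i + 4) * 2 ^ e := Nat.mul_le_mul (by omega) Nat.one_le_two_pow

theorem uu_ge (A : ℕ) (e : ℕ → ℕ) (i : ℕ) : 2 ≤ uu A e i := by
  unfold uu
  have h1 := m1_pos A i
  have h2 := m2_pos A i (e i)
  have h3 : 1 ≤ mu (li A i) := mu_pos _
  have h4 : 1 ≤ 2 ^ i := Nat.one_le_two_pow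
  calc 2 ≤ 1 * 1 * (4 * 4) := by norm_num
    _ ≤ _ := by gcongr

theorem UU_succ (A : ℕ) (e : ℕ → ℕ) (i : ℕ) : UU A e (i + 1) = UU A e i * uu A e (i + 1) := by
  unfold UU; rw [Finset.prod_range_succ]

theorem UU_ge (A : ℕ) (e : ℕ → ℕ) (i : ℕ) : i < UU A e i := by
  induction i with
  | zero => simp [UU]
  | succ i ih =>
    rw [UU_succ]
    have := uu_ge A e (i + 1)
    nlinarith

theorem UU_dvd (A : ℕ) (e : ℕ → ℕ) {i j : ℕ} (h : i ≤ j) : UU A e i ∣ UU A e j := by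
  induction j, h using Nat.le_induction with
  | base => exact dvd_rfl
  | succ n _ ih => rw [UU_succ]; exact ih.mul_right _

theorem ix_spec (A : ℕ) (e : ℕ → ℕ) (N i : ℕ) (hi : ix A e N = i) (hi0 : i ≠ 0) :
    3 ≤ N / (2 ^ i * mu (li A i)) ∧ m1 A i ∣ N / (2 ^ i * mu (li A i)) ∧
    m2 A i (e i) ∣ N / (2 ^ i * mu (li A i)) ∧
    N = 2 ^ i * mu (li A i) * (N / (2 ^ i * mu (li A i))) := by
  have hdvd : UU A e i ∣ N :=
    Nat.findGreatest_of_ne_zero (P := fun i => UU A e i ∣ N) (n := N) hi hi0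
  have hN : 0 < N := by
    have : i ≤ N := hi ▸ Nat.findGreatest_le N
    omega
  obtain ⟨j, rfl⟩ : ∃ j, i = j + 1 := ⟨i - 1, by omega⟩
  rw [UU_succ] at hdvd
  obtain ⟨t, ht⟩ : uu A e (j + 1) ∣ N := (Dvd.intro_left _ rfl).trans hdvd
  have hpos : 0 < 2 ^ (j + 1) * mu (li A (j + 1)) := by
    have := mu_pos (li A (j + 1)); positivity
  have ht0 : 1 ≤ t := by
    rcases Nat.eq_zero_or_pos t with h | h
    · rw [h, mul_zero] at ht; omega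
    · exact h
  have hb : N / (2 ^ (j + 1) * mu (li A (j + 1))) =
      m1 A (j + 1) * m2 A (j + 1) (e (j + 1)) * t := by
    rw [ht, uu, mul_assoc, Nat.mul_div_cancel_left _ hpos]
  rw [hb]
  have h1 := m1_pos A (j + 1)
  have h2 := m2_pos A (j + 1) (e (j + 1))
  refine ⟨?_, ?_, ?_, ?_⟩
  · calc 3 ≤ 4 * 4 * 1 := by norm_num
      _ ≤ _ := by gcongr
  · exact (Dvd.intro _ rfl).mul_right _
  · exact (Dvd.intro_left _ rfl).mul_right _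
  · rw [ht, uu]; ring

theorem ix_eq (A : ℕ) (e : ℕ → ℕ) (i s : ℕ) :
    ix A e (UU A e i * (uu A e (i + 1) * s + 1)) = i := by
  unfold ix
  rw [Nat.findGreatest_eq_iff]
  refine ⟨?_, fun _ => Dvd.intro _ rfl, fun n hn _ hdvd => ?_⟩
  · have h1 := UU_ge A e i
    calc i ≤ UU A e i * 1 := by omega
      _ ≤ _ := Nat.mul_le_mul_left _ (by omega)
  · have h1 : UU A e (i + 1) ∣ UU A e i * (uu A e (i + 1) * s + 1) := (UU_dvd A e hn).trans hdvd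
    rw [UU_succ] at h1
    have h2 : 0 < UU A e i := lt_of_le_of_lt (Nat.zero_le _) (UU_ge A e i)
    have h3 := Nat.dvd_of_mul_dvd_mul_left h2 h1
    have h4 : uu A e (i + 1) ∣ 1 := (Nat.dvd_add_right (Dvd.intro _ rfl)).1 h3
    have h5 := uu_ge A e (i + 1)
    have := Nat.le_of_dvd one_pos h4
    omega

theorem PP_iso (A : ℕ) (e : ℕ → ℕ) : IsoClosed (PP A e) := by
  intro N G H ⟨f⟩ hG
  unfold PP at hG ⊢
  split_ifs with h
  · exact Set.mem_univ _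
  · rw [if_neg h] at hG
    exact Tm_iso _ _ _ _ G H f hG

theorem PP_upper (A : ℕ) (hA : 5 ≤ A) (β : ℝ) (hβ : 0 ≤ β) (e : ℕ → ℕ)
    (he : ∀ i, e i ≤ (A - 1) * i) (hβe : ∀ i, (2 : ℝ) ^ (e i) ≤ ((2 : ℝ) ^ i) ^ β) (ε : ℝ)
    (hε0 : 0 < ε) (hε1 : ε ≤ 1 / 4) (N : ℕ) :
    ∃ qa qn : ℕ, ATest (PP A e N) ε qa ∧ NTest (PP A e N) ε qn ∧
      (qa : ℝ) ≤ 10 ^ 6 * ((6 * A + 5) * Real.log (1 / ε)) ^ 8 * (4 / √ε) ^ A ∧
      (qn : ℝ) ≤ 10 ^ 6 * ((6 * A + 5) * Real.log (1 / ε)) ^ 9 * (4 / √ε) ^ ((A : ℝ) + 1 + β) := by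
  obtain ⟨hX8, hX2, hL1, hXL⟩ := X_facts ε hε0 hε1
  by_cases h : ix A e N = 0
  · have : PP A e N = Set.univ := by unfold PP; rw [if_pos h]
    rw [this]
    refine ⟨0, 0, (test_univ ε hε0).1, (test_univ ε hε0).2, ?_, ?_⟩ <;>
    · rw [Nat.cast_zero]
      positivity
  · obtain ⟨h1, h2, h3, h4⟩ := ix_spec A e N _ rfl h
    have : PP A e N = Si A (ix A e N) (e (ix A e N))
      (N / (2 ^ ix A e N * mu (li A (ix A e N)))) N := by unfold PP; rw [if_neg h]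
    rw [this]
    exact up_scale A (ix A e N) (e (ix A e N)) _ N hA (Nat.one_le_iff_ne_zero.2 h) (he _) β hβ
      (hβe _) h1 h2 h3 h4 ε hε0 hε1

theorem PP_lower (A : ℕ) (hA : 5 ≤ A) (e : ℕ → ℕ)
    (he : ∀ i, e i ≤ (A - 1) * i) (ε : ℝ) (i : ℕ) (hi : 1 ≤ i)
    (hε : ε * (3 * (A * i + 4) * (2 ^ i) ^ 2 * (mu (li A i) : ℝ) ^ 2) < 1) (N₀ : ℕ) :
    ∃ N, N₀ ≤ N ∧ ¬ ATest (PP A e N) ε (2 ^ i * m1 A i) ∧
      ¬ NTest (PP A e N) ε ((2 ^ i) ^ 2 * m1 A i * m2 A i (e i)) := by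
  refine ⟨UU A e i * (uu A e (i + 1) * N₀ + 1), ?_, ?_⟩
  · have h1 := UU_ge A e i
    have h2 := uu_ge A e (i + 1)
    calc N₀ ≤ 1 * (1 * N₀ + 1) := by omega
      _ ≤ _ := by gcongr <;> omega
  · set N := UU A e i * (uu A e (i + 1) * N₀ + 1) with hN
    have hix : ix A e N = i := ix_eq A e i N₀
    obtain ⟨h1, h2, h3, h4⟩ := ix_spec A e N i hix (by omega)
    have : PP A e N = Si A i (e i) (N / (2 ^ i * mu (li A i))) N := by
      unfold PP; rw [hix, if_neg (by omega)]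
    rw [this]
    exact ⟨low_adaptive A i (e i) _ N (by omega) hi (he i) (by omega) h2 h3 h4 ε hε,
      low_nonadaptive A i (e i) _ N (by omega) hi (he i) (by omega) h2 h3 h4 ε hε⟩

end Pool.Agent.Helper116.AG
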