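import Pool.Agent.Helper116.AG.Fe

set_option autoImplicit false
open Finset
open scoped Classical

noncomputable section

namespace Pool.Agent.Helper116.AG

/-- the threshold at scale `i` -/
def ph (A i : ℕ) : ℝ := 3 * (A * i + 4) * (2 ^ i) ^ 2 * (mu (li A i) : ℝ) ^ 2

theorem ph_pos (A i : ℕ) : 0 < ph A i := by
  unfold ph
  have : (0 : ℝ) < mu (li A i) := by exact_mod_cast mu_pos _
  positivity

theorem ph_ge (A i : ℕ) : ((2 : ℝ) ^ i) ^ 2 ≤ ph A i := by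
  unfold ph
  have h1 : (1 : ℝ) ≤ mu (li A i) := by exact_mod_cast mu_pos _
  have h2 : (1 : ℝ) ≤ 3 * ((A : ℝ) * i + 4) := by
    have : (0 : ℝ) ≤ (A : ℝ) * i := by positivity
    linarith
  have h3 : (1 : ℝ) ≤ (mu (li A i) : ℝ) ^ 2 := one_le_pow₀ h1
  calc ((2 : ℝ) ^ i) ^ 2 = 1 * ((2 : ℝ) ^ i) ^ 2 * 1 := by ring
    _ ≤ _ := by gcongr

theorem scale_choice (A : ℕ) (hA : 5 ≤ A) (ε : ℝ) (hε0 : 0 < ε) (hε1 : ε ≤ 1 / 4)
    (hε2 : ε * ph A 1 < 1) :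
    ∃ i : ℕ, 1 ≤ i ∧ ε * ph A i < 1 ∧
      1 / √ε ≤ 21 * ((4 * A + 5) * Real.log (1 / ε)) ^ 3 * 2 ^ i := by
  obtain ⟨hX8, hX2, hL1, hXL⟩ := X_facts ε hε0 hε1
  have hex : ∃ i : ℕ, 1 ≤ ε * ph A (i + 1) := by
    obtain ⟨n, hn⟩ := pow_unbounded_of_one_lt (1 / ε) (one_lt_two (α := ℝ))
    refine ⟨n, ?_⟩
    have h1 := ph_ge A (n + 1)
    have h2 : (2 : ℝ) ^ n ≤ ((2 : ℝ) ^ (n + 1)) ^ 2 := by
      rw [← pow_mul]
      exact pow_le_pow_right₀ (by norm_num) (by omega)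
    have h3 : 1 / ε ≤ ph A (n + 1) := hn.le.trans (h2.trans h1)
    rw [div_le_iff₀ hε0] at h3
    linarith
  have hspec := Nat.find_spec hex
  have hmin := fun m => Nat.find_min (H := hex) (m := m)
  set i := Nat.find hex with hidef
  have hi : 1 ≤ i := by
    rcases Nat.eq_zero_or_pos i with h | h
    · rw [h] at hspec
      simp only [zero_add] at hspec
      linarith
    · exact h
  have hlt : ε * ph A i < 1 := by
    have := hmin (i - 1) (by omega)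
    rw [show i - 1 + 1 = i by omega] at this
    push Not at this
    exact this
  refine ⟨i, hi, hlt, ?_⟩
  set L := Real.log (1 / ε) with hL
  have hAr : (5 : ℝ) ≤ A := by exact_mod_cast hA
  have hiL : (i : ℝ) ≤ L := by
    have h1 : ((2 : ℝ) ^ i) ^ 2 ≤ 1 / ε := by
      rw [le_div_iff₀ hε0]
      have := ph_ge A i
      nlinarith
    have h2 : Real.log (((2 : ℝ) ^ i) ^ 2) ≤ L := Real.log_le_log (by positivity) h1
    rw [Real.log_pow, Real.log_pow] at h2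
    have h6 := Real.log_two_gt_d9
    have hi0 : (0 : ℝ) ≤ i := by positivity
    push_cast at h2
    nlinarith
  have hM : 2 * (A : ℝ) * (i + 1) + 5 ≤ (4 * A + 5) * L := by
    have : (A : ℝ) * i ≤ A * L := by gcongr
    nlinarith
  set M : ℝ := 2 * (A : ℝ) * (i + 1) + 5 with hMd
  have hM1 : 1 ≤ M := by
    have : (0 : ℝ) ≤ (A : ℝ) * (i + 1) := by positivity
    rw [hMd]; linarith
  have hmu : (mu (li A (i + 1)) : ℝ) ≤ 6 * M ^ 2 := by
    have h1 : ((mu (li A (i + 1)) : ℕ) : ℝ) ≤ ((6 * (li A (i + 1) + 1) ^ 2 : ℕ) : ℝ) := by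
      exact_mod_cast mu_le _
    refine h1.trans (le_of_eq ?_)
    unfold li
    push_cast
    rw [hMd]; ring
  have hK : (A : ℝ) * (i + 1) + 4 ≤ M := by
    have : (0 : ℝ) ≤ (A : ℝ) * (i + 1) := by positivity
    rw [hMd]; linarith
  have hph : ph A (i + 1) ≤ 441 * M ^ 6 * ((2 : ℝ) ^ i) ^ 2 := by
    unfold ph
    push_cast
    calc 3 * ((A : ℝ) * (i + 1) + 4) * (2 ^ (i + 1)) ^ 2 * (mu (li A (i + 1)) : ℝ) ^ 2
        ≤ 3 * M * (2 ^ (i + 1)) ^ 2 * (6 * M ^ 2) ^ 2 := by gcongr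
      _ = 432 * M ^ 5 * ((2 : ℝ) ^ i) ^ 2 := by rw [pow_succ]; ring
      _ ≤ 441 * M ^ 6 * ((2 : ℝ) ^ i) ^ 2 := by
          gcongr
          · norm_num
          · norm_num
  have hs : 0 < √ε := Real.sqrt_pos.2 hε0
  have hs2 : √ε ^ 2 = ε := Real.sq_sqrt hε0.le
  have h1 : 1 ≤ ε * (441 * M ^ 6 * ((2 : ℝ) ^ i) ^ 2) := hspec.trans (by gcongr)
  have h2 : 1 ≤ (√ε * (21 * M ^ 3 * 2 ^ i)) ^ 2 := by
    calc 1 ≤ ε * (441 * M ^ 6 * ((2 : ℝ) ^ i) ^ 2) := h1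
      _ = √ε ^ 2 * (441 * M ^ 6 * ((2 : ℝ) ^ i) ^ 2) := by rw [hs2]
      _ = _ := by ring
  have h3 : 1 ≤ √ε * (21 * M ^ 3 * 2 ^ i) := by
    by_contra hcon
    push Not at hcon
    have : (√ε * (21 * M ^ 3 * 2 ^ i)) ^ 2 < 1 := by
      have h0 : 0 ≤ √ε * (21 * M ^ 3 * 2 ^ i) := by positivity
      nlinarith
    linarith
  rw [div_le_iff₀ hs]
  calc 1 ≤ √ε * (21 * M ^ 3 * 2 ^ i) := h3
    _ ≤ √ε * (21 * ((4 * A + 5) * L) ^ 3 * 2 ^ i) := by gcongr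
    _ = _ := by ring

theorem Z_rpow (ε : ℝ) (hε0 : 0 < ε) (x : ℝ) : (1 / √ε) ^ x = ε ^ (-(x / 2)) := by
  have h1 : (1 / √ε) = ε ^ (-(1 / 2 : ℝ)) := by
    rw [Real.rpow_neg hε0.le, ← Real.sqrt_eq_rpow, one_div]
  rw [h1, ← Real.rpow_mul hε0.le]
  congr 1; ring

theorem PP_soft (A : ℕ) (hA : 5 ≤ A) (β : ℝ) (hβ : 0 ≤ β) (hβA : β + 1 ≤ A) (e : ℕ → ℕ)
    (he : ∀ i, e i ≤ (A - 1) * i) (hβe : ∀ i, (2 : ℝ) ^ (e i) ≤ ((2 : ℝ) ^ i) ^ β)
    (hβe' : ∀ i, ((2 : ℝ) ^ i) ^ β ≤ 2 * (2 : ℝ) ^ (e i)) :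
    SoftTheta (fun N₀ ε => (qA (PP A e) N₀ ε : ℝ)) (fun _ ε => ε ^ (-((A : ℝ) / 2))) ∧
    SoftTheta (fun N₀ ε => (qN (PP A e) N₀ ε : ℝ))
      (fun _ ε => ε ^ (-(((A : ℝ) + 1 + β) / 2))) := by
  have hAr : (5 : ℝ) ≤ A := by exact_mod_cast hA
  have hph := ph_pos A 1
  have hne : ∀ ε : ℝ, 0 < ε → ε ≤ 1 / 4 → ∃ q : ℕ, ∀ N, NTest (PP A e N) ε q := by
    intro ε h0 h1
    refine ⟨⌊10 ^ 6 * ((6 * A + 5) * Real.log (1 / ε)) ^ 9 *
      (4 / √ε) ^ ((A : ℝ) + 1 + β)⌋₊, fun N => ?_⟩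
    obtain ⟨_, qn, -, h3, -, h4⟩ := PP_upper A hA β hβ e he hβe ε h0 h1 N
    exact h3.mono (Nat.le_floor h4)
  constructor
  · refine ⟨10 ^ 6 * (6 * A + 5) ^ 8 * 4 ^ A + (21 * (4 * A + 5) ^ 3) ^ A, by positivity, 3 * A,
      min (1 / 4) (1 / ph A 1), lt_min (by norm_num) (by positivity),
      (min_le_left _ _).trans_lt (by norm_num), fun N₀ ε h0 h1 => ?_⟩
    have h14 : ε ≤ 1 / 4 := (h1.trans_le (min_le_left _ _)).le
    have hφ : ε * ph A 1 < 1 := by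
      have := h1.trans_le (min_le_right _ _)
      rwa [lt_div_iff₀ hph] at this
    obtain ⟨hX8, hX2, hL1, hXL⟩ := X_facts ε h0 h14
    have hs : 0 < √ε := Real.sqrt_pos.2 h0
    have hZ : ε ^ (-((A : ℝ) / 2)) = (1 / √ε) ^ A := by
      rw [← Z_rpow ε h0, Real.rpow_natCast]
    simp only
    rw [hZ]
    set L := Real.log (1 / ε) with hL
    set Z := 1 / √ε with hZd
    have hZ0 : 0 < Z := by positivity
    have h4Z : 4 / √ε = 4 * Z := by rw [hZd]; ring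
    constructor
    · have hup := qA_le (PP A e) N₀ ε _ fun N => by
        obtain ⟨qa, qn, a1, a2, a3, a4⟩ := PP_upper A hA β hβ e he hβe ε h0 h14 N
        exact ⟨qa, a1, a3⟩
      refine hup.trans ?_
      rw [h4Z]
      have hLk : L ^ 8 ≤ L ^ (3 * A) := pow_le_pow_right₀ hL1 (by omega)
      calc 10 ^ 6 * ((6 * A + 5) * L) ^ 8 * (4 * Z) ^ A
          = 10 ^ 6 * (6 * A + 5) ^ 8 * 4 ^ A * L ^ 8 * Z ^ A := by
            rw [mul_pow, mul_pow]; ring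
        _ ≤ (10 ^ 6 * (6 * A + 5) ^ 8 * 4 ^ A + (21 * (4 * A + 5) ^ 3) ^ A) * L ^ (3 * A) *
            Z ^ A := by
            gcongr
            have : (0 : ℝ) ≤ (21 * (4 * A + 5) ^ 3) ^ A := by positivity
            linarith
    · obtain ⟨i, hi, hi2, hi3⟩ := scale_choice A hA ε h0 h14 hφ
      obtain ⟨N, hN, hNA, -⟩ := PP_lower A hA e he ε i hi (by
        have := hi2; unfold ph at this; exact this) N₀
      have hlt := lt_qA (PP A e) N₀ ε (hne ε h0 h14) N hN _ hNA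
      have h5 : ((2 : ℝ) ^ i) ^ A ≤ (qA (PP A e) N₀ ε : ℝ) := by
        have h6 : (2 ^ i) ^ A ≤ 2 ^ i * m1 A i := by
          unfold m1
          have h7 : (2 ^ i) ^ A = 2 ^ i * (1 * 2 ^ ((A - 1) * i)) := by
            rw [← pow_mul, one_mul, ← pow_add]
            congr 1
            obtain ⟨a, rfl⟩ : ∃ a, A = a + 1 := ⟨A - 1, by omega⟩
            simp; ring
          rw [h7]
          gcongr
          omega
        exact_mod_cast h6.trans hlt.le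
      rw [← hZd, ← hL] at hi3
      calc Z ^ A ≤ (21 * ((4 * A + 5) * L) ^ 3 * 2 ^ i) ^ A := by gcongr
        _ = (21 * (4 * A + 5) ^ 3) ^ A * L ^ (3 * A) * ((2 : ℝ) ^ i) ^ A := by
            rw [pow_mul L 3 A, ← mul_pow, ← mul_pow]
            congr 1; ring
        _ ≤ (10 ^ 6 * (6 * A + 5) ^ 8 * 4 ^ A + (21 * (4 * A + 5) ^ 3) ^ A) * L ^ (3 * A) *
            (qA (PP A e) N₀ ε : ℝ) := by
            gcongr
            have : (0 : ℝ) ≤ 10 ^ 6 * (6 * A + 5) ^ 8 * 4 ^ A := by positivity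
            linarith
  · refine ⟨10 ^ 6 * (6 * A + 5) ^ 9 * 4 ^ (2 * A) + 2 * (21 * (4 * A + 5) ^ 3) ^ (2 * A),
      by positivity, 6 * A,
      min (1 / 4) (1 / ph A 1), lt_min (by norm_num) (by positivity),
      (min_le_left _ _).trans_lt (by norm_num), fun N₀ ε h0 h1 => ?_⟩
    have h14 : ε ≤ 1 / 4 := (h1.trans_le (min_le_left _ _)).le
    have hφ : ε * ph A 1 < 1 := by
      have := h1.trans_le (min_le_right _ _)
      rwa [lt_div_iff₀ hph] at this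
    obtain ⟨hX8, hX2, hL1, hXL⟩ := X_facts ε h0 h14
    have hs : 0 < √ε := Real.sqrt_pos.2 h0
    simp only
    rw [← Z_rpow ε h0]
    set L := Real.log (1 / ε) with hL
    set Z := 1 / √ε with hZd
    have hZ0 : 0 < Z := by positivity
    have h4Z : 4 / √ε = 4 * Z := by rw [hZd]; ring
    set x : ℝ := (A : ℝ) + 1 + β with hx
    have hx0 : 0 ≤ x := by rw [hx]; positivity
    have hx2 : x ≤ ((2 * A : ℕ) : ℝ) := by rw [hx]; push_cast; linarith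
    constructor
    · have hup := qN_le (PP A e) N₀ ε _ fun N => by
        obtain ⟨qa, qn, a1, a2, a3, a4⟩ := PP_upper A hA β hβ e he hβe ε h0 h14 N
        exact ⟨qn, a2, a4⟩
      refine hup.trans ?_
      rw [h4Z, ← hx, Real.mul_rpow (by norm_num) hZ0.le]
      have hLk : L ^ 9 ≤ L ^ (6 * A) := pow_le_pow_right₀ hL1 (by omega)
      have h44 : (4 : ℝ) ^ x ≤ 4 ^ (2 * A) := by
        rw [← Real.rpow_natCast]
        exact Real.rpow_le_rpow_of_exponent_le (by norm_num) hx2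
      calc 10 ^ 6 * ((6 * A + 5) * L) ^ 9 * (4 ^ x * Z ^ x)
          = 10 ^ 6 * (6 * A + 5) ^ 9 * 4 ^ x * L ^ 9 * Z ^ x := by
            rw [mul_pow]; ring
        _ ≤ 10 ^ 6 * (6 * A + 5) ^ 9 * 4 ^ (2 * A) * L ^ (6 * A) * Z ^ x := by gcongr
        _ ≤ (10 ^ 6 * (6 * A + 5) ^ 9 * 4 ^ (2 * A) + 2 * (21 * (4 * A + 5) ^ 3) ^ (2 * A)) *
            L ^ (6 * A) * Z ^ x := by
            gcongr
            have : (0 : ℝ) ≤ 2 * (21 * (4 * A + 5) ^ 3) ^ (2 * A) := by positivity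
            linarith
    · obtain ⟨i, hi, hi2, hi3⟩ := scale_choice A hA ε h0 h14 hφ
      obtain ⟨N, hN, -, hNN⟩ := PP_lower A hA e he ε i hi (by
        have := hi2; unfold ph at this; exact this) N₀
      have hlt := lt_qN (PP A e) N₀ ε (hne ε h0 h14) N hN _ hNN
      have h5 : ((2 : ℝ) ^ i) ^ x ≤ 2 * (qN (PP A e) N₀ ε : ℝ) := by
        have h6 : (2 ^ i) ^ (A + 1) * 2 ^ e i ≤ (2 ^ i) ^ 2 * m1 A i * m2 A i (e i) := by
          unfold m1 m2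
          have h7 : (2 ^ i) ^ (A + 1) = (2 ^ i) ^ 2 * (1 * 2 ^ ((A - 1) * i)) := by
            rw [← pow_mul, ← pow_mul, one_mul, ← pow_add]
            congr 1
            obtain ⟨a, rfl⟩ : ∃ a, A = a + 1 := ⟨A - 1, by omega⟩
            simp; ring
          rw [h7]
          calc (2 ^ i) ^ 2 * (1 * 2 ^ ((A - 1) * i)) * 2 ^ e i
              = (2 ^ i) ^ 2 * (1 * 2 ^ ((A - 1) * i)) * (1 * 2 ^ e i) := by ring
            _ ≤ _ := by gcongr <;> omega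
        have h8 : (((2 ^ i) ^ (A + 1) * 2 ^ e i : ℕ) : ℝ) ≤ (qN (PP A e) N₀ ε : ℝ) := by
          exact_mod_cast h6.trans hlt.le
        push_cast at h8
        have h9 : ((2 : ℝ) ^ i) ^ x = ((2 : ℝ) ^ i) ^ (A + 1) * ((2 : ℝ) ^ i) ^ β := by
          rw [hx, Real.rpow_add (by positivity), ← Real.rpow_natCast ((2 : ℝ) ^ i) (A + 1)]
          push_cast; rfl
        rw [h9]
        calc ((2 : ℝ) ^ i) ^ (A + 1) * ((2 : ℝ) ^ i) ^ β
            ≤ ((2 : ℝ) ^ i) ^ (A + 1) * (2 * (2 : ℝ) ^ (e i)) := by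
              gcongr; exact hβe' i
          _ = 2 * (((2 : ℝ) ^ i) ^ (A + 1) * (2 : ℝ) ^ (e i)) := by ring
          _ ≤ _ := by gcongr
      rw [← hZd, ← hL] at hi3
      set B : ℝ := 21 * ((4 * A + 5) * L) ^ 3 with hB
      have hB1 : 1 ≤ B := by
        have h6 : (1 : ℝ) ≤ (4 * A + 5) * L := by nlinarith
        have h7 := one_le_pow₀ h6 (n := 3)
        rw [hB]; linarith
      calc Z ^ x ≤ (B * 2 ^ i) ^ x := Real.rpow_le_rpow hZ0.le hi3 hx0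
        _ = B ^ x * ((2 : ℝ) ^ i) ^ x := Real.mul_rpow (by positivity) (by positivity)
        _ ≤ B ^ (2 * A) * (2 * (qN (PP A e) N₀ ε : ℝ)) := by
            have h6 : B ^ x ≤ B ^ (2 * A) := by
              rw [← Real.rpow_natCast]
              exact Real.rpow_le_rpow_of_exponent_le hB1 hx2
            gcongr
        _ = 2 * (21 * (4 * A + 5) ^ 3) ^ (2 * A) * L ^ (6 * A) * (qN (PP A e) N₀ ε : ℝ) := by
            have h6 : B ^ (2 * A) = (21 * (4 * A + 5) ^ 3) ^ (2 * A) * L ^ (6 * A) := by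
              rw [show 6 * A = 3 * (2 * A) by ring, pow_mul L 3 (2 * A), ← mul_pow, hB]
              congr 1; ring
            rw [h6]; ring
        _ ≤ (10 ^ 6 * (6 * A + 5) ^ 9 * 4 ^ (2 * A) + 2 * (21 * (4 * A + 5) ^ 3) ^ (2 * A)) *
            L ^ (6 * A) * (qN (PP A e) N₀ ε : ℝ) := by
            gcongr
            have : (0 : ℝ) ≤ 10 ^ 6 * (6 * A + 5) ^ 9 * 4 ^ (2 * A) := by positivity
            linarith

theorem achievable_gt (c : ℝ) (h1 : 1 < c) (h2 : c ≤ 2) : Achievable c := by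
  -- parameters
  obtain ⟨A, hA5, hAc⟩ : ∃ A : ℕ, 5 ≤ A ∧ 1 ≤ (c - 1) * A := by
    obtain ⟨n, hn⟩ := exists_nat_ge (1 / (c - 1))
    refine ⟨max 5 n, le_max_left _ _, ?_⟩
    have h3 : 1 / (c - 1) ≤ ((max 5 n : ℕ) : ℝ) := hn.trans (by exact_mod_cast le_max_right _ _)
    rw [div_le_iff₀ (by linarith)] at h3
    linarith
  set β : ℝ := (c - 1) * A - 1 with hβd
  have hβ : 0 ≤ β := by linarith
  have hA0 : (0 : ℝ) ≤ A := by positivity
  have hβA : β + 1 ≤ A := by rw [hβd]; nlinarith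
  set e : ℕ → ℕ := fun i => ⌊β * i⌋₊ with he
  have heA : ∀ i, e i ≤ (A - 1) * i := by
    intro i
    have h3 : β * i ≤ (((A - 1) * i : ℕ) : ℝ) := by
      rw [Nat.cast_mul, Nat.cast_sub (by omega), Nat.cast_one]
      gcongr
      linarith
    exact_mod_cast (Nat.floor_le (by positivity)).trans h3
  have hpw : ∀ i : ℕ, ((2 : ℝ) ^ i) ^ β = (2 : ℝ) ^ (β * i) := by
    intro i
    rw [← Real.rpow_natCast, ← Real.rpow_mul (by norm_num)]
    congr 1; ring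
  have hβe : ∀ i, (2 : ℝ) ^ (e i) ≤ ((2 : ℝ) ^ i) ^ β := by
    intro i
    rw [hpw, ← Real.rpow_natCast]
    exact Real.rpow_le_rpow_of_exponent_le (by norm_num) (Nat.floor_le (by positivity))
  have hβe' : ∀ i, ((2 : ℝ) ^ i) ^ β ≤ 2 * (2 : ℝ) ^ (e i) := by
    intro i
    rw [hpw]
    have h3 : 2 * (2 : ℝ) ^ (e i) = (2 : ℝ) ^ ((e i : ℝ) + 1) := by
      rw [Real.rpow_add (by norm_num), Real.rpow_natCast, Real.rpow_one]; ring
    rw [h3]
    exact Real.rpow_le_rpow_of_exponent_le (by norm_num) (Nat.lt_floor_add_one _).le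
  obtain ⟨hsA, hsN⟩ := PP_soft A hA5 β hβ hβA e heA hβe hβe'
  refine ⟨PP A e, PP_iso A e, ?_, ⟨(A : ℝ) / 2, ?_, hsA⟩, ?_⟩
  · intro ε h0
    have key : ∀ ε : ℝ, 0 < ε → ε ≤ 1 / 4 → ∃ q : ℕ, ∀ N, NTest (PP A e N) ε q := by
      intro ε h0 h1
      refine ⟨⌊10 ^ 6 * ((6 * A + 5) * Real.log (1 / ε)) ^ 9 *
        (4 / √ε) ^ ((A : ℝ) + 1 + β)⌋₊, fun N => ?_⟩
      obtain ⟨_, qn, -, h3, -, h4⟩ := PP_upper A hA5 β hβ e heA hβe ε h0 h1 N
      exact h3.mono (Nat.le_floor h4)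
    rcases le_total ε (1 / 4) with h | h
    · exact key ε h0 h
    · obtain ⟨q, hq⟩ := key (1 / 4) (by norm_num) le_rfl
      exact ⟨q, fun N => (hq N).mono_eps h⟩
  · have : (5 : ℝ) ≤ A := by exact_mod_cast hA5
    linarith
  · have hc := (hsA.rpow (fun N₀ ε _ => by positivity) (fun N₀ ε h => by positivity) c
      (by linarith) h2).symm
    have heq : SoftTheta (fun _ ε => ε ^ (-(((A : ℝ) + 1 + β) / 2)))
        (fun (N₀ : ℕ) (ε : ℝ) => (ε ^ (-((A : ℝ) / 2))) ^ c) := by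
      refine ⟨1, one_pos, 0, 1 / 4, by norm_num, by norm_num, fun N₀ ε h0 h1 => ?_⟩
      have : (ε ^ (-((A : ℝ) / 2))) ^ c = ε ^ (-(((A : ℝ) + 1 + β) / 2)) := by
        rw [← Real.rpow_mul h0.le]
        congr 1
        rw [hβd]; ring
      simp only [this, pow_zero, mul_one, one_mul]
      exact ⟨le_rfl, le_rfl⟩
    exact (hsN.trans heq).trans hc

theorem achievable_all (c : ℝ) (h1 : 1 ≤ c) (h2 : c ≤ 2) : Achievable c := by
  rcases h1.eq_or_lt with h | h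
  · rw [← h]; exact achievable_one
  · exact achievable_gt c h h2

end Pool.Agent.Helper116.AG
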