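import Mathlib

set_option autoImplicit false
open Finset
open scoped Classical

noncomputable section

namespace Pool.Agent.Helper116.AG

/-! ## the testing model (dense graph / adjacency matrix model) -/

/-- an adjacency oracle -/
abbrev Orc (V : Type) := V → V → Bool

/-- the oracle of a graph, answering whether `{u,v}` is an edge -/
def orc {V : Type} (G : SimpleGraph V) : Orc V := fun u v => decide (G.Adj u v)

/-- deterministic adaptive algorithms: decision trees whose inner nodes ask one query -/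
inductive DT (V : Type) : Type
  | leaf (b : Bool) : DT V
  | ask (u v : V) (k : Bool → DT V) : DT V

namespace DT
variable {V : Type}

/-- the answer of the decision tree -/
def run : DT V → Orc V → Bool
  | leaf b, _ => b
  | ask u v k, O => (k (O u v)).run O

/-- worst case number of queries -/
def depth : DT V → ℕ
  | leaf _ => 0
  | ask _ _ k => 1 + max (k false).depth (k true).depth

end DT

/-- the number of vertex pairs on which two graphs differ -/
def diff {N : ℕ} (G H : SimpleGraph (Fin N)) : ℕ :=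
  (univ.filter fun p : Fin N × Fin N => p.1 < p.2 ∧ ¬ (G.Adj p.1 p.2 ↔ H.Adj p.1 p.2)).card

/-- `G` is `ε`-far from the set `S` of graphs -/
def Far {N : ℕ} (S : Set (SimpleGraph (Fin N))) (ε : ℝ) (G : SimpleGraph (Fin N)) : Prop :=
  ∀ H ∈ S, ε * (N : ℝ) ^ 2 < diff G H

/-- `S` has an adaptive `ε`-tester with at most `q` queries (a probability distribution over
decision trees of depth at most `q`) -/
def ATest {N : ℕ} (S : Set (SimpleGraph (Fin N))) (ε : ℝ) (q : ℕ) : Prop :=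
  ∃ (Ω : Type) (_ : Fintype Ω) (p : Ω → ℝ) (T : Ω → DT (Fin N)),
    (∀ ω, 0 ≤ p ω) ∧ ∑ ω, p ω = 1 ∧ (∀ ω, (T ω).depth ≤ q) ∧
    (∀ G ∈ S, 2 / 3 ≤ ∑ ω, if (T ω).run (orc G) = true then p ω else 0) ∧
    (∀ G, Far S ε G → 2 / 3 ≤ ∑ ω, if (T ω).run (orc G) = false then p ω else 0)

/-- `S` has a non-adaptive `ε`-tester with at most `q` queries: for every outcome `ω` of the coins the
set `Q ω` of queries is fixed in advance, and the decision depends on the answers to them only -/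
def NTest {N : ℕ} (S : Set (SimpleGraph (Fin N))) (ε : ℝ) (q : ℕ) : Prop :=
  ∃ (Ω : Type) (_ : Fintype Ω) (p : Ω → ℝ) (Q : Ω → Finset (Fin N × Fin N))
    (D : Ω → Orc (Fin N) → Bool),
    (∀ ω, 0 ≤ p ω) ∧ ∑ ω, p ω = 1 ∧ (∀ ω, (Q ω).card ≤ q) ∧
    (∀ ω O O', (∀ e ∈ Q ω, O e.1 e.2 = O' e.1 e.2) → D ω O = D ω O') ∧
    (∀ G ∈ S, 2 / 3 ≤ ∑ ω, if D ω (orc G) = true then p ω else 0) ∧
    (∀ G, Far S ε G → 2 / 3 ≤ ∑ ω, if D ω (orc G) = false then p ω else 0)

/-! ## the final notions -/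

/-- a graph property (for every `N` a set of graphs on `N` vertices) is closed under isomorphism -/
def IsoClosed (P : ∀ N : ℕ, Set (SimpleGraph (Fin N))) : Prop :=
  ∀ (N : ℕ) (G H : SimpleGraph (Fin N)), Nonempty (G ≃g H) → G ∈ P N → H ∈ P N

/-- adaptive query complexity as a function of `ε` only: the least `q` such that for all `N ≥ N₀`
there is an adaptive `ε`-tester with at most `q` queries (`N₀ = 0` is the usual notion) -/
def qA (P : ∀ N : ℕ, Set (SimpleGraph (Fin N))) (N₀ : ℕ) (ε : ℝ) : ℕ :=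
  sInf {q : ℕ | ∀ N, N₀ ≤ N → ATest (P N) ε q}

/-- non-adaptive query complexity as a function of `ε` only -/
def qN (P : ∀ N : ℕ, Set (SimpleGraph (Fin N))) (N₀ : ℕ) (ε : ℝ) : ℕ :=
  sInf {q : ℕ | ∀ N, N₀ ≤ N → NTest (P N) ε q}

/-- `f = \tildeΘ(g)` as `ε → 0`: equal up to a factor polylogarithmic in `1/ε`; the constants do not
depend on the extra parameter `N₀` -/
def SoftTheta (f g : ℕ → ℝ → ℝ) : Prop :=
  ∃ C : ℝ, 0 < C ∧ ∃ k : ℕ, ∃ ε₀ : ℝ, 0 < ε₀ ∧ ε₀ < 1 ∧ ∀ (N₀ : ℕ) (ε : ℝ), 0 < ε → ε < ε₀ →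
    f N₀ ε ≤ C * Real.log (1 / ε) ^ k * g N₀ ε ∧ g N₀ ε ≤ C * Real.log (1 / ε) ^ k * f N₀ ε

/-- `c` is achievable: some graph property, testable for every `ε`, has adaptive query complexity
`q(ε) = \tildeΘ(ε^{-a})` with `a ≥ 1` (so it is not trivial for testing) and non-adaptive query
complexity `\tildeΘ(q(ε)^c)`; both also hold if only graphs with at least `N₀` vertices are
considered, for every `N₀` and with the same constants -/
def Achievable (c : ℝ) : Prop :=
  ∃ P : ∀ N : ℕ, Set (SimpleGraph (Fin N)), IsoClosed P ∧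
    (∀ ε : ℝ, 0 < ε → ∃ q : ℕ, ∀ N, NTest (P N) ε q) ∧
    (∃ a : ℝ, 1 ≤ a ∧ SoftTheta (fun N₀ ε => (qA P N₀ ε : ℝ)) (fun _ ε => ε ^ (-a))) ∧
    SoftTheta (fun N₀ ε => (qN P N₀ ε : ℝ)) (fun N₀ ε => (qA P N₀ ε : ℝ) ^ c)

end Pool.Agent.Helper116.AG
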